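import Mathlib
import Pool.Agent.H11.SC.Defs

/-!
# Degree two, conductor at most four, with a pole (helper39): definitions

PROJECT.  Theorem: if `F` is an element of the Selberg class of degree `2` and conductor
`q ∈ {1, 2, 3, 4}` with a pole at `s = 1`, then `F = ζ²` (`q = 1`) or `F = ζ(s) L(s + iτ, χ)` with
`χ` the odd character modulo `3` or `4` (`q = 3`, `q = 4`); `q = 2` is impossible.  So a primitive
`F` with these data has no pole, and the formula of Q1 holds for all primitive `F` of degree `2` and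
conductor `1, 2, 3, 4` (helper14, helper11 for the case without a pole).

Normalisation as in `H11/SC`: after an imaginary shift `∑ Im μ_j = 0`, the pole is at `1 + iθ`.
`f(ξ) = gs a 3 ξ = ∑ a(n) n³ e^(-2πnξ)`, `f(ξ + i) = f(ξ)`.
`CL f M κ β v`: `f(ξ) ~ v (ξ - iβ)^(-κ) (log 1/|ξ - iβ|)^M` as `ξ → iβ` in every cone.
-/

set_option autoImplicit false

namespace Pool.Agent.H39.Pol

open Complex Pool.Agent.H11.Selberg Pool.Agent.H11.SC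

/-- Functional equation of degree `2`, normalised, for `F` with a pole of order `N ≥ 1` at
`1 + iθ`; `G(s) = (s - 1 - iθ)^N F(s)` is entire. -/
structure FEqP (a : ℕ → ℂ) (F : ℂ → ℂ) (Q : ℝ) {k : ℕ} (lam : Fin k → ℝ) (mu : Fin k → ℂ)
    (ε : ℂ) (θ : ℝ) (N : ℕ) (G : ℂ → ℂ) : Prop where
  Gdiff : Differentiable ℂ G
  Gorder : ∃ A C : ℝ, ∀ s, ‖G s‖ ≤ C * Real.exp (‖s‖ ^ A)
  Geq : ∀ s : ℂ, s ≠ 1 + θ * I → G s = (s - (1 + θ * I)) ^ N * F s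
  G0 : G (1 + θ * I) ≠ 0
  Npos : 1 ≤ N
  summable : ∀ s : ℂ, 1 < s.re → LSeriesSummable a s
  eqL : ∀ s : ℂ, 1 < s.re → F s = LSeries a s
  ram : ∀ δ : ℝ, 0 < δ → ∃ C : ℝ, ∀ n : ℕ, 1 ≤ n → ‖a n‖ ≤ C * (n : ℝ) ^ δ
  one : a 1 = 1
  Qpos : 0 < Q
  lampos : ∀ j, 0 < lam j
  mure : ∀ j, 0 ≤ (mu j).re
  eps : ‖ε‖ = 1
  feq : ∀ s : ℂ, 0 < s.re → s.re < 1 →
    completed Q lam mu F s =
      ε * (starRingEnd ℂ) (completed Q lam mu F (1 - (starRingEnd ℂ) s))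
  deg : ∑ j, lam j = 1
  shift : ∑ j, (mu j).im = 0

/-- the cone with vertex `iβ` -/
def cone (R β : ℝ) : Set ℂ := {ξ : ℂ | 0 < ξ.re ∧ |ξ.im - β| ≤ R * ξ.re}

/-- `f(ξ) ~ v (ξ - iβ)^(-κ) (log 1/|ξ - iβ|)^M` as `ξ → iβ` in every cone -/
def CL (f : ℂ → ℂ) (M : ℕ) (κ : ℂ) (β : ℝ) (v : ℂ) : Prop :=
  ∀ R : ℝ, 0 ≤ R → Filter.Tendsto
    (fun ξ : ℂ => f ξ * (ξ - β * I) ^ κ / (((Real.log (1 / ‖ξ - β * I‖)) ^ M : ℝ) : ℂ))
    (nhdsWithin (β * I) (cone R β)) (nhds v)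

end Pool.Agent.H39.Pol
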