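import Mathlib
import Pool.Agent.H11.SC4.TwoC

/-!
# LOCP: the Euler factor at `p` has no zero in `|X| ≤ p^(-1/2)` (port of H11/SC4/TwoC)
-/

set_option autoImplicit false

namespace Pool.Agent.H39.Pol

open Complex Pool.Agent.H11.Selberg Pool.Agent.H11.SC

/-- the recursion at the prime `p` -/
theorem rec_p (a b : ℕ → ℂ) (p : ℕ) (hp : p.Prime)
    (hrec : ∀ n : ℕ, n ≠ 0 →
      (Real.log n : ℂ) * a n = ∑ q ∈ n.divisors, a (n / q) * ((Real.log q : ℂ) * bb b q))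
    (k : ℕ) : (k : ℂ) * a (p ^ k) =
      ∑ l ∈ Finset.range (k + 1), (l : ℂ) * b (p ^ l) * a (p ^ (k - l)) := by
  have h1 := hrec (p ^ k) (pow_pos hp.pos k).ne'
  rw [Nat.sum_divisors_prime_pow hp] at h1
  have h2 : (Real.log p : ℂ) ≠ 0 := by
    have hp1 : (1 : ℝ) < p := by exact_mod_cast hp.one_lt
    have := Real.log_pos hp1
    exact_mod_cast this.ne'
  have h3 : ∀ j : ℕ, (Real.log ((p ^ j : ℕ) : ℝ) : ℂ) = (j : ℂ) * (Real.log p : ℂ) := by
    intro j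
    push_cast
    rw [Real.log_pow]
    push_cast
    ring
  apply mul_left_cancel₀ h2
  rw [h3] at h1
  calc (Real.log p : ℂ) * ((k : ℂ) * a (p ^ k)) = (k : ℂ) * (Real.log p : ℂ) * a (p ^ k) := by ring
    _ = _ := h1
    _ = _ := by
      rw [Finset.mul_sum]
      apply Finset.sum_congr rfl
      intro l hl
      have hl' : l ≤ k := Nat.lt_succ_iff.mp (Finset.mem_range.mp hl)
      rw [h3, Nat.pow_div hl' hp.pos]
      rcases Nat.eq_zero_or_pos l with rfl | hl0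
      · simp
      · have : IsPrimePow (p ^ l) := hp.isPrimePow.pow hl0.ne'
        rw [bb, if_pos this]
        ring

theorem inv_exists (a : ℕ → ℂ) (F : ℂ → ℂ) (h : IsSelberg a F) (p : ℕ) (hp : p.Prime) :
    ∃ c : ℕ → ℂ, Summable (fun k : ℕ => ‖c k‖ * (p : ℝ) ^ (-((k : ℝ) / 2))) ∧
      ∀ k : ℕ, ∑ j ∈ Finset.range (k + 1), c j * a (p ^ (k - j)) = if k = 0 then 1 else 0 := by
  have hp1 : (1 : ℝ) < p := by exact_mod_cast hp.one_lt
  have hp0 : (0 : ℝ) < p := by linarith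
  obtain ⟨b, θ, C, hθ, hb, hE⟩ := h.euler
  have hE' : ∀ s : ℂ, 1 < s.re → HasProd
      (fun p : Nat.Primes => Complex.exp (∑' l : ℕ, b ((p : ℕ) ^ (l + 1)) *
        ((p : ℕ) : ℂ) ^ (-((l : ℂ) + 1) * s))) (LSeries a s) := fun s hs => by
    rw [← h.eq_LSeries s hs]; exact hE s hs
  have hrec := conv_rec a h.summable b θ C hθ hb hE'
  obtain ⟨c, hc0, hc1, hc2⟩ := twoc_inv (fun k => a (p ^ k)) (fun l => (l : ℂ) * b (p ^ l))
    (by simpa using h.one) (rec_p a b p hp hrec)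
  set r : ℝ := (p : ℝ) ^ θ with hr
  set R : ℝ := (p : ℝ) ^ ((θ + 1 / 2) / 2) with hR
  have hr0 : 0 < r := Real.rpow_pos_of_pos hp0 _
  have hR0 : 0 < R := Real.rpow_pos_of_pos hp0 _
  have hrR : r < R := Real.rpow_lt_rpow_of_exponent_lt hp1 (by linarith)
  have hC0 : 0 ≤ C := by
    have h1 := (norm_nonneg _).trans (hb p hp 1 le_rfl)
    have h2 : (0 : ℝ) < ((p : ℝ) ^ 1) ^ θ := by positivity
    by_contra h3
    push Not at h3
    nlinarith
  have hB : ∀ l : ℕ, ‖(l : ℂ) * b (p ^ l)‖ ≤ C * l * r ^ l := by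
    intro l
    rcases Nat.eq_zero_or_pos l with rfl | hl
    · simp
    · have h1 := hb p hp l hl
      have h2 : ((p : ℝ) ^ l) ^ θ = r ^ l := by
        rw [hr, ← Real.rpow_natCast, ← Real.rpow_natCast, ← Real.rpow_mul hp0.le,
          ← Real.rpow_mul hp0.le, mul_comm]
      rw [h2] at h1
      rw [norm_mul, Complex.norm_natCast]
      calc (l : ℝ) * ‖b (p ^ l)‖ ≤ l * (C * r ^ l) :=
            mul_le_mul_of_nonneg_left h1 (Nat.cast_nonneg l)
        _ = C * l * r ^ l := by ring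
  obtain ⟨D, hD⟩ := twoc_bound c _ C r R hC0 hr0 hrR hB hc2
  refine ⟨c, ?_, hc1⟩
  · set ρ : ℝ := R * (p : ℝ) ^ (-(1 / 2) : ℝ) with hρ
    have hρ0 : 0 ≤ ρ := by positivity
    have hρ1 : ρ < 1 := by
      rw [hρ, hR, ← Real.rpow_add hp0]
      apply Real.rpow_lt_one_of_one_lt_of_neg hp1
      linarith
    apply Summable.of_nonneg_of_le (fun k => by positivity) (fun k => ?_)
      ((summable_geometric_of_lt_one hρ0 hρ1).mul_left D)
    have h1 : (p : ℝ) ^ (-((k : ℝ) / 2)) = ((p : ℝ) ^ (-(1 / 2) : ℝ)) ^ k := by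
      rw [← Real.rpow_natCast, ← Real.rpow_mul hp0.le]
      congr 1
      ring
    rw [h1, hρ, mul_pow, ← mul_assoc]
    exact mul_le_mul_of_nonneg_right (hD k) (by positivity)

theorem loc_ne (a : ℕ → ℂ) (F : ℂ → ℂ) (h : IsSelberg a F) (p : ℕ) (hp : p.Prime) (X : ℂ)
    (hX : ‖X‖ ≤ (p : ℝ) ^ (-(1 / 2) : ℝ)) : ∑' k : ℕ, a (p ^ k) * X ^ k ≠ 0 := by
  obtain ⟨c, hc, hinv⟩ := inv_exists a F h p hp
  have hp1 : (1 : ℝ) < p := by exact_mod_cast hp.one_lt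
  have hp0 : (0 : ℝ) < p := by linarith
  obtain ⟨C, hC⟩ := h.ramanujan (1 / 4) (by norm_num)
  have hC0 : 0 ≤ C := by
    have := hC 1 le_rfl
    simp only [Nat.cast_one, Real.one_rpow, mul_one] at this
    exact (norm_nonneg _).trans this
  have hXk : ∀ k : ℕ, ‖X‖ ^ k ≤ (p : ℝ) ^ (-((k : ℝ) / 2)) := by
    intro k
    have h1 : (p : ℝ) ^ (-((k : ℝ) / 2)) = ((p : ℝ) ^ (-(1 / 2) : ℝ)) ^ k := by
      rw [← Real.rpow_natCast, ← Real.rpow_mul hp0.le]
      congr 1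
      ring
    rw [h1]
    exact pow_le_pow_left₀ (norm_nonneg _) hX k
  have s1 : Summable (fun k : ℕ => ‖c k * X ^ k‖) := by
    refine Summable.of_nonneg_of_le (fun k => norm_nonneg _) (fun k => ?_) hc
    rw [norm_mul, norm_pow]
    exact mul_le_mul_of_nonneg_left (hXk k) (norm_nonneg _)
  have s2 : Summable (fun k : ℕ => ‖a (p ^ k) * X ^ k‖) := by
    set r : ℝ := (p : ℝ) ^ (-(1 / 4) : ℝ) with hr
    have hr0 : 0 ≤ r := by positivity
    have hr1 : r < 1 := Real.rpow_lt_one_of_one_lt_of_neg hp1 (by norm_num)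
    refine Summable.of_nonneg_of_le (fun k => norm_nonneg _) (fun k => ?_)
      ((summable_geometric_of_lt_one hr0 hr1).mul_left C)
    rw [norm_mul, norm_pow]
    have h1 := hC (p ^ k) (Nat.one_le_pow _ _ hp.pos)
    have e1 : (((p ^ k : ℕ) : ℝ)) ^ (1 / 4 : ℝ) = (p : ℝ) ^ ((k : ℝ) / 4) := by
      push_cast
      rw [← Real.rpow_natCast, ← Real.rpow_mul hp0.le]
      congr 1
      ring
    rw [e1] at h1
    have e2 : r ^ k = (p : ℝ) ^ ((k : ℝ) / 4) * (p : ℝ) ^ (-((k : ℝ) / 2)) := by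
      rw [hr, ← Real.rpow_natCast, ← Real.rpow_mul hp0.le, ← Real.rpow_add hp0]
      congr 1
      ring
    calc ‖a (p ^ k)‖ * ‖X‖ ^ k ≤ (C * (p : ℝ) ^ ((k : ℝ) / 4)) * (p : ℝ) ^ (-((k : ℝ) / 2)) := by
          apply mul_le_mul h1 (hXk k) (by positivity) (by positivity)
      _ = C * r ^ k := by rw [e2]; ring
  intro h0
  have h1 := tsum_mul_tsum_eq_tsum_sum_range_of_summable_norm s1 s2
  rw [h0, mul_zero] at h1
  have h2 : ∀ n : ℕ, ∑ k ∈ Finset.range (n + 1), c k * X ^ k * (a (p ^ (n - k)) * X ^ (n - k)) =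
      if n = 0 then 1 else 0 := by
    intro n
    have h3 := hinv n
    have h4 : ∑ k ∈ Finset.range (n + 1), c k * X ^ k * (a (p ^ (n - k)) * X ^ (n - k)) =
        (∑ k ∈ Finset.range (n + 1), c k * a (p ^ (n - k))) * X ^ n := by
      rw [Finset.sum_mul]
      refine Finset.sum_congr rfl (fun k hk => ?_)
      have hk' : k ≤ n := Nat.lt_succ_iff.mp (Finset.mem_range.mp hk)
      have h5 : X ^ n = X ^ k * X ^ (n - k) := by
        rw [← pow_add, Nat.add_sub_cancel' hk']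
      rw [h5]
      ring
    rw [h4, h3]
    split_ifs with hn
    · rw [hn]
      simp
    · simp
  simp only [h2] at h1
  rw [tsum_ite_eq] at h1
  exact zero_ne_one h1

/-- the twisted coefficients -/
theorem loc_twist (a : ℕ → ℂ) (F : ℂ → ℂ) (h : IsSelberg a F) (δ : ℝ) (p : ℕ) (hp : p.Prime)
    (X : ℂ) (hX : ‖X‖ ≤ (p : ℝ) ^ (-(1 / 2) : ℝ)) :
    ∑' k : ℕ, (fun n : ℕ => a n * (n : ℂ) ^ (-(δ * I) : ℂ)) (p ^ k) * X ^ k ≠ 0 := by
  have hp0 : 0 < p := hp.pos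
  have h1 : ∀ k : ℕ, (fun n : ℕ => a n * (n : ℂ) ^ (-(δ * I) : ℂ)) (p ^ k) * X ^ k =
      a (p ^ k) * ((p : ℂ) ^ (-(δ * I) : ℂ) * X) ^ k := by
    intro k
    have h2 : ((p ^ k : ℕ) : ℂ) ^ (-(δ * I) : ℂ) = ((p : ℂ) ^ (-(δ * I) : ℂ)) ^ k := by
      induction k with
      | zero => simp
      | succ k ih =>
        rw [pow_succ, Nat.cast_mul, natCast_mul_natCast_cpow, ih, pow_succ]
    show a (p ^ k) * ((p ^ k : ℕ) : ℂ) ^ (-(δ * I) : ℂ) * X ^ k = _
    rw [h2, mul_pow]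
    ring
  simp only [h1]
  apply loc_ne a F h p hp
  rw [norm_mul, norm_natCast_cpow_of_pos hp0]
  simpa using hX

end Pool.Agent.H39.Pol
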