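import Mathlib
import Pool.Agent.H39.Pol.Defs
import Pool.Agent.H11.SC.Norm

/-!
# NORMP: normalisation of an element of the Selberg class with a pole (port of H11/SC/Norm)
-/

set_option autoImplicit false

namespace Pool.Agent.H39.Pol

open Complex Pool.Agent.H11.Selberg Pool.Agent.H11.SC

/-- the exact order of the pole -/
theorem exact_order (F : ℂ → ℂ) (hcont : ∃ m : ℕ, ∃ G : ℂ → ℂ, Differentiable ℂ G ∧
    (∃ A C : ℝ, ∀ s, ‖G s‖ ≤ C * Real.exp (‖s‖ ^ A)) ∧ ∀ s, s ≠ 1 → G s = (s - 1) ^ m * F s)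
    (hpole : ¬ ∃ G : ℂ → ℂ, Differentiable ℂ G ∧ ∀ s, s ≠ 1 → G s = F s) :
    ∃ N : ℕ, 1 ≤ N ∧ ∃ G : ℂ → ℂ, Differentiable ℂ G ∧
      (∃ A C : ℝ, ∀ s, ‖G s‖ ≤ C * Real.exp (‖s‖ ^ A)) ∧
      (∀ s, s ≠ 1 → G s = (s - 1) ^ N * F s) ∧ G 1 ≠ 0 := by
  classical
  obtain ⟨G, hG, hA, hGF⟩ := Nat.find_spec hcont
  set N := Nat.find hcont with hN
  have hN0 : N ≠ 0 := by
    intro h0
    apply hpole
    refine ⟨G, hG, fun s hs => ?_⟩
    rw [hGF s hs, h0, pow_zero, one_mul]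
  refine ⟨N, Nat.one_le_iff_ne_zero.2 hN0, G, hG, hA, hGF, ?_⟩
  intro hG1
  obtain ⟨m, hm⟩ := Nat.exists_eq_succ_of_ne_zero hN0
  have hdiff : Differentiable ℂ (dslope G 1) := by
    intro s
    rcases eq_or_ne s 1 with rfl | hs
    · have h1 : DifferentiableOn ℂ (dslope G 1) Set.univ :=
        (Complex.differentiableOn_dslope Filter.univ_mem).2 hG.differentiableOn
      exact (h1 1 (Set.mem_univ _)).differentiableAt Filter.univ_mem
    · have h1 : DifferentiableOn ℂ (dslope G 1) Set.univ :=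
        (Complex.differentiableOn_dslope Filter.univ_mem).2 hG.differentiableOn
      exact (h1 s (Set.mem_univ _)).differentiableAt Filter.univ_mem
  have hsl : ∀ s, s ≠ 1 → G s = (s - 1) ^ 1 * dslope G 1 s := by
    intro s hs
    rw [dslope_of_ne _ hs, slope_def_field, hG1, sub_zero, pow_one, mul_div_cancel₀]
    exact sub_ne_zero.2 hs
  have hord := norm_order hdiff (fun s _ => rfl) hA hsl 0
  simp only [ofReal_zero, zero_mul, add_zero] at hord
  have hnew : ∃ G : ℂ → ℂ, Differentiable ℂ G ∧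
      (∃ A C : ℝ, ∀ s, ‖G s‖ ≤ C * Real.exp (‖s‖ ^ A)) ∧ ∀ s, s ≠ 1 → G s = (s - 1) ^ m * F s := by
    refine ⟨dslope G 1, hdiff, hord, fun s hs => ?_⟩
    have h1 := hsl s hs
    rw [hGF s hs, hm, pow_succ, pow_one] at h1
    have h2 : s - 1 ≠ 0 := sub_ne_zero.2 hs
    refine mul_left_cancel₀ h2 ?_
    linear_combination -h1
  have h2 := Nat.find_min' hcont hnew
  omega

theorem normaliseP (a : ℕ → ℂ) (F : ℂ → ℂ) (hS : IsSelberg a F)
    (hpole : ¬ ∃ G : ℂ → ℂ, Differentiable ℂ G ∧ ∀ s, s ≠ 1 → G s = F s)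
    (Q : ℝ) (r : ℕ) (lam : Fin r → ℝ) (mu : Fin r → ℂ) (ε : ℂ)
    (hQ : 0 < Q) (hlam : ∀ j, 0 < lam j) (hmu : ∀ j, 0 ≤ (mu j).re) (hε : ‖ε‖ = 1)
    (hfe : ∀ s : ℂ, 0 < s.re → s.re < 1 →
      completed Q lam mu F s =
        ε * (starRingEnd ℂ) (completed Q lam mu F (1 - (starRingEnd ℂ) s)))
    (hdeg : ∑ j, lam j = 1) :
    ∃ (δ : ℝ) (F' : ℂ → ℂ) (mu' : Fin r → ℂ) (ε' : ℂ) (N : ℕ) (G' : ℂ → ℂ),
      FEqP (fun n => a n * (n : ℂ) ^ (-(δ * I) : ℂ)) F' Q lam mu' ε' (-δ) N G' := by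
  obtain ⟨N, hN, G, hG, hA, hGF, hG1⟩ := exact_order F hS.continuation hpole
  set δ : ℝ := -∑ j, (mu j).im with hδ
  have hQ0 : (Q : ℂ) ≠ 0 := by exact_mod_cast hQ.ne'
  have hnorm : ∀ n : ℕ, 1 ≤ n → ‖a n * (n : ℂ) ^ (-(δ * I) : ℂ)‖ = ‖a n‖ := by
    intro n hn
    rw [norm_mul, norm_natCast_cpow_of_pos (by omega)]
    simp
  refine ⟨δ, fun s => F (s + δ * I),
    fun j => mu j + lam j * (δ * I), (Q : ℂ) ^ (-(2 * δ * I) : ℂ) * ε, N,
    fun s => G (s + δ * I), ?_⟩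
  have hsum : ∀ s : ℂ, 1 < s.re →
      LSeriesSummable (fun n => a n * (n : ℂ) ^ (-(δ * I) : ℂ)) s := by
    intro s hs
    have h1 : 1 < (s + δ * I).re := by simpa using hs
    have h2 := hS.summable _ h1
    unfold LSeriesSummable at h2 ⊢
    convert h2 using 1
    funext n
    exact term_shift a δ s n
  refine
    { Gdiff := ?_
      Gorder := ?_
      Geq := ?_
      G0 := ?_
      Npos := hN
      summable := hsum
      eqL := ?_
      ram := ?_
      one := ?_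
      Qpos := hQ
      lampos := hlam
      mure := ?_
      eps := ?_
      feq := ?_
      deg := hdeg
      shift := ?_ }
  · exact hG.comp (by fun_prop : Differentiable ℂ fun s : ℂ => s + δ * I)
  · exact norm_order hG (fun s _ => rfl) hA (m := 0) (fun s _ => by rw [pow_zero, one_mul]) δ
  · intro s hs
    have hne : s + δ * I ≠ 1 := by
      intro h
      apply hs
      push_cast
      linear_combination h
    show G (s + δ * I) = _
    rw [hGF _ hne]
    congr 1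
    push_cast
    ring
  · show G (1 + ((-δ : ℝ) : ℂ) * I + δ * I) ≠ 0
    have e : (1 + ((-δ : ℝ) : ℂ) * I + δ * I) = 1 := by push_cast; ring
    rw [e]
    exact hG1
  · intro s hs
    have h1 : 1 < (s + δ * I).re := by simpa using hs
    show F (s + δ * I) = _
    rw [hS.eq_LSeries _ h1]
    unfold LSeries
    exact (tsum_congr fun n => term_shift a δ s n).symm
  · intro e he
    obtain ⟨C, hC⟩ := hS.ramanujan e he
    refine ⟨C, fun n hn => ?_⟩
    show ‖a n * (n : ℂ) ^ (-(δ * I) : ℂ)‖ ≤ _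
    rw [hnorm n hn]
    exact hC n hn
  · show a 1 * ((1 : ℕ) : ℂ) ^ (-(δ * I) : ℂ) = 1
    rw [hS.one]
    simp
  · intro j
    have := hmu j
    simpa using this
  · rw [norm_mul, hε, norm_cpow_eq_rpow_re_of_pos hQ]
    simp
  · intro s hs0 hs1
    have hcs : (1 - (starRingEnd ℂ) s).re < 1 := by simpa using hs0
    have e1 := completed_shift Q lam mu F F hQ (fun s _ => rfl) δ s hs1
    have e2 := completed_shift Q lam mu F F hQ (fun s _ => rfl) δ (1 - (starRingEnd ℂ) s) hcs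
    have h1 := hfe (s + δ * I) (by simpa using hs0) (by simpa using hs1)
    have h2 : 1 - (starRingEnd ℂ) (s + δ * I) = 1 - (starRingEnd ℂ) s + δ * I := by
      simp only [map_add, map_mul, conj_ofReal, conj_I]
      ring
    rw [h2, e1, e2, map_mul] at h1
    have h3 : (starRingEnd ℂ) ((Q : ℂ) ^ (δ * I : ℂ)) = (Q : ℂ) ^ (-(δ * I) : ℂ) := by
      have harg : (Q : ℂ).arg ≠ Real.pi := by
        rw [arg_ofReal_of_nonneg hQ.le]
        exact Real.pi_pos.ne
      have h := cpow_conj (Q : ℂ) (δ * I) harg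
      rw [conj_ofReal] at h
      rw [← h]
      simp
    rw [h3] at h1
    have h4 : (Q : ℂ) ^ (-(δ * I) : ℂ) * (Q : ℂ) ^ (δ * I : ℂ) = 1 := by
      rw [← cpow_add _ _ hQ0]
      simp
    have h5 : (Q : ℂ) ^ (-(2 * δ * I) : ℂ) = (Q : ℂ) ^ (-(δ * I) : ℂ) * (Q : ℂ) ^ (-(δ * I) : ℂ) := by
      rw [← cpow_add _ _ hQ0]
      congr 1
      ring
    rw [h5]
    linear_combination (Q : ℂ) ^ (-(δ * I) : ℂ) * h1 -
      (completed Q lam (fun j => mu j + lam j * (δ * I)) (fun s => F (s + δ * I)) s) * h4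
  · have h1 : ∀ j, (mu j + lam j * (δ * I)).im = (mu j).im + lam j * δ := by
      intro j; simp
    show ∑ j, (mu j + lam j * (δ * I)).im = 0
    simp only [h1]
    rw [Finset.sum_add_distrib, ← Finset.sum_mul, hdeg, hδ]
    ring

end Pool.Agent.H39.Pol
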