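import Mathlib
import Pool.Agent.H39.Pol.Defs
import Pool.Agent.H11.SC.Cont

/-!
# CONTP: the functional equation high up, and the asymptotic form, with a pole (port of H11/SC/Cont)
-/

set_option autoImplicit false

namespace Pool.Agent.H39.Pol

open Complex Pool.Agent.H11.Selberg Pool.Agent.H11.SC

variable {a : ℕ → ℂ} {F : ℂ → ℂ} {Q : ℝ} {k : ℕ} {lam : Fin k → ℝ} {mu : Fin k → ℂ} {ε : ℂ}
  {θ : ℝ} {N : ℕ} {G : ℂ → ℂ}

/-- `F` is differentiable off the pole -/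
theorem FEqP.diffF (h : FEqP a F Q lam mu ε θ N G) {s : ℂ} (hs : s ≠ 1 + θ * I) :
    DifferentiableAt ℂ F s := by
  have h1 : ∀ᶠ z in nhds s, z ≠ 1 + θ * I := isOpen_ne.mem_nhds hs
  have h2 : F =ᶠ[nhds s] fun z => G z / (z - (1 + θ * I)) ^ N := by
    filter_upwards [h1] with z hz
    rw [h.Geq z hz, mul_div_cancel_left₀]
    exact pow_ne_zero _ (sub_ne_zero.2 hz)
  refine DifferentiableAt.congr_of_eventuallyEq ?_ h2
  refine (h.Gdiff s).div (by fun_prop) ?_
  exact pow_ne_zero _ (sub_ne_zero.2 hs)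

/-- the height above which everything is regular -/
noncomputable def hP {k : ℕ} (lam : Fin k → ℝ) (mu : Fin k → ℂ) (θ : ℝ) : ℝ := hT lam mu + |θ|

theorem hP_hT {s : ℂ} (hs : hP lam mu θ < s.im) : hT lam mu < s.im := by
  have := abs_nonneg θ
  unfold hP at hs
  linarith

theorem hP_ne (hl : ∀ j, 0 < lam j) {s : ℂ} (hs : hP lam mu θ < s.im) : s ≠ 1 + θ * I := by
  intro h0
  have h1 := hT_nonneg (mu := mu) hl
  have h2 := le_abs_self θ
  rw [h0] at hs
  unfold hP at hs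
  simp at hs
  linarith

theorem completed_diff (h : FEqP a F Q lam mu ε θ N G) {s : ℂ} (hs : hP lam mu θ < s.im) :
    DifferentiableAt ℂ (completed Q lam mu F) s := by
  have hQ : (Q : ℂ) ≠ 0 := Complex.ofReal_ne_zero.2 h.Qpos.ne'
  unfold completed
  refine DifferentiableAt.mul (DifferentiableAt.mul ?_ ?_) (h.diffF (hP_ne h.lampos hs))
  · exact DifferentiableAt.const_cpow differentiableAt_id (Or.inl hQ)
  · refine DifferentiableAt.fun_finsetProd (fun j _ => ?_)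
    have h1 : DifferentiableAt ℂ Gamma ((lam j : ℂ) * s + mu j) :=
      Complex.differentiableAt_Gamma _ (ne_neg_of_im (hT_im h.lampos (hP_hT hs) j))
    exact h1.comp s ((differentiableAt_id.const_mul _).add_const _)

theorem completed_diff2 (h : FEqP a F Q lam mu ε θ N G) {s : ℂ} (hs : hP lam mu θ < s.im) :
    DifferentiableAt ℂ (fun s => ε * (starRingEnd ℂ)
      (completed Q lam mu F (1 - (starRingEnd ℂ) s))) s := by
  refine DifferentiableAt.const_mul ?_ ε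
  have h1 : hP lam mu θ < (1 - (starRingEnd ℂ) s).im := by
    simpa using hs
  have h2 := completed_diff h h1
  have h3 : DifferentiableAt ℂ (fun w => completed Q lam mu F (1 - w)) ((starRingEnd ℂ) s) := by
    have h4 : DifferentiableAt ℂ (fun w : ℂ => 1 - w) ((starRingEnd ℂ) s) :=
      differentiableAt_id.const_sub 1
    exact DifferentiableAt.comp ((starRingEnd ℂ) s) h2 h4
  exact differentiableAt_conj_conj_iff.2 h3

theorem feq_above (h : FEqP a F Q lam mu ε θ N G) {s : ℂ} (hs : hP lam mu θ < s.im) :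
    completed Q lam mu F s =
      ε * (starRingEnd ℂ) (completed Q lam mu F (1 - (starRingEnd ℂ) s)) := by
  have hU : IsOpen {s : ℂ | hP lam mu θ < s.im} := isOpen_lt continuous_const Complex.continuous_im
  have hconv : Convex ℝ {s : ℂ | hP lam mu θ < s.im} := convex_halfSpace_im_gt _
  have hA : AnalyticOnNhd ℂ (completed Q lam mu F) {s : ℂ | hP lam mu θ < s.im} :=
    DifferentiableOn.analyticOnNhd
      (fun z hz => (completed_diff h hz).differentiableWithinAt) hU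
  have hB : AnalyticOnNhd ℂ (fun s => ε * (starRingEnd ℂ)
      (completed Q lam mu F (1 - (starRingEnd ℂ) s))) {s : ℂ | hP lam mu θ < s.im} :=
    DifferentiableOn.analyticOnNhd
      (fun z hz => (completed_diff2 h hz).differentiableWithinAt) hU
  have h0 : (⟨1 / 2, hP lam mu θ + 1⟩ : ℂ) ∈ {s : ℂ | hP lam mu θ < s.im} := by
    change hP lam mu θ < hP lam mu θ + 1
    linarith
  refine hA.eqOn_of_preconnected_of_eventuallyEq hB hconv.isPreconnected h0 ?_ hs
  have h1 : {s : ℂ | 0 < s.re ∧ s.re < 1} ∈ nhds (⟨1 / 2, hP lam mu θ + 1⟩ : ℂ) := by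
    refine IsOpen.mem_nhds ?_ ?_
    · exact (isOpen_lt continuous_const Complex.continuous_re).inter
        (isOpen_lt Complex.continuous_re continuous_const)
    · constructor
      · change (0 : ℝ) < 1 / 2
        norm_num
      · change (1 : ℝ) / 2 < 1
        norm_num
  filter_upwards [h1] with z hz
  exact h.feq z hz.1 hz.2

theorem feq_high (h : FEqP a F Q lam mu ε θ N G) : ∃ T0 : ℝ, 0 < T0 ∧ ∀ s : ℂ, T0 ≤ s.im →
    completed Q lam mu F s =
      ε * (starRingEnd ℂ) (completed Q lam mu F (1 - (starRingEnd ℂ) s)) := by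
  refine ⟨hP lam mu θ + 1, by have := hT_nonneg (mu := mu) h.lampos; have := abs_nonneg θ; unfold hP; linarith, fun s hs => ?_⟩
  exact feq_above h (by linarith)

theorem F_eq (h : FEqP a F Q lam mu ε θ N G) : ∃ T0 : ℝ, 0 < T0 ∧ ∀ σ t : ℝ, T0 ≤ t →
    F (σ + t * I) = ε * ((Q : ℂ) ^ (1 - 2 * (σ + t * I) : ℂ) *
        ∏ j, ((starRingEnd ℂ) (Gamma (lam j * (1 - σ + t * I) + mu j)) /
          Gamma (lam j * (σ + t * I) + mu j))) * (starRingEnd ℂ) (F (1 - σ + t * I)) := by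
  refine ⟨hP lam mu θ + 1, by have := hT_nonneg (mu := mu) h.lampos; have := abs_nonneg θ; unfold hP; linarith, fun σ t ht => ?_⟩
  have hQ : (Q : ℂ) ≠ 0 := Complex.ofReal_ne_zero.2 h.Qpos.ne'
  have hs : hP lam mu θ < ((σ : ℂ) + t * I).im := by
    have : ((σ : ℂ) + t * I).im = t := by simp
    rw [this]
    linarith
  have hw : 1 - (starRingEnd ℂ) ((σ : ℂ) + t * I) = 1 - σ + t * I := by
    rw [map_add, map_mul, Complex.conj_ofReal, Complex.conj_ofReal, Complex.conj_I]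
    ring
  have h1 := feq_above h hs
  rw [hw] at h1
  unfold completed at h1
  have hG : ∀ j, Gamma ((lam j : ℂ) * (σ + t * I) + mu j) ≠ 0 := fun j =>
    Complex.Gamma_ne_zero (ne_neg_of_im (hT_im h.lampos (hP_hT hs) j))
  have hP : (∏ j, Gamma ((lam j : ℂ) * (σ + t * I) + mu j)) ≠ 0 :=
    Finset.prod_ne_zero_iff.2 (fun j _ => hG j)
  have hQs : (Q : ℂ) ^ ((σ : ℂ) + t * I) ≠ 0 := by
    rw [Complex.cpow_def_of_ne_zero hQ]
    exact Complex.exp_ne_zero _
  have hcQ : (starRingEnd ℂ) ((Q : ℂ) ^ ((1 : ℂ) - σ + t * I)) = (Q : ℂ) ^ (1 - (σ + t * I) : ℂ) := by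
    rw [Complex.cpow_def_of_ne_zero hQ, Complex.cpow_def_of_ne_zero hQ, ← Complex.exp_conj,
      map_mul, map_add, map_sub, map_mul, map_one, Complex.conj_ofReal, Complex.conj_ofReal,
      Complex.conj_I, ← Complex.ofReal_log h.Qpos.le, Complex.conj_ofReal]
    congr 1
    ring
  have hsplit : (Q : ℂ) ^ (1 - 2 * (σ + t * I) : ℂ) * (Q : ℂ) ^ ((σ : ℂ) + t * I) =
      (Q : ℂ) ^ (1 - (σ + t * I) : ℂ) := by
    rw [← Complex.cpow_add _ _ hQ]
    congr 1
    ring
  rw [map_mul, map_mul, map_prod, hcQ, ← hsplit] at h1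
  rw [Finset.prod_div_distrib]
  apply mul_left_cancel₀ (mul_ne_zero hQs hP)
  rw [h1]
  generalize (∏ j, Gamma ((lam j : ℂ) * (σ + t * I) + mu j)) = P at hP ⊢
  generalize (Q : ℂ) ^ ((σ : ℂ) + t * I) = R at hQs ⊢
  generalize (∏ j, (starRingEnd ℂ) (Gamma ((lam j : ℂ) * (1 - σ + t * I) + mu j))) = P'
  generalize (starRingEnd ℂ) (F (1 - σ + t * I)) = F'
  generalize (Q : ℂ) ^ (1 - 2 * (σ + t * I) : ℂ) = R'
  field_simp

theorem F_asymp (h : FEqP a F Q lam mu ε θ N G) (σ : ℝ) :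
    ∃ (ω K : ℂ) (C T0 : ℝ), ‖ω‖ = 1 ∧ 0 < T0 ∧ ∀ t : ℝ, T0 ≤ t →
      ‖F (σ + t * I) - ω * EE (Bp Q lam) σ t * (1 + K * I / t) *
        (starRingEnd ℂ) (F (1 - σ + t * I))‖ ≤ C * t ^ (-1 - 2 * σ) * ‖F (1 - σ + t * I)‖ := by
  obtain ⟨T1, hT1, h1⟩ := F_eq h
  obtain ⟨ω, K, C, T2, hω, hT2, h2⟩ := gamma_ratio Q lam mu h.Qpos h.lampos h.deg h.shift σ
  have hB := Bp_pos h.Qpos h.lampos
  refine ⟨ε * ω, K, (Bp Q lam) ^ (1 - 2 * σ) * C, max T1 T2, ?_, lt_max_of_lt_left hT1,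
    fun t ht => ?_⟩
  · rw [norm_mul, h.eps, hω, one_mul]
  · have ht1 : T1 ≤ t := le_trans (le_max_left _ _) ht
    have ht2 : T2 ≤ t := le_trans (le_max_right _ _) ht
    have ht0 : 0 < t := lt_of_lt_of_le hT1 ht1
    obtain ⟨r, hr1, hr2⟩ := h2 t ht2
    rw [h1 σ t ht1, hr1]
    have h3 : ε * (ω * EE (Bp Q lam) σ t * (1 + K * I / t + r)) *
        (starRingEnd ℂ) (F (1 - σ + t * I)) -
        ε * ω * EE (Bp Q lam) σ t * (1 + K * I / t) * (starRingEnd ℂ) (F (1 - σ + t * I)) =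
        ε * ω * EE (Bp Q lam) σ t * r * (starRingEnd ℂ) (F (1 - σ + t * I)) := by ring
    rw [h3, norm_mul, norm_mul, norm_mul, norm_mul, h.eps, hω, norm_EE _ _ _ hB ht0, one_mul,
      one_mul, RCLike.norm_conj]
    refine mul_le_mul_of_nonneg_right ?_ (norm_nonneg _)
    have h4 : t ^ (-1 - 2 * σ) = t ^ (1 - 2 * σ) / t ^ 2 := by
      rw [← Real.rpow_natCast t 2, ← Real.rpow_sub ht0]
      congr 1
      push_cast
      ring
    rw [Real.mul_rpow hB.le ht0.le, h4]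
    calc (Bp Q lam) ^ (1 - 2 * σ) * t ^ (1 - 2 * σ) * ‖r‖
        ≤ (Bp Q lam) ^ (1 - 2 * σ) * t ^ (1 - 2 * σ) * (C / t ^ 2) := by gcongr
      _ = (Bp Q lam) ^ (1 - 2 * σ) * C * (t ^ (1 - 2 * σ) / t ^ 2) := by ring

end Pool.Agent.H39.Pol
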