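import Mathlib
import Pool.Agent.H39.Pol.ContP
import Pool.Agent.H11.SC.Conj

/-!
# CONJP: the conjugate data, with a pole (port of H11/SC/Conj)
-/

set_option autoImplicit false

namespace Pool.Agent.H39.Pol

open Complex Pool.Agent.H11.Selberg Pool.Agent.H11.SC

variable {a : ℕ → ℂ} {F : ℂ → ℂ} {Q : ℝ} {k : ℕ} {lam : Fin k → ℝ} {mu : Fin k → ℂ} {ε : ℂ}
  {θ : ℝ} {N : ℕ} {G : ℂ → ℂ}

private theorem term_conj (a : ℕ → ℂ) (s : ℂ) (n : ℕ) :
    LSeries.term (cj a) s n = (starRingEnd ℂ) (LSeries.term a ((starRingEnd ℂ) s) n) := by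
  rcases Nat.eq_zero_or_pos n with hn | hn
  · subst hn
    simp
  · have hn' : n ≠ 0 := hn.ne'
    rw [LSeries.term_of_ne_zero hn', LSeries.term_of_ne_zero hn', map_div₀,
      Complex.cpow_conj _ _ (by rw [Complex.natCast_arg]; exact Real.pi_pos.ne),
      Complex.conj_natCast, Complex.conj_conj]
    rfl

private theorem completed_conj (Q : ℝ) (hQ : 0 < Q) (lam : Fin k → ℝ) (mu : Fin k → ℂ)
    (F : ℂ → ℂ) (s : ℂ) :
    completed Q lam (fun j => (starRingEnd ℂ) (mu j))
      (fun s => (starRingEnd ℂ) (F ((starRingEnd ℂ) s))) s =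
      (starRingEnd ℂ) (completed Q lam mu F ((starRingEnd ℂ) s)) := by
  unfold completed
  rw [map_mul, map_mul, map_prod]
  congr 1
  congr 1
  · rw [Complex.cpow_conj _ _ (by rw [Complex.arg_ofReal_of_nonneg hQ.le]; exact Real.pi_pos.ne),
      Complex.conj_conj, Complex.conj_ofReal]
  · refine Finset.prod_congr rfl (fun j _ => ?_)
    rw [← Complex.Gamma_conj, map_add, map_mul, Complex.conj_ofReal, Complex.conj_conj]

theorem FEqP.conj (h : FEqP a F Q lam mu ε θ N G) :
    FEqP (cj a) (fun s => (starRingEnd ℂ) (F ((starRingEnd ℂ) s))) Q lam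
      (fun j => (starRingEnd ℂ) (mu j)) ((starRingEnd ℂ) ε) (-θ) N
      (fun s => (starRingEnd ℂ) (G ((starRingEnd ℂ) s))) where
  Gdiff := by
    intro s
    have h1 : DifferentiableAt ℂ G ((starRingEnd ℂ) s) := h.Gdiff _
    have h2 := h1.star_star
    simp only [Complex.star_def, Complex.conj_conj] at h2
    exact h2
  Geq := by
    intro s hs
    have h1 : (starRingEnd ℂ) s ≠ 1 + θ * I := by
      intro h0
      apply hs
      have h2 := congrArg (starRingEnd ℂ) h0
      rw [Complex.conj_conj] at h2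
      rw [h2]
      simp
    rw [h.Geq _ h1]
    simp
  G0 := by
    have h1 : (starRingEnd ℂ) (1 + ((-θ : ℝ) : ℂ) * I) = 1 + θ * I := by simp
    rw [h1]
    exact (map_ne_zero _).2 h.G0
  Npos := h.Npos
  Gorder := by
    obtain ⟨A, C, hC⟩ := h.Gorder
    refine ⟨A, C, fun s => ?_⟩
    have := hC ((starRingEnd ℂ) s)
    rw [RCLike.norm_conj] at this
    rw [RCLike.norm_conj]
    exact this
  summable := by
    intro s hs
    have h1 := h.summable ((starRingEnd ℂ) s) (by simpa using hs)
    have h2 : Summable (fun n => (starRingEnd ℂ) (LSeries.term a ((starRingEnd ℂ) s) n)) :=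
      Complex.summable_conj.2 h1
    have h3 : LSeries.term (cj a) s = fun n => (starRingEnd ℂ)
        (LSeries.term a ((starRingEnd ℂ) s) n) := by
      funext n
      exact term_conj a s n
    unfold LSeriesSummable
    rw [h3]
    exact h2
  eqL := by
    intro s hs
    have h1 := h.eqL ((starRingEnd ℂ) s) (by simpa using hs)
    rw [h1]
    unfold LSeries
    rw [Complex.conj_tsum]
    exact tsum_congr (fun n => (term_conj a s n).symm)
  ram := by
    intro δ hδ
    obtain ⟨C, hC⟩ := h.ram δ hδ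
    refine ⟨C, fun n hn => ?_⟩
    have : ‖cj a n‖ = ‖a n‖ := RCLike.norm_conj _
    rw [this]
    exact hC n hn
  one := by
    unfold cj
    rw [h.one, map_one]
  Qpos := h.Qpos
  lampos := h.lampos
  mure := fun j => by
    rw [Complex.conj_re]
    exact h.mure j
  eps := by rw [RCLike.norm_conj, h.eps]
  feq := by
    intro s hs0 hs1
    have h1 := h.feq ((starRingEnd ℂ) s) (by simpa using hs0) (by simpa using hs1)
    rw [completed_conj Q h.Qpos, completed_conj Q h.Qpos, h1, map_mul, Complex.conj_conj,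
      Complex.conj_conj, Complex.conj_conj, map_sub, map_one, Complex.conj_conj]
  deg := h.deg
  shift := by
    have h1 : ∀ j, ((starRingEnd ℂ) (mu j)).im = -(mu j).im := fun j => Complex.conj_im _
    rw [Finset.sum_congr rfl (fun j _ => h1 j), Finset.sum_neg_distrib, h.shift, neg_zero]

end Pool.Agent.H39.Pol
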