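import Mathlib
import Pool.Agent.H39.Pol.EdgeP

/-!
# PLP: polynomial growth of `G = (s - s0)^N F` in the strip (Phragmen-Lindelof)
(adapted from H11/SC/PL)
-/

set_option autoImplicit false

namespace Pool.Agent.H39.Pol

open Complex Pool.Agent.H11.Selberg Pool.Agent.H11.SC

variable {a : ℕ → ℂ} {F : ℂ → ℂ} {Q : ℝ} {k : ℕ} {lam : Fin k → ℝ} {mu : Fin k → ℂ} {ε : ℂ}
  {θ : ℝ} {N : ℕ} {G : ℂ → ℂ}

theorem norm_add_two_ge' {s : ℂ} (hs : -1 ≤ s.re) : (1 + |s.im|) / 2 ≤ ‖s + 2‖ := by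
  have h1 : |(s + 2).re| ≤ ‖s + 2‖ := Complex.abs_re_le_norm _
  have h2 : |(s + 2).im| ≤ ‖s + 2‖ := Complex.abs_im_le_norm _
  have e1 : (s + 2).re = s.re + 2 := by simp
  have e2 : (s + 2).im = s.im := by simp
  rw [e1, abs_of_nonneg (by linarith)] at h1
  rw [e2] at h2
  linarith

theorem norm_le_im' {s : ℂ} {c : ℝ} (hs : |s.re| ≤ c) : ‖s‖ ≤ c + |s.im| :=
  (Complex.norm_le_abs_re_add_abs_im s).trans (by linarith)

theorem norm_sub_pole {s : ℂ} {θ : ℝ} (hs : |s.re| ≤ 2) :
    ‖s - (1 + θ * I)‖ ≤ (3 + |θ|) * (1 + |s.im|) := by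
  have h1 : ‖s‖ ≤ 2 + |s.im| := norm_le_im' hs
  have h2 : ‖(1 + θ * I : ℂ)‖ ≤ 1 + |θ| := by
    refine (norm_add_le _ _).trans ?_
    simp
  have h3 := norm_sub_le s (1 + θ * I)
  have h4 := abs_nonneg s.im
  have h5 := abs_nonneg θ
  nlinarith [mul_nonneg h4 h5]

/-- `G` is bounded by `F` and the factor -/
theorem norm_G_le (h : FEqP a F Q lam mu ε θ N G) {s : ℂ} (hs : |s.re| ≤ 2) (hs1 : s.re ≠ 1) :
    ‖G s‖ ≤ ((3 + |θ|) ^ N * (1 + |s.im|) ^ N) * ‖F s‖ := by
  have hne : s ≠ 1 + θ * I := by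
    intro h0
    apply hs1
    rw [h0]
    simp
  rw [h.Geq s hne, norm_mul, norm_pow, ← mul_pow]
  exact mul_le_mul_of_nonneg_right (pow_le_pow_left₀ (norm_nonneg _) (norm_sub_pole hs) N)
    (norm_nonneg _)

theorem G_strip (h : FEqP a F Q lam mu ε θ N G) (η : ℝ) (hη : 0 < η) (hη1 : η < 1 / 2) :
    ∃ C : ℝ, ∀ s : ℂ, -η ≤ s.re → s.re ≤ 2 → ‖G s‖ ≤ C * (1 + |s.im|) ^ (N + 2) := by
  obtain ⟨C1, hC1⟩ := F_right h η hη
  obtain ⟨C2, hC2⟩ := F_edge h η hη
  obtain ⟨A, C, hAC⟩ := h.Gorder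
  set W : ℝ := (3 + |θ|) ^ N with hW
  have hθ := abs_nonneg θ
  have hW0 : 0 ≤ W := by positivity
  set M : ℝ := 2 ^ (N + 2) * W * max |C1| |C2| with hM
  have hM0 : 0 ≤ M := by
    have := (abs_nonneg C1).trans (le_max_left |C1| |C2|)
    positivity
  set f : ℂ → ℂ := fun s => G s / (s + 2) ^ (N + 2) with hf
  have hne : ∀ s : ℂ, -1 ≤ s.re → s + 2 ≠ 0 := by
    intro s hs h0
    have := congrArg Complex.re h0
    simp at this
    linarith
  have hd : DiffContOnCl ℂ f (re ⁻¹' Set.Ioo (-η) (1 + η)) := by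
    apply DifferentiableOn.diffContOnCl
    intro s hs
    have hcl : closure (re ⁻¹' Set.Ioo (-η) (1 + η)) ⊆ {s : ℂ | -η ≤ s.re} := by
      apply closure_minimal
      · intro z hz
        exact hz.1.le
      · exact isClosed_le continuous_const Complex.continuous_re
    have hs' : -η ≤ s.re := hcl hs
    have h2 : (s + 2) ^ (N + 2) ≠ 0 := pow_ne_zero _ (hne s (by linarith))
    exact ((h.Gdiff s).div (by fun_prop) h2).differentiableWithinAt
  have hgrow : ∃ c < Real.pi / ((1 + η) - (-η)), ∃ B, f =O[Filter.comap (_root_.abs ∘ im)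
      Filter.atTop ⊓ Filter.principal (re ⁻¹' Set.Ioo (-η) (1 + η))]
      fun z ↦ Real.exp (B * Real.exp (c * |z.im|)) := by
    refine ⟨1, ?_, 1, ?_⟩
    · rw [lt_div_iff₀ (by linarith)]
      have := Real.pi_gt_three
      linarith
    · have hev : ∀ᶠ y : ℝ in Filter.atTop, 1 ≤ y ∧ (2 + y) ^ |A| ≤ Real.exp y := by
        have h1 := (isLittleO_rpow_exp_pos_mul_atTop |A| one_pos).bound
          (show (0 : ℝ) < Real.exp (-2) from Real.exp_pos _)
        have h2 : Filter.Tendsto (fun y : ℝ => 2 + y) Filter.atTop Filter.atTop :=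
          Filter.tendsto_atTop_add_const_left _ _ Filter.tendsto_id
        filter_upwards [h2.eventually h1, Filter.eventually_ge_atTop (1 : ℝ)] with y hy hy1
        refine ⟨hy1, ?_⟩
        have h3 : (0 : ℝ) ≤ (2 + y) ^ |A| := Real.rpow_nonneg (by linarith) _
        rw [Real.norm_of_nonneg h3, Real.norm_of_nonneg (Real.exp_pos _).le, ← Real.exp_add] at hy
        refine hy.trans (Real.exp_le_exp.2 ?_)
        linarith
      refine Asymptotics.IsBigO.of_bound |C| ?_
      have hev' := (hev.comap (_root_.abs ∘ im)).filter_mono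
        (inf_le_left (b := Filter.principal (re ⁻¹' Set.Ioo (-η) (1 + η))))
      have hmem : ∀ᶠ z : ℂ in Filter.comap (_root_.abs ∘ im) Filter.atTop ⊓
          Filter.principal (re ⁻¹' Set.Ioo (-η) (1 + η)), z ∈ re ⁻¹' Set.Ioo (-η) (1 + η) :=
        Filter.mem_inf_of_right (Filter.mem_principal_self _)
      filter_upwards [hev', hmem] with z hz hz2
      obtain ⟨hz3, hz4⟩ := hz
      simp only [Function.comp_apply] at hz3 hz4
      have hre1 : -η < z.re := hz2.1
      have hre2 : z.re < 1 + η := hz2.2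
      have hzn : ‖z‖ ≤ 2 + |z.im| := norm_le_im' (by rw [abs_le]; constructor <;> linarith)
      have hz1 : 1 ≤ ‖z‖ := hz3.trans (Complex.abs_im_le_norm z)
      have h5 : ‖z‖ ^ A ≤ Real.exp |z.im| := by
        refine le_trans ?_ hz4
        calc ‖z‖ ^ A ≤ ‖z‖ ^ |A| := Real.rpow_le_rpow_of_exponent_le hz1 (le_abs_self A)
          _ ≤ (2 + |z.im|) ^ |A| := Real.rpow_le_rpow (norm_nonneg _) hzn (abs_nonneg _)
      have h6 : 1 ≤ ‖z + 2‖ := by
        have := norm_add_two_ge' (s := z) (by linarith)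
        linarith
      rw [hf]
      dsimp only
      rw [norm_div, norm_pow, one_mul, one_mul, Real.norm_of_nonneg (Real.exp_pos _).le]
      calc ‖G z‖ / ‖z + 2‖ ^ (N + 2) ≤ ‖G z‖ := div_le_self (norm_nonneg _) (one_le_pow₀ h6)
        _ ≤ C * Real.exp (‖z‖ ^ A) := hAC z
        _ ≤ |C| * Real.exp (Real.exp |z.im|) := by
            refine mul_le_mul (le_abs_self C) (Real.exp_le_exp.2 h5) (Real.exp_pos _).le
              (abs_nonneg _)
  have hdiv : ∀ z : ℂ, -1 ≤ z.re → ‖G z‖ ≤ (W * max |C1| |C2|) * (1 + |z.im|) ^ (N + 2) →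
      ‖f z‖ ≤ M := by
    intro z hz hG
    have h2 := norm_add_two_ge' (s := z) hz
    have h3 : (0 : ℝ) < 1 + |z.im| := by
      have := abs_nonneg z.im
      linarith
    have hz2 : z + 2 ≠ 0 := hne z hz
    have hmax := (abs_nonneg C1).trans (le_max_left |C1| |C2|)
    rw [hf]
    dsimp only
    rw [norm_div, norm_pow, div_le_iff₀ (by positivity)]
    calc ‖G z‖ ≤ (W * max |C1| |C2|) * (1 + |z.im|) ^ (N + 2) := hG
      _ = M * ((1 + |z.im|) / 2) ^ (N + 2) := by
          rw [hM, div_pow]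
          field_simp
      _ ≤ M * ‖z + 2‖ ^ (N + 2) := by gcongr
  have hleft : ∀ z : ℂ, re z = -η → ‖f z‖ ≤ M := by
    intro z hz
    have e1 : z = -η + z.im * I := by
      apply Complex.ext
      · simp [hz]
      · simp
    have h1 := hC2 z.im
    rw [← e1] at h1
    have him := abs_nonneg z.im
    have h4 : (1 + |z.im|) ^ (1 + 2 * η) ≤ (1 + |z.im|) ^ 2 := by
      rw [← Real.rpow_natCast]
      apply Real.rpow_le_rpow_of_exponent_le
      · linarith
      · push_cast
        linarith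
    have h5 : ‖F z‖ ≤ |C2| * (1 + |z.im|) ^ 2 := by
      refine h1.trans ?_
      calc C2 * (1 + |z.im|) ^ (1 + 2 * η) ≤ |C2| * (1 + |z.im|) ^ (1 + 2 * η) := by
            gcongr
            exact le_abs_self _
        _ ≤ _ := by gcongr
    refine hdiv z (by linarith) ?_
    have h6 := norm_G_le h (s := z) (by rw [hz, abs_le]; constructor <;> linarith)
      (by rw [hz]; linarith)
    calc ‖G z‖ ≤ (W * (1 + |z.im|) ^ N) * ‖F z‖ := h6
      _ ≤ (W * (1 + |z.im|) ^ N) * (|C2| * (1 + |z.im|) ^ 2) := by gcongr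
      _ = W * |C2| * (1 + |z.im|) ^ (N + 2) := by ring
      _ ≤ _ := by
          gcongr
          exact le_max_right _ _
  have hrightG : ∀ z : ℂ, 1 + η ≤ re z → re z ≤ 2 →
      ‖G z‖ ≤ (W * max |C1| |C2|) * (1 + |z.im|) ^ (N + 2) := by
    intro z hz hz2
    have h1 := hC1 z hz
    have him := abs_nonneg z.im
    have h6 := norm_G_le h (s := z) (by rw [abs_le]; constructor <;> linarith)
      (by intro h0; linarith)
    calc ‖G z‖ ≤ (W * (1 + |z.im|) ^ N) * ‖F z‖ := h6
      _ ≤ (W * (1 + |z.im|) ^ N) * |C1| := by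
          gcongr
          exact h1.trans (le_abs_self _)
      _ = W * |C1| * (1 + |z.im|) ^ N := by ring
      _ ≤ (W * max |C1| |C2|) * (1 + |z.im|) ^ (N + 2) := by
          refine mul_le_mul ?_ ?_ (by positivity) ?_
          · gcongr
            exact le_max_left _ _
          · exact pow_le_pow_right₀ (by linarith) (by omega)
          · have := (abs_nonneg C1).trans (le_max_left |C1| |C2|)
            positivity
  have hright : ∀ z : ℂ, re z = 1 + η → ‖f z‖ ≤ M := by
    intro z hz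
    exact hdiv z (by linarith) (hrightG z hz.ge (by linarith))
  refine ⟨max (4 ^ (N + 2) * M) (W * max |C1| |C2|), fun s hs hs' => ?_⟩
  have him := abs_nonneg s.im
  rcases le_total s.re (1 + η) with hs2 | hs2
  · have h1 := PhragmenLindelof.vertical_strip hd hgrow hleft hright hs hs2
    have h2 : s + 2 ≠ 0 := hne s (by linarith)
    have h3 : ‖G s‖ ≤ M * ‖s + 2‖ ^ (N + 2) := by
      rw [hf] at h1
      dsimp only at h1
      rw [norm_div, norm_pow, div_le_iff₀ (by positivity)] at h1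
      exact h1
    have h4 : ‖s + 2‖ ≤ 4 + |s.im| := by
      have h5 := norm_le_im' (s := s + 2) (c := 4) (by
        have e1 : (s + 2).re = s.re + 2 := by simp
        rw [e1, abs_le]
        constructor <;> linarith)
      have e2 : (s + 2).im = s.im := by simp
      rwa [e2] at h5
    have h6 : ‖s + 2‖ ≤ 4 * (1 + |s.im|) := by linarith
    calc ‖G s‖ ≤ M * ‖s + 2‖ ^ (N + 2) := h3
      _ ≤ M * (4 * (1 + |s.im|)) ^ (N + 2) := by gcongr
      _ = 4 ^ (N + 2) * M * (1 + |s.im|) ^ (N + 2) := by rw [mul_pow]; ring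
      _ ≤ _ := by
          gcongr
          exact le_max_left _ _
  · refine (hrightG s hs2 hs').trans ?_
    gcongr
    exact le_max_right _ _

end Pool.Agent.H39.Pol
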