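import Mathlib
import Pool.Agent.H39.Pol.PLP

/-!
# ENT: splitting off the polar part

`entire_part`: by induction on `N` with `dslope G s0` (`Complex.differentiableOn_dslope`,
`sub_smul_dslope` or `dslope_of_ne`): `G s = G s0 + (s - s0) * dslope G s0 s`.
`E_strip`: for `‖s - s0‖ ≤ 1` use compactness (continuity of `E`); for `‖s - s0‖ ≥ 1`
`‖E s‖ ≤ ‖(s-s0)^N E s‖ ≤ ‖G s‖ + ∑ ‖r i‖ ‖s - s0‖^i`, `norm_sub_pole`, `G_strip`.
-/

set_option autoImplicit false

namespace Pool.Agent.H39.Pol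

open Complex Pool.Agent.H11.Selberg Pool.Agent.H11.SC

variable {a : ℕ → ℂ} {F : ℂ → ℂ} {Q : ℝ} {k : ℕ} {lam : Fin k → ℝ} {mu : Fin k → ℂ} {ε : ℂ}
  {θ : ℝ} {N : ℕ} {G : ℂ → ℂ}

theorem entire_part (G : ℂ → ℂ) (hG : Differentiable ℂ G) (s0 : ℂ) (N : ℕ) (hN : 1 ≤ N) :
    ∃ (E : ℂ → ℂ) (r : ℕ → ℂ), Differentiable ℂ E ∧ r 0 = G s0 ∧
      ∀ s, G s = ∑ i ∈ Finset.range N, r i * (s - s0) ^ i + (s - s0) ^ N * E s := by
  have hdd : ∀ E : ℂ → ℂ, Differentiable ℂ E → Differentiable ℂ (dslope E s0) := by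
    intro E hE
    rw [← differentiableOn_univ]
    exact (Complex.differentiableOn_dslope Filter.univ_mem).mpr hE.differentiableOn
  have hsl : ∀ (E : ℂ → ℂ) (s : ℂ), E s = E s0 + (s - s0) * dslope E s0 s := by
    intro E s
    have h1 := sub_smul_dslope E s0 s
    rw [smul_eq_mul] at h1
    rw [h1]
    ring
  induction N, hN using Nat.le_induction with
  | base =>
    refine ⟨dslope G s0, fun _ => G s0, hdd G hG, rfl, fun s => ?_⟩
    rw [Finset.sum_range_one, pow_zero, mul_one, pow_one]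
    exact hsl G s
  | succ N hN ih =>
    obtain ⟨E, r, hE, hr0, hEq⟩ := ih
    refine ⟨dslope E s0, fun i => if i = N then E s0 else r i, hdd E hE, ?_, fun s => ?_⟩
    · have : (0 : ℕ) ≠ N := by omega
      simp only [if_neg this, hr0]
    · simp only []
      rw [Finset.sum_range_succ, if_pos rfl, hEq s, hsl E s]
      have h1 : ∑ i ∈ Finset.range N, (if i = N then E s0 else r i) * (s - s0) ^ i =
          ∑ i ∈ Finset.range N, r i * (s - s0) ^ i := by
        refine Finset.sum_congr rfl fun i hi => ?_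
        have : i ≠ N := by
          have := Finset.mem_range.1 hi
          omega
        rw [if_neg this]
      rw [h1, pow_succ]
      ring

theorem E_strip (h : FEqP a F Q lam mu ε θ N G) (η : ℝ) (hη : 0 < η) (hη1 : η < 1 / 2)
    (E : ℂ → ℂ) (r : ℕ → ℂ) (hE : Differentiable ℂ E)
    (hG : ∀ s, G s = ∑ i ∈ Finset.range N, r i * (s - (1 + θ * I)) ^ i +
      (s - (1 + θ * I)) ^ N * E s) :
    ∃ C : ℝ, ∀ s : ℂ, -η ≤ s.re → s.re ≤ 2 → ‖E s‖ ≤ C * (1 + |s.im|) ^ (N + 2) := by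
  obtain ⟨C1, hC1⟩ := G_strip h η hη hη1
  obtain ⟨C0, hC0⟩ := (isCompact_closedBall (1 + θ * I : ℂ) 1).exists_bound_of_continuousOn
    hE.continuous.continuousOn
  have hθ := abs_nonneg θ
  set R : ℝ := ∑ i ∈ Finset.range N, ‖r i‖ with hR
  have hR0 : 0 ≤ R := Finset.sum_nonneg fun i _ => norm_nonneg _
  refine ⟨|C0| + |C1| + R * (3 + |θ|) ^ N, fun s hs1 hs2 => ?_⟩
  have him := abs_nonneg s.im
  have hpow : (1 : ℝ) ≤ (1 + |s.im|) ^ (N + 2) := one_le_pow₀ (by linarith)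
  rcases le_total ‖s - (1 + θ * I)‖ 1 with hle | hge
  · have h1 : ‖E s‖ ≤ C0 := hC0 s (by rw [mem_closedBall_iff_norm]; exact hle)
    calc ‖E s‖ ≤ |C0| := h1.trans (le_abs_self _)
      _ ≤ (|C0| + |C1| + R * (3 + |θ|) ^ N) * 1 := by
          have h2 : 0 ≤ R * (3 + |θ|) ^ N := by positivity
          have h3 := abs_nonneg C1
          linarith
      _ ≤ _ := by
          refine mul_le_mul_of_nonneg_left hpow ?_
          positivity
  · have h1 : (s - (1 + θ * I)) ^ N * E s =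
        G s - ∑ i ∈ Finset.range N, r i * (s - (1 + θ * I)) ^ i := by
      rw [hG s]
      ring
    have h2 : ‖E s‖ ≤ ‖(s - (1 + θ * I)) ^ N * E s‖ := by
      rw [norm_mul, norm_pow]
      exact le_mul_of_one_le_left (norm_nonneg _) (one_le_pow₀ hge)
    have hsp : ‖s - (1 + θ * I)‖ ≤ (3 + |θ|) * (1 + |s.im|) :=
      norm_sub_pole (by rw [abs_le]; constructor <;> linarith)
    have h3 : ∀ i ∈ Finset.range N, ‖r i * (s - (1 + θ * I)) ^ i‖ ≤
        ‖r i‖ * ((3 + |θ|) ^ N * (1 + |s.im|) ^ (N + 2)) := by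
      intro i hi
      have hi' := Finset.mem_range.1 hi
      rw [norm_mul, norm_pow]
      refine mul_le_mul_of_nonneg_left ?_ (norm_nonneg _)
      calc ‖s - (1 + θ * I)‖ ^ i ≤ ((3 + |θ|) * (1 + |s.im|)) ^ i :=
            pow_le_pow_left₀ (norm_nonneg _) hsp i
        _ = (3 + |θ|) ^ i * (1 + |s.im|) ^ i := mul_pow _ _ _
        _ ≤ (3 + |θ|) ^ N * (1 + |s.im|) ^ (N + 2) := by
            refine mul_le_mul (pow_le_pow_right₀ (by linarith) (by omega))
              (pow_le_pow_right₀ (by linarith) (by omega)) (by positivity) (by positivity)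
    have h4 : ‖∑ i ∈ Finset.range N, r i * (s - (1 + θ * I)) ^ i‖ ≤
        R * ((3 + |θ|) ^ N * (1 + |s.im|) ^ (N + 2)) := by
      refine (norm_sum_le _ _).trans ((Finset.sum_le_sum h3).trans (le_of_eq ?_))
      rw [hR, Finset.sum_mul]
    have h5 := hC1 s hs1 hs2
    calc ‖E s‖ ≤ ‖G s - ∑ i ∈ Finset.range N, r i * (s - (1 + θ * I)) ^ i‖ := by
          rw [← h1]
          exact h2
      _ ≤ ‖G s‖ + ‖∑ i ∈ Finset.range N, r i * (s - (1 + θ * I)) ^ i‖ := norm_sub_le _ _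
      _ ≤ |C1| * (1 + |s.im|) ^ (N + 2) + R * ((3 + |θ|) ^ N * (1 + |s.im|) ^ (N + 2)) := by
          refine add_le_add (h5.trans ?_) h4
          exact mul_le_mul_of_nonneg_right (le_abs_self _) (by positivity)
      _ ≤ (|C0| + |C1| + R * (3 + |θ|) ^ N) * (1 + |s.im|) ^ (N + 2) := by
          have h6 : 0 ≤ |C0| * (1 + |s.im|) ^ (N + 2) := by positivity
          nlinarith

end Pool.Agent.H39.Pol
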