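import Mathlib
import Pool.Agent.H39.Pol.Defs
import Pool.Agent.H11.SC.PInt
import Pool.Agent.H11.SC.GamB
import Pool.Agent.H11.SC.MelX

/-!
# RESA: vertical integrals with a polar factor

`kk s1 l c X = X^(s1) (1/2π) ∫ Γ(c+it) (c+it-s1)^(-l) X^(-(c+it)) dt`, `0 < c ≠ Re s1`, `X > 0`
(`VI G c ξ` has the factor `(2πξ)^(-(c+it))`, so `ξ = X/(2π)`; first rewrite
`2 * (π : ℂ) * ((X/(2π) : ℝ) : ℂ) = (X : ℂ)`).
`kk_zero`: `l = 0`: `mellin_exp` (H11/SC/MelX).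
`kk_bound`: `‖X^(s1)‖ = X^(Re s1)`, `‖X^(-(c+it))‖ = X^(-c)`, `‖(c+it-s1)^l‖ ≥ |c - Re s1|^l`,
`∫ ‖Γ(c+it)‖ < ∞` (`gamma_int` with `A = 0`).
`kk_deriv`: `kk s1 (l+1) c X = (1/2π) ∫ Γ(c+it) (c+it-s1)^(-(l+1)) X^(s1-c-it) dt`; differentiate under the
integral sign (`hasDerivAt_integral_of_dominated_loc_of_deriv_le` on the ball of radius `X/2` around `X`;
the derivative of `X^(s1-c-it)` is `(s1-c-it) X^(s1-c-it-1)`, and
`(s1-c-it) (c+it-s1)^(-(l+1)) = -(c+it-s1)^(-l)`; the bound is `C ‖Γ(c+it)‖` with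
`C = |c - Re s1|^(-l) sup X'^(Re s1 - c - 1)`).
-/

set_option autoImplicit false

namespace Pool.Agent.H39.Pol

open Complex Filter Topology Pool.Agent.H11.Selberg Pool.Agent.H11.SC

/-- the integrand of the polar term of order `l` on the line `Re s = c` -/
noncomputable def KV (s1 : ℂ) (l : ℕ) (c : ℝ) (t : ℝ) : ℂ :=
  Gamma (c + t * I) * ((c + t * I - s1) ^ l)⁻¹

/-- `X^(s1)` times the vertical integral -/
noncomputable def kk (s1 : ℂ) (l : ℕ) (c : ℝ) (X : ℝ) : ℂ :=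
  (X : ℂ) ^ s1 * VI (KV s1 l c) c ((X / (2 * Real.pi) : ℝ) : ℂ)

theorem kk_vi (G : ℝ → ℂ) (c X : ℝ) :
    VI G c ((X / (2 * Real.pi) : ℝ) : ℂ) =
      (1 / (2 * Real.pi) : ℝ) * ∫ t : ℝ, G t * (X : ℂ) ^ (-(c + t * I : ℂ)) := by
  have h1 : 2 * (Real.pi : ℂ) * ((X / (2 * Real.pi) : ℝ) : ℂ) = (X : ℂ) := by
    have h2 : (Real.pi : ℂ) ≠ 0 := by exact_mod_cast Real.pi_ne_zero
    push_cast
    field_simp
  unfold VI
  rw [h1]

theorem kk_zero (s1 : ℂ) (c : ℝ) (hc : 0 < c) (X : ℝ) (hX : 0 < X) :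
    kk s1 0 c X = (X : ℂ) ^ s1 * ((Real.exp (-X) : ℝ) : ℂ) := by
  unfold kk
  rw [kk_vi]
  have h1 : (fun t : ℝ => KV s1 0 c t * (X : ℂ) ^ (-(c + t * I : ℂ))) =
      fun t : ℝ => Gamma (c + t * I) * (X : ℂ) ^ (-(c + t * I : ℂ)) := by
    funext t
    unfold KV
    rw [pow_zero, inv_one, mul_one]
  rw [h1, mellin_exp c X hc hX]
  push_cast
  rfl

theorem kk_norm_cpow (c X t : ℝ) (hX : 0 < X) :
    ‖(X : ℂ) ^ (-(c + t * I : ℂ))‖ = X ^ (-c) := by
  rw [Complex.norm_cpow_eq_rpow_re_of_pos hX]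
  congr 1
  simp

theorem kk_bound (s1 : ℂ) (l : ℕ) (c : ℝ) (hc : 0 < c) (hne : c ≠ s1.re) :
    ∃ C : ℝ, ∀ X : ℝ, 0 < X → ‖kk s1 l c X‖ ≤ C * X ^ (s1.re - c) := by
  refine ⟨(1 / (2 * Real.pi)) * ∫ t : ℝ, ‖KV s1 l c t‖, fun X hX => ?_⟩
  unfold kk
  rw [kk_vi, norm_mul, norm_mul, Complex.norm_real, Real.norm_of_nonneg (by positivity),
    Complex.norm_cpow_eq_rpow_re_of_pos hX]
  have h1 : ‖∫ t : ℝ, KV s1 l c t * (X : ℂ) ^ (-(c + t * I : ℂ))‖ ≤
      (∫ t : ℝ, ‖KV s1 l c t‖) * X ^ (-c) := by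
    refine (MeasureTheory.norm_integral_le_integral_norm _).trans ?_
    rw [← MeasureTheory.integral_mul_const]
    apply le_of_eq
    congr 1
    funext t
    rw [norm_mul, kk_norm_cpow c X t hX]
  have h2 : X ^ (s1.re - c) = X ^ s1.re * X ^ (-c) := by
    rw [← Real.rpow_add hX, sub_eq_add_neg]
  have h3 : 0 ≤ X ^ s1.re := Real.rpow_nonneg hX.le _
  have h4 : 0 ≤ 1 / (2 * Real.pi) := by positivity
  calc X ^ s1.re * (1 / (2 * Real.pi) *
        ‖∫ t : ℝ, KV s1 l c t * (X : ℂ) ^ (-(c + t * I : ℂ))‖)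
      ≤ X ^ s1.re * (1 / (2 * Real.pi) * ((∫ t : ℝ, ‖KV s1 l c t‖) * X ^ (-c))) :=
        mul_le_mul_of_nonneg_left (mul_le_mul_of_nonneg_left h1 h4) h3
    _ = (1 / (2 * Real.pi)) * (∫ t : ℝ, ‖KV s1 l c t‖) * X ^ (s1.re - c) := by
        rw [h2]
        ring

theorem kk_ne (s1 : ℂ) (c : ℝ) (hne : c ≠ s1.re) (t : ℝ) : (c : ℂ) + t * I - s1 ≠ 0 := by
  intro h
  have h1 := congrArg Complex.re h
  simp at h1
  exact hne (by linarith)

theorem kk_re_le (s1 : ℂ) (c t : ℝ) : |c - s1.re| ≤ ‖(c : ℂ) + t * I - s1‖ := by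
  have h1 := Complex.abs_re_le_norm ((c : ℂ) + t * I - s1)
  simpa using h1

theorem kv_cont (s1 : ℂ) (l : ℕ) (c : ℝ) (hc : 0 < c) (hne : c ≠ s1.re) :
    Continuous (KV s1 l c) := by
  unfold KV
  refine Continuous.mul ?_ (Continuous.inv₀ (by fun_prop) (fun t => pow_ne_zero _ (kk_ne s1 c hne t)))
  rw [continuous_iff_continuousAt]
  intro t
  have h1 : ContinuousAt (fun t : ℝ => ((c : ℂ) + t * I)) t := by fun_prop
  exact ContinuousAt.comp (f := fun t : ℝ => ((c : ℂ) + t * I)) (gamma_contAt (t := t) hc) h1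

theorem kv_int (s1 : ℂ) (l : ℕ) (c : ℝ) (hc : 0 < c) (hne : c ≠ s1.re) :
    MeasureTheory.Integrable (KV s1 l c) := by
  have h1 := gamma_int c hc 0
  simp only [Real.rpow_zero, one_mul] at h1
  refine MeasureTheory.Integrable.mono' (h1.mul_const ((|c - s1.re| ^ l)⁻¹))
    (kv_cont s1 l c hc hne).aestronglyMeasurable (Filter.Eventually.of_forall (fun t => ?_))
  unfold KV
  rw [norm_mul, norm_inv, norm_pow]
  have h2 : 0 < |c - s1.re| := abs_pos.2 (sub_ne_zero.2 hne)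
  refine mul_le_mul_of_nonneg_left ?_ (norm_nonneg _)
  exact inv_anti₀ (by positivity) (pow_le_pow_left₀ h2.le (kk_re_le s1 c t) l)

/-- the integral with the factor `X^(s1)` inside -/
theorem kk_inside (s1 : ℂ) (l : ℕ) (c : ℝ) (X : ℝ) (hX : 0 < X) :
    kk s1 l c X = (1 / (2 * Real.pi) : ℝ) *
      ∫ t : ℝ, KV s1 l c t * (X : ℂ) ^ (s1 - (c + t * I : ℂ)) := by
  have hX' : (X : ℂ) ≠ 0 := by exact_mod_cast hX.ne'
  unfold kk
  rw [kk_vi, ← mul_assoc, mul_comm ((X : ℂ) ^ s1), mul_assoc, ← MeasureTheory.integral_const_mul]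
  congr 2
  funext t
  rw [sub_eq_add_neg, Complex.cpow_add _ _ hX']
  ring

theorem kk_rpow_le (a X Y : ℝ) (hX : 0 < X) (hY1 : X / 2 ≤ Y) (hY2 : Y ≤ 3 * X / 2) :
    Y ^ a ≤ (X / 2) ^ a + (3 * X / 2) ^ a := by
  have hY : 0 < Y := by linarith
  have h1 : 0 ≤ (X / 2) ^ a := Real.rpow_nonneg (by linarith) _
  have h2 : 0 ≤ (3 * X / 2) ^ a := Real.rpow_nonneg (by linarith) _
  rcases le_total 0 a with ha | ha
  · have h3 := Real.rpow_le_rpow hY.le hY2 ha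
    linarith
  · have h3 := Real.rpow_le_rpow_of_nonpos (by linarith : 0 < X / 2) hY1 ha
    linarith

theorem kk_deriv (s1 : ℂ) (l : ℕ) (c : ℝ) (hc : 0 < c) (hne : c ≠ s1.re) (X : ℝ) (hX : 0 < X) :
    HasDerivAt (fun X : ℝ => kk s1 (l + 1) c X) (-(kk s1 l c X) / X) X := by
  have hcp : ∀ (Y : ℝ), 0 < Y → Continuous (fun t : ℝ => (Y : ℂ) ^ (s1 - (c + t * I : ℂ))) := by
    intro Y hY
    have hY' : (Y : ℂ) ≠ 0 := by exact_mod_cast hY.ne'
    exact Continuous.const_cpow (by fun_prop) (Or.inl hY')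
  set a : ℝ := s1.re - c - 1 with ha
  set M : ℝ := (X / 2) ^ a + (3 * X / 2) ^ a with hM
  have hball : ∀ Y ∈ Metric.ball X (X / 2), X / 2 ≤ Y ∧ Y ≤ 3 * X / 2 := by
    intro Y hY
    rw [Metric.mem_ball, Real.dist_eq, abs_lt] at hY
    constructor <;> linarith [hY.1, hY.2]
  have key := hasDerivAt_integral_of_dominated_loc_of_deriv_le (μ := MeasureTheory.volume)
    (F := fun (Y : ℝ) (t : ℝ) => KV s1 (l + 1) c t * (Y : ℂ) ^ (s1 - (c + t * I : ℂ)))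
    (F' := fun (Y : ℝ) (t : ℝ) => -(KV s1 l c t * (Y : ℂ) ^ (s1 - (c + t * I : ℂ) - 1)))
    (x₀ := X) (s := Metric.ball X (X / 2)) (bound := fun t => ‖KV s1 l c t‖ * M)
    (Metric.ball_mem_nhds X (by linarith))
    ?_ ?_ ?_ ?_ ?_ ?_
  · have h1 := key.2
    have h2 : HasDerivAt (fun Y : ℝ => ((1 / (2 * Real.pi) : ℝ) : ℂ) *
        ∫ t : ℝ, KV s1 (l + 1) c t * (Y : ℂ) ^ (s1 - (c + t * I : ℂ)))
        (((1 / (2 * Real.pi) : ℝ) : ℂ) *
          ∫ t : ℝ, -(KV s1 l c t * (X : ℂ) ^ (s1 - (c + t * I : ℂ) - 1))) X := h1.const_mul _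
    have h3 : (fun Y : ℝ => kk s1 (l + 1) c Y) =ᶠ[nhds X] (fun Y : ℝ => ((1 / (2 * Real.pi) : ℝ) : ℂ) *
        ∫ t : ℝ, KV s1 (l + 1) c t * (Y : ℂ) ^ (s1 - (c + t * I : ℂ))) := by
      filter_upwards [eventually_gt_nhds hX] with Y hY
      exact kk_inside s1 (l + 1) c Y hY
    refine (h2.congr_of_eventuallyEq h3).congr_deriv ?_
    rw [kk_inside s1 l c X hX, MeasureTheory.integral_neg, mul_neg, neg_div, mul_div_assoc,
      ← MeasureTheory.integral_div]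
    congr 3
    funext t
    have hX' : (X : ℂ) ≠ 0 := by exact_mod_cast hX.ne'
    rw [Complex.cpow_sub _ _ hX', Complex.cpow_one, mul_div_assoc]
  · filter_upwards [eventually_gt_nhds hX] with Y hY
    exact ((kv_cont s1 (l + 1) c hc hne).mul (hcp Y hY)).aestronglyMeasurable
  · refine MeasureTheory.Integrable.mono' ((kv_int s1 (l + 1) c hc hne).norm.mul_const (X ^ (s1.re - c)))
      ((kv_cont s1 (l + 1) c hc hne).mul (hcp X hX)).aestronglyMeasurable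
      (Filter.Eventually.of_forall (fun t => ?_))
    rw [norm_mul, Complex.norm_cpow_eq_rpow_re_of_pos hX]
    apply le_of_eq
    congr 2
    simp
  · have hX' : (X : ℂ) ≠ 0 := by exact_mod_cast hX.ne'
    have h1 : Continuous (fun t : ℝ => (X : ℂ) ^ (s1 - (c + t * I : ℂ) - 1)) :=
      Continuous.const_cpow (by fun_prop) (Or.inl hX')
    exact ((kv_cont s1 l c hc hne).mul h1).neg.aestronglyMeasurable
  · refine Filter.Eventually.of_forall (fun t Y hY => ?_)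
    obtain ⟨h1, h2⟩ := hball Y hY
    have hY0 : 0 < Y := by linarith
    rw [norm_neg, norm_mul, Complex.norm_cpow_eq_rpow_re_of_pos hY0]
    refine mul_le_mul_of_nonneg_left ?_ (norm_nonneg _)
    have h3 : (s1 - (c + t * I : ℂ) - 1).re = a := by
      rw [ha]
      simp
    rw [h3]
    exact kk_rpow_le a X Y hX h1 h2
  · exact (kv_int s1 l c hc hne).norm.mul_const M
  · refine Filter.Eventually.of_forall (fun t Y hY => ?_)
    obtain ⟨h1, h2⟩ := hball Y hY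
    have hY0 : 0 < Y := by linarith
    have hne' : s1 - (c + t * I : ℂ) ≠ 0 := by
      have h3 := kk_ne s1 c hne t
      intro h4
      apply h3
      linear_combination -h4
    have hd := (Complex.hasStrictDerivAt_cpow_const (x := (Y : ℂ)) (c := s1 - (c + t * I : ℂ))
      (Complex.ofReal_mem_slitPlane.2 hY0)).hasDerivAt.comp_ofReal
    refine (hd.const_mul (KV s1 (l + 1) c t)).congr_deriv ?_
    have h5 := kk_ne s1 c hne t
    unfold KV
    rw [pow_succ]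
    field_simp
    ring

end Pool.Agent.H39.Pol
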