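import Mathlib
import Pool.Agent.H39.Pol.ResA

/-!
# RESD: the simple pole

`d(X) = kk s1 1 c2 X - kk s1 1 c1 X` has derivative `-(kk s1 0 c2 X - kk s1 0 c1 X)/X = 0` on `(0,∞)`
(`kk_deriv`, `kk_zero`), so `d` is constant there (`IsOpen.is_const_of_deriv_eq_zero` or
`Convex.is_const_of_fderivWithin_eq_zero` on the convex set `Ioi 0`).  Its value: `kk s1 1 c1 X → 0` for
`X → 0+` (`kk_bound`, `Re s1 - c1 > 0`), `kk s1 1 c2 X → 0` for `X → ∞` (`Re s1 - c2 < 0`), and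
`(kk s1 1 c2)'(X) = -X^(s1-1) e^(-X)`, so for `0 < a`:
`kk s1 1 c2 a = ∫_{Ioi a} X^(s1-1) e^(-X) dX` (`MeasureTheory.integral_Ioi_of_hasDerivAt_of_tendsto`; integrability
from `Complex.GammaIntegral_convergent`, `Re s1 > 0`, restricted to `Ioi a`).  For `a → 0+` this tends to
`∫_{Ioi 0} = Γ(s1)` (`Complex.Gamma_eq_integral`, `Complex.GammaIntegral`;
`MeasureTheory.intervalIntegral_tendsto_integral_Ioi`-type lemma or dominated convergence / continuity of
the integral: `∫_{Ioi a} = ∫_{Ioi 0} - ∫_{Ioc 0 a}` and `∫_{Ioc 0 a} → 0`).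
-/

set_option autoImplicit false

namespace Pool.Agent.H39.Pol

open Complex Filter Topology Pool.Agent.H11.Selberg Pool.Agent.H11.SC

private theorem kk_one_deriv (s1 : ℂ) (c : ℝ) (hc : 0 < c) (hne : c ≠ s1.re) (X : ℝ) (hX : 0 < X) :
    HasDerivAt (fun X : ℝ => kk s1 1 c X) (-(((Real.exp (-X) : ℝ) : ℂ) * (X : ℂ) ^ (s1 - 1))) X := by
  have h := kk_deriv s1 0 c hc hne X hX
  rw [kk_zero s1 c hc X hX] at h
  have hX0 : (X : ℂ) ≠ 0 := by exact_mod_cast hX.ne'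
  have e : -((X : ℂ) ^ s1 * ((Real.exp (-X) : ℝ) : ℂ)) / X =
      -(((Real.exp (-X) : ℝ) : ℂ) * (X : ℂ) ^ (s1 - 1)) := by
    rw [cpow_sub _ _ hX0, cpow_one]
    field_simp
  rw [e] at h
  exact h

theorem kk_one (s1 : ℂ) (c1 c2 : ℝ) (h1 : 0 < c1) (h2 : c1 < s1.re) (h3 : s1.re < c2) (X : ℝ)
    (hX : 0 < X) : kk s1 1 c2 X - kk s1 1 c1 X = Gamma s1 := by
  have hs : 0 < s1.re := h1.trans h2
  have hc2 : 0 < c2 := hs.trans h3
  have hd1 := kk_one_deriv s1 c1 h1 h2.ne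
  have hd2 := kk_one_deriv s1 c2 hc2 h3.ne'
  have hG : MeasureTheory.IntegrableOn
      (fun x : ℝ => ((Real.exp (-x) : ℝ) : ℂ) * (x : ℂ) ^ (s1 - 1)) (Set.Ioi 0) :=
    Complex.GammaIntegral_convergent hs
  -- the difference is constant
  have hconst : ∀ a : ℝ, 0 < a → kk s1 1 c2 a - kk s1 1 c1 a = kk s1 1 c2 X - kk s1 1 c1 X := by
    intro a ha
    have hdd : ∀ x ∈ Set.Ioi (0 : ℝ), HasDerivAt (fun x : ℝ => kk s1 1 c2 x - kk s1 1 c1 x) 0 x := by
      intro x hx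
      have := (hd2 x hx).sub (hd1 x hx)
      rwa [sub_self] at this
    exact isOpen_Ioi.is_const_of_deriv_eq_zero isPreconnected_Ioi
      (fun x hx => (hdd x hx).differentiableAt.differentiableWithinAt)
      (fun x hx => (hdd x hx).deriv) ha hX
  -- the limit of the second term at zero
  have hlim1 : Tendsto (fun a : ℝ => kk s1 1 c1 a) (𝓝[>] 0) (𝓝 0) := by
    obtain ⟨C, hC⟩ := kk_bound s1 1 c1 h1 h2.ne
    refine squeeze_zero_norm' (a := fun a : ℝ => C * a ^ (s1.re - c1)) ?_ ?_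
    · filter_upwards [self_mem_nhdsWithin] with a ha
      exact hC a ha
    · have h4 : Tendsto (fun a : ℝ => a ^ (s1.re - c1)) (𝓝 0) (𝓝 ((0 : ℝ) ^ (s1.re - c1))) :=
        (Real.continuousAt_rpow_const 0 (s1.re - c1) (Or.inr (by linarith))).tendsto
      rw [Real.zero_rpow (by linarith)] at h4
      have h5 := (h4.const_mul C).mono_left (nhdsWithin_le_nhds (s := Set.Ioi (0 : ℝ)))
      rwa [mul_zero] at h5
  -- the limit of the first term at infinity
  have hlim2 : Tendsto (fun a : ℝ => kk s1 1 c2 a) atTop (𝓝 0) := by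
    obtain ⟨C, hC⟩ := kk_bound s1 1 c2 hc2 h3.ne'
    refine squeeze_zero_norm' (a := fun a : ℝ => C * a ^ (s1.re - c2)) ?_ ?_
    · filter_upwards [eventually_gt_atTop 0] with a ha
      exact hC a ha
    · have h4 : Tendsto (fun a : ℝ => a ^ (-(c2 - s1.re))) atTop (𝓝 0) :=
        tendsto_rpow_neg_atTop (by linarith)
      rw [neg_sub] at h4
      have h5 := h4.const_mul C
      rwa [mul_zero] at h5
  -- the first term as an integral
  have hint : ∀ a : ℝ, 0 < a →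
      kk s1 1 c2 a = ∫ x in Set.Ioi a, ((Real.exp (-x) : ℝ) : ℂ) * (x : ℂ) ^ (s1 - 1) := by
    intro a ha
    have h6 := MeasureTheory.integral_Ioi_of_hasDerivAt_of_tendsto (a := a)
      (hd2 a ha).continuousAt.continuousWithinAt
      (fun x hx => hd2 x (ha.trans hx)) ((hG.mono_set (Set.Ioi_subset_Ioi ha.le)).neg) hlim2
    rw [MeasureTheory.integral_neg] at h6
    have h7 := congrArg Neg.neg h6
    rw [neg_neg, zero_sub, neg_neg] at h7
    exact h7.symm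
  have hGi : Gamma s1 = ∫ x in Set.Ioi (0 : ℝ), ((Real.exp (-x) : ℝ) : ℂ) * (x : ℂ) ^ (s1 - 1) :=
    Complex.Gamma_eq_integral hs
  have hsplit : ∀ a : ℝ, 0 < a →
      kk s1 1 c2 a = Gamma s1 - ∫ x in Set.Ioc 0 a, ((Real.exp (-x) : ℝ) : ℂ) * (x : ℂ) ^ (s1 - 1) := by
    intro a ha
    rw [hint a ha, hGi, ← Set.Ioc_union_Ioi_eq_Ioi ha.le,
      MeasureTheory.setIntegral_union (Set.Ioc_disjoint_Ioi le_rfl) measurableSet_Ioi
        (hG.mono_set Set.Ioc_subset_Ioi_self) (hG.mono_set (Set.Ioi_subset_Ioi ha.le))]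
    ring
  have hlim3 : Tendsto (fun a : ℝ => ∫ x in Set.Ioc 0 a, ((Real.exp (-x) : ℝ) : ℂ) * (x : ℂ) ^ (s1 - 1))
      (𝓝[>] 0) (𝓝 0) := by
    have h8 : MeasureTheory.IntegrableOn
        (fun x : ℝ => ((Real.exp (-x) : ℝ) : ℂ) * (x : ℂ) ^ (s1 - 1)) (Set.Icc 0 1) := by
      rw [integrableOn_Icc_iff_integrableOn_Ioc]
      exact hG.mono_set Set.Ioc_subset_Ioi_self
    have h9 := intervalIntegral.continuousOn_primitive h8 0 (Set.left_mem_Icc.mpr zero_le_one)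
    have h10 : 𝓝[>] (0 : ℝ) ≤ 𝓝[Set.Icc 0 1] 0 := by
      rw [← nhdsWithin_Ioc_eq_nhdsGT (zero_lt_one : (0 : ℝ) < 1)]
      exact nhdsWithin_mono _ Set.Ioc_subset_Icc_self
    have h11 := h9.tendsto.mono_left h10
    simpa using h11
  have hfinal : Tendsto (fun a : ℝ => kk s1 1 c2 a - kk s1 1 c1 a) (𝓝[>] 0) (𝓝 (Gamma s1)) := by
    have h12 := ((tendsto_const_nhds (x := Gamma s1)).sub hlim3).sub hlim1
    rw [sub_zero, sub_zero] at h12
    refine h12.congr' ?_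
    filter_upwards [self_mem_nhdsWithin] with a ha
    rw [hsplit a ha]
  have hconst' : Tendsto (fun a : ℝ => kk s1 1 c2 a - kk s1 1 c1 a) (𝓝[>] 0)
      (𝓝 (kk s1 1 c2 X - kk s1 1 c1 X)) := by
    refine tendsto_const_nhds.congr' ?_
    filter_upwards [self_mem_nhdsWithin] with a ha
    exact (hconst a ha).symm
  exact tendsto_nhds_unique hconst' hfinal

end Pool.Agent.H39.Pol
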