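import Mathlib
import Pool.Agent.H39.Pol.ResD

/-!
# RES: the residue of `Γ(s) (s - s1)^(-l) (2πx)^(-s)` at `s1`, through vertical integrals

Put `d_l(X) = kk s1 l c2 X - kk s1 l c1 X`.  Claim: for `l ≥ 1` there is a polynomial `P_l` over `ℂ`,
`natDegree P_l ≤ l - 1`, `P_l.coeff (l-1) ≠ 0`, `d_l(X) = P_l(log X)` for `X > 0`.
`l = 1`: `kk_one`, `P_1 = C (Γ(s1))`, `Complex.Gamma_ne_zero_of_re_pos`.
Step: `X d_{l+1}'(X) = - d_l(X) = - P_l(log X)` (`kk_deriv`).  Let `A` be the antiderivative of `-P_l`,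
`A = ∑_{i ≤ l-1} -(P_l)_i/(i+1) X^(i+1)` (`natDegree ≤ l`, coefficient of `X^l` is `-(P_l)_(l-1)/l ≠ 0`);
`d_{l+1}(X) - A(log X)` has derivative `0` on `(0,∞)`, so it is a constant `K`; `P_{l+1} = A + C K`.
Finally `VI (KV s1 l c) c x = (2πx)^(-s1) kk s1 l c (2πx)` (`cpow_neg`, `(2πx)^(s1) ≠ 0`).
-/

set_option autoImplicit false

namespace Pool.Agent.H39.Pol

open Complex Filter Topology Pool.Agent.H11.Selberg Pool.Agent.H11.SC

/-- the antiderivative of `-P` -/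
noncomputable def antiP (l : ℕ) (P : Polynomial ℂ) : Polynomial ℂ :=
  ∑ i ∈ Finset.range l, Polynomial.monomial (i + 1) (-(P.coeff i) / ((i : ℂ) + 1))

theorem antiP_derivative (l : ℕ) (P : Polynomial ℂ) (hP : P.natDegree < l) :
    Polynomial.derivative (antiP l P) = -P := by
  have h1 : ∀ i : ℕ, Polynomial.derivative
      (Polynomial.monomial (i + 1) (-(P.coeff i) / ((i : ℂ) + 1))) =
      -Polynomial.monomial i (P.coeff i) := by
    intro i
    rw [Polynomial.derivative_monomial]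
    have h2 : ((i : ℂ) + 1) ≠ 0 := Nat.cast_add_one_ne_zero i
    have h3 : -(P.coeff i) / ((i : ℂ) + 1) * ((i + 1 : ℕ) : ℂ) = -(P.coeff i) := by
      push_cast
      field_simp
    rw [h3, Nat.add_sub_cancel, map_neg]
  rw [antiP, Polynomial.derivative_sum, Finset.sum_congr rfl (fun i _ => h1 i),
    Finset.sum_neg_distrib, ← Polynomial.as_sum_range' P l hP]

theorem antiP_natDegree (l : ℕ) (P : Polynomial ℂ) : (antiP l P).natDegree ≤ l := by
  refine Polynomial.natDegree_sum_le_of_forall_le _ _ fun i hi => ?_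
  have := Finset.mem_range.mp hi
  exact (Polynomial.natDegree_monomial_le _).trans (by omega)

theorem antiP_coeff (l : ℕ) (hl : 1 ≤ l) (P : Polynomial ℂ) :
    (antiP l P).coeff l = -(P.coeff (l - 1)) / (((l - 1 : ℕ) : ℂ) + 1) := by
  rw [antiP, Polynomial.finsetSum_coeff, Finset.sum_eq_single (l - 1)]
  · rw [Polynomial.coeff_monomial, if_pos (by omega)]
  · intro i _ hi
    rw [Polynomial.coeff_monomial, if_neg (by omega)]
  · intro h
    exact absurd (Finset.mem_range.mpr (by omega)) h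

theorem kk_formula (s1 : ℂ) (c1 c2 : ℝ) (h1 : 0 < c1) (h2 : c1 < s1.re) (h3 : s1.re < c2)
    (l : ℕ) (hl : 1 ≤ l) :
    ∃ P : Polynomial ℂ, P.natDegree ≤ l - 1 ∧ P.coeff (l - 1) ≠ 0 ∧
      ∀ X : ℝ, 0 < X → kk s1 l c2 X - kk s1 l c1 X = P.eval ((Real.log X : ℝ) : ℂ) := by
  induction l, hl using Nat.le_induction with
  | base =>
    refine ⟨Polynomial.C (Gamma s1), ?_, ?_, ?_⟩
    · rw [Polynomial.natDegree_C]
    · rw [Nat.sub_self, Polynomial.coeff_C_zero]
      exact Complex.Gamma_ne_zero_of_re_pos (h1.trans h2)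
    · intro X hX
      rw [Polynomial.eval_C]
      exact kk_one s1 c1 c2 h1 h2 h3 X hX
  | succ l hl ih =>
    obtain ⟨P, hP1, hP2, hP3⟩ := ih
    have hdeg : P.natDegree < l := by omega
    let g : ℝ → ℂ := fun X => (kk s1 (l + 1) c2 X - kk s1 (l + 1) c1 X) -
      (antiP l P).eval ((Real.log X : ℝ) : ℂ)
    have hg : ∀ X : ℝ, 0 < X → HasDerivAt g 0 X := by
      intro X hX
      have e1 := kk_deriv s1 l c2 ((h1.trans h2).trans h3) h3.ne' X hX
      have e2 := kk_deriv s1 l c1 h1 h2.ne X hX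
      have e3 : HasDerivAt (fun X : ℝ => ((Real.log X : ℝ) : ℂ)) ((X⁻¹ : ℝ) : ℂ) X :=
        (Real.hasDerivAt_log hX.ne').ofReal_comp
      have e4 : HasDerivAt (fun X : ℝ => (antiP l P).eval ((Real.log X : ℝ) : ℂ))
          ((Polynomial.derivative (antiP l P)).eval ((Real.log X : ℝ) : ℂ) * ((X⁻¹ : ℝ) : ℂ)) X := by
        have e7 := (antiP l P).hasDerivAt ((Real.log X : ℝ) : ℂ)
        exact HasDerivAt.comp (h₂ := fun z : ℂ => (antiP l P).eval z) X e7 e3
      have e5 := (e1.sub e2).sub e4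
      have e6 : -(kk s1 l c2 X) / X - -(kk s1 l c1 X) / X -
          (Polynomial.derivative (antiP l P)).eval ((Real.log X : ℝ) : ℂ) * ((X⁻¹ : ℝ) : ℂ) = 0 := by
        rw [antiP_derivative l P hdeg, Polynomial.eval_neg, ← hP3 X hX, Complex.ofReal_inv]
        ring
      rw [e6] at e5
      exact e5
    have hconst : ∀ X : ℝ, 0 < X → g X = g 1 := by
      intro X hX
      refine IsOpen.is_const_of_deriv_eq_zero isOpen_Ioi (convex_Ioi (0 : ℝ)).isPreconnected
        (fun Y hY => (hg Y hY).differentiableAt.differentiableWithinAt)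
        (fun Y hY => (hg Y hY).deriv) hX (Set.mem_Ioi.mpr one_pos)
    refine ⟨antiP l P + Polynomial.C (g 1), ?_, ?_, ?_⟩
    · rw [Nat.add_sub_cancel]
      refine (Polynomial.natDegree_add_le _ _).trans (max_le (antiP_natDegree l P) ?_)
      rw [Polynomial.natDegree_C]
      exact Nat.zero_le _
    · rw [Nat.add_sub_cancel, Polynomial.coeff_add, antiP_coeff l hl, Polynomial.coeff_C,
        if_neg (by omega), add_zero]
      exact div_ne_zero (neg_ne_zero.mpr hP2) (Nat.cast_add_one_ne_zero _)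
    · intro X hX
      rw [Polynomial.eval_add, Polynomial.eval_C, ← hconst X hX]
      simp only [g]
      ring

theorem VI_eq_kk (s1 : ℂ) (l : ℕ) (c : ℝ) (x : ℝ) (hx : 0 < x) :
    VI (KV s1 l c) c x = ((2 * Real.pi * x : ℝ) : ℂ) ^ (-s1) * kk s1 l c (2 * Real.pi * x) := by
  have hpi : (0 : ℝ) < 2 * Real.pi := by positivity
  have h1 : 2 * Real.pi * x / (2 * Real.pi) = x := by field_simp
  have h2 : ((2 * Real.pi * x : ℝ) : ℂ) ≠ 0 := by
    exact_mod_cast (mul_pos hpi hx).ne'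
  have h3 : ((2 * Real.pi * x : ℝ) : ℂ) ^ s1 ≠ 0 := by
    rw [Ne, cpow_eq_zero_iff]
    exact fun h => h2 h.1
  rw [kk, h1, cpow_neg, ← mul_assoc, inv_mul_cancel₀ h3, one_mul]

theorem res_formula (s1 : ℂ) (c1 c2 : ℝ) (h1 : 0 < c1) (h2 : c1 < s1.re) (h3 : s1.re < c2)
    (l : ℕ) (hl : 1 ≤ l) :
    ∃ P : Polynomial ℂ, P.natDegree ≤ l - 1 ∧ P.coeff (l - 1) ≠ 0 ∧
      ∀ x : ℝ, 0 < x → VI (KV s1 l c2) c2 x - VI (KV s1 l c1) c1 x =
        ((2 * Real.pi * x : ℝ) : ℂ) ^ (-s1) * P.eval ((Real.log (2 * Real.pi * x) : ℝ) : ℂ) := by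
  obtain ⟨P, hP1, hP2, hP3⟩ := kk_formula s1 c1 c2 h1 h2 h3 l hl
  refine ⟨P, hP1, hP2, fun x hx => ?_⟩
  rw [VI_eq_kk s1 l c2 x hx, VI_eq_kk s1 l c1 x hx, ← mul_sub, hP3 _ (by positivity)]

end Pool.Agent.H39.Pol
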