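import Mathlib
import Pool.Agent.H39.Pol.Ent
import Pool.Agent.H39.Pol.Res
import Pool.Agent.H39.Pol.JFP
import Pool.Agent.H11.SC.VShift
import Pool.Agent.H11.SC.GamB

/-!
# KFP: contour shift to `Re s = -η` across the pole

`s0 = 1 + iθ`, `s1 = m + s0`, `F(w) = ∑_{i<N} r_i (w-s0)^(i-N) + E(w)` for `w ≠ s0` (divide the formula of
`entire_part` by `(w-s0)^N`, `h.Geq`), `r_0 = G(s0) ≠ 0`.
`gs_VI` (JFP) with `c = c2 = m + 2` gives `gs a m x = VI (F(2+it) Γ(m+2+it)) (m+2) x`.  Split: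
`VI_{c}(F Γ) = VI_c(E(w-m) Γ(w)) + ∑ r_i VI_c(KV s1 (N-i) c)` for `c = m+2` and for
`c = c1 = m - η` (all integrals converge: `gamma_int`, `E_strip`, `‖(w - s1)^l‖ ≥ |c - Re s1|^l > 0`;
linearity as in `VI_lin` of H11/SC/IdX).  The integrals with `E` agree (`vertical_shift`, bound as in
H11/SC/KF with `N + 2` in place of `2`).  Hence
`gs a m x = VI (F(-η+it) Γ(m-η+it)) (m-η) x + ∑_{i<N} r_i (VI (KV s1 (N-i) c2) c2 x - VI (KV s1 (N-i) c1) c1 x)`
and `res_formula` gives `P_{N-i}`; `R = ∑_{i<N} r_i P_{N-i}`; the coefficient of `X^(N-1)` comes from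
`i = 0` only, because `natDegree P_{N-i} ≤ N-i-1 < N-1` for `i ≥ 1`.
-/

set_option autoImplicit false

namespace Pool.Agent.H39.Pol

open Complex Pool.Agent.H11.Selberg Pool.Agent.H11.SC

variable {a : ℕ → ℂ} {F : ℂ → ℂ} {Q : ℝ} {k : ℕ} {lam : Fin k → ℝ} {mu : Fin k → ℂ} {ε : ℂ}
  {θ : ℝ} {N : ℕ} {G : ℂ → ℂ}

/-- powers are dominated by exponentials -/
private theorem pow_le_exp (N : ℕ) (u : ℝ) (hu : 0 ≤ u) :
    (1 + u) ^ N ≤ (N.factorial * 2 ^ N * Real.exp (1 / 2)) * Real.exp (u / 2) := by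
  have h1 := Real.pow_div_factorial_le_exp ((1 + u) / 2) (by linarith) N
  rw [div_le_iff₀ (by positivity)] at h1
  have h2 : (1 + u) ^ N = ((1 + u) / 2) ^ N * 2 ^ N := by
    rw [← mul_pow]
    congr 1
    ring
  have h3 : Real.exp ((1 + u) / 2) = Real.exp (1 / 2) * Real.exp (u / 2) := by
    rw [← Real.exp_add]
    congr 1
    ring
  rw [h2]
  calc ((1 + u) / 2) ^ N * 2 ^ N ≤ (Real.exp ((1 + u) / 2) * N.factorial) * 2 ^ N :=
        mul_le_mul_of_nonneg_right h1 (by positivity)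
    _ = _ := by
        rw [h3]
        ring

/-- the power has constant norm on the line -/
private theorem VI_int (c x : ℝ) (hx : 0 < x) {g : ℝ → ℂ} (hg : MeasureTheory.Integrable g) :
    MeasureTheory.Integrable
      (fun t : ℝ => g t * (2 * (Real.pi : ℂ) * (x : ℂ)) ^ (-(c + t * I : ℂ))) := by
  have hpx : 0 < 2 * Real.pi * x := by positivity
  have e : (2 * (Real.pi : ℂ) * (x : ℂ)) = ((2 * Real.pi * x : ℝ) : ℂ) := by push_cast; ring
  have hc : Continuous (fun t : ℝ => (2 * (Real.pi : ℂ) * (x : ℂ)) ^ (-(c + t * I : ℂ))) := by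
    refine Continuous.const_cpow (by fun_prop) (Or.inl ?_)
    rw [e]
    exact_mod_cast hpx.ne'
  refine MeasureTheory.Integrable.mono' (hg.norm.mul_const ((2 * Real.pi * x) ^ (-c)))
    (hg.aestronglyMeasurable.mul hc.aestronglyMeasurable)
    (Filter.Eventually.of_forall (fun t => ?_))
  rw [norm_mul, e, Complex.norm_cpow_eq_rpow_re_of_pos hpx]
  apply le_of_eq
  congr 2
  simp

/-- linearity -/
private theorem VI_sum (c x : ℝ) (hx : 0 < x) (N : ℕ) (r : ℕ → ℂ) {L g0 : ℝ → ℂ}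
    {g : ℕ → ℝ → ℂ} (hL : ∀ t, L t = g0 t + ∑ i ∈ Finset.range N, r i * g i t)
    (i0 : MeasureTheory.Integrable g0) (ig : ∀ i < N, MeasureTheory.Integrable (g i)) :
    VI L c x = VI g0 c x + ∑ i ∈ Finset.range N, r i * VI (g i) c x := by
  have e1 : ∀ t : ℝ, L t * (2 * (Real.pi : ℂ) * (x : ℂ)) ^ (-(c + t * I : ℂ)) =
      g0 t * (2 * (Real.pi : ℂ) * (x : ℂ)) ^ (-(c + t * I : ℂ)) +
        ∑ i ∈ Finset.range N, r i * (g i t * (2 * (Real.pi : ℂ) * (x : ℂ)) ^ (-(c + t * I : ℂ))) := by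
    intro t
    rw [hL t, add_mul, Finset.sum_mul]
    congr 1
    refine Finset.sum_congr rfl (fun i _ => ?_)
    ring
  have i1 : ∀ i ∈ Finset.range N, MeasureTheory.Integrable
      (fun t : ℝ => r i * (g i t * (2 * (Real.pi : ℂ) * (x : ℂ)) ^ (-(c + t * I : ℂ)))) :=
    fun i hi => (VI_int c x hx (ig i (Finset.mem_range.1 hi))).const_mul _
  unfold VI
  simp only [e1]
  rw [MeasureTheory.integral_add (VI_int c x hx i0) (MeasureTheory.integrable_finsetSum _ i1),
    MeasureTheory.integral_finsetSum _ i1, mul_add, Finset.mul_sum]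
  congr 1
  refine Finset.sum_congr rfl (fun i _ => ?_)
  rw [MeasureTheory.integral_const_mul]
  ring

theorem kfp_gam_diff {w : ℂ} (hw : 0 < w.re) : DifferentiableAt ℂ Gamma w := by
  refine Complex.differentiableAt_Gamma w (fun n hn => ?_)
  rw [hn] at hw
  simp only [neg_re, natCast_re] at hw
  have : (0 : ℝ) ≤ n := Nat.cast_nonneg n
  linarith

/-- the shift for the entire part -/
theorem kfp_shift (m : ℕ) (hm : 1 ≤ m) (η x : ℝ) (hη : 0 < η) (hη1 : η < 1 / 2) (hx : 0 < x)
    (N : ℕ) (E : ℂ → ℂ) (hE : Differentiable ℂ E) (C1 : ℝ)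
    (hC1 : ∀ s : ℂ, -η ≤ s.re → s.re ≤ 2 → ‖E s‖ ≤ C1 * (1 + |s.im|) ^ (N + 2)) :
    VI (fun t => E (((m - η : ℝ) : ℂ) + t * I - m) * Gamma (((m - η : ℝ) : ℂ) + t * I)) (m - η) x =
    VI (fun t => E (((m + 2 : ℝ) : ℂ) + t * I - m) * Gamma (((m + 2 : ℝ) : ℂ) + t * I)) (m + 2) x := by
  have hm1 : (1 : ℝ) ≤ m := by exact_mod_cast hm
  obtain ⟨C2, hC2⟩ := gamma_bound (m - η) (m + 2) (by linarith)
  have hpx : 0 < 2 * Real.pi * x := by positivity
  have hbase : (2 * (Real.pi : ℂ) * (x : ℂ)) = ((2 * Real.pi * x : ℝ) : ℂ) := by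
    push_cast
    ring
  have hbase0 : (2 * (Real.pi : ℂ) * (x : ℂ)) ≠ 0 := by
    rw [hbase]
    exact_mod_cast hpx.ne'
  set f : ℂ → ℂ := fun w => E (w - m) * Gamma w * (2 * (Real.pi : ℂ) * x) ^ (-w) with hf
  set L : ℝ := |Real.log (2 * Real.pi * x)| with hL
  set C : ℝ := |C1| * (|C2| * ((m + (N + 4)).factorial * 2 ^ (m + (N + 4)) * Real.exp (1 / 2))) *
    Real.exp ((m + 2) * L) with hC
  have hshift := vertical_shift f (m - η) (m + 2) (by linarith) (by
    intro w hw1 hw2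
    have h1 : DifferentiableAt ℂ (fun w : ℂ => E (w - m)) w :=
      (hE _).comp w (differentiableAt_id.sub_const _)
    have h2 : DifferentiableAt ℂ Gamma w := kfp_gam_diff (by linarith)
    have h3 : DifferentiableAt ℂ (fun w : ℂ => (2 * (Real.pi : ℂ) * x) ^ (-w)) w :=
      differentiableAt_id.neg.const_cpow (Or.inl hbase0)
    exact (h1.mul h2).mul h3) C 1 one_pos (by
    intro w hw1 hw2
    have hF := hC1 (w - m) (by simp only [sub_re, natCast_re]; linarith)
      (by simp only [sub_re, natCast_re]; linarith)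
    have him : (w - (m : ℂ)).im = w.im := by simp
    rw [him] at hF
    have hG := hC2 w.re w.im hw1 hw2
    rw [re_add_im] at hG
    have hu : 0 ≤ |w.im| := abs_nonneg _
    have hu1 : 1 ≤ 1 + |w.im| := by linarith
    have hGe : (1 + |w.im|) ^ (w.re - 1 / 2) ≤ (1 + |w.im|) ^ (m + 2) := by
      rw [← Real.rpow_natCast]
      refine Real.rpow_le_rpow_of_exponent_le hu1 ?_
      push_cast
      linarith
    have hG' : ‖Gamma w‖ ≤ |C2| * (1 + |w.im|) ^ (m + 2) * Real.exp (-(Real.pi / 2 * |w.im|)) := by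
      refine hG.trans ?_
      refine mul_le_mul_of_nonneg_right ?_ (Real.exp_pos _).le
      exact mul_le_mul (le_abs_self _) hGe (by positivity) (abs_nonneg _)
    have hF' : ‖E (w - m)‖ ≤ |C1| * (1 + |w.im|) ^ (N + 2) :=
      hF.trans (mul_le_mul_of_nonneg_right (le_abs_self _) (by positivity))
    have hP : ‖(2 * (Real.pi : ℂ) * x) ^ (-w)‖ ≤ Real.exp ((m + 2) * L) := by
      rw [hbase, Complex.norm_cpow_eq_rpow_re_of_pos hpx, Real.rpow_def_of_pos hpx]
      apply Real.exp_le_exp.2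
      rw [neg_re]
      have h1 : Real.log (2 * Real.pi * x) * -w.re ≤ |Real.log (2 * Real.pi * x)| * |w.re| := by
        calc _ ≤ |Real.log (2 * Real.pi * x) * -w.re| := le_abs_self _
          _ = _ := by rw [abs_mul, abs_neg]
      have h2 : |w.re| ≤ m + 2 := by
        rw [abs_of_nonneg (by linarith)]
        exact hw2
      have h3 := mul_le_mul_of_nonneg_left h2 (abs_nonneg (Real.log (2 * Real.pi * x)))
      rw [hL]
      linarith
    have hpe := pow_le_exp (m + (N + 4)) |w.im| hu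
    have hexp : Real.exp (|w.im| / 2) * Real.exp (-(Real.pi / 2 * |w.im|)) ≤
        Real.exp (-(1 * |w.im|)) := by
      rw [← Real.exp_add]
      apply Real.exp_le_exp.2
      have := Real.pi_gt_three
      nlinarith
    rw [hf]
    simp only
    rw [norm_mul, norm_mul]
    calc ‖E (w - m)‖ * ‖Gamma w‖ * ‖(2 * (Real.pi : ℂ) * x) ^ (-w)‖
        ≤ (|C1| * (1 + |w.im|) ^ (N + 2)) * (|C2| * (1 + |w.im|) ^ (m + 2) *
            Real.exp (-(Real.pi / 2 * |w.im|))) * Real.exp ((m + 2) * L) := by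
          refine mul_le_mul (mul_le_mul hF' hG' (norm_nonneg _) (by positivity)) hP
            (norm_nonneg _) (by positivity)
      _ = |C1| * |C2| * Real.exp ((m + 2) * L) * ((1 + |w.im|) ^ (m + (N + 4)) *
            Real.exp (-(Real.pi / 2 * |w.im|))) := by
          have : (1 + |w.im|) ^ (m + (N + 4)) = (1 + |w.im|) ^ (N + 2) * (1 + |w.im|) ^ (m + 2) := by
            rw [← pow_add]
            congr 1
            ring
          rw [this]
          ring
      _ ≤ |C1| * |C2| * Real.exp ((m + 2) * L) *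
            (((m + (N + 4)).factorial * 2 ^ (m + (N + 4)) * Real.exp (1 / 2)) *
              Real.exp (-(1 * |w.im|))) := by
          refine mul_le_mul_of_nonneg_left ?_ (by positivity)
          calc (1 + |w.im|) ^ (m + (N + 4)) * Real.exp (-(Real.pi / 2 * |w.im|))
              ≤ (((m + (N + 4)).factorial * 2 ^ (m + (N + 4)) * Real.exp (1 / 2)) *
                  Real.exp (|w.im| / 2)) *
                Real.exp (-(Real.pi / 2 * |w.im|)) :=
                mul_le_mul_of_nonneg_right hpe (Real.exp_pos _).le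
            _ = ((m + (N + 4)).factorial * 2 ^ (m + (N + 4)) * Real.exp (1 / 2)) *
                (Real.exp (|w.im| / 2) * Real.exp (-(Real.pi / 2 * |w.im|))) := by ring
            _ ≤ _ := mul_le_mul_of_nonneg_left hexp (by positivity)
      _ = C * Real.exp (-(1 * |w.im|)) := by
          rw [hC]
          ring)
  unfold VI
  congr 1

/-- integrability of the entire part -/
theorem kfp_int (m : ℕ) (η c : ℝ) (hc : 0 < c) (hc1 : (m : ℝ) - η ≤ c) (hc2 : c ≤ m + 2)
    (N : ℕ) (E : ℂ → ℂ) (hE : Differentiable ℂ E) (C1 : ℝ)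
    (hC1 : ∀ s : ℂ, -η ≤ s.re → s.re ≤ 2 → ‖E s‖ ≤ C1 * (1 + |s.im|) ^ (N + 2)) :
    MeasureTheory.Integrable (fun t : ℝ => E ((c : ℂ) + t * I - m) * Gamma ((c : ℂ) + t * I)) := by
  have h1 := gamma_int c hc ((N + 2 : ℕ) : ℝ)
  have hcont : Continuous (fun t : ℝ => E ((c : ℂ) + t * I - m) * Gamma ((c : ℂ) + t * I)) := by
    refine (hE.continuous.comp (by fun_prop)).mul ?_
    rw [continuous_iff_continuousAt]
    intro t
    have h2 : DifferentiableAt ℂ Gamma ((c : ℂ) + t * I) := kfp_gam_diff (by simpa using hc)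
    exact ContinuousAt.comp (f := fun t : ℝ => (c : ℂ) + t * I) h2.continuousAt (by fun_prop)
  refine MeasureTheory.Integrable.mono' (h1.const_mul C1) hcont.aestronglyMeasurable
    (Filter.Eventually.of_forall (fun t => ?_))
  rw [norm_mul, Real.rpow_natCast, ← mul_assoc]
  refine mul_le_mul_of_nonneg_right ?_ (norm_nonneg _)
  have h2 := hC1 ((c : ℂ) + t * I - m) (by simp; linarith) (by simp; linarith)
  have h3 : ((c : ℂ) + t * I - m).im = t := by simp
  rw [h3] at h2
  exact h2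

theorem gs_VIP (h : FEqP a F Q lam mu ε θ N G) (m : ℕ) (hm : 1 ≤ m) (η : ℝ) (hη : 0 < η)
    (hη1 : η < 1 / 2) : ∃ R : Polynomial ℂ, R.natDegree ≤ N - 1 ∧ R.coeff (N - 1) ≠ 0 ∧
    ∀ x : ℝ, 0 < x →
    gs a m x = VI (fun t => F (-η + t * I) * Gamma (m - η + t * I)) (m - η) x +
      ((2 * Real.pi * x : ℝ) : ℂ) ^ (-(m + 1 + θ * I) : ℂ) *
        R.eval ((Real.log (2 * Real.pi * x) : ℝ) : ℂ) := by
  have hm1 : (1 : ℝ) ≤ m := by exact_mod_cast hm
  have hN := h.Npos
  obtain ⟨E, r, hE, hr0, hG⟩ := entire_part G h.Gdiff (1 + θ * I) N hN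
  obtain ⟨C1, hC1⟩ := E_strip h η hη hη1 E r hE hG
  set s1 : ℂ := m + 1 + θ * I with hs1
  have hs1re : s1.re = m + 1 := by
    rw [hs1]
    simp
  have hres := fun (l : ℕ) (hl : 1 ≤ l) => res_formula s1 (m - η) (m + 2) (by linarith)
    (by rw [hs1re]; linarith) (by rw [hs1re]; linarith) l hl
  choose! P hP1 hP2 hP3 using hres
  -- the decomposition on a vertical line
  have hdec : ∀ (c : ℝ), c ≠ m + 1 → ∀ t : ℝ,
      F ((c : ℂ) + t * I - m) * Gamma ((c : ℂ) + t * I) =
        E ((c : ℂ) + t * I - m) * Gamma ((c : ℂ) + t * I) +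
          ∑ i ∈ Finset.range N, r i * KV s1 (N - i) c t := by
    intro c hc t
    have hne : (c : ℂ) + t * I - m ≠ 1 + θ * I := by
      intro h0
      apply hc
      have h1 := congrArg Complex.re h0
      simp at h1
      linarith
    have hd : (c : ℂ) + t * I - s1 = (c : ℂ) + t * I - m - (1 + θ * I) := by
      rw [hs1]
      ring
    have hd0 : (c : ℂ) + t * I - m - (1 + θ * I) ≠ 0 := sub_ne_zero.2 hne
    have h1 := h.Geq _ hne
    rw [hG] at h1
    unfold KV
    rw [hd]
    set D : ℂ := (c : ℂ) + t * I - m - (1 + θ * I) with hD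
    have hDN : D ^ N ≠ 0 := pow_ne_zero _ hd0
    have h2 : F ((c : ℂ) + t * I - m) = E ((c : ℂ) + t * I - m) +
        ∑ i ∈ Finset.range N, r i * (D ^ (N - i))⁻¹ := by
      apply mul_left_cancel₀ hDN
      rw [← h1, mul_add, Finset.mul_sum, add_comm]
      congr 1
      refine Finset.sum_congr rfl (fun i hi => ?_)
      have hi' := Finset.mem_range.1 hi
      have h3 : D ^ N = D ^ i * D ^ (N - i) := by
        rw [← pow_add]
        congr 1
        omega
      have h4 : D ^ (N - i) ≠ 0 := pow_ne_zero _ hd0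
      rw [h3]
      field_simp
    rw [h2, add_mul, Finset.sum_mul]
    congr 1
    refine Finset.sum_congr rfl (fun i _ => ?_)
    ring
  have hsplit : ∀ (c : ℝ), 0 < c → (m : ℝ) - η ≤ c → c ≤ m + 2 → c ≠ m + 1 → ∀ x : ℝ, 0 < x →
      VI (fun t => F ((c : ℂ) + t * I - m) * Gamma ((c : ℂ) + t * I)) c x =
      VI (fun t => E ((c : ℂ) + t * I - m) * Gamma ((c : ℂ) + t * I)) c x +
        ∑ i ∈ Finset.range N, r i * VI (KV s1 (N - i) c) c x := by
    intro c hc0 hc1 hc2 hc3 x hx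
    refine VI_sum c x hx N r (hdec c hc3) (kfp_int m η c hc0 hc1 hc2 N E hE C1 hC1)
      (fun i _ => kv_int s1 (N - i) c hc0 ?_)
    rw [hs1re]
    exact hc3
  refine ⟨∑ i ∈ Finset.range N, Polynomial.C (r i) * P (N - i), ?_, ?_, ?_⟩
  · refine Polynomial.natDegree_sum_le_of_forall_le _ _ (fun i hi => ?_)
    have hi' := Finset.mem_range.1 hi
    refine (Polynomial.natDegree_C_mul_le _ _).trans ?_
    have := hP1 (N - i) (by omega)
    omega
  · rw [Polynomial.finsetSum_coeff, Finset.sum_eq_single 0]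
    · rw [Polynomial.coeff_C_mul, Nat.sub_zero, hr0]
      exact mul_ne_zero h.G0 (hP2 N hN)
    · intro i hi hi0
      have hi' := Finset.mem_range.1 hi
      rw [Polynomial.coeff_C_mul, Polynomial.coeff_eq_zero_of_natDegree_lt, mul_zero]
      have := hP1 (N - i) (by omega)
      omega
    · intro h0
      exact absurd (Finset.mem_range.2 (by omega)) h0
  · intro x hx
    have e2 := gs_VI h m hm (m + 2) x (by linarith) hx
    have e3 : (fun t : ℝ => F (((m + 2 : ℝ) : ℂ) - m + t * I) * Gamma (((m + 2 : ℝ) : ℂ) + t * I)) =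
        fun t : ℝ => F (((m + 2 : ℝ) : ℂ) + t * I - m) * Gamma (((m + 2 : ℝ) : ℂ) + t * I) := by
      funext t
      congr 2
      ring
    have e4 : (fun t : ℝ => F (-η + t * I) * Gamma (m - η + t * I)) =
        fun t : ℝ => F (((m - η : ℝ) : ℂ) + t * I - m) * Gamma (((m - η : ℝ) : ℂ) + t * I) := by
      funext t
      congr 2
      · push_cast
        ring
      · push_cast
        ring
    rw [e2, e3, e4, hsplit (m + 2) (by linarith) (by linarith) le_rfl (by
      intro h0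
      linarith) x hx, hsplit (m - η) (by linarith) le_rfl (by linarith) (by
      intro h0
      linarith) x hx, kfp_shift m hm η x hη hη1 hx N E hE C1 hC1, add_assoc]
    congr 1
    rw [Polynomial.eval_finsetSum, Finset.mul_sum, ← Finset.sum_add_distrib]
    refine Finset.sum_congr rfl (fun i hi => ?_)
    have hi' := Finset.mem_range.1 hi
    have h5 := hP3 (N - i) (by omega) x hx
    rw [Polynomial.eval_mul, Polynomial.eval_C]
    linear_combination (r i) * h5

end Pool.Agent.H39.Pol
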