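import Mathlib
import Pool.Agent.H39.Pol.KFP
import Pool.Agent.H39.Pol.EdgeP
import Pool.Agent.H11.SC.GamB

/-!
# IDXP: the approximate modularity identity for real `x > 0`, with a pole (port of H11/SC/IdX)
-/

set_option autoImplicit false

namespace Pool.Agent.H39.Pol

open Complex Pool.Agent.H11.Selberg Pool.Agent.H11.SC

variable {a : ℕ → ℂ} {F : ℂ → ℂ} {Q : ℝ} {k : ℕ} {lam : Fin k → ℝ} {mu : Fin k → ℂ} {ε : ℂ}
  {θ : ℝ} {N : ℕ} {G : ℂ → ℂ}

private theorem gam_cont {f : ℝ → ℂ} (hf : Continuous f) (hre : ∀ t, 0 < (f t).re) :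
    Continuous (fun t => Gamma (f t)) := by
  rw [continuous_iff_continuousAt]
  intro t
  have h1 : DifferentiableAt ℂ Gamma (f t) := by
    refine differentiableAt_Gamma _ (fun j hj => ?_)
    have h2 := congrArg Complex.re hj
    have h3 := hre t
    simp at h2
    have h4 : (0 : ℝ) ≤ j := Nat.cast_nonneg j
    linarith
  exact ContinuousAt.comp (f := f) h1.continuousAt hf.continuousAt

private theorem int_of_gam {c : ℝ} (hc : 0 < c) (A C : ℝ) {G : ℝ → ℂ} (hG : Continuous G)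
    (hb : ∀ t, ‖G t‖ ≤ C * ((1 + |t|) ^ A * ‖Gamma (c + t * I)‖)) :
    MeasureTheory.Integrable G :=
  ((gamma_int c hc A).const_mul C).mono' hG.aestronglyMeasurable
    (Filter.Eventually.of_forall hb)

private theorem VI_lin (c x : ℝ) (ω κ : ℂ) {L G1 G2 R : ℝ → ℂ}
    (hL : ∀ t, L t = ω * G1 t + ω * κ * G2 t + R t)
    (iL : MeasureTheory.Integrable
      (fun t : ℝ => L t * (2 * (Real.pi : ℂ) * (x : ℂ)) ^ (-(c + t * I : ℂ))))
    (i1 : MeasureTheory.Integrable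
      (fun t : ℝ => G1 t * (2 * (Real.pi : ℂ) * (x : ℂ)) ^ (-(c + t * I : ℂ))))
    (i2 : MeasureTheory.Integrable
      (fun t : ℝ => G2 t * (2 * (Real.pi : ℂ) * (x : ℂ)) ^ (-(c + t * I : ℂ)))) :
    VI L c x = ω * VI G1 c x + ω * κ * VI G2 c x + VI R c x := by
  have e1 : ∀ t : ℝ, R t * (2 * (Real.pi : ℂ) * (x : ℂ)) ^ (-(c + t * I : ℂ)) =
      L t * (2 * (Real.pi : ℂ) * (x : ℂ)) ^ (-(c + t * I : ℂ)) -
        (ω * (G1 t * (2 * (Real.pi : ℂ) * (x : ℂ)) ^ (-(c + t * I : ℂ))) +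
          ω * κ * (G2 t * (2 * (Real.pi : ℂ) * (x : ℂ)) ^ (-(c + t * I : ℂ)))) := by
    intro t
    rw [hL t]
    ring
  have i3 : MeasureTheory.Integrable (fun t : ℝ =>
      ω * (G1 t * (2 * (Real.pi : ℂ) * (x : ℂ)) ^ (-(c + t * I : ℂ))) +
        ω * κ * (G2 t * (2 * (Real.pi : ℂ) * (x : ℂ)) ^ (-(c + t * I : ℂ)))) :=
    (i1.const_mul ω).add (i2.const_mul (ω * κ))
  unfold VI
  simp only [e1]
  rw [MeasureTheory.integral_sub iL i3,
    MeasureTheory.integral_add (i1.const_mul ω) (i2.const_mul (ω * κ)),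
    MeasureTheory.integral_const_mul, MeasureTheory.integral_const_mul]
  ring

theorem id_real (h : FEqP a F Q lam mu ε θ N G) (m : ℕ) (hm : 2 ≤ m) (η : ℝ) (hη : 0 < η)
    (hη1 : η < 1 / 2) : ∃ R : Polynomial ℂ, R.natDegree ≤ N - 1 ∧ R.coeff (N - 1) ≠ 0 ∧
    ∀ (ω κ : ℂ) (x : ℝ), 0 < x →
    gs a m x =
      (ω * ((((Bp Q lam) ^ (1 + 2 * m) : ℝ) : ℂ)⁻¹ * (((2 * Real.pi * x) ^ (1 + m + m) : ℝ) : ℂ)⁻¹ *
        gs (cj a) m (1 / (4 * Real.pi ^ 2 * (Bp Q lam) ^ 2 * x) : ℝ)) +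
      ω * κ * ((((Bp Q lam) ^ (1 + 2 * (m - 1)) : ℝ) : ℂ)⁻¹ *
        (((2 * Real.pi * x) ^ (1 + (m - 1) + m) : ℝ) : ℂ)⁻¹ *
        gs (cj a) (m - 1) (1 / (4 * Real.pi ^ 2 * (Bp Q lam) ^ 2 * x) : ℝ)) +
      VI (fun t => rho F (Bp Q lam) η m ω κ t * Gamma (m - η + t * I)) (m - η) x) +
      ((2 * Real.pi * x : ℝ) : ℂ) ^ (-(m + 1 + θ * I) : ℂ) *
        R.eval ((Real.log (2 * Real.pi * x) : ℝ) : ℂ) := by
  have hB : 0 < Bp Q lam := by
    unfold Bp
    exact mul_pos h.Qpos (Finset.prod_pos (fun j _ => Real.rpow_pos_of_pos (h.lampos j) _))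
  have hm0 : (2 : ℝ) ≤ m := by exact_mod_cast hm
  have hc : 0 < (m : ℝ) - η := by linarith
  obtain ⟨R, hR1, hR2, hR3⟩ := gs_VIP h m (by omega) η hη hη1
  refine ⟨R, hR1, hR2, fun ω κ x hx => ?_⟩
  have hpx : 0 < 2 * Real.pi * x := by positivity
  have hBc : ((Bp Q lam : ℝ) : ℂ) ≠ 0 := by exact_mod_cast hB.ne'
  rw [hR3 x hx, ← main_term h (Bp Q lam) η x m m (by omega) hB hη hx,
    ← main_term h (Bp Q lam) η x (m - 1) m (by omega) hB hη hx]
  congr 1
  set B : ℝ := Bp Q lam with hBdef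
  have hcast : (((m : ℝ) - η : ℝ) : ℂ) = (m : ℂ) - η := by push_cast; ring
  -- the power
  have hP : ∀ t : ℝ, ‖(2 * (Real.pi : ℂ) * (x : ℂ)) ^ (-((((m : ℝ) - η : ℝ) : ℂ) + t * I))‖ =
      (2 * Real.pi * x) ^ (-((m : ℝ) - η)) := by
    intro t
    have e : (2 * (Real.pi : ℂ) * (x : ℂ)) = ((2 * Real.pi * x : ℝ) : ℂ) := by push_cast; ring
    rw [e, Complex.norm_cpow_eq_rpow_re_of_pos hpx]
    congr 1
    simp
  have hPc : Continuous (fun t : ℝ =>
      (2 * (Real.pi : ℂ) * (x : ℂ)) ^ (-((((m : ℝ) - η : ℝ) : ℂ) + t * I))) := by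
    refine Continuous.const_cpow (by fun_prop) (Or.inl ?_)
    have e : (2 * (Real.pi : ℂ) * (x : ℂ)) = ((2 * Real.pi * x : ℝ) : ℂ) := by push_cast; ring
    rw [e]
    exact_mod_cast hpx.ne'
  obtain ⟨CF, hCF⟩ := F_right h η hη
  obtain ⟨CE, hCE⟩ := F_edge h η hη
  -- integrability of the main terms
  have hmain : ∀ j : ℕ, MeasureTheory.Integrable (fun t : ℝ =>
      ((B : ℂ) ^ (1 + 2 * η - 2 * t * I : ℂ) * Gamma (1 + η - t * I + j) *
        (starRingEnd ℂ) (F (1 + η + t * I))) *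
        (2 * (Real.pi : ℂ) * (x : ℂ)) ^ (-((((m : ℝ) - η : ℝ) : ℂ) + t * I))) := by
    intro j
    have hj : 0 < 1 + η + (j : ℝ) := by positivity
    have hG : Continuous (fun t : ℝ =>
        ((B : ℂ) ^ (1 + 2 * η - 2 * t * I : ℂ) * Gamma (1 + η - t * I + j) *
          (starRingEnd ℂ) (F (1 + η + t * I))) *
          (2 * (Real.pi : ℂ) * (x : ℂ)) ^ (-((((m : ℝ) - η : ℝ) : ℂ) + t * I))) := by
      refine Continuous.mul (Continuous.mul (Continuous.mul ?_ ?_) ?_) hPc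
      · exact Continuous.const_cpow (by fun_prop) (Or.inl hBc)
      · refine gam_cont (by fun_prop) (fun t => ?_)
        simp
        positivity
      · exact Complex.continuous_conj.comp (h.cont_line (by fun_prop) (fun t => by simp [hη.ne']))
    have hneg : MeasureTheory.Integrable (fun t : ℝ =>
        (1 + |(-t)|) ^ (0 : ℝ) * ‖Gamma (((1 + η + j : ℝ) : ℂ) + ((-t : ℝ) : ℂ) * I)‖) :=
      (gamma_int (1 + η + j) hj 0).comp_neg
    refine (hneg.const_mul (B ^ (1 + 2 * η) * CF * (2 * Real.pi * x) ^ (-((m : ℝ) - η)))).mono'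
      hG.aestronglyMeasurable (Filter.Eventually.of_forall (fun t => ?_))
    rw [norm_mul, norm_mul, norm_mul, hP, RCLike.norm_conj,
      Complex.norm_cpow_eq_rpow_re_of_pos hB, Real.rpow_zero, one_mul]
    have e1 : (1 + 2 * (η : ℂ) - 2 * t * I).re = 1 + 2 * η := by simp
    have e2 : (((1 + η + j : ℝ) : ℂ) + ((-t : ℝ) : ℂ) * I) = (1 + η - t * I + j : ℂ) := by
      push_cast
      ring
    have e3 : ‖F (1 + η + t * I)‖ ≤ CF := hCF _ (by simp)
    rw [e1, e2]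
    have h1 : 0 ≤ B ^ (1 + 2 * η) := by positivity
    have h2 : 0 ≤ (2 * Real.pi * x) ^ (-((m : ℝ) - η)) := by positivity
    calc B ^ (1 + 2 * η) * ‖Gamma (1 + η - t * I + j)‖ * ‖F (1 + η + t * I)‖ *
          (2 * Real.pi * x) ^ (-((m : ℝ) - η))
        ≤ B ^ (1 + 2 * η) * ‖Gamma (1 + η - t * I + j)‖ * CF *
          (2 * Real.pi * x) ^ (-((m : ℝ) - η)) := by gcongr
      _ = _ := by ring
  -- integrability of the left side
  have hleft : MeasureTheory.Integrable (fun t : ℝ =>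
      (F (-η + t * I) * Gamma (m - η + t * I)) *
        (2 * (Real.pi : ℂ) * (x : ℂ)) ^ (-((((m : ℝ) - η : ℝ) : ℂ) + t * I))) := by
    refine int_of_gam hc (1 + 2 * η) (CE * (2 * Real.pi * x) ^ (-((m : ℝ) - η))) ?_ (fun t => ?_)
    · refine Continuous.mul (Continuous.mul ?_ ?_) hPc
      · exact h.cont_line (by fun_prop) (fun t => by simp; linarith)
      · refine gam_cont (by fun_prop) (fun t => ?_)
        simp
        linarith
    · rw [norm_mul, norm_mul, hP, hcast]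
      have h2 : 0 ≤ (2 * Real.pi * x) ^ (-((m : ℝ) - η)) := by positivity
      calc ‖F (-η + t * I)‖ * ‖Gamma (m - η + t * I)‖ * (2 * Real.pi * x) ^ (-((m : ℝ) - η))
          ≤ (CE * (1 + |t|) ^ (1 + 2 * η)) * ‖Gamma (m - η + t * I)‖ *
            (2 * Real.pi * x) ^ (-((m : ℝ) - η)) := by
            gcongr
            exact hCE t
        _ = _ := by ring
  refine VI_lin ((m : ℝ) - η) x ω κ (fun t => ?_) hleft (hmain m) (hmain (m - 1))
  -- the pointwise identity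
  have hg0 : Gamma ((m : ℂ) - η + t * I) ≠ 0 := by
    refine Complex.Gamma_ne_zero_of_re_pos ?_
    simp
    linarith
  have hnat : ((m - 1 : ℕ) : ℂ) = (m : ℂ) - 1 := by
    have : 1 ≤ m := by omega
    push_cast [Nat.cast_sub this]
    ring
  have e4 : (1 + η - t * I + ((m - 1 : ℕ) : ℂ) : ℂ) = η - t * I + m := by
    rw [hnat]
    ring
  rw [e4]
  unfold rho
  field_simp
  ring

end Pool.Agent.H39.Pol
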