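import Mathlib
import Pool.Agent.H39.Pol.IdCP
import Pool.Agent.H11.SC.Step

/-!
# STEPP: one step of the inversion, upper half, with the polar term (port of H11/SC/Step)
-/

set_option autoImplicit false

namespace Pool.Agent.H39.Pol

open Complex Pool.Agent.H11.Selberg Pool.Agent.H11.SC

variable {a : ℕ → ℂ} {F : ℂ → ℂ} {Q : ℝ} {k : ℕ} {lam : Fin k → ℝ} {mu : Fin k → ℂ} {ε : ℂ}
  {θ : ℝ} {N : ℕ} {G : ℂ → ℂ}

theorem step_complex (h : FEqP a F Q lam mu ε θ N G) : ∃ (ω : ℂ) (R : Polynomial ℂ) (C : ℝ),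
    ‖ω‖ = 1 ∧ R.natDegree ≤ N - 1 ∧ R.coeff (N - 1) ≠ 0 ∧
    ∀ ξ : ℂ, 0 < ξ.re → ξ.re ≤ 1 → ‖ξ‖ ≤ 2 → 0 ≤ ξ.im →
    ‖gs a 3 ξ - (ω * ((((2 * Real.pi * Bp Q lam : ℝ) : ℂ) * ξ) ^ 7)⁻¹ *
        gs (cj a) 3 (1 / (((2 * Real.pi * Bp Q lam) ^ 2 : ℝ) * ξ)) +
      (2 * (Real.pi : ℂ) * ξ) ^ (-(4 + θ * I) : ℂ) * R.eval (log (2 * (Real.pi : ℂ) * ξ)))‖ ≤
      C * ξ.re ^ (-(13 / 4) : ℝ) := by
  have hB : 0 < Bp Q lam := Bp_pos' h.Qpos h.lampos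
  set B : ℝ := Bp Q lam with hBdef
  have hπ : (0:ℝ) < Real.pi := Real.pi_pos
  set q : ℝ := (2 * Real.pi * B) ^ 2 with hqdef
  have hq : 0 < q := by positivity
  obtain ⟨ω, κ, C0, hω, h1, h2⟩ := rho_bound h 3 (by norm_num) (1/8) (by norm_num) (by norm_num)
  obtain ⟨Cg, hCg⟩ := gamma_bound (23/8) (23/8) (by norm_num)
  have hcja : ∃ C : ℝ, ∀ n : ℕ, 1 ≤ n → ‖cj a n‖ ≤ C * (n : ℝ) ^ (1/8 : ℝ) := by
    obtain ⟨C, hC⟩ := h.ram (1/8) (by norm_num)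
    refine ⟨C, fun n hn => ?_⟩
    unfold cj
    rw [Complex.norm_conj]
    exact hC n hn
  obtain ⟨Cb, hCb⟩ := gs_bound (cj a) 2 (by norm_num) (1/8) (by norm_num) hcja
  obtain ⟨D, hD⟩ := VI_bound (|C0| * |Cg|) (23/8) (13/8) (29/8) (by norm_num)
  obtain ⟨R, hR1, hR2, hR3⟩ := id_complex h 3 (by norm_num) (1/8) (by norm_num) (by norm_num)
    ω κ C0 h1 h2
  -- the final constant
  refine ⟨ω, R, ‖κ‖ * (B ^ 5)⁻¹ * ((2 * Real.pi) ^ 6)⁻¹ * |Cb| * q ^ (25/8 : ℝ) * 2 + |D|,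
    hω, hR1, hR2, ?_⟩
  intro ξ1 hy0' hy1' hz2' hx'
  obtain ⟨z, hzξ⟩ : ∃ z : ℂ, -(I * z) = ξ1 := ⟨I * ξ1, by
    rw [← mul_assoc, I_mul_I]; ring⟩
  have hy0 : 0 < z.im := by rw [← hzξ] at hy0'; simpa using hy0'
  have hy1 : z.im ≤ 1 := by rw [← hzξ] at hy1'; simpa using hy1'
  have hz2 : ‖z‖ ≤ 2 := by
    rw [← hzξ, norm_neg, norm_mul, Complex.norm_I, one_mul] at hz2'
    exact hz2'
  have hx : z.re ≤ 0 := by rw [← hzξ] at hx'; simpa using hx'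
  have hreq : ξ1.re = z.im := by rw [← hzξ]; simp
  rw [hreq, ← hzξ]
  clear hy0' hy1' hz2' hx' hreq hzξ ξ1
  set y : ℝ := z.im with hy
  set ξ : ℂ := -(I * z) with hξdef
  have hξre : ξ.re = y := by simp [hξdef, hy]
  have hξim : ξ.im = -z.re := by simp [hξdef]
  have hξn : ‖ξ‖ = ‖z‖ := by rw [hξdef, norm_neg, norm_mul, Complex.norm_I, one_mul]
  have hzn : y ≤ ‖z‖ := (le_abs_self _).trans (Complex.abs_im_le_norm z)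
  have hzn0 : 0 < ‖z‖ := lt_of_lt_of_le hy0 hzn
  have hz0 : z ≠ 0 := norm_pos_iff.mp hzn0
  have hid := hR3 ξ (by rw [hξre]; exact hy0)
  have hξ0 : ξ ≠ 0 := by
    rw [← norm_pos_iff, hξn]; exact hzn0
  set z' : ℂ := -1 / (((2 * Real.pi * B) ^ 2 : ℝ) * z) with hz'
  have hz'q : z' = -1 / ((q : ℂ) * z) := by rw [hz', hqdef]
  have hz'im : z'.im = y / (q * ‖z‖ ^ 2) := by rw [hz'q, step_im]
  have hz'pos : 0 < z'.im := by rw [hz'im]; positivity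
  have hqC : (q : ℂ) ≠ 0 := by exact_mod_cast hq.ne'
  have harg : 1 / (4 * (Real.pi : ℂ) ^ 2 * (B : ℂ) ^ 2 * ξ) = -(I * z') := by
    have e1 : (4 * (Real.pi : ℂ) ^ 2 * (B : ℂ) ^ 2 * ξ) = -(I * ((q:ℂ) * z)) := by
      rw [hξdef, hqdef]; push_cast; ring
    rw [e1, hz'q]
    have hw : (q:ℂ) * z ≠ 0 := mul_ne_zero hqC hz0
    have hI : (I:ℂ) ≠ 0 := Complex.I_ne_zero
    field_simp
    rw [Complex.I_sq]
  rw [harg] at hid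
  have e1 : ((3:ℕ):ℝ) - 1/8 = 23/8 := by norm_num
  rw [e1] at hid
  set G : ℝ → ℂ := fun t => rho F B (1/8) 3 ω κ t * Gamma (((3:ℕ):ℂ) - ((1/8:ℝ):ℂ) + t * I)
    with hG
  have hGam : ∀ t : ℝ, (((3:ℕ):ℂ) - ((1/8:ℝ):ℂ) + t * I) = (((23/8:ℝ):ℂ) + t*I) := by
    intro t; push_cast; ring
  have hgn : ∀ t : ℝ, ‖Gamma (((3:ℕ):ℂ) - ((1/8:ℝ):ℂ) + t * I)‖ ≤
      |Cg| * (1 + |t|) ^ (19/8 : ℝ) * Real.exp (-(Real.pi / 2 * |t|)) := by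
    intro t
    rw [hGam t]
    have := hCg (23/8) t le_rfl le_rfl
    have e2 : (23/8 : ℝ) - 1/2 = 19/8 := by norm_num
    rw [e2] at this
    refine this.trans ?_
    apply mul_le_mul_of_nonneg_right _ (Real.exp_nonneg _)
    apply mul_le_mul_of_nonneg_right (le_abs_self _)
    positivity
  have hV := hD G ?_ ?_ ξ (by rw [hξre]; exact hy0) (by rw [hξim]; linarith)
  rotate_left
  · intro t ht
    have b1 := h1 t ht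
    have b2 := hgn t
    rw [abs_of_nonneg ht] at b2
    have e3 : (2 * (1/8) - 1 : ℝ) = -(3/4) := by norm_num
    rw [e3] at b1
    have b1' : ‖rho F B (1/8) 3 ω κ t‖ ≤ |C0| * (1 + t) ^ (-(3/4) : ℝ) := by
      refine b1.trans ?_
      apply mul_le_mul_of_nonneg_right (le_abs_self _)
      positivity
    rw [hG]
    show ‖rho F B (1/8) 3 ω κ t * Gamma (((3:ℕ):ℂ) - ((1/8:ℝ):ℂ) + t * I)‖ ≤ _
    rw [norm_mul]
    have h1t : (0:ℝ) < 1 + t := by linarith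
    calc ‖rho F B (1/8) 3 ω κ t‖ * ‖Gamma (((3:ℕ):ℂ) - ((1/8:ℝ):ℂ) + t * I)‖ ≤
        (|C0| * (1 + t) ^ (-(3/4) : ℝ)) *
          (|Cg| * (1 + t) ^ (19/8 : ℝ) * Real.exp (-(Real.pi / 2 * t))) :=
          mul_le_mul b1' b2 (norm_nonneg _) (by positivity)
      _ = |C0| * |Cg| * ((1 + t) ^ (-(3/4) : ℝ) * (1 + t) ^ (19/8 : ℝ)) *
          Real.exp (-(Real.pi / 2 * t)) := by ring
      _ = |C0| * |Cg| * (1 + t) ^ (13/8 : ℝ) * Real.exp (-(Real.pi / 2 * t)) := by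
          rw [← Real.rpow_add h1t]; norm_num
  · intro t ht
    have b1 := h2 t ht
    have b2 := hgn t
    have e3 : (1 + 2 * (1/8) : ℝ) = 5/4 := by norm_num
    rw [e3] at b1
    have b1' : ‖rho F B (1/8) 3 ω κ t‖ ≤ |C0| * (1 + |t|) ^ (5/4 : ℝ) := by
      refine b1.trans ?_
      apply mul_le_mul_of_nonneg_right (le_abs_self _)
      positivity
    rw [hG]
    show ‖rho F B (1/8) 3 ω κ t * Gamma (((3:ℕ):ℂ) - ((1/8:ℝ):ℂ) + t * I)‖ ≤ _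
    rw [norm_mul]
    have h1t : (0:ℝ) < 1 + |t| := by positivity
    calc ‖rho F B (1/8) 3 ω κ t‖ * ‖Gamma (((3:ℕ):ℂ) - ((1/8:ℝ):ℂ) + t * I)‖ ≤
        (|C0| * (1 + |t|) ^ (5/4 : ℝ)) *
          (|Cg| * (1 + |t|) ^ (19/8 : ℝ) * Real.exp (-(Real.pi / 2 * |t|))) :=
          mul_le_mul b1' b2 (norm_nonneg _) (by positivity)
      _ = |C0| * |Cg| * ((1 + |t|) ^ (5/4 : ℝ) * (1 + |t|) ^ (19/8 : ℝ)) *
          Real.exp (-(Real.pi / 2 * |t|)) := by ring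
      _ = |C0| * |Cg| * (1 + |t|) ^ (29/8 : ℝ) * Real.exp (-(Real.pi / 2 * |t|)) := by
          rw [← Real.rpow_add h1t]; norm_num
  rw [hξre, hξn] at hV
  -- names for the three terms
  set g3 : ℂ := gs (cj a) 3 (-(I * z')) with hg3
  have hb := hCb (-(I * z')) (by simpa using hz'pos)
  have hre' : (-(I * z')).re = z'.im := by simp
  rw [hre'] at hb
  set g2 : ℂ := gs (cj a) (3 - 1) (-(I * z')) with hg2
  have hb2 : ‖g2‖ ≤ Cb * z'.im ^ (-(((2:ℕ):ℝ) + 1 + 1/8)) := hb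
  set T1 : ℂ := ω * (((B ^ (1 + 2 * 3) : ℝ) : ℂ)⁻¹ * ((2 * (Real.pi : ℂ) * ξ) ^ (1 + 3 + 3))⁻¹ * g3)
    with hT1
  set T2 : ℂ := ω * κ * (((B ^ (1 + 2 * (3 - 1)) : ℝ) : ℂ)⁻¹ *
    ((2 * (Real.pi : ℂ) * ξ) ^ (1 + (3 - 1) + 3))⁻¹ * g2) with hT2
  set T3 : ℂ := VI G (23/8) ξ with hT3
  set PP : ℂ := (2 * (Real.pi : ℂ) * ξ) ^ (-(4 + θ * I) : ℂ) *
    R.eval (log (2 * (Real.pi : ℂ) * ξ)) with hPP
  have hid' : gs a 3 ξ = (T1 + T2 + T3) + PP := by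
    have e0 : (-((3 : ℕ) + 1 + θ * I) : ℂ) = (-(4 + θ * I) : ℂ) := by push_cast; ring
    rw [e0] at hid
    exact hid
  have hn2 : ‖(2 * (Real.pi : ℂ) * ξ)‖ = 2 * Real.pi * ‖z‖ := by
    rw [norm_mul, norm_mul, hξn]
    simp [abs_of_pos hπ]
  have hT2n : ‖T2‖ = ‖κ‖ * ((B ^ 5)⁻¹ * ((2 * Real.pi * ‖z‖) ^ 6)⁻¹ * ‖g2‖) := by
    rw [hT2, norm_mul, norm_mul, norm_mul, norm_mul, hω, one_mul, norm_inv, norm_inv, norm_pow,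
      hn2, Complex.norm_real, Real.norm_of_nonneg (by positivity)]
  have harg2 : (1 / (((2 * Real.pi * B) ^ 2 : ℝ) * ξ) : ℂ) = -(I * z') := by
    rw [← harg]
    congr 2
    push_cast
    ring
  have hT1' : ω * ((((2 * Real.pi * B : ℝ) : ℂ) * ξ) ^ 7)⁻¹ *
      gs (cj a) 3 (1 / (((2 * Real.pi * B) ^ 2 : ℝ) * ξ)) = T1 := by
    rw [harg2, ← hg3, hT1]
    have e5 : (((2 * Real.pi * B : ℝ) : ℂ) * ξ) ^ 7 =
        ((B ^ (1 + 2 * 3) : ℝ) : ℂ) * (2 * (Real.pi : ℂ) * ξ) ^ (1 + 3 + 3) := by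
      push_cast
      ring
    rw [e5, mul_inv]
    ring
  rw [hT1', hid']
  have hdd : T1 + T2 + T3 + PP - (T1 + PP) = T2 + T3 := by ring
  rw [hdd]
  have hfin : y ^ (7/2 : ℝ) * (‖T2‖ + ‖T3‖) ≤
      (‖κ‖ * (B ^ 5)⁻¹ * ((2 * Real.pi) ^ 6)⁻¹ * |Cb| * q ^ (25/8 : ℝ) * 2 + |D|) *
        y ^ (1/4 : ℝ) := ?_
  · have e6 : y ^ (-(13/4) : ℝ) = y ^ (1/4 : ℝ) * (y ^ (7/2 : ℝ))⁻¹ := by
      rw [← Real.rpow_neg hy0.le, ← Real.rpow_add hy0]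
      norm_num
    rw [e6, ← mul_assoc, ← div_eq_mul_inv, le_div_iff₀ (by positivity)]
    calc ‖T2 + T3‖ * y ^ (7/2 : ℝ) ≤ (‖T2‖ + ‖T3‖) * y ^ (7/2 : ℝ) := by
          gcongr
          exact norm_add_le _ _
      _ = y ^ (7/2 : ℝ) * (‖T2‖ + ‖T3‖) := by ring
      _ ≤ _ := hfin
  have hyq : ∀ s : ℝ, 1/4 ≤ s → y ^ s ≤ y ^ (1/4 : ℝ) := fun s hs =>
    Real.rpow_le_rpow_of_exponent_ge hy0 hy1 hs
  have hy14 : 0 < y ^ (1/4 : ℝ) := Real.rpow_pos_of_pos hy0 _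
  -- second term
  have hA : y ^ (7/2 : ℝ) * ‖T2‖ ≤
      (‖κ‖ * (B ^ 5)⁻¹ * ((2 * Real.pi) ^ 6)⁻¹ * |Cb| * q ^ (25/8 : ℝ) * 2) * y ^ (1/4 : ℝ) := by
    have hb3 : ‖g2‖ ≤ |Cb| * (q ^ (25/8 : ℝ) * ‖z‖ ^ (25/4 : ℝ) * y ^ (-(25/8) : ℝ)) := by
      refine hb2.trans ?_
      have e6 : (-(((2:ℕ):ℝ) + 1 + 1/8)) = -(25/8) := by norm_num
      rw [e6]
      have e7 : z'.im ^ (-(25/8) : ℝ) = q ^ (25/8 : ℝ) * ‖z‖ ^ (25/4 : ℝ) * y ^ (-(25/8) : ℝ) := by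
        rw [hz'im, Real.div_rpow hy0.le (by positivity), Real.mul_rpow hq.le (by positivity),
          Real.rpow_neg hq.le, Real.rpow_neg (by positivity : (0:ℝ) ≤ ‖z‖ ^ 2), ← Real.rpow_two,
          ← Real.rpow_mul hzn0.le]
        have e8 : (2 * (25/8) : ℝ) = 25/4 := by norm_num
        rw [e8]
        have p1 : 0 < q ^ (25/8 : ℝ) := Real.rpow_pos_of_pos hq _
        have p2 : 0 < ‖z‖ ^ (25/4 : ℝ) := Real.rpow_pos_of_pos hzn0 _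
        field_simp
      rw [e7]
      apply mul_le_mul_of_nonneg_right (le_abs_self _)
      positivity
    rw [hT2n]
    have hz6 : ((2 * Real.pi * ‖z‖) ^ 6)⁻¹ = ((2 * Real.pi) ^ 6)⁻¹ * ‖z‖ ^ (-6 : ℝ) := by
      rw [mul_pow, mul_inv]
      congr 1
      rw [Real.rpow_neg hzn0.le]
      congr 1
      have : (6:ℝ) = ((6:ℕ):ℝ) := by norm_num
      rw [this, Real.rpow_natCast]
    rw [hz6]
    calc y ^ (7/2 : ℝ) * (‖κ‖ * ((B ^ 5)⁻¹ * (((2 * Real.pi) ^ 6)⁻¹ * ‖z‖ ^ (-6 : ℝ)) * ‖g2‖))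
        ≤ y ^ (7/2 : ℝ) * (‖κ‖ * ((B ^ 5)⁻¹ * (((2 * Real.pi) ^ 6)⁻¹ * ‖z‖ ^ (-6 : ℝ)) *
            (|Cb| * (q ^ (25/8 : ℝ) * ‖z‖ ^ (25/4 : ℝ) * y ^ (-(25/8) : ℝ))))) := by
          gcongr
      _ = (‖κ‖ * (B ^ 5)⁻¹ * ((2 * Real.pi) ^ 6)⁻¹ * |Cb| * q ^ (25/8 : ℝ)) *
            ((y ^ (7/2 : ℝ) * y ^ (-(25/8) : ℝ)) * (‖z‖ ^ (-6 : ℝ) * ‖z‖ ^ (25/4 : ℝ))) := by ring
      _ = (‖κ‖ * (B ^ 5)⁻¹ * ((2 * Real.pi) ^ 6)⁻¹ * |Cb| * q ^ (25/8 : ℝ)) *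
            (y ^ (3/8 : ℝ) * ‖z‖ ^ (1/4 : ℝ)) := by
          rw [← Real.rpow_add hy0, ← Real.rpow_add hzn0]; norm_num
      _ ≤ (‖κ‖ * (B ^ 5)⁻¹ * ((2 * Real.pi) ^ 6)⁻¹ * |Cb| * q ^ (25/8 : ℝ)) *
            (y ^ (1/4 : ℝ) * 2) := by
          apply mul_le_mul_of_nonneg_left _ (by positivity)
          apply mul_le_mul (hyq _ (by norm_num)) _ (by positivity) (by positivity)
          calc ‖z‖ ^ (1/4 : ℝ) ≤ 2 ^ (1/4 : ℝ) := Real.rpow_le_rpow hzn0.le hz2 (by norm_num)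
            _ ≤ 2 ^ (1 : ℝ) := Real.rpow_le_rpow_of_exponent_le (by norm_num) (by norm_num)
            _ = 2 := by norm_num
      _ = _ := by ring
  -- third term
  have hBt : y ^ (7/2 : ℝ) * ‖T3‖ ≤ |D| * y ^ (1/4 : ℝ) := by
    have e9 : (13/8 + 1 : ℝ) = 21/8 := by norm_num
    rw [e9, Real.div_rpow hzn0.le hy0.le] at hV
    calc y ^ (7/2 : ℝ) * ‖T3‖ ≤ y ^ (7/2 : ℝ) *
          (|D| * ‖z‖ ^ (-(23/8) : ℝ) * (‖z‖ ^ (21/8 : ℝ) / y ^ (21/8 : ℝ))) := by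
          apply mul_le_mul_of_nonneg_left _ (by positivity)
          refine hV.trans ?_
          apply mul_le_mul_of_nonneg_right _ (by positivity)
          apply mul_le_mul_of_nonneg_right (le_abs_self _) (by positivity)
      _ = |D| * ((y ^ (7/2 : ℝ) * y ^ (-(21/8) : ℝ)) * (‖z‖ ^ (-(23/8) : ℝ) * ‖z‖ ^ (21/8 : ℝ))) := by
          rw [Real.rpow_neg hy0.le (21/8)]; ring
      _ = |D| * (y ^ (7/8 : ℝ) * ‖z‖ ^ (-(1/4) : ℝ)) := by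
          rw [← Real.rpow_add hy0, ← Real.rpow_add hzn0]; norm_num
      _ ≤ |D| * (y ^ (7/8 : ℝ) * y ^ (-(1/4) : ℝ)) := by
          apply mul_le_mul_of_nonneg_left _ (abs_nonneg _)
          apply mul_le_mul_of_nonneg_left _ (by positivity)
          exact Real.rpow_le_rpow_of_nonpos hy0 hzn (by norm_num)
      _ = |D| * y ^ (5/8 : ℝ) := by rw [← Real.rpow_add hy0]; norm_num
      _ ≤ _ := mul_le_mul_of_nonneg_left (hyq _ (by norm_num)) (abs_nonneg _)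
  calc y ^ (7/2 : ℝ) * (‖T2‖ + ‖T3‖) = y ^ (7/2 : ℝ) * ‖T2‖ + y ^ (7/2 : ℝ) * ‖T3‖ := by ring
    _ ≤ _ := add_le_add hA hBt
    _ = _ := by ring

end Pool.Agent.H39.Pol
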