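import Mathlib
import Pool.Agent.H39.Pol.StepP
import Pool.Agent.H39.Pol.ConjP

/-!
# INV2: the inversion with error term in both half planes
-/

set_option autoImplicit false

namespace Pool.Agent.H39.Pol

open Complex Pool.Agent.H11.Selberg Pool.Agent.H11.SC

variable {a : ℕ → ℂ} {F : ℂ → ℂ} {Q : ℝ} {k : ℕ} {lam : Fin k → ℝ} {mu : Fin k → ℂ} {ε : ℂ}
  {θ : ℝ} {N : ℕ} {G : ℂ → ℂ}

/-- the inversion at the point `ξ`: `√q = sq`, polar part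
`(2πξ)^(-(4+iθ)) R(log 2πξ)`, error `C (Re ξ)^(-13/4)` -/
def StepR (b : ℕ → ℂ) (sq θ : ℝ) (ω : ℂ) (R : Polynomial ℂ) (C : ℝ) (ξ : ℂ) : Prop :=
  ‖gs b 3 ξ - (ω * (((sq : ℂ) * ξ) ^ 7)⁻¹ * gs (cj b) 3 (1 / ((sq ^ 2 : ℝ) * ξ)) +
      (2 * (Real.pi : ℂ) * ξ) ^ (-(4 + θ * I) : ℂ) * R.eval (log (2 * (Real.pi : ℂ) * ξ)))‖ ≤
      C * ξ.re ^ (-(13 / 4) : ℝ)

/-- the inversion in both half planes -/
structure Inv2 (b : ℕ → ℂ) (sq : ℝ) (M : ℕ) (θ : ℝ) (ωp ωm : ℂ) (Rp Rm : Polynomial ℂ)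
    (C : ℝ) : Prop where
  sq0 : 0 < sq
  C0 : 0 ≤ C
  ram : ∀ δ : ℝ, 0 < δ → ∃ C : ℝ, ∀ n : ℕ, 1 ≤ n → ‖b n‖ ≤ C * (n : ℝ) ^ δ
  hp : ‖ωp‖ = 1
  hm : ‖ωm‖ = 1
  dp : Rp.natDegree ≤ M
  cp : Rp.coeff M ≠ 0
  dm : Rm.natDegree ≤ M
  cm : Rm.coeff M ≠ 0
  up : ∀ ξ : ℂ, 0 < ξ.re → ξ.re ≤ 1 → ‖ξ‖ ≤ 2 → 0 ≤ ξ.im → StepR b sq θ ωp Rp C ξ
  lo : ∀ ξ : ℂ, 0 < ξ.re → ξ.re ≤ 1 → ‖ξ‖ ≤ 2 → ξ.im ≤ 0 → StepR b sq θ ωm Rm C ξ

theorem eval_map_conj (R : Polynomial ℂ) (z : ℂ) :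
    (R.map (starRingEnd ℂ)).eval z = (starRingEnd ℂ) (R.eval ((starRingEnd ℂ) z)) := by
  rw [Polynomial.eval_map, Polynomial.eval, Polynomial.hom_eval₂, Polynomial.eval₂_eq_sum_range,
    Polynomial.eval₂_eq_sum_range]
  simp

/-- conjugation of the inversion -/
theorem StepR.conj {b : ℕ → ℂ} {sq θ : ℝ} {ω : ℂ} {R : Polynomial ℂ} {C : ℝ} {ξ : ℂ}
    (hξ : 0 < ξ.re) (h : StepR (cj b) sq (-θ) ω R C ((starRingEnd ℂ) ξ)) :
    StepR b sq θ ((starRingEnd ℂ) ω) (R.map (starRingEnd ℂ)) C ξ := by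
  unfold StepR at h ⊢
  rw [← norm_conj] at h
  have hre : ((starRingEnd ℂ) ξ).re = ξ.re := conj_re ξ
  rw [hre] at h
  refine le_of_eq_of_le ?_ h
  congr 1
  have hx0 : ξ ≠ 0 := by
    rintro rfl
    simp at hξ
  have harg : (2 * (Real.pi : ℂ) * ξ).arg ≠ Real.pi := by
    have h1 : 0 < (2 * (Real.pi : ℂ) * ξ).re := by
      have e : (2 * (Real.pi : ℂ) * ξ) = ((2 * Real.pi : ℝ) : ℂ) * ξ := by push_cast; ring
      rw [e, re_ofReal_mul]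
      have := Real.pi_pos
      positivity
    intro h2
    have h3 := (Complex.arg_eq_pi_iff.1 h2).1
    linarith
  have e1 : (2 * (Real.pi : ℂ) * (starRingEnd ℂ) ξ) = (starRingEnd ℂ) (2 * (Real.pi : ℂ) * ξ) := by
    rw [map_mul, map_mul, conj_ofReal, Complex.conj_ofNat 2]
  have e2 : (-(4 + ((-θ : ℝ) : ℂ) * I) : ℂ) = (starRingEnd ℂ) (-(4 + θ * I)) := by
    simp only [map_neg, map_add, map_mul, conj_ofReal, conj_I, ofReal_neg]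
    have h4 : (starRingEnd ℂ) (4 : ℂ) = 4 := Complex.conj_ofNat 4
    rw [h4]
    ring
  have e3 : (2 * (Real.pi : ℂ) * (starRingEnd ℂ) ξ) ^ (-(4 + ((-θ : ℝ) : ℂ) * I) : ℂ) =
      (starRingEnd ℂ) ((2 * (Real.pi : ℂ) * ξ) ^ (-(4 + θ * I) : ℂ)) := by
    rw [e1, e2]
    have h5 := cpow_conj (2 * (Real.pi : ℂ) * ξ) ((starRingEnd ℂ) (-(4 + θ * I))) harg
    rw [conj_conj] at h5
    rw [h5, conj_conj]
  have e4 : log (2 * (Real.pi : ℂ) * (starRingEnd ℂ) ξ) =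
      (starRingEnd ℂ) (log (2 * (Real.pi : ℂ) * ξ)) := by
    rw [e1, Complex.log_conj _ harg]
  rw [map_sub, map_add, map_mul, map_mul, map_mul, gs_conj, gs_conj, cj_cj, conj_conj, e3, conj_conj,
    e4, eval_map_conj, map_inv₀, map_pow, map_mul, conj_ofReal, conj_conj, map_div₀, map_one,
    map_mul, conj_ofReal, conj_conj]

theorem inv2 (h : FEqP a F Q lam mu ε θ N G) : ∃ (ωp ωm : ℂ) (Rp Rm : Polynomial ℂ) (C : ℝ),
    Inv2 a (2 * Real.pi * Bp Q lam) (N - 1) θ ωp ωm Rp Rm C := by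
  obtain ⟨ω1, R1, C1, a1, a2, a3, a4⟩ := step_complex h
  obtain ⟨ω2, R2, C2, b1, b2, b3, b4⟩ := step_complex h.conj
  refine ⟨ω1, (starRingEnd ℂ) ω2, R1, R2.map (starRingEnd ℂ), max |C1| |C2|, ?_⟩
  refine ⟨?_, (abs_nonneg _).trans (le_max_left _ _), h.ram, a1, ?_, a2, a3, ?_, ?_, ?_, ?_⟩
  · exact mul_pos (mul_pos two_pos Real.pi_pos) (Bp_posP h)
  · rw [norm_conj, b1]
  · exact (Polynomial.natDegree_map_le).trans b2
  · rw [Polynomial.coeff_map]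
    exact (map_ne_zero _).2 b3
  · intro ξ h1 h2 h3 h4
    refine (a4 ξ h1 h2 h3 h4).trans ?_
    have := Real.rpow_nonneg h1.le (-(13 / 4))
    gcongr
    exact (le_abs_self _).trans (le_max_left _ _)
  · intro ξ h1 h2 h3 h4
    refine StepR.conj h1 ?_
    have h5 := b4 ((starRingEnd ℂ) ξ) (by simpa using h1) (by simpa using h2)
      (by rw [norm_conj]; exact h3) (by simpa using h4)
    refine h5.trans ?_
    have := Real.rpow_nonneg h1.le (-(13 / 4))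
    rw [conj_re]
    gcongr
    exact (le_abs_self _).trans (le_max_right _ _)

end Pool.Agent.H39.Pol
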