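import Mathlib
import Pool.Agent.H39.Pol.Defs
import Pool.Agent.H11.SC.Conj

/-!
# CLB: basic facts on the behaviour at a cusp
-/

set_option autoImplicit false

namespace Pool.Agent.H39.Pol

open Complex Filter Topology Pool.Agent.H11.Selberg Pool.Agent.H11.SC

theorem tendsto_rad (R β : ℝ) (hR : 0 ≤ R) :
    Tendsto (fun y : ℝ => (y : ℂ) + β * I) (𝓝[>] 0) (nhdsWithin (β * I) (cone R β)) := by
  refine tendsto_nhdsWithin_iff.2 ⟨?_, ?_⟩
  · have h1 : Tendsto (fun y : ℝ => (y : ℂ) + β * I) (𝓝 0) (𝓝 (((0 : ℝ) : ℂ) + β * I)) := by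
      have h2 : Continuous (fun y : ℝ => (y : ℂ) + β * I) := by fun_prop
      exact h2.tendsto 0
    rw [ofReal_zero, zero_add] at h1
    exact h1.mono_left nhdsWithin_le_nhds
  · filter_upwards [self_mem_nhdsWithin] with y hy
    have hy0 : 0 < y := hy
    refine ⟨by simpa using hy0, ?_⟩
    simp
    positivity

theorem cone_neBot (R β : ℝ) (hR : 0 ≤ R) : (nhdsWithin (β * I) (cone R β)).NeBot :=
  (tendsto_rad R β hR).neBot

theorem CL.unique {f : ℂ → ℂ} {M : ℕ} {κ : ℂ} {β : ℝ} {v w : ℂ} (h1 : CL f M κ β v)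
    (h2 : CL f M κ β w) : v = w := by
  have := cone_neBot 0 β le_rfl
  exact tendsto_nhds_unique (h1 0 le_rfl) (h2 0 le_rfl)

theorem per_int {f : ℂ → ℂ} (hper : ∀ ξ, f (ξ + I) = f ξ) (m : ℤ) (ξ : ℂ) :
    f (ξ + m * I) = f ξ := by
  induction m using Int.induction_on with
  | zero => simp
  | succ i ih =>
    have e : ξ + ((i : ℤ) + 1 : ℤ) * I = (ξ + ((i : ℤ) : ℂ) * I) + I := by push_cast; ring
    rw [e, hper, ih]
  | pred i ih =>
    have h1 := hper (ξ + ((-(i : ℤ) - 1 : ℤ) : ℂ) * I)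
    rw [← h1, ← ih]
    congr 1
    push_cast
    ring

theorem CL.per {f : ℂ → ℂ} {M : ℕ} {κ : ℂ} {β : ℝ} {v : ℂ} (hper : ∀ ξ, f (ξ + I) = f ξ)
    (h : CL f M κ β v) (m : ℤ) : CL f M κ (β + m) v := by
  intro R hR
  have h1 := h R hR
  have h2 : Tendsto (fun ξ : ℂ => ξ - m * I) (nhdsWithin (((β + m : ℝ) : ℂ) * I)
      (cone R (β + m))) (nhdsWithin (β * I) (cone R β)) := by
    refine tendsto_nhdsWithin_iff.2 ⟨?_, ?_⟩
    · have h3 : Continuous (fun ξ : ℂ => ξ - m * I) := by fun_prop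
      have h4 := h3.tendsto (((β + m : ℝ) : ℂ) * I)
      have e : ((β + m : ℝ) : ℂ) * I - m * I = β * I := by push_cast; ring
      rw [e] at h4
      exact h4.mono_left nhdsWithin_le_nhds
    · filter_upwards [self_mem_nhdsWithin] with ξ hξ
      obtain ⟨h3, h4⟩ := hξ
      refine ⟨by simpa using h3, ?_⟩
      have e : (ξ - m * I).im - β = ξ.im - (β + m) := by
        simp
        ring
      have e2 : (ξ - m * I).re = ξ.re := by simp
      rw [e, e2]
      exact h4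
  have h3 := h1.comp h2
  refine h3.congr (fun ξ => ?_)
  have e1 : f (ξ - m * I) = f ξ := by
    have := per_int hper m (ξ - m * I)
    rw [sub_add_cancel] at this
    exact this.symm
  have e2 : ξ - m * I - β * I = ξ - ((β + m : ℝ) : ℂ) * I := by push_cast; ring
  show f (ξ - m * I) * (ξ - m * I - β * I) ^ κ /
    (((Real.log (1 / ‖ξ - m * I - β * I‖)) ^ M : ℝ) : ℂ) = _
  rw [e1, e2]

theorem CL.rad {f : ℂ → ℂ} {M : ℕ} {κ : ℂ} {β : ℝ} {v : ℂ} (h : CL f M κ β v) :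
    Tendsto (fun y : ℝ => f (y + β * I) * (y : ℂ) ^ κ / (((Real.log (1 / y)) ^ M : ℝ) : ℂ))
      (𝓝[>] 0) (𝓝 v) := by
  have h1 := (h 0 le_rfl).comp (tendsto_rad 0 β le_rfl)
  refine h1.congr' ?_
  filter_upwards [self_mem_nhdsWithin] with y hy
  have hy0 : 0 < y := hy
  show f (y + β * I) * ((y : ℂ) + β * I - β * I) ^ κ /
    (((Real.log (1 / ‖(y : ℂ) + β * I - β * I‖)) ^ M : ℝ) : ℂ) = _
  rw [add_sub_cancel_right, Complex.norm_real, Real.norm_of_nonneg hy0.le]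

/-- periodicity of `gs` -/
theorem gs_per (b : ℕ → ℂ) (m : ℕ) (ξ : ℂ) : gs b m (ξ + I) = gs b m ξ := by
  unfold gs
  refine tsum_congr (fun n => ?_)
  congr 1
  rw [Complex.exp_eq_exp_iff_exists_int]
  refine ⟨-n, ?_⟩
  push_cast
  ring

end Pool.Agent.H39.Pol
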