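import Mathlib
import Pool.Agent.H39.Pol.Inv2
import Pool.Agent.H39.Pol.CLB
import Pool.Agent.H11.SC.GB

/-!
# HALFC: conductor 4, the cusp `1/2` on the real axis

`sq = 2`, `q = 4`, `g(y) = gs b 3 (y + i/2)`.
(1) `h.up` at `ξ = y + i/2` (`0 < y ≤ 1`, `‖ξ‖ ≤ 2`): `g(y) = ωp (2ξ)^(-7) gs (cj b) 3 (1/(4ξ)) + P + O(y^(-13/4))`
with `P` bounded (`‖ξ‖ ≥ 1/2`, `Re ξ > 0`).  `1/(4ξ) = conj(η)`, `η = 1/(4 conj ξ) = 1/(4y - 2i) = y' + i/2 + iδ`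
with `y' = y/(1+4y²)`, `1/2 + δ = 1/(2(1+4y²))`, `|δ| ≤ 2y²`, `0 < y - y' ≤ 4y³`.  So
`gs (cj b) 3 (1/(4ξ)) = conj (gs b 3 η)` (`gs_conj`).
(2) displacement: `gs b 3` is differentiable for `Re > 0` with derivative `-2π gs b 4` (or estimate termwise
`|e^(-2πnη) - e^(-2πnξ)| ≤ 2πn ‖η - ξ‖ e^(-2πn min(Re))`), `‖gs b 4‖ ≤ C y^(-5-1/8)` (`gs_bound` with
`m = 4`, `δ = 1/8`), and the segment from `ξ` to `η` has `Re ≥ y' ≥ y/5`; `‖η - ξ‖ ≤ 6 y²`; so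
`‖gs b 3 η - g(y)‖ ≤ C y² y^(-5-1/8) = C y^(-3-1/8) ≤ C y^(-13/4)`.
(3) `(2ξ)^(-7) = (i + 2y)^(-7) = i + O(y)` (`i^(-7) = i`), and `‖g(y)‖ ≤ C y^(-4-1/8)` (`gs_bound`): the error is
`C y y^(-4-1/8) ≤ C y^(-13/4)`.
So `‖g(y) - i ωp conj g(y)‖ ≤ C y^(-13/4)` (a bounded function is `≤ C y^(-13/4)` for `y ≤ 1`).
(4) The same with `h.lo` at `ξ = y - i/2`: `gs b 3 (y - i/2) = g(y)` (`gs_per`), `(2ξ)^(-7) = (-i + 2y)^(-7) = -i + O(y)`,
`1/(4ξ) = conj(η)`, `η = 1/(4y + 2i) = y' - i/2 - iδ`: `‖g(y) + i ωm conj g(y)‖ ≤ C y^(-13/4)`.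
(One lemma with a sign `s = ±1` gives both.)
-/

set_option autoImplicit false

namespace Pool.Agent.H39.Pol

open Complex Filter Topology Pool.Agent.H11.Selberg Pool.Agent.H11.SC

theorem norm_exp_sub_exp_le_half (z w : ℂ) (c : ℝ) (hz : z.re ≤ c) (hw : w.re ≤ c) :
    ‖cexp z - cexp w‖ ≤ Real.exp c * ‖z - w‖ := by
  have hconv : Convex ℝ {x : ℂ | x.re ≤ c} := convex_halfSpace_re_le c
  refine hconv.norm_image_sub_le_of_norm_deriv_le (f := cexp) (fun x _ => ?_) (fun x hx => ?_) hw hz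
  · exact Complex.differentiable_exp.differentiableAt
  · rw [Complex.deriv_exp, Complex.norm_exp]
    exact Real.exp_le_exp.2 hx

theorem gs_summ_half (a : ℕ → ℂ) (m : ℕ) (hm : 1 ≤ m) (δ : ℝ)
    (ha : ∃ C : ℝ, ∀ n : ℕ, 1 ≤ n → ‖a n‖ ≤ C * (n : ℝ) ^ δ) (ξ : ℂ) (hξ : 0 < ξ.re) :
    Summable (fun n : ℕ => a n * (n : ℂ) ^ m * cexp (-(2 * (Real.pi : ℂ) * n * ξ))) := by
  obtain ⟨C, k, hC0, hC⟩ := nat_exponent a δ ha
  have hpi := Real.pi_pos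
  set r := Real.exp (-(2 * Real.pi * ξ.re)) with hr
  have hr0 : 0 < r := Real.exp_pos _
  have hr1 : r < 1 := by
    rw [hr, Real.exp_lt_one_iff]
    have : 0 < 2 * Real.pi * ξ.re := by positivity
    linarith
  have hsum : Summable (fun n : ℕ => (n : ℝ) ^ (k + m) * r ^ n) :=
    summable_pow_mul_geometric_of_norm_lt_one (k + m) (by rwa [Real.norm_of_nonneg hr0.le])
  refine Summable.of_norm_bounded (hsum.mul_left C) (fun n => ?_)
  rcases Nat.eq_zero_or_pos n with rfl | hn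
  · have : ((0 : ℕ) : ℂ) ^ m = 0 := by
      rw [Nat.cast_zero, zero_pow (by omega)]
    rw [this]
    have h0 : ((0 : ℕ) : ℝ) ^ (k + m) = 0 := by
      rw [Nat.cast_zero, zero_pow (by omega)]
    rw [h0]
    simp
  · rw [norm_mul, norm_mul, norm_pow, norm_cexp_gs, Complex.norm_natCast]
    have h3 : Real.exp (-(2 * Real.pi * n * ξ.re)) = r ^ n := by
      rw [hr, ← Real.exp_nat_mul]
      congr 1
      ring
    rw [h3]
    calc ‖a n‖ * (n : ℝ) ^ m * r ^ n ≤ C * (n : ℝ) ^ k * (n : ℝ) ^ m * r ^ n := by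
          gcongr
          exact hC n hn
      _ = C * ((n : ℝ) ^ (k + m) * r ^ n) := by
          rw [pow_add]; ring

/-- displacement of `gs` -/
theorem gs_disp (a : ℕ → ℂ) (m : ℕ) (hm : 1 ≤ m) (δ : ℝ) (hδ : 0 < δ)
    (ha : ∃ C : ℝ, ∀ n : ℕ, 1 ≤ n → ‖a n‖ ≤ C * (n : ℝ) ^ δ) :
    ∃ C : ℝ, 0 ≤ C ∧ ∀ (ξ η : ℂ) (y : ℝ), 0 < y → y ≤ ξ.re → y ≤ η.re →
      ‖gs a m η - gs a m ξ‖ ≤ C * ‖η - ξ‖ * y ^ (-((m : ℝ) + 2 + δ)) := by
  have ha' := ha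
  obtain ⟨C, hC⟩ := ha
  have hC0 : 0 ≤ C := by
    have := hC 1 le_rfl
    simp only [Nat.cast_one, Real.one_rpow, mul_one] at this
    exact (norm_nonneg _).trans this
  obtain ⟨K, hK, hKu⟩ := rpow_le_exp ((m : ℝ) + 1 + δ) (by positivity)
  have hpi := Real.pi_pos
  refine ⟨2 * C * K, by positivity, fun ξ η y hy h1 h2 => ?_⟩
  set D := ‖η - ξ‖ with hD
  have hD0 : 0 ≤ D := norm_nonneg _
  set r := Real.exp (-(Real.pi * y)) with hr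
  have hr0 : 0 < r := Real.exp_pos _
  have hr1 : r < 1 := by
    rw [hr, Real.exp_lt_one_iff]
    have : 0 < Real.pi * y := by positivity
    linarith
  have hg : HasSum (fun n : ℕ => 2 * Real.pi * D * (C * K * y ^ (-((m : ℝ) + 1 + δ))) *
      (r ^ n - (if n = 0 then 1 else 0)))
      (2 * Real.pi * D * (C * K * y ^ (-((m : ℝ) + 1 + δ))) * ((1 - r)⁻¹ - 1)) :=
    ((hasSum_geometric_of_lt_one hr0.le hr1).sub (hasSum_ite_eq 0 1)).mul_left _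
  have hsη := gs_summ_half a m hm δ ha' η (lt_of_lt_of_le hy h2)
  have hsξ := gs_summ_half a m hm δ ha' ξ (lt_of_lt_of_le hy h1)
  have hb : ‖gs a m η - gs a m ξ‖ ≤
      2 * Real.pi * D * (C * K * y ^ (-((m : ℝ) + 1 + δ))) * ((1 - r)⁻¹ - 1) := by
    unfold gs
    rw [← hsη.tsum_sub hsξ]
    refine tsum_of_norm_bounded hg (fun n => ?_)
    rcases Nat.eq_zero_or_pos n with rfl | hn
    · have : ((0 : ℕ) : ℂ) ^ m = 0 := by
        rw [Nat.cast_zero, zero_pow (by omega)]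
      rw [this]
      simp
    · have hn0 : (0 : ℝ) < n := by exact_mod_cast hn
      rw [if_neg (by omega), sub_zero, ← mul_sub, norm_mul, norm_mul, norm_pow,
        Complex.norm_natCast]
      have hre : ∀ z : ℂ, y ≤ z.re → (-(2 * (Real.pi : ℂ) * n * z)).re ≤
          -(2 * Real.pi * n * y) := by
        intro z hz
        have e : -(2 * (Real.pi : ℂ) * n * z) = ((-(2 * Real.pi * n) : ℝ) : ℂ) * z := by
          push_cast; ring
        rw [e, Complex.re_ofReal_mul]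
        have : 2 * Real.pi * n * y ≤ 2 * Real.pi * n * z.re := by gcongr
        linarith
      have h5 := norm_exp_sub_exp_le_half _ _ _ (hre η h2) (hre ξ h1)
      have h6 : ‖-(2 * (Real.pi : ℂ) * n * η) - -(2 * (Real.pi : ℂ) * n * ξ)‖ =
          2 * Real.pi * n * D := by
        have e : -(2 * (Real.pi : ℂ) * n * η) - -(2 * (Real.pi : ℂ) * n * ξ) =
            ((-(2 * Real.pi * n) : ℝ) : ℂ) * (η - ξ) := by
          push_cast; ring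
        rw [e, norm_mul, Complex.norm_real, norm_neg, Real.norm_of_nonneg (by positivity)]
      rw [h6] at h5
      have h1' := hKu (n * y) (by positivity)
      have h2' : ((n : ℝ) * y) ^ ((m : ℝ) + 1 + δ) =
          (n : ℝ) ^ m * (n : ℝ) * (n : ℝ) ^ δ * y ^ ((m : ℝ) + 1 + δ) := by
        rw [Real.mul_rpow hn0.le hy.le, Real.rpow_add hn0, Real.rpow_add hn0, Real.rpow_natCast,
          Real.rpow_one]
      have h3 : Real.exp (-(2 * Real.pi * n * y)) * Real.exp (Real.pi * (n * y)) = r ^ n := by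
        rw [hr, ← Real.exp_add, ← Real.exp_nat_mul]
        congr 1
        ring
      have h4 : y ^ ((m : ℝ) + 1 + δ) * y ^ (-((m : ℝ) + 1 + δ)) = 1 := by
        rw [← Real.rpow_add hy]; simp
      have hyp : 0 < y ^ (-((m : ℝ) + 1 + δ)) := Real.rpow_pos_of_pos hy _
      have he : 0 < Real.exp (-(2 * Real.pi * n * y)) := Real.exp_pos _
      calc ‖a n‖ * (n : ℝ) ^ m *
            ‖cexp (-(2 * (Real.pi : ℂ) * n * η)) - cexp (-(2 * (Real.pi : ℂ) * n * ξ))‖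
          ≤ C * (n : ℝ) ^ δ * (n : ℝ) ^ m *
            (Real.exp (-(2 * Real.pi * n * y)) * (2 * Real.pi * n * D)) := by
            gcongr
            exact hC n hn
        _ = 2 * Real.pi * D * (C * (((n : ℝ) * y) ^ ((m : ℝ) + 1 + δ)) *
            y ^ (-((m : ℝ) + 1 + δ)) * Real.exp (-(2 * Real.pi * n * y))) := by
            rw [h2']
            linear_combination (-(2 * Real.pi * D * C * (n : ℝ) ^ δ * (n : ℝ) ^ m * n *
              Real.exp (-(2 * Real.pi * n * y)))) * h4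
        _ ≤ 2 * Real.pi * D * (C * (K * Real.exp (Real.pi * (n * y))) *
            y ^ (-((m : ℝ) + 1 + δ)) * Real.exp (-(2 * Real.pi * n * y))) := by
            gcongr
        _ = 2 * Real.pi * D * (C * K * y ^ (-((m : ℝ) + 1 + δ))) * r ^ n := by
            rw [← h3]; ring
  refine hb.trans ?_
  have h5 : (1 - r)⁻¹ - 1 ≤ 1 / (Real.pi * y) := by
    have hv : 0 < Real.pi * y := by positivity
    have h6 : r * (Real.pi * y + 1) ≤ 1 := by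
      have h7 : r * Real.exp (Real.pi * y) = 1 := by
        rw [hr, ← Real.exp_add]; simp
      exact le_trans (mul_le_mul_of_nonneg_left (Real.add_one_le_exp _) hr0.le) h7.le
    have h8 : (1 - r)⁻¹ - 1 = r / (1 - r) := by
      have : (1 - r) ≠ 0 := by linarith
      field_simp
      ring
    rw [h8, div_le_div_iff₀ (by linarith) hv]
    linarith
  have hyp : 0 < y ^ (-((m : ℝ) + 1 + δ)) := Real.rpow_pos_of_pos hy _
  calc 2 * Real.pi * D * (C * K * y ^ (-((m : ℝ) + 1 + δ))) * ((1 - r)⁻¹ - 1)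
      ≤ 2 * Real.pi * D * (C * K * y ^ (-((m : ℝ) + 1 + δ))) * (1 / (Real.pi * y)) := by
        apply mul_le_mul_of_nonneg_left h5
        positivity
    _ = 2 * C * K * D * y ^ (-((m : ℝ) + 2 + δ)) := by
        have : y ^ (-((m : ℝ) + 2 + δ)) = y ^ (-((m : ℝ) + 1 + δ)) * y⁻¹ := by
          rw [show -((m : ℝ) + 2 + δ) = -((m : ℝ) + 1 + δ) + (-1) by ring, Real.rpow_add hy,
            Real.rpow_neg_one]
        rw [this]
        field_simp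

/-- the polar part is bounded -/
theorem polar_bdd (θ : ℝ) (R : Polynomial ℂ) (s : ℝ) (hs : s ≠ 0) : ∃ P : ℝ, ∀ y : ℝ, 0 < y →
    y ≤ 1 → ‖(2 * (Real.pi : ℂ) * (y + ((s / 2 : ℝ) : ℂ) * I)) ^ (-(4 + θ * I) : ℂ) *
      R.eval (log (2 * (Real.pi : ℂ) * (y + ((s / 2 : ℝ) : ℂ) * I)))‖ ≤ P := by
  have hc : ContinuousOn (fun y : ℝ =>
      (2 * (Real.pi : ℂ) * (y + ((s / 2 : ℝ) : ℂ) * I)) ^ (-(4 + θ * I) : ℂ) *
      R.eval (log (2 * (Real.pi : ℂ) * (y + ((s / 2 : ℝ) : ℂ) * I)))) (Set.Icc 0 1) := by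
    have hsp : ∀ y ∈ Set.Icc (0 : ℝ) 1,
        (2 * (Real.pi : ℂ) * (y + ((s / 2 : ℝ) : ℂ) * I)) ∈ slitPlane := by
      intro y _
      rw [Complex.mem_slitPlane_iff]
      right
      have e : (2 * (Real.pi : ℂ) * (y + ((s / 2 : ℝ) : ℂ) * I)) =
          ((2 * Real.pi : ℝ) : ℂ) * (y + ((s / 2 : ℝ) : ℂ) * I) := by push_cast; ring
      rw [e, Complex.im_ofReal_mul]
      have h1 : ((y : ℂ) + ((s / 2 : ℝ) : ℂ) * I).im = s / 2 := by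
        rw [Complex.add_im, Complex.ofReal_im, Complex.im_ofReal_mul, Complex.I_im]
        ring
      rw [h1]
      have := Real.pi_pos
      positivity
    have hlin : ContinuousOn (fun y : ℝ => (2 * (Real.pi : ℂ) * (y + ((s / 2 : ℝ) : ℂ) * I)))
        (Set.Icc 0 1) := by fun_prop
    refine ContinuousOn.mul ?_ ?_
    · exact hlin.cpow continuousOn_const hsp
    · have h2 : ContinuousOn (fun y : ℝ => log (2 * (Real.pi : ℂ) * (y + ((s / 2 : ℝ) : ℂ) * I)))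
          (Set.Icc 0 1) := hlin.clog hsp
      exact R.continuous.comp_continuousOn h2
  obtain ⟨P, hP⟩ := isCompact_Icc.exists_bound_of_continuousOn hc
  exact ⟨P, fun y h1 h2 => hP y ⟨h1.le, h2⟩⟩

theorem half_aux {b : ℕ → ℂ} {θ : ℝ} {ω : ℂ} {R : Polynomial ℂ} {C : ℝ} (s : ℝ) (hs : s ^ 2 = 1)
    (ram : ∀ δ : ℝ, 0 < δ → ∃ C : ℝ, ∀ n : ℕ, 1 ≤ n → ‖b n‖ ≤ C * (n : ℝ) ^ δ)
    (hω : ‖ω‖ = 1)
    (H : ∀ y : ℝ, 0 < y → y ≤ 1 → StepR b 2 θ ω R C (y + ((s / 2 : ℝ) : ℂ) * I)) :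
    ∃ C1 : ℝ, ∀ y : ℝ, 0 < y → y ≤ 1 →
    ‖gs b 3 (y + ((s / 2 : ℝ) : ℂ) * I) -
      s * I * ω * (starRingEnd ℂ) (gs b 3 (y + ((s / 2 : ℝ) : ℂ) * I))‖ ≤
      C1 * y ^ (-(13 / 4) : ℝ) := by
  have hs0 : s ≠ 0 := by
    rintro rfl
    norm_num at hs
  have hsabs : |s| = 1 := by
    have := sq_abs s
    rw [hs] at this
    nlinarith [abs_nonneg s]
  obtain ⟨P, hP⟩ := polar_bdd θ R s hs0
  have hP0 : 0 ≤ P := (norm_nonneg _).trans (hP 1 one_pos le_rfl)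
  obtain ⟨C2, hC20, hC2⟩ := gs_disp b 3 (by norm_num) (1 / 8) (by norm_num) (ram _ (by norm_num))
  obtain ⟨C3, hC3⟩ := gs_bound b 3 (by norm_num) (1 / 8) (by norm_num) (ram _ (by norm_num))
  have hC30 : 0 ≤ C3 := by
    have := hC3 1 (by simp)
    simp only [Complex.one_re, Real.one_rpow, mul_one] at this
    exact (norm_nonneg _).trans this
  refine ⟨C + P + C2 * 8 * (5 : ℝ) ^ (41 / 8 : ℝ) + 10206 * C3, fun y hy hy1 => ?_⟩
  set ξ : ℂ := y + ((s / 2 : ℝ) : ℂ) * I with hξ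
  have hre : ξ.re = y := by
    rw [hξ, Complex.add_re, Complex.ofReal_re, Complex.re_ofReal_mul, Complex.I_re]
    ring
  have him : ξ.im = s / 2 := by
    rw [hξ, Complex.add_im, Complex.ofReal_im, Complex.im_ofReal_mul, Complex.I_im]
    ring
  have hnsq : Complex.normSq ξ = (1 + 4 * y ^ 2) / 4 := by
    rw [Complex.normSq_apply, hre, him]
    linear_combination (1 / 4) * hs
  have hξ0 : ξ ≠ 0 := by
    intro h
    rw [h] at hre
    simp at hre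
    linarith
  have hmc : ξ * (starRingEnd ℂ) ξ = (((1 + 4 * y ^ 2) / 4 : ℝ) : ℂ) := by
    rw [Complex.mul_conj, hnsq]
  have hD0 : (0 : ℝ) < 1 + 4 * y ^ 2 := by positivity
  have hcξ0 : (starRingEnd ℂ) ξ ≠ 0 := (map_ne_zero _).2 hξ0
  set η : ℂ := (((1 + 4 * y ^ 2)⁻¹ : ℝ) : ℂ) * ξ with hη
  have hconj : 1 / ((2 ^ 2 : ℝ) * ξ) = (starRingEnd ℂ) η := by
    rw [hη, map_mul, Complex.conj_ofReal]
    have h4 : (((1 + 4 * y ^ 2) / 4 : ℝ) : ℂ) ≠ 0 := by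
      rw [Complex.ofReal_ne_zero]
      positivity
    rw [div_eq_iff (mul_ne_zero (by
      rw [Complex.ofReal_ne_zero]
      norm_num) hξ0)]
    have h5 : (((1 + 4 * y ^ 2)⁻¹ : ℝ) : ℂ) * (starRingEnd ℂ) ξ * (((2 ^ 2 : ℝ) : ℂ) * ξ) =
        (((1 + 4 * y ^ 2)⁻¹ : ℝ) : ℂ) * ((2 ^ 2 : ℝ) : ℂ) * (ξ * (starRingEnd ℂ) ξ) := by ring
    rw [h5, hmc, ← Complex.ofReal_mul, ← Complex.ofReal_mul]
    have h6 : (1 + 4 * y ^ 2)⁻¹ * 2 ^ 2 * ((1 + 4 * y ^ 2) / 4) = 1 := by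
      field_simp
      norm_num
    rw [h6, Complex.ofReal_one]
  have hst := H y hy hy1
  rw [← hξ] at hst
  unfold StepR at hst
  rw [hconj, ← gs_conj, hre] at hst
  -- the powers of `y`
  have hy13 : 1 ≤ y ^ (-(13 / 4) : ℝ) := by
    apply Real.one_le_rpow_of_pos_of_le_one_of_nonpos hy hy1
    norm_num
  have hyP : 0 < y ^ (-(13 / 4) : ℝ) := Real.rpow_pos_of_pos hy _
  have hp25 : y ^ (-(25 / 8) : ℝ) ≤ y ^ (-(13 / 4) : ℝ) :=
    Real.rpow_le_rpow_of_exponent_ge hy hy1 (by norm_num)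
  have hnξ : ‖ξ‖ ≤ 3 / 2 := by
    have h1 : ‖ξ‖ ≤ |ξ.re| + |ξ.im| := Complex.norm_le_abs_re_add_abs_im ξ
    rw [hre, him, abs_of_pos hy, abs_div, hsabs] at h1
    have h2 : |(2 : ℝ)| = 2 := abs_of_pos two_pos
    rw [h2] at h1
    linarith
  -- displacement
  have hηre : η.re = (1 + 4 * y ^ 2)⁻¹ * y := by
    rw [hη, Complex.re_ofReal_mul, hre]
  have hηge : y / 5 ≤ η.re := by
    rw [hηre, div_le_iff₀ (by norm_num : (0 : ℝ) < 5), inv_mul_eq_div, div_mul_eq_mul_div,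
      le_div_iff₀ hD0]
    have : y ^ 2 ≤ 1 := by nlinarith
    nlinarith
  have hηξ : ‖η - ξ‖ ≤ 8 * y ^ 2 := by
    have e : η - ξ = ((-(4 * y ^ 2 * (1 + 4 * y ^ 2)⁻¹) : ℝ) : ℂ) * ξ := by
      have h1 : (1 + 4 * y ^ 2)⁻¹ - 1 = -(4 * y ^ 2 * (1 + 4 * y ^ 2)⁻¹) := by
        field_simp
        ring
      rw [hη, ← h1]
      push_cast
      ring
    have h1 : (1 + 4 * y ^ 2)⁻¹ ≤ 1 := inv_le_one_of_one_le₀ (by nlinarith [sq_nonneg y])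
    have h0 : 0 < (1 + 4 * y ^ 2)⁻¹ := by positivity
    rw [e, norm_mul, Complex.norm_real, norm_neg, Real.norm_of_nonneg (by positivity)]
    calc 4 * y ^ 2 * (1 + 4 * y ^ 2)⁻¹ * ‖ξ‖ ≤ 4 * y ^ 2 * 1 * (3 / 2) := by gcongr
      _ ≤ 8 * y ^ 2 := by nlinarith [sq_nonneg y]
  have hdisp : ‖gs b 3 η - gs b 3 ξ‖ ≤ C2 * 8 * (5 : ℝ) ^ (41 / 8 : ℝ) * y ^ (-(13 / 4) : ℝ) := by
    have h1 := hC2 ξ η (y / 5) (by positivity) (by rw [hre]; linarith) hηge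
    have h2 : (y / 5) ^ (-(((3 : ℕ) : ℝ) + 2 + 1 / 8)) = y ^ (-(41 / 8) : ℝ) * 5 ^ (41 / 8 : ℝ) := by
      rw [Real.div_rpow hy.le (by norm_num)]
      rw [show (-(((3 : ℕ) : ℝ) + 2 + 1 / 8)) = (-(41 / 8) : ℝ) by norm_num]
      rw [Real.rpow_neg (by norm_num : (0 : ℝ) ≤ 5), div_inv_eq_mul]
    have h3 : y ^ 2 * y ^ (-(41 / 8) : ℝ) = y ^ (-(25 / 8) : ℝ) := by
      rw [← Real.rpow_natCast, ← Real.rpow_add hy]
      norm_num
    have h50 : (0 : ℝ) < 5 ^ (41 / 8 : ℝ) := Real.rpow_pos_of_pos (by norm_num) _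
    have h41 : (0 : ℝ) < y ^ (-(41 / 8) : ℝ) := Real.rpow_pos_of_pos hy _
    calc ‖gs b 3 η - gs b 3 ξ‖ ≤ C2 * ‖η - ξ‖ * (y / 5) ^ (-(((3 : ℕ) : ℝ) + 2 + 1 / 8)) := h1
      _ = C2 * ‖η - ξ‖ * (y ^ (-(41 / 8) : ℝ) * 5 ^ (41 / 8 : ℝ)) := by rw [h2]
      _ ≤ C2 * (8 * y ^ 2) * (y ^ (-(41 / 8) : ℝ) * 5 ^ (41 / 8 : ℝ)) := by gcongr
      _ = C2 * 8 * (5 : ℝ) ^ (41 / 8 : ℝ) * (y ^ 2 * y ^ (-(41 / 8) : ℝ)) := by ring
      _ = C2 * 8 * (5 : ℝ) ^ (41 / 8 : ℝ) * y ^ (-(25 / 8) : ℝ) := by rw [h3]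
      _ ≤ C2 * 8 * (5 : ℝ) ^ (41 / 8 : ℝ) * y ^ (-(13 / 4) : ℝ) := by gcongr
  -- the factor
  set w : ℂ := ((2 : ℝ) : ℂ) * ξ with hw
  have hw0 : w ≠ 0 := mul_ne_zero (by
    rw [Complex.ofReal_ne_zero]
    norm_num) hξ0
  have hwn : ‖w‖ ≤ 3 := by
    rw [hw, norm_mul, Complex.norm_real, Real.norm_of_nonneg (by norm_num)]
    linarith
  have hwn1 : 1 ≤ ‖w‖ := by
    have h1 : |w.im| ≤ ‖w‖ := Complex.abs_im_le_norm w
    have h2 : w.im = s := by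
      rw [hw, Complex.im_ofReal_mul, him]
      ring
    rw [h2, hsabs] at h1
    exact h1
  have hsI : ((s : ℂ) * I) ^ 2 = -1 := by
    rw [mul_pow, Complex.I_sq, ← Complex.ofReal_pow, hs]
    simp
  have hwsub : w - s * I = ((2 * y : ℝ) : ℂ) := by
    rw [hw, hξ]
    push_cast
    ring
  have hsIn : ‖(s : ℂ) * I‖ = 1 := by
    rw [norm_mul, Complex.norm_real, Complex.norm_I, Real.norm_eq_abs, hsabs, mul_one]
  set v : ℂ := (s : ℂ) * I with hv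
  have hv7 : v * v ^ 7 = 1 := by
    have : v * v ^ 7 = (v ^ 2) ^ 4 := by ring
    rw [this, hsI]
    norm_num
  have hu : ‖(w ^ 7)⁻¹ - v‖ ≤ 10206 * y := by
    have h1 : (w ^ 7)⁻¹ - v = (w ^ 7)⁻¹ * (v * (v - w) *
        (w ^ 6 + w ^ 5 * v + w ^ 4 * v ^ 2 + w ^ 3 * v ^ 3 + w ^ 2 * v ^ 4 + w * v ^ 5 + v ^ 6)) := by
      have h2 : v * (v - w) *
        (w ^ 6 + w ^ 5 * v + w ^ 4 * v ^ 2 + w ^ 3 * v ^ 3 + w ^ 2 * v ^ 4 + w * v ^ 5 + v ^ 6) =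
          1 - v * w ^ 7 := by
        rw [← hv7]
        ring
      rw [h2, mul_sub, mul_one, mul_comm v, inv_mul_cancel_left₀ (pow_ne_zero _ hw0)]
    rw [h1, norm_mul, norm_mul, norm_mul]
    have h3 : ‖(w ^ 7)⁻¹‖ ≤ 1 := by
      rw [norm_inv, norm_pow]
      exact inv_le_one_of_one_le₀ (one_le_pow₀ hwn1)
    have h4 : ‖v - w‖ = 2 * y := by
      rw [← norm_neg, neg_sub, hwsub, Complex.norm_real, Real.norm_of_nonneg (by positivity)]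
    have hpow : ∀ i j : ℕ, i + j = 6 → ‖w ^ i * v ^ j‖ ≤ 3 ^ 6 := by
      intro i j hij
      rw [norm_mul, norm_pow, norm_pow, hsIn, one_pow, mul_one]
      calc ‖w‖ ^ i ≤ 3 ^ i := by gcongr
        _ ≤ 3 ^ 6 := pow_le_pow_right₀ (by norm_num) (by omega)
    have h5 : ‖w ^ 6 + w ^ 5 * v + w ^ 4 * v ^ 2 + w ^ 3 * v ^ 3 + w ^ 2 * v ^ 4 + w * v ^ 5 +
        v ^ 6‖ ≤ 7 * 3 ^ 6 := by
      have a1 := hpow 6 0 rfl
      have a2 := hpow 5 1 rfl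
      have a3 := hpow 4 2 rfl
      have a4 := hpow 3 3 rfl
      have a5 := hpow 2 4 rfl
      have a6 := hpow 1 5 rfl
      have a7 := hpow 0 6 rfl
      simp only [pow_zero, pow_one, mul_one, one_mul] at a1 a2 a3 a4 a5 a6 a7
      refine (norm_add_le _ _).trans ?_
      refine (add_le_add_left (norm_add_le _ _) _).trans ?_
      refine (add_le_add_left (add_le_add_left (norm_add_le _ _) _) _).trans ?_
      refine (add_le_add_left (add_le_add_left (add_le_add_left (norm_add_le _ _) _) _) _).trans ?_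
      refine (add_le_add_left (add_le_add_left (add_le_add_left (add_le_add_left
        (norm_add_le _ _) _) _) _) _).trans ?_
      refine (add_le_add_left (add_le_add_left (add_le_add_left (add_le_add_left
        (add_le_add_left (norm_add_le _ _) _) _) _) _) _).trans ?_
      linarith
    rw [hsIn, h4]
    calc ‖(w ^ 7)⁻¹‖ * (1 * (2 * y) * ‖w ^ 6 + w ^ 5 * v + w ^ 4 * v ^ 2 + w ^ 3 * v ^ 3 +
          w ^ 2 * v ^ 4 + w * v ^ 5 + v ^ 6‖) ≤ 1 * (1 * (2 * y) * (7 * 3 ^ 6)) := by gcongr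
      _ = 10206 * y := by ring
  have hun : ‖(w ^ 7)⁻¹‖ ≤ 1 := by
    rw [norm_inv, norm_pow]
    exact inv_le_one_of_one_le₀ (one_le_pow₀ hwn1)
  have hg : ‖gs b 3 ξ‖ ≤ C3 * y ^ (-(33 / 8) : ℝ) := by
    have h1 := hC3 ξ (by rw [hre]; exact hy)
    rw [hre] at h1
    have e : (-(((3 : ℕ) : ℝ) + 1 + 1 / 8)) = (-(33 / 8) : ℝ) := by norm_num
    rw [e] at h1
    exact h1
  have h3 : y * y ^ (-(33 / 8) : ℝ) = y ^ (-(25 / 8) : ℝ) := by
    nth_rewrite 1 [← Real.rpow_one y]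
    rw [← Real.rpow_add hy]
    norm_num
  -- the decomposition
  have hP' := hP y hy hy1
  rw [← hξ] at hP'
  set PP : ℂ := (2 * (Real.pi : ℂ) * ξ) ^ (-(4 + θ * I) : ℂ) * R.eval (log (2 * (Real.pi : ℂ) * ξ))
    with hPP
  set g : ℂ := gs b 3 ξ with hgdef
  set g' : ℂ := gs b 3 η with hg'def
  have hdec : g - v * ω * (starRingEnd ℂ) g =
      (g - (ω * (w ^ 7)⁻¹ * (starRingEnd ℂ) g' + PP)) + PP +
      ω * (w ^ 7)⁻¹ * (starRingEnd ℂ) (g' - g) + ω * ((w ^ 7)⁻¹ - v) * (starRingEnd ℂ) g := by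
    rw [map_sub]
    ring
  rw [hdec]
  have b1 : ‖ω * (w ^ 7)⁻¹ * (starRingEnd ℂ) (g' - g)‖ ≤
      C2 * 8 * (5 : ℝ) ^ (41 / 8 : ℝ) * y ^ (-(13 / 4) : ℝ) := by
    rw [norm_mul, norm_mul, hω, one_mul, Complex.norm_conj]
    calc ‖(w ^ 7)⁻¹‖ * ‖g' - g‖ ≤ 1 * ‖g' - g‖ := by gcongr
      _ = ‖g' - g‖ := one_mul _
      _ ≤ _ := hdisp
  have b2 : ‖ω * ((w ^ 7)⁻¹ - v) * (starRingEnd ℂ) g‖ ≤ 10206 * C3 * y ^ (-(13 / 4) : ℝ) := by
    rw [norm_mul, norm_mul, hω, one_mul, Complex.norm_conj]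
    calc ‖(w ^ 7)⁻¹ - v‖ * ‖g‖ ≤ (10206 * y) * (C3 * y ^ (-(33 / 8) : ℝ)) := by gcongr
      _ = 10206 * C3 * (y * y ^ (-(33 / 8) : ℝ)) := by ring
      _ = 10206 * C3 * y ^ (-(25 / 8) : ℝ) := by rw [h3]
      _ ≤ 10206 * C3 * y ^ (-(13 / 4) : ℝ) := by gcongr
  have b3 : ‖PP‖ ≤ P * y ^ (-(13 / 4) : ℝ) := by
    calc ‖PP‖ ≤ P := hP'
      _ = P * 1 := (mul_one _).symm
      _ ≤ P * y ^ (-(13 / 4) : ℝ) := by gcongr
  refine (norm_add_le _ _).trans ?_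
  refine (add_le_add_left (norm_add_le _ _) _).trans ?_
  refine (add_le_add_left (add_le_add_left (norm_add_le _ _) _) _).trans ?_
  have e : (C + P + C2 * 8 * (5 : ℝ) ^ (41 / 8 : ℝ) + 10206 * C3) * y ^ (-(13 / 4) : ℝ) =
      C * y ^ (-(13 / 4) : ℝ) + P * y ^ (-(13 / 4) : ℝ) +
      C2 * 8 * (5 : ℝ) ^ (41 / 8 : ℝ) * y ^ (-(13 / 4) : ℝ) +
      10206 * C3 * y ^ (-(13 / 4) : ℝ) := by ring
  rw [e]
  exact add_le_add (add_le_add (add_le_add hst b3) b1) b2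

theorem half_cusp {b : ℕ → ℂ} {M : ℕ} {θ : ℝ} {ωp ωm : ℂ} {Rp Rm : Polynomial ℂ} {C : ℝ}
    (h : Inv2 b 2 M θ ωp ωm Rp Rm C) : ∃ C1 : ℝ, ∀ y : ℝ, 0 < y → y ≤ 1 →
    ‖gs b 3 (y + ((1 / 2 : ℝ) : ℂ) * I) -
      I * ωp * (starRingEnd ℂ) (gs b 3 (y + ((1 / 2 : ℝ) : ℂ) * I))‖ ≤ C1 * y ^ (-(13 / 4) : ℝ) ∧
    ‖gs b 3 (y + ((1 / 2 : ℝ) : ℂ) * I) -
      -(I * ωm) * (starRingEnd ℂ) (gs b 3 (y + ((1 / 2 : ℝ) : ℂ) * I))‖ ≤
      C1 * y ^ (-(13 / 4) : ℝ) := by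
  have hnorm : ∀ (s : ℝ), |s| = 1 → ∀ y : ℝ, 0 < y → y ≤ 1 →
      ‖(y : ℂ) + ((s / 2 : ℝ) : ℂ) * I‖ ≤ 2 := by
    intro s hs y hy hy1
    refine (norm_add_le _ _).trans ?_
    rw [norm_mul, Complex.norm_real, Complex.norm_real, Complex.norm_I, Real.norm_of_nonneg hy.le,
      Real.norm_eq_abs, abs_div, hs]
    have h2 : |(2 : ℝ)| = 2 := abs_of_pos two_pos
    rw [h2]
    linarith
  have hre : ∀ (s y : ℝ), ((y : ℂ) + ((s / 2 : ℝ) : ℂ) * I).re = y := by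
    intro s y
    rw [Complex.add_re, Complex.ofReal_re, Complex.re_ofReal_mul, Complex.I_re]
    ring
  have him : ∀ (s y : ℝ), ((y : ℂ) + ((s / 2 : ℝ) : ℂ) * I).im = s / 2 := by
    intro s y
    rw [Complex.add_im, Complex.ofReal_im, Complex.im_ofReal_mul, Complex.I_im]
    ring
  obtain ⟨A, hA⟩ := half_aux (b := b) (θ := θ) (ω := ωp) (R := Rp) (C := C) 1 (by norm_num) h.ram
    h.hp (fun y hy hy1 => h.up _ (by rw [hre]; exact hy) (by rw [hre]; exact hy1)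
      (hnorm 1 (by norm_num) y hy hy1) (by rw [him]; norm_num))
  obtain ⟨B, hB⟩ := half_aux (b := b) (θ := θ) (ω := ωm) (R := Rm) (C := C) (-1) (by norm_num) h.ram
    h.hm (fun y hy hy1 => h.lo _ (by rw [hre]; exact hy) (by rw [hre]; exact hy1)
      (hnorm (-1) (by norm_num) y hy hy1) (by rw [him]; norm_num))
  refine ⟨max A B, fun y hy hy1 => ⟨?_, ?_⟩⟩
  · have h1 := hA y hy hy1
    rw [Complex.ofReal_one, one_mul] at h1
    refine h1.trans ?_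
    have := Real.rpow_pos_of_pos hy (-(13 / 4))
    gcongr
    exact le_max_left _ _
  · have h1 := hB y hy hy1
    have e1 : (y : ℂ) + ((1 / 2 : ℝ) : ℂ) * I = (y : ℂ) + ((-1 / 2 : ℝ) : ℂ) * I + I := by
      push_cast
      ring
    have e2 : gs b 3 ((y : ℂ) + ((1 / 2 : ℝ) : ℂ) * I) =
        gs b 3 ((y : ℂ) + ((-1 / 2 : ℝ) : ℂ) * I) := by
      rw [e1, gs_per]
    have e3 : ((-1 : ℝ) : ℂ) * I * ωm = -(I * ωm) := by
      push_cast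
      ring
    rw [e3] at h1
    rw [e2]
    refine h1.trans ?_
    have := Real.rpow_pos_of_pos hy (-(13 / 4))
    gcongr
    exact le_max_right _ _

end Pool.Agent.H39.Pol
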