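import Mathlib
import Pool.Agent.H39.Pol.Inv2
import Pool.Agent.H39.Pol.CLB

/-!
# ZEROC: the behaviour at the cusp `0`

Put `κ = 4 + iθ`, `L = log (1/‖ξ‖)`, and for `s = +, -`
`v_s = (2π)^(-κ) (-1)^M R_s.coeff M ≠ 0`.
(1) Let `ξ → 0` in `cone R 0`, `Im ξ ≥ 0`.  `h.up` (valid for `‖ξ‖ ≤ 1`) gives
`gs b 3 ξ = ω (sq ξ)^(-7) gs (cj b) 3 (1/(q ξ)) + (2πξ)^(-κ) R(log 2πξ) + O((Re ξ)^(-13/4))`.
Multiply by `ξ^κ`: `‖ξ^κ‖ ≤ C ‖ξ‖^4` (`Complex.norm_cpow_of_ne_zero`: `‖ξ‖^4 e^(-arg ξ θ)`, `|arg| ≤ π/2`), and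
`Re ξ ≥ ‖ξ‖/(1+R)` in the cone.
* error: `‖ξ‖^4 (Re ξ)^(-13/4) ≤ C ‖ξ‖^(3/4) → 0`;
* first term: `Re (1/(q ξ)) = Re ξ/(q ‖ξ‖²) ≥ c/‖ξ‖`, and `gs_top` (H11/SC/GB, `y0 = 1`) bounds `gs` by
  `C e^(-π c/‖ξ‖)`; times `‖ξ‖^(4-7)`: tends to `0`;
* main term: `ξ^κ (2πξ)^(-κ) = (2π)^(-κ)` (`Complex.mul_cpow_ofReal_nonneg`, `cpow_neg`), and
  `R(log 2πξ)/L^M → (-1)^M R.coeff M`: `log(2πξ) = log 2π + log‖ξ‖ + i arg ξ`, so `log(2πξ)/L → -1`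
  (`L → ∞`), and for `natDegree R ≤ M`, `R(z)/L^M = ∑_{i≤M} R_i (z/L)^i L^(i-M)`.
(dividing the other terms by `L^M`, `L ≥ 1`, only makes them smaller)
So the function in `CL` tends to `v_+` along `cone R 0 ∩ {Im ξ ≥ 0}`; in the same way (`h.lo`) to `v_-`
along `cone R 0 ∩ {Im ξ ≤ 0}`.
(2) Both sets contain the positive reals (`tendsto_rad`), so `v_+ = v_-`.
(3) `cone R 0` is the union (`nhdsWithin_union`, `Filter.Tendsto.sup`).
-/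

set_option autoImplicit false

namespace Pool.Agent.H39.Pol

open Complex Filter Topology Pool.Agent.H11.Selberg Pool.Agent.H11.SC

theorem zeroC_norm_cpow (θ : ℝ) (ξ : ℂ) (hξ : ξ ≠ 0) :
    ‖ξ ^ (4 + θ * I : ℂ)‖ ≤ Real.exp (Real.pi * |θ|) * ‖ξ‖ ^ 4 := by
  rw [Complex.norm_cpow_of_ne_zero hξ]
  have h1 : (4 + θ * I : ℂ).re = 4 := by simp
  have h2 : (4 + θ * I : ℂ).im = θ := by simp
  rw [h1, h2, div_eq_mul_inv, ← Real.exp_neg, mul_comm]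
  have h3 : ‖ξ‖ ^ (4 : ℝ) = ‖ξ‖ ^ 4 := by
    rw [← Real.rpow_natCast]
    norm_num
  rw [h3]
  apply mul_le_mul_of_nonneg_right _ (by positivity)
  apply Real.exp_le_exp.2
  calc -(arg ξ * θ) ≤ |arg ξ * θ| := neg_le_abs _
    _ = |arg ξ| * |θ| := abs_mul _ _
    _ ≤ Real.pi * |θ| := mul_le_mul_of_nonneg_right (abs_arg_le_pi ξ) (abs_nonneg _)

theorem zeroC_norm_le {K : ℝ} {ξ : ℂ} (hξ : ξ ∈ cone K 0) : ‖ξ‖ ≤ (1 + K) * ξ.re := by
  obtain ⟨h1, h2⟩ := hξ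
  rw [sub_zero] at h2
  have h3 := Complex.norm_le_abs_re_add_abs_im ξ
  rw [abs_of_pos h1] at h3
  linarith

theorem zeroC_poly {R : Polynomial ℂ} {M : ℕ} (hR : R.natDegree ≤ M) {ι : Type} {F : Filter ι}
    {z : ι → ℂ} {L : ι → ℝ} (hL : Tendsto L F atTop)
    (hz : Tendsto (fun i => z i / (L i : ℂ)) F (𝓝 (-1))) :
    Tendsto (fun i => R.eval (z i) / ((L i ^ M : ℝ) : ℂ)) F (𝓝 ((-1) ^ M * R.coeff M)) := by
  have h0 : Tendsto (fun i => ((L i : ℂ))⁻¹) F (𝓝 0) := by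
    have h1 : Tendsto (fun i => (L i)⁻¹) F (𝓝 0) := tendsto_inv_atTop_zero.comp hL
    have h2 := (Complex.continuous_ofReal.tendsto 0).comp h1
    simpa [Function.comp_def] using h2
  have h1 : Tendsto (fun i => ∑ j ∈ Finset.range (M + 1),
      R.coeff j * (z i / (L i : ℂ)) ^ j * ((L i : ℂ))⁻¹ ^ (M - j)) F
      (𝓝 (∑ j ∈ Finset.range (M + 1), R.coeff j * (-1) ^ j * 0 ^ (M - j))) := by
    refine tendsto_finsetSum _ fun j _ => ?_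
    exact ((hz.pow j).const_mul _).mul (h0.pow _)
  have h2 : ∑ j ∈ Finset.range (M + 1), R.coeff j * (-1) ^ j * 0 ^ (M - j) =
      (-1) ^ M * R.coeff M := by
    rw [Finset.sum_range_succ, Finset.sum_eq_zero, zero_add, Nat.sub_self, pow_zero, mul_one,
      mul_comm]
    intro j hj
    rw [Finset.mem_range] at hj
    rw [zero_pow (by omega), mul_zero]
  rw [h2] at h1
  refine h1.congr' ?_
  filter_upwards [hL.eventually_gt_atTop 0] with i hi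
  have hi' : (L i : ℂ) ≠ 0 := by exact_mod_cast hi.ne'
  rw [Polynomial.eval_eq_sum_range' (Nat.lt_succ_of_le hR), Finset.sum_div]
  refine Finset.sum_congr rfl fun j hj => ?_
  have hj' : j ≤ M := by
    rw [Finset.mem_range] at hj
    omega
  obtain ⟨k, rfl⟩ : ∃ k, M = j + k := ⟨M - j, by omega⟩
  rw [Nat.add_sub_cancel_left]
  push_cast
  rw [pow_add, div_pow, inv_pow]
  field_simp

theorem zeroC_half {b : ℕ → ℂ} {sq θ C : ℝ} {M : ℕ} {ω : ℂ} {R : Polynomial ℂ} (hsq : 0 < sq)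
    (hC : 0 ≤ C) (hω : ‖ω‖ = 1)
    (ram : ∀ δ : ℝ, 0 < δ → ∃ C : ℝ, ∀ n : ℕ, 1 ≤ n → ‖b n‖ ≤ C * (n : ℝ) ^ δ)
    (hR : R.natDegree ≤ M) {K : ℝ} (hK : 0 ≤ K) {F : Filter ℂ} (hF : F ≤ 𝓝[cone K 0] 0)
    (hst : ∀ᶠ ξ in F, StepR b sq θ ω R C ξ) :
    Tendsto (fun ξ : ℂ => gs b 3 ξ * ξ ^ (4 + θ * I : ℂ) /
      (((Real.log (1 / ‖ξ‖)) ^ M : ℝ) : ℂ)) F
      (𝓝 ((2 * (Real.pi : ℂ)) ^ (-(4 + θ * I) : ℂ) * ((-1) ^ M * R.coeff M))) := by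
  have hpi := Real.pi_pos
  have hξ0 : Tendsto (fun ξ : ℂ => ξ) F (𝓝 0) := hF.trans nhdsWithin_le_nhds
  have hcone : ∀ᶠ ξ in F, ξ ∈ cone K 0 := hF self_mem_nhdsWithin
  have hne : ∀ᶠ ξ in F, ξ ≠ 0 := by
    filter_upwards [hcone] with ξ hξ h
    rw [h] at hξ
    exact lt_irrefl _ hξ.1
  have hn : Tendsto (fun ξ : ℂ => ‖ξ‖) F (𝓝[>] 0) := by
    refine tendsto_nhdsWithin_iff.2 ⟨?_, ?_⟩
    · have := hξ0.norm
      rwa [norm_zero] at this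
    · filter_upwards [hne] with ξ hξ
      exact norm_pos_iff.2 hξ
  have hL : Tendsto (fun ξ : ℂ => Real.log (1 / ‖ξ‖)) F atTop := by
    have h1 : Tendsto (fun ξ : ℂ => 1 / ‖ξ‖) F atTop := by
      simp only [one_div]
      exact tendsto_inv_nhdsGT_zero.comp hn
    exact Real.tendsto_log_atTop.comp h1
  have hL1 : ∀ᶠ ξ in F, 1 ≤ Real.log (1 / ‖ξ‖) := hL.eventually_ge_atTop 1
  -- a bound by a power of the norm suffices
  have key : ∀ (g : ℂ → ℂ) (B p : ℝ), 0 < p → (∀ᶠ ξ in F, ‖g ξ‖ ≤ B * ‖ξ‖ ^ (p - 4)) →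
      Tendsto (fun ξ => g ξ * ξ ^ (4 + θ * I : ℂ) / (((Real.log (1 / ‖ξ‖)) ^ M : ℝ) : ℂ)) F
        (𝓝 0) := by
    intro g B p hp hg
    have h1 : Tendsto (fun ξ : ℂ => |B| * Real.exp (Real.pi * |θ|) * ‖ξ‖ ^ p) F (𝓝 0) := by
      have h2 : Tendsto (fun ξ : ℂ => ‖ξ‖ ^ p) F (𝓝 0) := by
        have h3 := (Real.continuousAt_rpow_const 0 p (Or.inr hp.le)).tendsto
        rw [Real.zero_rpow hp.ne'] at h3
        exact h3.comp (hn.mono_right nhdsWithin_le_nhds)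
      have h4 := h2.const_mul (|B| * Real.exp (Real.pi * |θ|))
      rwa [mul_zero] at h4
    refine squeeze_zero_norm' ?_ h1
    filter_upwards [hg, hne, hL1] with ξ h2 h3 h4
    have hξp : 0 < ‖ξ‖ := norm_pos_iff.2 h3
    have h5 : 1 ≤ Real.log (1 / ‖ξ‖) ^ M := one_le_pow₀ h4
    have h6 := zeroC_norm_cpow θ ξ h3
    rw [norm_div, norm_mul, Complex.norm_real, Real.norm_eq_abs, abs_of_pos (by linarith)]
    have h7 : ‖g ξ‖ * ‖ξ ^ (4 + θ * I : ℂ)‖ / Real.log (1 / ‖ξ‖) ^ M ≤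
        ‖g ξ‖ * ‖ξ ^ (4 + θ * I : ℂ)‖ := div_le_self (by positivity) h5
    refine h7.trans ?_
    have h8 : ‖g ξ‖ ≤ |B| * ‖ξ‖ ^ (p - 4) := by
      refine h2.trans (mul_le_mul_of_nonneg_right (le_abs_self B) ?_)
      exact Real.rpow_nonneg hξp.le _
    calc ‖g ξ‖ * ‖ξ ^ (4 + θ * I : ℂ)‖ ≤
        (|B| * ‖ξ‖ ^ (p - 4)) * (Real.exp (Real.pi * |θ|) * ‖ξ‖ ^ 4) := by
          apply mul_le_mul h8 h6 (norm_nonneg _)
          have := Real.rpow_nonneg hξp.le (p - 4)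
          positivity
      _ = |B| * Real.exp (Real.pi * |θ|) * (‖ξ‖ ^ (p - 4) * ‖ξ‖ ^ (4 : ℝ)) := by
          have : ‖ξ‖ ^ (4 : ℝ) = ‖ξ‖ ^ 4 := by
            rw [← Real.rpow_natCast]
            norm_num
          rw [this]
          ring
      _ = |B| * Real.exp (Real.pi * |θ|) * ‖ξ‖ ^ p := by
          rw [← Real.rpow_add hξp]
          congr 2
          ring
  have hA : Tendsto (fun ξ : ℂ => (ω * (((sq : ℂ) * ξ) ^ 7)⁻¹ *
      gs (cj b) 3 (1 / ((sq ^ 2 : ℝ) * ξ))) * ξ ^ (4 + θ * I : ℂ) /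
      (((Real.log (1 / ‖ξ‖)) ^ M : ℝ) : ℂ)) F (𝓝 0) := by
    obtain ⟨C2, hC2⟩ := gs_top (cj b) 3 (by norm_num) 1 (by
      obtain ⟨C', hC'⟩ := ram 1 one_pos
      refine ⟨C', fun n hn => ?_⟩
      unfold cj
      rw [RCLike.norm_conj]
      exact hC' n hn) 1 one_pos
    obtain ⟨c, hc⟩ : ∃ c : ℝ, c = Real.pi / (sq ^ 2 * (1 + K)) := ⟨_, rfl⟩
    have hc0 : 0 < c := by
      rw [hc]
      positivity
    refine key _ ((sq ^ 7)⁻¹ * (|C2| * (24 / c ^ 4))) 1 one_pos ?_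
    have hsmall : ∀ᶠ ξ in F, ‖ξ‖ < c / Real.pi := by
      have h1 := hn.mono_right nhdsWithin_le_nhds
      exact h1.eventually_lt_const (by positivity)
    filter_upwards [hcone, hne, hsmall] with ξ h1 h2 h3
    have hξp : 0 < ‖ξ‖ := norm_pos_iff.2 h2
    have h4 := zeroC_norm_le h1
    have h5 : (1 / ((sq ^ 2 : ℝ) * ξ) : ℂ).re = ξ.re / (sq ^ 2 * ‖ξ‖ ^ 2) := by
      have e1 : (1 / ((sq ^ 2 : ℝ) * ξ) : ℂ) = (((sq ^ 2)⁻¹ : ℝ) : ℂ) * ξ⁻¹ := by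
        rw [one_div, mul_inv]
        push_cast
        rfl
      rw [e1, Complex.re_ofReal_mul, Complex.inv_re, Complex.normSq_eq_norm_sq]
      field_simp
    have h6 : c / ‖ξ‖ ≤ Real.pi * (1 / ((sq ^ 2 : ℝ) * ξ) : ℂ).re := by
      rw [h5, hc]
      rw [div_div, ← mul_div_assoc, div_le_div_iff₀ (by positivity) (by positivity)]
      have h7 : Real.pi * (sq ^ 2 * ‖ξ‖ ^ 2) ≤ Real.pi * (sq ^ 2 * (‖ξ‖ * ((1 + K) * ξ.re))) := by
        apply mul_le_mul_of_nonneg_left _ hpi.le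
        apply mul_le_mul_of_nonneg_left _ (by positivity)
        rw [pow_two ‖ξ‖]
        exact mul_le_mul_of_nonneg_left h4 hξp.le
      refine h7.trans (le_of_eq ?_)
      ring
    have h7 : 1 ≤ (1 / ((sq ^ 2 : ℝ) * ξ) : ℂ).re := by
      have h8 : Real.pi ≤ c / ‖ξ‖ := by
        rw [le_div_iff₀ hξp]
        rw [lt_div_iff₀ hpi] at h3
        linarith
      nlinarith
    have h8 := hC2 _ h7
    have h9 : Real.exp (-(Real.pi * (1 / ((sq ^ 2 : ℝ) * ξ) : ℂ).re)) ≤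
        24 / c ^ 4 * ‖ξ‖ ^ 4 := by
      have i1 : Real.exp (-(Real.pi * (1 / ((sq ^ 2 : ℝ) * ξ) : ℂ).re)) ≤
          Real.exp (-(c / ‖ξ‖)) := Real.exp_le_exp.2 (neg_le_neg h6)
      refine i1.trans ?_
      have i2 := Real.pow_div_factorial_le_exp (c / ‖ξ‖) (by positivity) 4
      have i3 : (c / ‖ξ‖) ^ 4 / 24 ≤ Real.exp (c / ‖ξ‖) := by
        have : ((Nat.factorial 4 : ℕ) : ℝ) = 24 := by norm_num [Nat.factorial]
        rwa [this] at i2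
      rw [Real.exp_neg]
      calc (Real.exp (c / ‖ξ‖))⁻¹ ≤ ((c / ‖ξ‖) ^ 4 / 24)⁻¹ := inv_anti₀ (by positivity) i3
        _ = _ := by
          rw [div_pow]
          field_simp
    rw [norm_mul, norm_mul, hω, one_mul, norm_inv, norm_pow, norm_mul, Complex.norm_real,
      Real.norm_eq_abs, abs_of_pos hsq]
    have h10 : ‖gs (cj b) 3 (1 / ((sq ^ 2 : ℝ) * ξ))‖ ≤ |C2| * (24 / c ^ 4 * ‖ξ‖ ^ 4) := by
      refine h8.trans ?_
      calc C2 * _ ≤ |C2| * _ := mul_le_mul_of_nonneg_right (le_abs_self _) (Real.exp_pos _).le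
        _ ≤ _ := mul_le_mul_of_nonneg_left h9 (abs_nonneg _)
    calc ((sq * ‖ξ‖) ^ 7)⁻¹ * ‖gs (cj b) 3 (1 / ((sq ^ 2 : ℝ) * ξ))‖ ≤
        ((sq * ‖ξ‖) ^ 7)⁻¹ * (|C2| * (24 / c ^ 4 * ‖ξ‖ ^ 4)) :=
          mul_le_mul_of_nonneg_left h10 (by positivity)
      _ = (sq ^ 7)⁻¹ * (|C2| * (24 / c ^ 4)) * ‖ξ‖ ^ ((1 : ℝ) - 4) := by
          have e2 : ‖ξ‖ ^ ((1 : ℝ) - 4) = (‖ξ‖ ^ 3)⁻¹ := by
            rw [show ((1 : ℝ) - 4) = -((3 : ℕ) : ℝ) by norm_num, Real.rpow_neg hξp.le,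
              Real.rpow_natCast]
          rw [e2]
          field_simp
  have hE : Tendsto (fun ξ : ℂ => (gs b 3 ξ - (ω * (((sq : ℂ) * ξ) ^ 7)⁻¹ *
      gs (cj b) 3 (1 / ((sq ^ 2 : ℝ) * ξ)) +
      (2 * (Real.pi : ℂ) * ξ) ^ (-(4 + θ * I) : ℂ) * R.eval (log (2 * (Real.pi : ℂ) * ξ)))) *
      ξ ^ (4 + θ * I : ℂ) / (((Real.log (1 / ‖ξ‖)) ^ M : ℝ) : ℂ)) F (𝓝 0) := by
    refine key _ (C * (1 + K) ^ (13 / 4 : ℝ)) (3 / 4) (by norm_num) ?_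
    filter_upwards [hcone, hne, hst] with ξ h1 h2 h3
    have hξp : 0 < ‖ξ‖ := norm_pos_iff.2 h2
    have h4 := zeroC_norm_le h1
    unfold StepR at h3
    refine h3.trans ?_
    rw [mul_assoc]
    apply mul_le_mul_of_nonneg_left _ hC
    have h5 : ξ.re ^ (-(13 / 4) : ℝ) ≤ (‖ξ‖ / (1 + K)) ^ (-(13 / 4) : ℝ) := by
      apply Real.rpow_le_rpow_of_nonpos (by positivity) _ (by norm_num)
      rw [div_le_iff₀ (by positivity)]
      linarith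
    refine h5.trans (le_of_eq ?_)
    rw [Real.div_rpow hξp.le (by positivity), Real.rpow_neg (by positivity : (0 : ℝ) ≤ 1 + K),
      div_inv_eq_mul, mul_comm]
    congr 2
    norm_num
  have hP : Tendsto (fun ξ : ℂ => ((2 * (Real.pi : ℂ) * ξ) ^ (-(4 + θ * I) : ℂ) *
      R.eval (log (2 * (Real.pi : ℂ) * ξ))) * ξ ^ (4 + θ * I : ℂ) /
      (((Real.log (1 / ‖ξ‖)) ^ M : ℝ) : ℂ)) F
      (𝓝 ((2 * (Real.pi : ℂ)) ^ (-(4 + θ * I) : ℂ) * ((-1) ^ M * R.coeff M))) := by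
    have hlog : ∀ ξ : ℂ, ξ ≠ 0 → log (2 * (Real.pi : ℂ) * ξ) =
        ((Real.log (2 * Real.pi) : ℝ) : ℂ) + log ξ := by
      intro ξ hξ
      have e : (2 * (Real.pi : ℂ) * ξ) = ((2 * Real.pi : ℝ) : ℂ) * ξ := by push_cast; ring
      rw [e, Complex.log_ofReal_mul (by positivity) hξ]
    have hz : Tendsto (fun ξ : ℂ => log (2 * (Real.pi : ℂ) * ξ) /
        ((Real.log (1 / ‖ξ‖) : ℝ) : ℂ)) F (𝓝 (-1)) := by
      have h1 : Tendsto (fun ξ : ℂ => (((Real.log (2 * Real.pi) : ℝ) : ℂ) + (arg ξ) * I) /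
          ((Real.log (1 / ‖ξ‖) : ℝ) : ℂ)) F (𝓝 0) := by
        have h2 : Tendsto (fun ξ : ℂ => (|Real.log (2 * Real.pi)| + Real.pi) *
            (Real.log (1 / ‖ξ‖))⁻¹) F (𝓝 0) := by
          have h3 := (tendsto_inv_atTop_zero.comp hL).const_mul (|Real.log (2 * Real.pi)| + Real.pi)
          rwa [mul_zero] at h3
        refine squeeze_zero_norm' ?_ h2
        filter_upwards [hL1] with ξ h3
        rw [norm_div, Complex.norm_real, Real.norm_eq_abs, abs_of_pos (by linarith), div_eq_mul_inv]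
        apply mul_le_mul_of_nonneg_right _ (by positivity)
        refine (norm_add_le _ _).trans ?_
        rw [Complex.norm_real, norm_mul, Complex.norm_I, mul_one, Complex.norm_real,
          Real.norm_eq_abs, Real.norm_eq_abs]
        have := abs_arg_le_pi ξ
        linarith
      have h2 := h1.sub_const 1
      rw [zero_sub] at h2
      refine h2.congr' ?_
      filter_upwards [hne, hL1] with ξ h3 h4
      have h5 : ((Real.log (1 / ‖ξ‖) : ℝ) : ℂ) ≠ 0 := by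
        have : Real.log (1 / ‖ξ‖) ≠ 0 := by linarith
        exact_mod_cast this
      rw [hlog ξ h3]
      have h6 : log ξ = -((Real.log (1 / ‖ξ‖) : ℝ) : ℂ) + (arg ξ) * I := by
        rw [one_div, Real.log_inv]
        unfold Complex.log
        push_cast
        ring
      rw [h6, sub_eq_iff_eq_add, ← div_self h5, ← add_div]
      congr 1
      ring
    have h1 := zeroC_poly hR hL hz
    have h2 := h1.const_mul ((2 * (Real.pi : ℂ)) ^ (-(4 + θ * I) : ℂ))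
    refine h2.congr' ?_
    filter_upwards [hne] with ξ h3
    have h4 : (2 * (Real.pi : ℂ) * ξ) ^ (-(4 + θ * I) : ℂ) * ξ ^ (4 + θ * I : ℂ) =
        (2 * (Real.pi : ℂ)) ^ (-(4 + θ * I) : ℂ) := by
      have i1 : (2 * (Real.pi : ℂ)) ≠ 0 := by
        have : (2 * Real.pi : ℝ) ≠ 0 := by positivity
        exact_mod_cast this
      have i2 : (2 * (Real.pi : ℂ) * ξ) ≠ 0 := mul_ne_zero i1 h3
      have i3 : log (2 * (Real.pi : ℂ)) = ((Real.log (2 * Real.pi) : ℝ) : ℂ) := by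
        rw [Complex.ofReal_log (by positivity)]
        push_cast
        rfl
      rw [Complex.cpow_def_of_ne_zero i2, Complex.cpow_def_of_ne_zero h3,
        Complex.cpow_def_of_ne_zero i1, ← Complex.exp_add, hlog ξ h3, i3]
      congr 1
      ring
    rw [← h4]
    ring
  have hsum := (hA.add hE).add hP
  rw [zero_add, zero_add] at hsum
  refine hsum.congr fun ξ => ?_
  ring

theorem zero_cusp {b : ℕ → ℂ} {sq : ℝ} {M : ℕ} {θ : ℝ} {ωp ωm : ℂ} {Rp Rm : Polynomial ℂ} {C : ℝ}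
    (h : Inv2 b sq M θ ωp ωm Rp Rm C) :
    ∃ ρ : ℂ, ρ ≠ 0 ∧ CL (gs b 3) M (4 + θ * I) 0 ρ := by
  have hev : ∀ K : ℝ, ∀ᶠ ξ : ℂ in 𝓝[cone K 0] 0, 0 < ξ.re ∧ ξ.re ≤ 1 ∧ ‖ξ‖ ≤ 2 := by
    intro K
    have h1 : ∀ᶠ ξ : ℂ in 𝓝[cone K 0] 0, ‖ξ‖ < 1 := by
      have h2 : Tendsto (fun ξ : ℂ => ‖ξ‖) (𝓝[cone K 0] 0) (𝓝 ‖(0 : ℂ)‖) :=
        (continuous_norm.tendsto 0).mono_left nhdsWithin_le_nhds
      rw [norm_zero] at h2
      exact h2.eventually_lt_const one_pos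
    filter_upwards [h1, self_mem_nhdsWithin] with ξ h2 h3
    refine ⟨h3.1, ?_, by linarith⟩
    exact ((Complex.re_le_norm ξ).trans h2.le)
  have hup : ∀ (K : ℝ), 0 ≤ K → ∀ F : Filter ℂ, F ≤ 𝓝[cone K 0] 0 → (∀ᶠ ξ in F, 0 ≤ ξ.im) →
      Tendsto (fun ξ : ℂ => gs b 3 ξ * ξ ^ (4 + θ * I : ℂ) /
      (((Real.log (1 / ‖ξ‖)) ^ M : ℝ) : ℂ)) F
      (𝓝 ((2 * (Real.pi : ℂ)) ^ (-(4 + θ * I) : ℂ) * ((-1) ^ M * Rp.coeff M))) := by
    intro K hK F hF him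
    refine zeroC_half h.sq0 h.C0 h.hp h.ram h.dp hK hF ?_
    filter_upwards [hF (hev K), him] with ξ h1 h2
    exact h.up ξ h1.1 h1.2.1 h1.2.2 h2
  have hlo : ∀ (K : ℝ), 0 ≤ K → ∀ F : Filter ℂ, F ≤ 𝓝[cone K 0] 0 → (∀ᶠ ξ in F, ξ.im ≤ 0) →
      Tendsto (fun ξ : ℂ => gs b 3 ξ * ξ ^ (4 + θ * I : ℂ) /
      (((Real.log (1 / ‖ξ‖)) ^ M : ℝ) : ℂ)) F
      (𝓝 ((2 * (Real.pi : ℂ)) ^ (-(4 + θ * I) : ℂ) * ((-1) ^ M * Rm.coeff M))) := by
    intro K hK F hF him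
    refine zeroC_half h.sq0 h.C0 h.hm h.ram h.dm hK hF ?_
    filter_upwards [hF (hev K), him] with ξ h1 h2
    exact h.lo ξ h1.1 h1.2.1 h1.2.2 h2
  have hrad : Tendsto (fun y : ℝ => (y : ℂ)) (𝓝[>] 0) (𝓝[cone 0 0] 0) := by
    have h1 := tendsto_rad 0 0 le_rfl
    simpa using h1
  have heq : (2 * (Real.pi : ℂ)) ^ (-(4 + θ * I) : ℂ) * ((-1) ^ M * Rp.coeff M) =
      (2 * (Real.pi : ℂ)) ^ (-(4 + θ * I) : ℂ) * ((-1) ^ M * Rm.coeff M) := by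
    have h1 := hup 0 le_rfl (map (fun y : ℝ => (y : ℂ)) (𝓝[>] 0)) hrad (by
      rw [eventually_map]
      exact Eventually.of_forall fun y => by simp)
    have h2 := hlo 0 le_rfl (map (fun y : ℝ => (y : ℂ)) (𝓝[>] 0)) hrad (by
      rw [eventually_map]
      exact Eventually.of_forall fun y => by simp)
    exact tendsto_nhds_unique h1 h2
  refine ⟨(2 * (Real.pi : ℂ)) ^ (-(4 + θ * I) : ℂ) * ((-1) ^ M * Rp.coeff M), ?_, ?_⟩
  · have i1 : (2 * (Real.pi : ℂ)) ≠ 0 := by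
      have : (2 * Real.pi : ℝ) ≠ 0 := by positivity
      exact_mod_cast this
    refine mul_ne_zero ?_ (mul_ne_zero (pow_ne_zero _ (by norm_num)) h.cp)
    rw [Complex.cpow_def_of_ne_zero i1]
    exact Complex.exp_ne_zero _
  · intro K hK
    simp only [ofReal_zero, zero_mul, sub_zero]
    have hun : cone K 0 = (cone K 0 ∩ {ξ : ℂ | 0 ≤ ξ.im}) ∪ (cone K 0 ∩ {ξ : ℂ | ξ.im ≤ 0}) := by
      rw [← Set.inter_union_distrib_left]
      symm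
      rw [Set.inter_eq_left]
      intro ξ _
      exact le_total 0 ξ.im
    rw [hun, nhdsWithin_union, tendsto_sup]
    constructor
    · refine hup K hK _ (nhdsWithin_mono _ Set.inter_subset_left) ?_
      filter_upwards [self_mem_nhdsWithin] with ξ h1
      exact h1.2
    · rw [heq]
      refine hlo K hK _ (nhdsWithin_mono _ Set.inter_subset_left) ?_
      filter_upwards [self_mem_nhdsWithin] with ξ h1
      exact h1.2

end Pool.Agent.H39.Pol
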