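import Mathlib
import Pool.Agent.H39.Pol.ZeroC
import Pool.Agent.H39.Pol.WC
import Pool.Agent.H39.Pol.HalfC
import Pool.Agent.H11.SC4.Two

/-!
# DAT: the data at the cusps; the rest of the proof (arithmetic) uses only this structure
-/

set_option autoImplicit false

namespace Pool.Agent.H39.Pol

open Complex Filter Topology Pool.Agent.H11.Selberg Pool.Agent.H11.SC

/-- the value `g(y) = gs b 3 (y + i/2)` -/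
noncomputable def gh (b : ℕ → ℂ) (y : ℝ) : ℂ := gs b 3 (y + ((1 / 2 : ℝ) : ℂ) * I)

/-- The data.  `ηp`, `ηm` are the constants of the inversion at `β > 0`, `β < 0`. -/
structure Dat (b : ℕ → ℂ) (q M : ℕ) (θ : ℝ) (ρ ηp ηm : ℂ) : Prop where
  one : b 1 = 1
  mul : ∀ m n : ℕ, Nat.Coprime m n → b (m * n) = b m * b n
  ram : ∀ δ : ℝ, 0 < δ → ∃ C : ℝ, ∀ n : ℕ, 1 ≤ n → ‖b n‖ ≤ C * (n : ℝ) ^ δ
  /-- the Euler factor at `p` has no zero in `|X| ≤ p^(-1/2)` -/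
  loc : ∀ p : ℕ, p.Prime → ∀ X : ℂ, ‖X‖ ≤ (p : ℝ) ^ (-(1 / 2) : ℝ) → ∑' k : ℕ, b (p ^ k) * X ^ k ≠ 0
  two : ∃ c : ℕ → ℂ, TwoRel b c
  rho0 : ρ ≠ 0
  hp : ‖ηp‖ = 1
  hm : ‖ηm‖ = 1
  zero : CL (gs b 3) M (4 + θ * I) 0 ρ
  W : ∀ (β τ : ℝ) (v : ℂ), β ≠ 0 → |β| ≤ 1 → CL (gs b 3) M (4 + τ * I) (1 / (q * β)) v →
    CL (gs b 3) M (4 - τ * I) β ((if 0 < β then ηp else ηm) * ((Real.sqrt q * |β| : ℝ) : ℂ) *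
      ((q * β ^ 2 : ℝ) : ℂ) ^ (-(τ * I)) * (starRingEnd ℂ) v)
  half : q = 4 → ∃ C : ℝ, ∀ y : ℝ, 0 < y → y ≤ 1 →
    ‖gh b y - ηp * (starRingEnd ℂ) (gh b y)‖ ≤ C * y ^ (-(13 / 4) : ℝ) ∧
    ‖gh b y - ηm * (starRingEnd ℂ) (gh b y)‖ ≤ C * y ^ (-(13 / 4) : ℝ)

theorem dat_of {b : ℕ → ℂ} {sq : ℝ} {M : ℕ} {θ : ℝ} {ωp ωm : ℂ} {Rp Rm : Polynomial ℂ} {C : ℝ}
    (h : Inv2 b sq M θ ωp ωm Rp Rm C) (q : ℕ) (hsq : sq ^ 2 = q) (one : b 1 = 1)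
    (mul : ∀ m n : ℕ, Nat.Coprime m n → b (m * n) = b m * b n)
    (loc : ∀ p : ℕ, p.Prime → ∀ X : ℂ, ‖X‖ ≤ (p : ℝ) ^ (-(1 / 2) : ℝ) →
      ∑' k : ℕ, b (p ^ k) * X ^ k ≠ 0)
    (two : ∃ c : ℕ → ℂ, TwoRel b c) : ∃ ρ ηp ηm : ℂ, Dat b q M θ ρ ηp ηm := by
  have hs : sq = Real.sqrt q := by
    rw [← hsq, Real.sqrt_sq h.sq0.le]
  obtain ⟨ρ, hρ, hz⟩ := zero_cusp h
  refine ⟨ρ, I * ωp, -(I * ωm), ⟨one, mul, h.ram, loc, two, hρ, ?_, ?_, hz, ?_, ?_⟩⟩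
  · rw [norm_mul, h.hp, norm_I, mul_one]
  · rw [norm_neg, norm_mul, h.hm, norm_I, mul_one]
  · intro β τ v hβ hβ1 hv
    rw [← hsq] at hv ⊢
    have h1 := w_cusp h β τ v hβ hβ1 hv
    rw [Real.sqrt_sq h.sq0.le]
    exact h1
  · intro h4
    have h5 : sq = 2 := by
      rw [hs, h4]
      have : ((4 : ℕ) : ℝ) = 2 ^ 2 := by norm_num
      rw [this, Real.sqrt_sq (by norm_num)]
    rw [h5] at h
    obtain ⟨C1, h6⟩ := half_cusp h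
    exact ⟨C1, h6⟩

end Pool.Agent.H39.Pol
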