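import Mathlib
import Pool.Agent.H39.Pol.Dat

/-!
# RULES: the two types of values at rational cusps and the rules given by the inversion
-/

set_option autoImplicit false

namespace Pool.Agent.H39.Pol

open Complex Filter Topology Pool.Agent.H11.Selberg Pool.Agent.H11.SC

/-- value at the cusp `j/c`, type `(ξ - iβ)^(-(4+iθ))`, normalised -/
def Plus (b : ℕ → ℂ) (M : ℕ) (θ : ℝ) (ρ : ℂ) (j : ℤ) (c : ℕ) (x : ℂ) : Prop :=
  CL (gs b 3) M (4 + θ * I) ((j : ℝ) / c) (ρ * x * (c : ℂ) ^ (-(1 + 2 * θ * I) : ℂ))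

/-- value at the cusp `j/c`, type `(ξ - iβ)^(-(4-iθ))`, normalised -/
def Minus (b : ℕ → ℂ) (q M : ℕ) (θ : ℝ) (ρ : ℂ) (j : ℤ) (c : ℕ) (x : ℂ) : Prop :=
  CL (gs b 3) M (4 - θ * I) ((j : ℝ) / c)
    ((starRingEnd ℂ) ρ * x * ((Real.sqrt q / c : ℝ) : ℂ) * (((c : ℝ) ^ 2 / q : ℝ) : ℂ) ^ (θ * I))

variable {b : ℕ → ℂ} {q M : ℕ} {θ : ℝ} {ρ ηp ηm : ℂ}

theorem plus_zero (D : Dat b q M θ ρ ηp ηm) : Plus b M θ ρ 0 1 1 := by
  unfold Plus
  have h := D.zero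
  simpa using h

theorem plus_per (j : ℤ) (c : ℕ) (hc : 1 ≤ c) (x : ℂ) (m : ℤ) (h : Plus b M θ ρ j c x) :
    Plus b M θ ρ (j + m * c) c x := by
  unfold Plus at h ⊢
  have h1 := h.per (gs_per b 3) m
  have h2 : (((j + m * c : ℤ) : ℝ) / c) = (j : ℝ) / c + m := by
    have : (c : ℝ) ≠ 0 := by positivity
    push_cast
    field_simp
  rw [h2]
  exact h1

theorem minus_per (j : ℤ) (c : ℕ) (hc : 1 ≤ c) (x : ℂ) (m : ℤ) (h : Minus b q M θ ρ j c x) :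
    Minus b q M θ ρ (j + m * c) c x := by
  unfold Minus at h ⊢
  have h1 := h.per (gs_per b 3) m
  have h2 : (((j + m * c : ℤ) : ℝ) / c) = (j : ℝ) / c + m := by
    have : (c : ℝ) ≠ 0 := by positivity
    push_cast
    field_simp
  rw [h2]
  exact h1

theorem plus_unique (D : Dat b q M θ ρ ηp ηm) (j : ℤ) (c : ℕ) (hc : 1 ≤ c) (x y : ℂ)
    (h1 : Plus b M θ ρ j c x) (h2 : Plus b M θ ρ j c y) : x = y := by
  unfold Plus at h1 h2
  have h3 := h1.unique h2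
  have hc0 : (c : ℂ) ≠ 0 := by
    have : 0 < c := hc
    exact_mod_cast this.ne'
  have h4 : (c : ℂ) ^ (-(1 + 2 * θ * I) : ℂ) ≠ 0 := by
    rw [Ne, cpow_eq_zero_iff]
    tauto
  have h5 := mul_right_cancel₀ h4 h3
  exact mul_left_cancel₀ D.rho0 h5

theorem minus_unique (D : Dat b q M θ ρ ηp ηm) (hq : 1 ≤ q) (j : ℤ) (c : ℕ) (hc : 1 ≤ c) (x y : ℂ)
    (h1 : Minus b q M θ ρ j c x) (h2 : Minus b q M θ ρ j c y) : x = y := by
  unfold Minus at h1 h2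
  have h3 := h1.unique h2
  have hcr : (0 : ℝ) < c := by exact_mod_cast hc
  have hqr : (0 : ℝ) < q := by exact_mod_cast hq
  have h4 : (((c : ℝ) ^ 2 / q : ℝ) : ℂ) ^ (θ * I) ≠ 0 := by
    rw [Ne, cpow_eq_zero_iff]
    have h5 : (((c : ℝ) ^ 2 / q : ℝ) : ℂ) ≠ 0 := by
      have : (0 : ℝ) < (c : ℝ) ^ 2 / q := by positivity
      exact_mod_cast this.ne'
    tauto
  have h5 := mul_right_cancel₀ h4 h3
  have h6 : ((Real.sqrt q / c : ℝ) : ℂ) ≠ 0 := by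
    have h7 : (0 : ℝ) < Real.sqrt q / c := div_pos (Real.sqrt_pos.2 hqr) hcr
    exact_mod_cast h7.ne'
  have h7 := mul_right_cancel₀ h6 h5
  exact mul_left_cancel₀ ((map_ne_zero _).2 D.rho0) h7

private theorem cpow_comb {x : ℝ} (hx : 0 < x) (z : ℂ) : (x : ℂ) ^ z = cexp (Real.log x * z) := by
  rw [cpow_def_of_ne_zero (by exact_mod_cast hx.ne'), ← ofReal_log hx.le]

/-- inversion, from the type `+` to the type `-` -/
theorem rule1 (D : Dat b q M θ ρ ηp ηm) (hq : 1 ≤ q) (j : ℤ) (c' : ℕ) (hj : j ≠ 0) (hc : 1 ≤ c')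
    (hjc : j.natAbs ≤ q * c') (x : ℂ) (h : Plus b M θ ρ (j.sign * c') j.natAbs x) :
    Minus b q M θ ρ j (q * c') ((if 0 < j then ηp else ηm) * (starRingEnd ℂ) x) := by
  unfold Plus at h
  unfold Minus
  have hcr : (0 : ℝ) < c' := by exact_mod_cast hc
  have hqr : (0 : ℝ) < q := by exact_mod_cast hq
  have hjr : (j : ℝ) ≠ 0 := by exact_mod_cast hj
  set β : ℝ := (j : ℝ) / ((q * c' : ℕ) : ℝ) with hβ
  have hqc : (0 : ℝ) < ((q * c' : ℕ) : ℝ) := by push_cast; positivity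
  have hβ0 : β ≠ 0 := div_ne_zero hjr hqc.ne'
  have habs : ((j.natAbs : ℕ) : ℝ) = |(j : ℝ)| := by
    rw [Nat.cast_natAbs]
    push_cast
    rfl
  have hβ1 : |β| ≤ 1 := by
    rw [hβ, abs_div, abs_of_pos hqc, div_le_one hqc, ← habs]
    exact_mod_cast hjc
  have hsg : ((j.sign : ℤ) : ℝ) * |(j : ℝ)| = j := by
    have := Int.sign_mul_abs j
    exact_mod_cast this
  have hjabs : 0 < |(j : ℝ)| := abs_pos.2 hjr
  have hsg2 : ((j.sign : ℤ) : ℝ) * j = |(j : ℝ)| := by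
    rcases lt_or_gt_of_ne hj with h0 | h0
    · rw [Int.sign_eq_neg_one_of_neg h0]
      have : (j : ℝ) < 0 := by exact_mod_cast h0
      rw [abs_of_neg this]
      push_cast
      ring
    · rw [Int.sign_eq_one_of_pos h0]
      have : (0 : ℝ) < j := by exact_mod_cast h0
      rw [abs_of_pos this]
      push_cast
      ring
  have e1 : (1 / (q * β)) = ((j.sign * c' : ℤ) : ℝ) / ((j.natAbs : ℕ) : ℝ) := by
    rw [habs, hβ]
    push_cast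
    have h3 : ((j.sign : ℤ) : ℝ) * j = |(j : ℝ)| := hsg2
    rw [eq_div_iff hjabs.ne']
    field_simp
    linarith
  have h2 := D.W β θ _ hβ0 hβ1 (by rw [e1]; exact h)
  have hsign : (0 < β) ↔ (0 < j) := by
    rw [hβ]
    constructor
    · intro h0
      have h3 : (0 : ℝ) < j := by
        by_contra h4
        have := div_nonpos_of_nonpos_of_nonneg (not_lt.1 h4) hqc.le
        linarith
      exact_mod_cast h3
    · intro h0
      have h3 : (0 : ℝ) < j := by exact_mod_cast h0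
      positivity
  have e2 : (if 0 < β then ηp else ηm) = (if 0 < j then ηp else ηm) := by
    simp only [hsign]
  rw [e2] at h2
  convert h2 using 1
  have hn0 : ((j.natAbs : ℕ) : ℂ) = ((|(j : ℝ)| : ℝ) : ℂ) := by
    rw [← habs, ofReal_natCast]
  have hconj : (starRingEnd ℂ) (((|(j : ℝ)| : ℝ) : ℂ) ^ (-(1 + 2 * θ * I) : ℂ)) =
      ((|(j : ℝ)| : ℝ) : ℂ) ^ (-(1 - 2 * θ * I) : ℂ) := by
    rw [cpow_comb hjabs, cpow_comb hjabs, ← exp_conj]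
    congr 1
    rw [map_mul, conj_ofReal]
    congr 1
    simp only [map_neg, map_add, map_one, map_mul, conj_ofReal, conj_I]
    have h4 : (starRingEnd ℂ) (2 : ℂ) = 2 := Complex.conj_ofNat 2
    rw [h4]
    ring
  rw [map_mul, map_mul, hn0, hconj]
  have hb1 : |β| = |(j : ℝ)| / (q * c') := by
    rw [hβ, abs_div, abs_of_pos hqc]
    push_cast
    rfl
  have hb2 : q * β ^ 2 = |(j : ℝ)| ^ 2 / (q * c' ^ 2) := by
    rw [hβ, sq_abs]
    push_cast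
    field_simp
  have hb3 : (((q * c' : ℕ) : ℝ)) ^ 2 / q = q * c' ^ 2 := by
    push_cast
    field_simp
  rw [hb1, hb2, hb3]
  have hx1 : (0 : ℝ) < q * c' ^ 2 := by positivity
  have hx2 : (0 : ℝ) < |(j : ℝ)| ^ 2 / (q * c' ^ 2) := by positivity
  have e3 : (((|(j : ℝ)| ^ 2 / (q * c' ^ 2) : ℝ)) : ℂ) ^ (-(θ * I)) =
      (((q * c' ^ 2 : ℝ)) : ℂ) ^ (θ * I) * ((|(j : ℝ)| : ℝ) : ℂ) ^ (-(2 * θ * I)) := by
    rw [cpow_comb hx2, cpow_comb hx1, cpow_comb hjabs, ← Complex.exp_add]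
    congr 1
    rw [Real.log_div (by positivity) hx1.ne', Real.log_pow]
    push_cast
    ring
  have e4 : ((|(j : ℝ)| : ℝ) : ℂ) ^ (-(1 - 2 * θ * I) : ℂ) =
      ((|(j : ℝ)| : ℝ) : ℂ)⁻¹ * ((|(j : ℝ)| : ℝ) : ℂ) ^ (2 * θ * I) := by
    have hne : ((|(j : ℝ)| : ℝ) : ℂ) ≠ 0 := by exact_mod_cast hjabs.ne'
    have : (-(1 - 2 * θ * I) : ℂ) = -1 + 2 * θ * I := by ring
    rw [this, cpow_add _ _ hne, cpow_neg_one]
  have e5 : ((|(j : ℝ)| : ℝ) : ℂ) ^ (-(2 * θ * I)) * ((|(j : ℝ)| : ℝ) : ℂ) ^ (2 * θ * I) = 1 := by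
    have hne : ((|(j : ℝ)| : ℝ) : ℂ) ≠ 0 := by exact_mod_cast hjabs.ne'
    rw [← cpow_add _ _ hne]
    simp
  rw [e3, e4]
  have hne : ((|(j : ℝ)| : ℝ) : ℂ) ≠ 0 := by exact_mod_cast hjabs.ne'
  have hqc' : (q : ℂ) ≠ 0 := by exact_mod_cast hqr.ne'
  have hcc' : (c' : ℂ) ≠ 0 := by exact_mod_cast hcr.ne'
  generalize ((|(j : ℝ)| : ℝ) : ℂ) ^ (-(2 * θ * I)) = A at e5 ⊢
  generalize ((|(j : ℝ)| : ℝ) : ℂ) ^ (2 * θ * I) = B at e5 ⊢
  generalize (((q * c' ^ 2 : ℝ)) : ℂ) ^ (θ * I) = P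
  generalize (if 0 < j then ηp else ηm) = η
  have e6 : (((Real.sqrt q) / ((q * c' : ℕ) : ℝ) : ℝ) : ℂ) =
      ((Real.sqrt q : ℝ) : ℂ) / ((q : ℂ) * c') := by
    push_cast
    rfl
  have e7 : ((Real.sqrt q * (|(j : ℝ)| / (q * c')) : ℝ) : ℂ) =
      ((Real.sqrt q : ℝ) : ℂ) * ((|(j : ℝ)| : ℝ) : ℂ) / ((q : ℂ) * c') := by
    push_cast
    ring
  rw [e6, e7]
  generalize ((|(j : ℝ)| : ℝ) : ℂ) = J at hne ⊢
  field_simp
  linear_combination (-((starRingEnd ℂ) ρ * η * (starRingEnd ℂ) x *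
    ((Real.sqrt q : ℝ) : ℂ) * P)) * e5

/-- inversion, from the type `-` to the type `+` -/
theorem rule2 (D : Dat b q M θ ρ ηp ηm) (hq : 1 ≤ q) (j : ℤ) (c : ℕ) (hj : j ≠ 0) (hc : 1 ≤ c)
    (hjc : j.natAbs ≤ c) (x : ℂ) (h : Minus b q M θ ρ (j.sign * c) (q * j.natAbs) x) :
    Plus b M θ ρ j c ((if 0 < j then ηp else ηm) * (starRingEnd ℂ) x) := by
  unfold Minus at h
  unfold Plus
  have hcr : (0 : ℝ) < c := by exact_mod_cast hc
  have hqr : (0 : ℝ) < q := by exact_mod_cast hq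
  have hjr : (j : ℝ) ≠ 0 := by exact_mod_cast hj
  set β : ℝ := (j : ℝ) / (c : ℝ) with hβ
  have hβ0 : β ≠ 0 := div_ne_zero hjr hcr.ne'
  have habs : ((j.natAbs : ℕ) : ℝ) = |(j : ℝ)| := by
    rw [Nat.cast_natAbs]
    push_cast
    rfl
  have hβ1 : |β| ≤ 1 := by
    rw [hβ, abs_div, abs_of_pos hcr, div_le_one hcr, ← habs]
    exact_mod_cast hjc
  have hjabs : 0 < |(j : ℝ)| := abs_pos.2 hjr
  have hsg2 : ((j.sign : ℤ) : ℝ) * j = |(j : ℝ)| := by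
    rcases lt_or_gt_of_ne hj with h0 | h0
    · rw [Int.sign_eq_neg_one_of_neg h0]
      have : (j : ℝ) < 0 := by exact_mod_cast h0
      rw [abs_of_neg this]
      push_cast
      ring
    · rw [Int.sign_eq_one_of_pos h0]
      have : (0 : ℝ) < j := by exact_mod_cast h0
      rw [abs_of_pos this]
      push_cast
      ring
  have e1 : (1 / (q * β)) = ((j.sign * c : ℤ) : ℝ) / ((q * j.natAbs : ℕ) : ℝ) := by
    have e0 : ((q * j.natAbs : ℕ) : ℝ) = q * |(j : ℝ)| := by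
      rw [← habs]
      push_cast
      rfl
    rw [e0, hβ]
    push_cast
    have hqj : (q : ℝ) * |(j : ℝ)| ≠ 0 := by positivity
    rw [eq_div_iff hqj]
    field_simp
    linarith
  have h2 := D.W β (-θ) (_) hβ0 hβ1 (by
    have e2 : (4 + ((-θ : ℝ) : ℂ) * I) = 4 - θ * I := by push_cast; ring
    rw [e1, e2]
    exact h)
  have hsign : (0 < β) ↔ (0 < j) := by
    rw [hβ]
    constructor
    · intro h0
      have h3 : (0 : ℝ) < j := by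
        by_contra h4
        have := div_nonpos_of_nonpos_of_nonneg (not_lt.1 h4) hcr.le
        linarith
      exact_mod_cast h3
    · intro h0
      have h3 : (0 : ℝ) < j := by exact_mod_cast h0
      positivity
  have e2 : (if 0 < β then ηp else ηm) = (if 0 < j then ηp else ηm) := by
    simp only [hsign]
  have e3 : (4 - ((-θ : ℝ) : ℂ) * I) = 4 + θ * I := by push_cast; ring
  rw [e2, e3] at h2
  convert h2 using 1
  have hqj : (0 : ℝ) < (((q * j.natAbs : ℕ) : ℝ)) ^ 2 / q := by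
    have : (0 : ℝ) < ((q * j.natAbs : ℕ) : ℝ) := by
      push_cast
      rw [habs] at *
      positivity
    positivity
  have hqj2 : (((q * j.natAbs : ℕ) : ℝ)) ^ 2 / q = q * |(j : ℝ)| ^ 2 := by
    rw [Nat.cast_mul, habs]
    field_simp
  rw [hqj2]
  have hx1 : (0 : ℝ) < q * |(j : ℝ)| ^ 2 := by positivity
  have hconj : (starRingEnd ℂ) (((q * |(j : ℝ)| ^ 2 : ℝ) : ℂ) ^ (θ * I)) =
      ((q * |(j : ℝ)| ^ 2 : ℝ) : ℂ) ^ (-(θ * I)) := by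
    rw [cpow_comb hx1, cpow_comb hx1, ← exp_conj]
    congr 1
    rw [map_mul, conj_ofReal]
    congr 1
    simp only [map_mul, conj_ofReal, conj_I]
    ring
  rw [map_mul, map_mul, map_mul, conj_conj, hconj, conj_ofReal]
  have hb1 : |β| = |(j : ℝ)| / c := by
    rw [hβ, abs_div, abs_of_pos hcr]
  have hb2 : q * β ^ 2 = (q * |(j : ℝ)| ^ 2) / c ^ 2 := by
    rw [hβ, sq_abs]
    field_simp
  rw [hb1, hb2]
  have hx2 : (0 : ℝ) < q * |(j : ℝ)| ^ 2 / c ^ 2 := by positivity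
  have e4 : ((q * |(j : ℝ)| ^ 2 / c ^ 2 : ℝ) : ℂ) ^ (-(((-θ : ℝ) : ℂ) * I)) =
      ((q * |(j : ℝ)| ^ 2 : ℝ) : ℂ) ^ (θ * I) * ((c : ℂ) ^ (-(2 * θ * I))) := by
    have e5 : (c : ℂ) = ((c : ℝ) : ℂ) := by push_cast; rfl
    rw [e5, cpow_comb hx2, cpow_comb hx1, cpow_comb hcr, ← Complex.exp_add]
    congr 1
    rw [Real.log_div hx1.ne' (by positivity), Real.log_pow]
    push_cast
    ring
  have hcc : (c : ℂ) ≠ 0 := by exact_mod_cast hcr.ne'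
  have e6 : (c : ℂ) ^ (-(1 + 2 * θ * I) : ℂ) = (c : ℂ)⁻¹ * (c : ℂ) ^ (-(2 * θ * I)) := by
    have : (-(1 + 2 * θ * I) : ℂ) = -1 + -(2 * θ * I) := by ring
    rw [this, cpow_add _ _ hcc, cpow_neg_one]
  have e7 : ((q * |(j : ℝ)| ^ 2 : ℝ) : ℂ) ^ (θ * I) *
      ((q * |(j : ℝ)| ^ 2 : ℝ) : ℂ) ^ (-(θ * I)) = 1 := by
    have hne : ((q * |(j : ℝ)| ^ 2 : ℝ) : ℂ) ≠ 0 := by exact_mod_cast hx1.ne'
    rw [← cpow_add _ _ hne]
    simp
  rw [e4, e6]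
  generalize ((q * |(j : ℝ)| ^ 2 : ℝ) : ℂ) ^ (θ * I) = A at e7 ⊢
  generalize ((q * |(j : ℝ)| ^ 2 : ℝ) : ℂ) ^ (-(θ * I)) = B at e7 ⊢
  generalize (c : ℂ) ^ (-(2 * θ * I)) = P
  generalize (if 0 < j then ηp else ηm) = η
  have hqc' : (q : ℂ) ≠ 0 := by exact_mod_cast hqr.ne'
  have hne : ((|(j : ℝ)| : ℝ) : ℂ) ≠ 0 := by exact_mod_cast hjabs.ne'
  have hsq : ((Real.sqrt q : ℝ) : ℂ) * ((Real.sqrt q : ℝ) : ℂ) = q := by
    rw [← ofReal_mul, Real.mul_self_sqrt hqr.le, ofReal_natCast]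
  have e8 : (((Real.sqrt q) / ((q * j.natAbs : ℕ) : ℝ) : ℝ) : ℂ) =
      ((Real.sqrt q : ℝ) : ℂ) / ((q : ℂ) * ((|(j : ℝ)| : ℝ) : ℂ)) := by
    rw [Nat.cast_mul, habs, ofReal_div, ofReal_mul, ofReal_natCast]
  have e9 : ((Real.sqrt q * (|(j : ℝ)| / c) : ℝ) : ℂ) =
      ((Real.sqrt q : ℝ) : ℂ) * ((|(j : ℝ)| : ℝ) : ℂ) / (c : ℂ) := by
    rw [ofReal_mul, ofReal_div, ofReal_natCast]
    ring
  rw [e8, e9]
  generalize ((|(j : ℝ)| : ℝ) : ℂ) = J at hne ⊢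
  generalize ((Real.sqrt q : ℝ) : ℂ) = S at hsq ⊢
  field_simp
  linear_combination (-(ρ * η * (starRingEnd ℂ) x * P * (q : ℂ))) * e7 -
    (ρ * η * (starRingEnd ℂ) x * P * A * B) * hsq

end Pool.Agent.H39.Pol
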