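import Mathlib
import Pool.Agent.H39.Pol.Rules

/-!
# CALCM: the values at all cusps of the two types
-/

set_option autoImplicit false

namespace Pool.Agent.H39.Pol

open Complex Filter Topology Pool.Agent.H11.Selberg Pool.Agent.H11.SC

variable {b : ℕ → ℂ} {q M : ℕ} {θ : ℝ} {ρ ηp ηm : ℂ}

/-- the quadratic character, with the value `e` at `-1` -/
noncomputable def chi (q : ℕ) (e : ℂ) (n : ℤ) : ℂ := if n % (q : ℤ) = 1 % (q : ℤ) then 1 else e

/-- admissible `(q, e)` -/
def QE (q : ℕ) (e : ℂ) : Prop :=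
  (q = 1 ∧ e = 1) ∨ (q = 2 ∧ e = 1) ∨ (q = 3 ∧ (e = 1 ∨ e = -1)) ∨ (q = 4 ∧ (e = 1 ∨ e = -1))

theorem QE.pos {q : ℕ} {e : ℂ} (h : QE q e) : 1 ≤ q := by
  rcases h with h | h | h | h <;> omega

theorem QE.le {q : ℕ} {e : ℂ} (h : QE q e) : q ≤ 4 := by
  rcases h with h | h | h | h <;> omega

theorem QE.sq {q : ℕ} {e : ℂ} (h : QE q e) : e = 1 ∨ e = -1 := by
  rcases h with h | h | h | h
  · exact Or.inl h.2
  · exact Or.inl h.2
  · exact h.2
  · exact h.2

theorem QE.ee {q : ℕ} {e : ℂ} (h : QE q e) : e * e = 1 := by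
  rcases h.sq with h | h <;> rw [h] <;> norm_num

theorem chi_one (q : ℕ) (e : ℂ) : chi q e 1 = 1 := by
  unfold chi
  rw [if_pos rfl]

theorem chi_add (q : ℕ) (e : ℂ) (n m : ℤ) : chi q e (n + m * q) = chi q e n := by
  unfold chi
  rw [Int.add_mul_emod_self_right]

theorem chi_conj {q : ℕ} {e : ℂ} (h : QE q e) (n : ℤ) : (starRingEnd ℂ) (chi q e n) = chi q e n := by
  unfold chi
  rcases h.sq with h | h <;> rw [h] <;> split_ifs <;> simp

private theorem cop3 {n : ℤ} (h : IsCoprime n ((3 : ℕ) : ℤ)) : n % 3 = 1 ∨ n % 3 = 2 := by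
  have h0 : ¬ (3 : ℤ) ∣ n := by
    intro h1
    have h2 := h.isUnit_of_dvd' h1 (dvd_refl _)
    rw [Int.isUnit_iff] at h2
    norm_num at h2
  omega

private theorem cop4 {n : ℤ} (h : IsCoprime n ((4 : ℕ) : ℤ)) : n % 4 = 1 ∨ n % 4 = 3 := by
  have h0 : ¬ (2 : ℤ) ∣ n := by
    intro h1
    have h2 := h.isUnit_of_dvd' h1 (by norm_num : (2 : ℤ) ∣ ((4 : ℕ) : ℤ))
    rw [Int.isUnit_iff] at h2
    norm_num at h2
  omega

theorem chi_mul {q : ℕ} {e : ℂ} (h : QE q e) (m n : ℤ) (hm : IsCoprime m q) (hn : IsCoprime n q) :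
    chi q e (m * n) = chi q e m * chi q e n := by
  unfold chi
  rcases h with ⟨rfl, h⟩ | ⟨rfl, h⟩ | ⟨rfl, h⟩ | ⟨rfl, h⟩
  · rw [h]
    split_ifs <;> simp
  · rw [h]
    split_ifs <;> simp
  · have ee : e * e = 1 := by rcases h with h | h <;> rw [h] <;> norm_num
    have h1 : (((3 : ℕ) : ℤ)) = 3 := rfl
    rw [h1]
    rcases cop3 hm with h2 | h2 <;> rcases cop3 hn with h3 | h3 <;>
      simp [Int.mul_emod, h2, h3, ee]
  · have ee : e * e = 1 := by rcases h with h | h <;> rw [h] <;> norm_num
    have h1 : (((4 : ℕ) : ℤ)) = 4 := rfl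
    rw [h1]
    rcases cop4 hm with h2 | h2 <;> rcases cop4 hn with h3 | h3 <;>
      simp [Int.mul_emod, h2, h3, ee]

theorem chi_neg {q : ℕ} {e : ℂ} (h : QE q e) (n : ℤ) (hn : IsCoprime n q) :
    chi q e (-n) = e * chi q e n := by
  unfold chi
  rcases h with ⟨rfl, h⟩ | ⟨rfl, h⟩ | ⟨rfl, h⟩ | ⟨rfl, h⟩
  · rw [h]
    split_ifs <;> simp
  · rw [h]
    split_ifs <;> simp
  · have ee : e * e = 1 := by rcases h with h | h <;> rw [h] <;> norm_num
    have h1 : (((3 : ℕ) : ℤ)) = 3 := rfl
    rw [h1]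
    rcases cop3 hn with h2 | h2
    · have h3 : -n % 3 = 2 := by omega
      simp [h2, h3]
    · have h3 : -n % 3 = 1 := by omega
      simp [h2, h3, ee]
  · have ee : e * e = 1 := by rcases h with h | h <;> rw [h] <;> norm_num
    have h1 : (((4 : ℕ) : ℤ)) = 4 := rfl
    rw [h1]
    rcases cop4 hn with h2 | h2
    · have h3 : -n % 4 = 3 := by omega
      simp [h2, h3]
    · have h3 : -n % 4 = 1 := by omega
      simp [h2, h3, ee]

/-- a small representative -/
theorem small_rep (j : ℤ) (c : ℕ) (hc : 1 ≤ c) : ∃ j0 m : ℤ, j = j0 + m * c ∧ 2 * j0.natAbs ≤ c := by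
  refine ⟨Int.bmod j c, (j - Int.bmod j c) / c, ?_, ?_⟩
  · have h1 : (c : ℤ) ∣ j - Int.bmod j c := Int.dvd_self_sub_bmod
    rw [Int.ediv_mul_cancel h1]
    ring
  · have h1 := @Int.bmod_le j c (by omega)
    have h2 := @Int.le_bmod j c (by omega)
    omega

theorem calc_aux (D : Dat b q M θ ρ ηp ηm) {e : ℂ} (hQ : QE q e) (hη : ηm = ηp * e) (n : ℕ) :
    (∀ (c : ℕ) (j : ℤ), 1 ≤ c → Nat.Coprime c q → IsCoprime j c → c ^ 2 ≤ n →
      Plus b M θ ρ j c (chi q e c)) ∧
    (∀ (c : ℕ) (j : ℤ), 1 ≤ c → IsCoprime j ((q * c : ℕ) : ℤ) → q * c ^ 2 ≤ n →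
      Minus b q M θ ρ j (q * c) (ηp * chi q e j)) := by
  have hq := hQ.pos
  have hq4 := hQ.le
  have hpp : ηp * (starRingEnd ℂ) ηp = 1 := by
    rw [Complex.mul_conj, Complex.normSq_eq_norm_sq, D.hp]
    norm_num
  have hconje : (starRingEnd ℂ) e = e := by
    rcases hQ.sq with h | h <;> rw [h] <;> simp
  induction n with
  | zero =>
    refine ⟨fun c j hc _ _ h => ?_, fun c j hc _ h => ?_⟩
    · have : 1 ≤ c ^ 2 := Nat.one_le_pow _ _ hc
      omega
    · have h1 : 1 ≤ c ^ 2 := Nat.one_le_pow _ _ hc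
      have : 1 ≤ q * c ^ 2 := Nat.one_le_iff_ne_zero.2 (by positivity)
      omega
  | succ n ih =>
    obtain ⟨ihP, ihM⟩ := ih
    refine ⟨fun c j hc hcq hjc hn => ?_, fun c j hc hjc hn => ?_⟩
    · obtain ⟨j0, m, hj, hj0⟩ := small_rep j c hc
      rw [hj]
      refine plus_per j0 c hc _ m ?_
      have hcop : IsCoprime j0 (c : ℤ) := by
        have e1 : j0 = j + (-m) * c := by rw [hj]; ring
        rw [e1]
        exact (IsCoprime.add_mul_right_left_iff).2 hjc
      rcases Nat.eq_or_lt_of_le hc with h1 | h1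
      · rw [← h1] at hj0 ⊢
        have h2 : j0 = 0 := by omega
        rw [h2]
        have e1 : chi q e ((1 : ℕ) : ℤ) = 1 := by
          rw [Nat.cast_one]
          exact chi_one q e
        rw [e1]
        exact plus_zero D
      · have hj00 : j0 ≠ 0 := by
          rintro rfl
          have h2 := isCoprime_zero_left.1 hcop
          rw [Int.isUnit_iff] at h2
          omega
        have hna : 1 ≤ j0.natAbs := Int.natAbs_pos.2 hj00
        have hlt : q * j0.natAbs ^ 2 ≤ n := by
          have h4 : 2 * j0.natAbs < c ∨ q < 4 := by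
            by_contra hcon
            push Not at hcon
            have h5 : q = 4 := by omega
            have h6 : c = 2 * j0.natAbs := by omega
            rw [h5, h6] at hcq
            have h7 := Nat.Coprime.eq_one_of_dvd (Nat.Coprime.coprime_dvd_right
              (by norm_num : 2 ∣ 4) hcq).symm (Dvd.intro _ rfl)
            norm_num at h7
          have h5 : 4 * j0.natAbs ^ 2 ≤ c ^ 2 := by nlinarith
          rcases h4 with h4 | h4
          · have h6 : 4 * j0.natAbs ^ 2 < c ^ 2 := by nlinarith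
            have h7 : q * j0.natAbs ^ 2 ≤ 4 * j0.natAbs ^ 2 := Nat.mul_le_mul_right _ hq4
            omega
          · have h6 : q * j0.natAbs ^ 2 ≤ 3 * j0.natAbs ^ 2 := Nat.mul_le_mul_right _ (by omega)
            have h7 : 1 ≤ j0.natAbs ^ 2 := Nat.one_le_pow _ _ hna
            omega
        have hsc : IsCoprime (j0.sign * (c : ℤ)) ((q * j0.natAbs : ℕ) : ℤ) := by
          have a1 : IsCoprime (c : ℤ) ((q : ℕ) : ℤ) := Nat.isCoprime_iff_coprime.2 hcq
          have a2 : IsCoprime (c : ℤ) ((j0.natAbs : ℕ) : ℤ) := by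
            have := hcop.symm
            rw [Int.natCast_natAbs]
            rcases abs_choice j0 with h | h <;> rw [h]
            · exact this
            · exact (IsCoprime.neg_right_iff _ _).2 this
          have a3 : IsCoprime (c : ℤ) ((q * j0.natAbs : ℕ) : ℤ) := by
            push_cast at a2 ⊢
            exact IsCoprime.mul_right a1 a2
          rcases lt_or_gt_of_ne hj00 with h0 | h0
          · rw [Int.sign_eq_neg_one_of_neg h0, neg_one_mul]
            exact (IsCoprime.neg_left_iff _ _).2 a3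
          · rw [Int.sign_eq_one_of_pos h0, one_mul]
            exact a3
        have h5 := ihM j0.natAbs (j0.sign * c) hna hsc hlt
        have h6 := rule2 D hq j0 c hj00 hc (by omega) _ h5
        convert h6 using 1
        rw [map_mul, chi_conj hQ]
        have hcq' : IsCoprime ((c : ℕ) : ℤ) ((q : ℕ) : ℤ) := Nat.isCoprime_iff_coprime.2 hcq
        rcases lt_or_gt_of_ne hj00 with h0 | h0
        · rw [Int.sign_eq_neg_one_of_neg h0, neg_one_mul, if_neg (not_lt.2 h0.le),
            chi_neg hQ _ hcq', hη]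
          linear_combination (-(chi q e c) * e * e) * hpp - (chi q e c) * hQ.ee
        · rw [Int.sign_eq_one_of_pos h0, one_mul, if_pos h0]
          linear_combination (-(chi q e c)) * hpp
    · have hqc : 1 ≤ q * c := Nat.mul_pos hq hc
      rcases Nat.eq_or_lt_of_le hqc with h1 | h1
      · -- `q = 1`, `c = 1`
        have hq1 : q = 1 := Nat.eq_one_of_mul_eq_one_right h1.symm
        have hc1 : c = 1 := Nat.eq_one_of_mul_eq_one_left h1.symm
        subst hq1
        subst hc1
        have h2 : Plus b M θ ρ ((1 : ℤ).sign * ((1 : ℕ) : ℤ)) (1 : ℤ).natAbs 1 := by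
          have h3 := plus_per 0 1 le_rfl 1 1 (plus_zero D)
          exact h3
        have h3 := rule1 D hq 1 1 one_ne_zero le_rfl le_rfl 1 h2
        have h4 := minus_per (q := 1) 1 (1 * 1) le_rfl _ (j - 1) h3
        have e1 : (1 : ℤ) + (j - 1) * ((1 * 1 : ℕ) : ℤ) = j := by push_cast; ring
        rw [e1] at h4
        have e2 : chi 1 e j = 1 := by
          unfold chi
          rw [if_pos]
          rw [Nat.cast_one, Int.emod_one, Int.emod_one]
        rw [e2]
        simpa using h4
      · obtain ⟨j0, m, hj, hj0⟩ := small_rep j (q * c) hqc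
        have hcop : IsCoprime j0 ((q * c : ℕ) : ℤ) := by
          have e1 : j0 = j + (-m) * ((q * c : ℕ) : ℤ) := by rw [hj]; ring
          rw [e1]
          exact (IsCoprime.add_mul_right_left_iff).2 hjc
        have echi : chi q e j = chi q e j0 := by
          rw [hj]
          have e1 : j0 + m * ((q * c : ℕ) : ℤ) = j0 + (m * c) * (q : ℤ) := by push_cast; ring
          rw [e1, chi_add]
        rw [echi, hj]
        refine minus_per j0 (q * c) hqc _ m ?_
        have hj00 : j0 ≠ 0 := by
          rintro rfl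
          have h2 := isCoprime_zero_left.1 hcop
          rw [Int.isUnit_iff] at h2
          omega
        have hna : 1 ≤ j0.natAbs := Int.natAbs_pos.2 hj00
        have hcq1 : IsCoprime j0 (q : ℤ) := by
          have : ((q * c : ℕ) : ℤ) = q * c := by push_cast; ring
          rw [this] at hcop
          exact hcop.of_mul_right_left
        have hcc1 : IsCoprime j0 (c : ℤ) := by
          have : ((q * c : ℕ) : ℤ) = q * c := by push_cast; ring
          rw [this] at hcop
          exact hcop.of_mul_right_right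
        have hlt : j0.natAbs ^ 2 ≤ n := by
          have h5 : 4 * j0.natAbs ^ 2 ≤ q * (q * c ^ 2) := by nlinarith
          have h6 : q < 4 ∨ q = 4 := by omega
          rcases h6 with h6 | h6
          · have h7 : q * (q * c ^ 2) ≤ 3 * (q * c ^ 2) := Nat.mul_le_mul_right _ (by omega)
            have h8 : 1 ≤ j0.natAbs ^ 2 := Nat.one_le_pow _ _ hna
            omega
          · subst h6
            have h7 : 2 * j0.natAbs ≠ 4 * c := by
              intro h7
              have h8 : (2 : ℤ) ∣ j0 := by omega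
              have h9 := hcq1.isUnit_of_dvd' h8 (by norm_num : (2 : ℤ) ∣ ((4 : ℕ) : ℤ))
              rw [Int.isUnit_iff] at h9
              norm_num at h9
            have h8 : 2 * j0.natAbs < 4 * c := by omega
            have h9 : 4 * j0.natAbs ^ 2 < 16 * c ^ 2 := by nlinarith
            omega
        have hcn : Nat.Coprime j0.natAbs q := by
          have := Int.isCoprime_iff_gcd_eq_one.1 hcq1
          simpa [Int.gcd, Nat.Coprime] using this
        have hsc : IsCoprime (j0.sign * (c : ℤ)) ((j0.natAbs : ℕ) : ℤ) := by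
          have a2 : IsCoprime (c : ℤ) ((j0.natAbs : ℕ) : ℤ) := by
            have := hcc1.symm
            rw [Int.natCast_natAbs]
            rcases abs_choice j0 with h | h <;> rw [h]
            · exact this
            · exact (IsCoprime.neg_right_iff _ _).2 this
          rcases lt_or_gt_of_ne hj00 with h0 | h0
          · rw [Int.sign_eq_neg_one_of_neg h0, neg_one_mul]
            exact (IsCoprime.neg_left_iff _ _).2 a2
          · rw [Int.sign_eq_one_of_pos h0, one_mul]
            exact a2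
        have h5 := ihP j0.natAbs (j0.sign * c) hna hcn hsc hlt
        have h6 := rule1 D hq j0 c hj00 hc (by omega) _ h5
        convert h6 using 1
        rw [chi_conj hQ]
        rcases lt_or_gt_of_ne hj00 with h0 | h0
        · rw [if_neg (not_lt.2 h0.le), Int.natCast_natAbs, abs_of_neg h0, chi_neg hQ _ hcq1, hη]
          linear_combination (-(ηp * chi q e j0)) * hQ.ee
        · rw [if_pos h0, Int.natCast_natAbs, abs_of_pos h0]

/-- the values at all cusps -/
theorem calc_main (D : Dat b q M θ ρ ηp ηm) {e : ℂ} (hQ : QE q e) (hη : ηm = ηp * e) :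
    (∀ (c : ℕ) (j : ℤ), 1 ≤ c → Nat.Coprime c q → IsCoprime j c →
      Plus b M θ ρ j c (chi q e c)) ∧
    (∀ (c : ℕ) (j : ℤ), 1 ≤ c → IsCoprime j ((q * c : ℕ) : ℤ) →
      Minus b q M θ ρ j (q * c) (ηp * chi q e j)) :=
  ⟨fun c j h1 h2 h3 => (calc_aux D hQ hη (c ^ 2)).1 c j h1 h2 h3 le_rfl,
    fun c j h1 h2 => (calc_aux D hQ hη (q * c ^ 2)).2 c j h1 h2 le_rfl⟩

end Pool.Agent.H39.Pol
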