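import Mathlib
import Pool.Agent.H39.Pol.CLB
import Pool.Agent.H11.SC.GB

/-!
# PREL: the identity at a prime, from multiplicativity
-/

set_option autoImplicit false

namespace Pool.Agent.H39.Pol

open Complex Filter Topology Pool.Agent.H11.Selberg Pool.Agent.H11.SC

/-- sum over `j` modulo `p^k` -/
noncomputable def Sp (b : ℕ → ℂ) (p k : ℕ) (ξ : ℂ) : ℂ :=
  ∑ j ∈ Finset.range (p ^ k), gs b 3 (ξ + (((j : ℝ) / (p : ℝ) ^ k : ℝ) : ℂ) * I)

/-- the term of the series -/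
noncomputable def tm (b : ℕ → ℂ) (ξ : ℂ) (n : ℕ) : ℂ :=
  b n * (n : ℂ) ^ 3 * cexp (-(2 * (Real.pi : ℂ) * n * ξ))

theorem tm_summable (b : ℕ → ℂ) (ha : ∃ C : ℝ, ∀ n : ℕ, 1 ≤ n → ‖b n‖ ≤ C * (n : ℝ) ^ (1 : ℝ))
    (ξ : ℂ) (hξ : 0 < ξ.re) : Summable (tm b ξ) := by
  obtain ⟨C, hC⟩ := ha
  have hpi := Real.pi_pos
  have h0 := Real.summable_pow_mul_exp_neg_nat_mul 4 (show 0 < 2 * Real.pi * ξ.re by positivity)
  refine Summable.of_norm_bounded (h0.mul_left |C|) (fun n => ?_)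
  unfold tm
  rw [norm_mul, norm_mul, norm_pow, Complex.norm_natCast, norm_cexp_gs]
  rcases Nat.eq_zero_or_pos n with hn | hn
  · subst hn
    simp
  · have h1 := hC n hn
    rw [Real.rpow_one] at h1
    have h2 : ‖b n‖ ≤ |C| * n := by
      refine h1.trans ?_
      gcongr
      exact le_abs_self C
    calc ‖b n‖ * (n : ℝ) ^ 3 * Real.exp (-(2 * Real.pi * n * ξ.re))
        ≤ (|C| * n) * (n : ℝ) ^ 3 * Real.exp (-(2 * Real.pi * n * ξ.re)) := by gcongr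
      _ = |C| * ((n : ℝ) ^ 4 * Real.exp (-(2 * Real.pi * ξ.re) * n)) := by
          rw [show -(2 * Real.pi * ξ.re) * (n : ℝ) = -(2 * Real.pi * n * ξ.re) by ring]
          ring

theorem root_sum (m n : ℕ) (hm : 1 ≤ m) :
    ∑ j ∈ Finset.range m, cexp (-(2 * (Real.pi : ℂ) * n * ((((j : ℝ) / (m : ℝ) : ℝ) : ℂ) * I))) =
      if m ∣ n then (m : ℂ) else 0 := by
  have hm0 : (m : ℂ) ≠ 0 := by
    have : 0 < m := hm
    exact_mod_cast this.ne'
  set r : ℂ := cexp (-(2 * (Real.pi : ℂ) * n / m * I)) with hr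
  have h1 : ∀ j : ℕ, cexp (-(2 * (Real.pi : ℂ) * n * ((((j : ℝ) / (m : ℝ) : ℝ) : ℂ) * I))) =
      r ^ j := by
    intro j
    rw [hr, ← Complex.exp_nat_mul]
    congr 1
    push_cast
    field_simp
  simp only [h1]
  split_ifs with hd
  · obtain ⟨l, hl⟩ := hd
    have h2 : r = 1 := by
      rw [hr, Complex.exp_eq_one_iff]
      refine ⟨-l, ?_⟩
      rw [hl]
      push_cast
      field_simp
    rw [h2]
    simp
  · have h2 : r ≠ 1 := by
      intro h3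
      rw [hr, Complex.exp_eq_one_iff] at h3
      obtain ⟨l, hl⟩ := h3
      apply hd
      have hpi : (Real.pi : ℂ) ≠ 0 := by exact_mod_cast Real.pi_ne_zero
      have h4 : (n : ℂ) = -l * m := by
        field_simp at hl
        linear_combination -hl
      have h5 : (n : ℤ) = -l * m := by exact_mod_cast h4
      have h6 : (m : ℤ) ∣ (n : ℤ) := ⟨-l, by rw [h5]; ring⟩
      exact_mod_cast h6
    have h3 : r ^ m = 1 := by
      rw [hr, ← Complex.exp_nat_mul, Complex.exp_eq_one_iff]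
      refine ⟨-n, ?_⟩
      push_cast
      field_simp
    rw [geom_sum_eq h2, h3]
    simp

theorem Sp_tsum (b : ℕ → ℂ) (ha : ∃ C : ℝ, ∀ n : ℕ, 1 ≤ n → ‖b n‖ ≤ C * (n : ℝ) ^ (1 : ℝ))
    (p k : ℕ) (hp : 1 ≤ p) (ξ : ℂ) (hξ : 0 < ξ.re) :
    Sp b p k ξ = (p : ℂ) ^ k * ∑' n : ℕ, (if p ^ k ∣ n then tm b ξ n else 0) := by
  have hpk : 1 ≤ p ^ k := Nat.one_le_pow _ _ hp
  unfold Sp
  have h1 : ∀ j : ℕ, gs b 3 (ξ + (((j : ℝ) / (p : ℝ) ^ k : ℝ) : ℂ) * I) =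
      ∑' n : ℕ, tm b ξ n * cexp (-(2 * (Real.pi : ℂ) * n *
        ((((j : ℝ) / ((p ^ k : ℕ) : ℝ) : ℝ) : ℂ) * I))) := by
    intro j
    unfold gs tm
    refine tsum_congr (fun n => ?_)
    rw [mul_assoc, mul_assoc (b n * (n : ℂ) ^ 3), ← Complex.exp_add, ← mul_assoc]
    congr 2
    push_cast
    ring
  simp only [h1]
  rw [← Summable.tsum_finsetSum, ← tsum_mul_left]
  · refine tsum_congr (fun n => ?_)
    rw [← Finset.mul_sum, root_sum (p ^ k) n hpk]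
    split_ifs
    · push_cast
      ring
    · ring
  · intro j _
    refine Summable.of_norm ?_
    refine (tm_summable b ha ξ hξ).norm.congr (fun n => ?_)
    rw [norm_mul]
    have h2 : ‖cexp (-(2 * (Real.pi : ℂ) * n * ((((j : ℝ) / ((p ^ k : ℕ) : ℝ) : ℝ) : ℂ) * I)))‖ =
        1 := by
      rw [norm_cexp_gs]
      have h3 : (((((j : ℝ) / ((p ^ k : ℕ) : ℝ) : ℝ) : ℂ) * I)).re = 0 := by
        rw [re_ofReal_mul, I_re, mul_zero]
      rw [h3, mul_zero, neg_zero, Real.exp_zero]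
    rw [h2, mul_one]

theorem prime_id (b : ℕ → ℂ) (ha : ∃ C : ℝ, ∀ n : ℕ, 1 ≤ n → ‖b n‖ ≤ C * (n : ℝ) ^ (1 : ℝ))
    (mul : ∀ m n : ℕ, Nat.Coprime m n → b (m * n) = b m * b n)
    (p k : ℕ) (hp : p.Prime) (ξ : ℂ) (hξ : 0 < ξ.re) :
    b (p ^ k) * (p : ℂ) ^ (3 * k) *
      (Sp b p 0 ((((p : ℝ) ^ k : ℝ) : ℂ) * ξ) -
        (p : ℂ)⁻¹ * Sp b p 1 ((((p : ℝ) ^ k : ℝ) : ℂ) * ξ)) =
      ((p : ℂ) ^ k)⁻¹ * Sp b p k ξ - ((p : ℂ) ^ (k + 1))⁻¹ * Sp b p (k + 1) ξ := by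
  have hp1 : 1 ≤ p := hp.one_le
  have hp0 : (p : ℂ) ≠ 0 := by exact_mod_cast hp.ne_zero
  have hξ' : 0 < ((((p : ℝ) ^ k : ℝ) : ℂ) * ξ).re := by
    rw [re_ofReal_mul]
    have : (0 : ℝ) < (p : ℝ) ^ k := by
      have : (0 : ℝ) < p := by exact_mod_cast hp.pos
      positivity
    positivity
  rw [Sp_tsum b ha p 0 hp1 _ hξ', Sp_tsum b ha p 1 hp1 _ hξ', Sp_tsum b ha p k hp1 _ hξ,
    Sp_tsum b ha p (k + 1) hp1 _ hξ]
  rw [pow_zero, one_mul, ← mul_assoc, pow_one, inv_mul_cancel₀ hp0, one_mul, ← mul_assoc,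
    inv_mul_cancel₀ (pow_ne_zero _ hp0), one_mul, ← mul_assoc,
    inv_mul_cancel₀ (pow_ne_zero _ hp0), one_mul]
  -- summability of restricted sums
  have hsum : ∀ (d : ℕ) (ζ : ℂ), 0 < ζ.re →
      Summable (fun n : ℕ => if d ∣ n then tm b ζ n else 0) := by
    intro d ζ hζ
    refine Summable.of_norm_bounded (tm_summable b ha ζ hζ).norm (fun n => ?_)
    split_ifs
    · exact le_rfl
    · simp
  rw [← Summable.tsum_sub (hsum _ _ hξ') (hsum _ _ hξ'), ← Summable.tsum_sub (hsum _ _ hξ)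
    (hsum _ _ hξ), ← tsum_mul_left]
  have hinj : Function.Injective (fun m : ℕ => p ^ k * m) := by
    intro m1 m2 h
    exact Nat.eq_of_mul_eq_mul_left (pow_pos hp.pos k) h
  have hsupp : Function.support (fun n : ℕ => (if p ^ k ∣ n then tm b ξ n else 0) -
      (if p ^ (k + 1) ∣ n then tm b ξ n else 0)) ⊆ Set.range (fun m : ℕ => p ^ k * m) := by
    intro n hn
    by_contra hcon
    apply hn
    have h1 : ¬ p ^ k ∣ n := by
      rintro ⟨m, hm⟩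
      exact hcon ⟨m, hm.symm⟩
    have h2 : ¬ p ^ (k + 1) ∣ n := fun h3 => h1 ((pow_dvd_pow p (Nat.le_succ k)).trans h3)
    simp only [if_neg h1, if_neg h2, sub_zero]
  rw [← hinj.tsum_eq hsupp]
  refine tsum_congr (fun m => ?_)
  have h1 : p ^ k ∣ p ^ k * m := Dvd.intro m rfl
  have h2 : p ^ (k + 1) ∣ p ^ k * m ↔ p ∣ m := by
    rw [pow_succ]
    exact Nat.mul_dvd_mul_iff_left (pow_pos hp.pos k)
  have h3 : p ^ 0 ∣ m := by rw [pow_zero]; exact one_dvd m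
  have h4 : p ^ 1 ∣ m ↔ p ∣ m := by rw [pow_one]
  simp only [if_pos h1, h2, if_pos h3, h4]
  by_cases hd : p ∣ m
  · simp only [if_pos hd, sub_self, mul_zero]
  · simp only [if_neg hd, sub_zero]
    have hcop : Nat.Coprime (p ^ k) m :=
      Nat.Coprime.pow_left k ((Nat.Prime.coprime_iff_not_dvd hp).2 hd)
    unfold tm
    rw [mul _ _ hcop]
    have e1 : (-(2 * (Real.pi : ℂ) * m * ((((p : ℝ) ^ k : ℝ) : ℂ) * ξ))) =
        (-(2 * (Real.pi : ℂ) * ((p ^ k * m : ℕ) : ℂ) * ξ)) := by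
      push_cast
      ring
    rw [e1]
    push_cast
    rw [show 3 * k = k * 3 by ring, pow_mul]
    ring

end Pool.Agent.H39.Pol
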