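import Mathlib
import Pool.Agent.H39.Pol.CLB

/-!
# RRL: two-term radial asymptotics

`RR φ M θ v w`: `φ(y) = (v y^(-iθ) + w y^(iθ) + o(1)) y^(-4) (log 1/y)^M` for `y → 0+`.
`of_plus`, `of_minus`: `CL.rad`, `y^(4+iθ) = y^4 y^(iθ)`, multiply by `y^(-iθ)` (norm one).
`scale`: `(cy)^4 = c^4 y^4`, `(cy)^(-iθ) = c^(-iθ) y^(-iθ)`, `(log 1/(cy))^M/(log 1/y)^M → 1` (compose with
`y ↦ c y`, which maps `𝓝[>] 0` to itself; the functions `y^(± iθ)` are bounded).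
`unique`: the difference gives `(v-v') y^(-iθ) + (w-w') y^(iθ) → 0`.  `θ = 0`: constant.  `θ ≠ 0`: multiply by
`y^(iθ)` (norm one): `(v-v') + (w-w') y^(2iθ) → 0`; for `y = e^(-π n/|θ|)`, `y^(2iθ) = 1`, and for
`y = e^(-π (n+1/2)/|θ|)`, `y^(2iθ) = -1` (`n → ∞`), so `v - v' ± (w - w') = 0`.
`small`: `‖φ(y)‖ ≤ C y^(-13/4)` gives `y^4 φ → 0` and `(log 1/y)^M ≥ 1`.
-/

set_option autoImplicit false

namespace Pool.Agent.H39.Pol

open Complex Filter Topology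

/-- two-term radial asymptotics -/
def RR (φ : ℝ → ℂ) (M : ℕ) (θ : ℝ) (v w : ℂ) : Prop :=
  Tendsto (fun y : ℝ => φ y * (y : ℂ) ^ 4 / (((Real.log (1 / y)) ^ M : ℝ) : ℂ) -
    v * (y : ℂ) ^ (-(θ * I)) - w * (y : ℂ) ^ (θ * I)) (𝓝[>] 0) (𝓝 0)

variable {M : ℕ} {θ : ℝ}

theorem RR.add {φ ψ : ℝ → ℂ} {v w v' w' : ℂ} (h1 : RR φ M θ v w) (h2 : RR ψ M θ v' w') :
    RR (fun y => φ y + ψ y) M θ (v + v') (w + w') := by
  have h := Tendsto.add h1 h2
  rw [add_zero] at h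
  refine h.congr (fun y => ?_)
  ring

theorem RR.smul {φ : ℝ → ℂ} {v w : ℂ} (c : ℂ) (h1 : RR φ M θ v w) :
    RR (fun y => c * φ y) M θ (c * v) (c * w) := by
  have h := Tendsto.const_mul c h1
  rw [mul_zero] at h
  refine h.congr (fun y => ?_)
  ring

theorem RR.sub {φ ψ : ℝ → ℂ} {v w v' w' : ℂ} (h1 : RR φ M θ v w) (h2 : RR ψ M θ v' w') :
    RR (fun y => φ y - ψ y) M θ (v - v') (w - w') := by
  have h := h1.add (h2.smul (-1))
  refine h.congr' (Eventually.of_forall (fun y => ?_))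
  ring

theorem RR.sum {ι : Type*} (s : Finset ι) {φ : ι → ℝ → ℂ} {v w : ι → ℂ}
    (h : ∀ i ∈ s, RR (φ i) M θ (v i) (w i)) :
    RR (fun y => ∑ i ∈ s, φ i y) M θ (∑ i ∈ s, v i) (∑ i ∈ s, w i) := by
  classical
  induction s using Finset.induction_on with
  | empty =>
    unfold RR
    simp
  | insert a s ha ih =>
    have h1 := h a (Finset.mem_insert_self _ _)
    have h2 := ih (fun i hi => h i (Finset.mem_insert_of_mem hi))
    simp only [Finset.sum_insert ha]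
    exact h1.add h2

theorem RR.congr {φ ψ : ℝ → ℂ} {v w : ℂ} (h1 : RR φ M θ v w) (h2 : ∀ y : ℝ, 0 < y → φ y = ψ y) :
    RR ψ M θ v w := by
  refine Tendsto.congr' ?_ h1
  filter_upwards [self_mem_nhdsWithin] with y hy
  rw [h2 y hy]

theorem norm_cpow_I (y : ℝ) (hy : 0 < y) (t : ℝ) : ‖(y : ℂ) ^ ((t : ℂ) * I)‖ = 1 := by
  rw [norm_cpow_eq_rpow_re_of_pos hy]
  simp

theorem cpow_I_mul (y : ℝ) (hy : 0 < y) (t : ℝ) :
    (y : ℂ) ^ (-((t : ℂ) * I)) * (y : ℂ) ^ ((t : ℂ) * I) = 1 := by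
  rw [← cpow_add _ _ (by exact_mod_cast hy.ne')]
  simp

theorem RR.of_plus {f : ℂ → ℂ} {β : ℝ} {v : ℂ} (h : CL f M (4 + θ * I) β v) :
    RR (fun y => f (y + β * I)) M θ v 0 := by
  have h1 := h.rad
  rw [tendsto_iff_norm_sub_tendsto_zero] at h1
  unfold RR
  rw [tendsto_zero_iff_norm_tendsto_zero]
  refine h1.congr' ?_
  filter_upwards [self_mem_nhdsWithin] with y hy
  have hy0 : 0 < y := hy
  have hne : (y : ℂ) ≠ 0 := by exact_mod_cast hy0.ne'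
  have e1 : (y : ℂ) ^ (4 + θ * I : ℂ) = (y : ℂ) ^ 4 * (y : ℂ) ^ ((θ : ℂ) * I) := by
    rw [cpow_add _ _ hne]
    congr 1
    have : (4 : ℂ) = ((4 : ℕ) : ℂ) := by norm_num
    rw [this, cpow_natCast]
  have e2 := cpow_I_mul y hy0 θ
  have e3 : f (y + β * I) * (y : ℂ) ^ 4 / (((Real.log (1 / y)) ^ M : ℝ) : ℂ) -
      v * (y : ℂ) ^ (-((θ : ℂ) * I)) - 0 * (y : ℂ) ^ ((θ : ℂ) * I) =
      (y : ℂ) ^ (-((θ : ℂ) * I)) * (f (y + β * I) * (y : ℂ) ^ (4 + θ * I : ℂ) /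
        (((Real.log (1 / y)) ^ M : ℝ) : ℂ) - v) := by
    rw [e1]
    linear_combination (-(f (y + β * I) * (y : ℂ) ^ 4 /
      (((Real.log (1 / y)) ^ M : ℝ) : ℂ))) * e2
  rw [e3, norm_mul]
  have e4 : ‖(y : ℂ) ^ (-((θ : ℂ) * I))‖ = 1 := by
    have := norm_cpow_I y hy0 (-θ)
    have e5 : (((-θ : ℝ) : ℂ) * I) = -((θ : ℂ) * I) := by push_cast; ring
    rw [e5] at this
    exact this
  rw [e4, one_mul]

theorem RR.of_minus {f : ℂ → ℂ} {β : ℝ} {w : ℂ} (h : CL f M (4 - θ * I) β w) :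
    RR (fun y => f (y + β * I)) M θ 0 w := by
  have e1 : (4 - θ * I : ℂ) = 4 + ((-θ : ℝ) : ℂ) * I := by push_cast; ring
  rw [e1] at h
  have h1 := RR.of_plus h
  unfold RR at h1 ⊢
  refine h1.congr (fun y => ?_)
  have e2 : (-(((-θ : ℝ) : ℂ) * I)) = (θ : ℂ) * I := by push_cast; ring
  have e3 : (((-θ : ℝ) : ℂ) * I) = -((θ : ℂ) * I) := by push_cast; ring
  rw [e2, e3]
  ring

theorem tendsto_log_inv : Tendsto (fun y : ℝ => Real.log (1 / y)) (𝓝[>] 0) atTop := by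
  have h1 : Tendsto (fun y : ℝ => Real.log y) (𝓝[>] 0) atBot := Real.tendsto_log_nhdsGT_zero
  have h2 := tendsto_neg_atBot_atTop.comp h1
  refine h2.congr (fun y => ?_)
  rw [one_div, Real.log_inv]
  rfl

theorem tendsto_scale (c : ℝ) (hc : 0 < c) : Tendsto (fun y : ℝ => c * y) (𝓝[>] 0) (𝓝[>] 0) := by
  refine tendsto_nhdsWithin_iff.2 ⟨?_, ?_⟩
  · have h3 : Continuous (fun y : ℝ => c * y) := by fun_prop
    have h4 := h3.tendsto 0
    rw [mul_zero] at h4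
    exact h4.mono_left nhdsWithin_le_nhds
  · filter_upwards [self_mem_nhdsWithin] with y hy
    exact mul_pos hc hy

theorem log_ratio (c : ℝ) (hc : 0 < c) :
    Tendsto (fun y : ℝ => Real.log (1 / (c * y)) / Real.log (1 / y)) (𝓝[>] 0) (𝓝 1) := by
  have h1 : Tendsto (fun y : ℝ => -(Real.log c) / Real.log (1 / y) + 1) (𝓝[>] 0) (𝓝 (0 + 1)) :=
    (tendsto_const_nhds.div_atTop tendsto_log_inv).add_const 1
  rw [zero_add] at h1
  refine h1.congr' ?_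
  have h2 : ∀ᶠ y : ℝ in 𝓝[>] 0, 0 < Real.log (1 / y) := tendsto_log_inv.eventually_gt_atTop 0
  filter_upwards [h2, self_mem_nhdsWithin] with y hy hy0
  have hy0 : 0 < y := hy0
  have e1 : Real.log (1 / (c * y)) = -(Real.log c) + Real.log (1 / y) := by
    rw [one_div, one_div, Real.log_inv, Real.log_inv, Real.log_mul hc.ne' hy0.ne']
    ring
  rw [e1, add_div, div_self hy.ne']

theorem RR.scale {φ : ℝ → ℂ} {v w : ℂ} (h : RR φ M θ v w) (c : ℝ) (hc : 0 < c) :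
    RR (fun y => φ (c * y)) M θ (v * (c : ℂ) ^ (-(4 + θ * I))) (w * (c : ℂ) ^ (-(4 - θ * I))) := by
  have h1 := Tendsto.comp h (tendsto_scale c hc)
  have h2 := ((log_ratio c hc).pow M)
  rw [one_pow] at h2
  have h2' : Tendsto (fun y : ℝ => (((Real.log (1 / (c * y)) / Real.log (1 / y)) ^ M : ℝ) : ℂ))
      (𝓝[>] 0) (𝓝 1) := by
    have := (continuous_ofReal.tendsto (1 : ℝ)).comp h2
    rw [ofReal_one] at this
    exact this
  -- the bounded factor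
  have h3 : Tendsto (fun y : ℝ => ((((Real.log (1 / (c * y)) / Real.log (1 / y)) ^ M : ℝ) : ℂ) - 1) *
      (v * ((c * y : ℝ) : ℂ) ^ (-((θ : ℂ) * I)) + w * ((c * y : ℝ) : ℂ) ^ ((θ : ℂ) * I)))
      (𝓝[>] 0) (𝓝 0) := by
    have h4 : Tendsto (fun y : ℝ => ((((Real.log (1 / (c * y)) / Real.log (1 / y)) ^ M : ℝ) : ℂ) - 1))
        (𝓝[>] 0) (𝓝 0) := by
      have := h2'.sub_const 1
      rw [sub_self] at this
      exact this
    refine Tendsto.zero_mul_isBoundedUnder_le h4 ?_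
    refine ⟨‖v‖ + ‖w‖, ?_⟩
    rw [eventually_map]
    filter_upwards [self_mem_nhdsWithin] with y hy
    have hcy : 0 < c * y := mul_pos hc hy
    show ‖v * ((c * y : ℝ) : ℂ) ^ (-((θ : ℂ) * I)) + w * ((c * y : ℝ) : ℂ) ^ ((θ : ℂ) * I)‖ ≤ _
    refine (norm_add_le _ _).trans ?_
    rw [norm_mul, norm_mul, norm_cpow_I _ hcy θ]
    have e5 : (-((θ : ℂ) * I)) = (((-θ : ℝ) : ℂ) * I) := by push_cast; ring
    rw [e5, norm_cpow_I _ hcy (-θ), mul_one, mul_one]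
  have h5 := ((h2'.mul h1).add h3).const_mul ((c : ℂ) ^ 4)⁻¹
  rw [mul_zero, zero_add, mul_zero] at h5
  refine h5.congr' ?_
  have hL : ∀ᶠ y : ℝ in 𝓝[>] 0, 0 < Real.log (1 / y) := tendsto_log_inv.eventually_gt_atTop 0
  have hL2 : ∀ᶠ y : ℝ in 𝓝[>] 0, 0 < Real.log (1 / (c * y)) :=
    (tendsto_log_inv.comp (tendsto_scale c hc)).eventually_gt_atTop 0
  filter_upwards [hL, hL2, self_mem_nhdsWithin] with y ha hb hy
  have hy0 : 0 < y := hy
  have hcc : (c : ℂ) ≠ 0 := by exact_mod_cast hc.ne'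
  have hyy : (y : ℂ) ≠ 0 := by exact_mod_cast hy0.ne'
  have ha' : (((Real.log (1 / y)) ^ M : ℝ) : ℂ) ≠ 0 := by exact_mod_cast (pow_pos ha M).ne'
  have hb' : (((Real.log (1 / (c * y))) ^ M : ℝ) : ℂ) ≠ 0 := by
    exact_mod_cast (pow_pos hb M).ne'
  have e1 : (c : ℂ) ^ (-(4 + θ * I)) = ((c : ℂ) ^ 4)⁻¹ * (c : ℂ) ^ (-((θ : ℂ) * I)) := by
    have e2 : (-(4 + θ * I) : ℂ) = -((4 : ℕ) : ℂ) + -((θ : ℂ) * I) := by push_cast; ring
    rw [e2, cpow_add _ _ hcc, cpow_neg, cpow_natCast]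
  have e3 : (c : ℂ) ^ (-(4 - θ * I)) = ((c : ℂ) ^ 4)⁻¹ * (c : ℂ) ^ ((θ : ℂ) * I) := by
    have e2 : (-(4 - θ * I) : ℂ) = -((4 : ℕ) : ℂ) + ((θ : ℂ) * I) := by push_cast; ring
    rw [e2, cpow_add _ _ hcc, cpow_neg, cpow_natCast]
  have e4 : ∀ z : ℂ, ((c * y : ℝ) : ℂ) ^ z = (c : ℂ) ^ z * (y : ℂ) ^ z := by
    intro z
    rw [ofReal_mul, mul_cpow_ofReal_nonneg hc.le hy0.le]
  have e5 : (((Real.log (1 / (c * y)) / Real.log (1 / y)) ^ M : ℝ) : ℂ) =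
      (((Real.log (1 / (c * y))) ^ M : ℝ) : ℂ) / (((Real.log (1 / y)) ^ M : ℝ) : ℂ) := by
    rw [div_pow, ofReal_div]
  simp only [Function.comp_apply, e4]
  rw [e1, e3, e5]
  have e6 : ((c * y : ℝ) : ℂ) ^ 4 = (c : ℂ) ^ 4 * (y : ℂ) ^ 4 := by
    rw [ofReal_mul, mul_pow]
  rw [e6]
  field_simp
  ring

theorem RR.unique_ne {φ : ℝ → ℂ} {v w v' w' : ℂ} (hθ : θ ≠ 0) (h1 : RR φ M θ v w)
    (h2 : RR φ M θ v' w') : v = v' ∧ w = w' := by
  have h3 := Tendsto.sub h2 h1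
  rw [sub_zero] at h3
  have h4 : Tendsto (fun y : ℝ => (v - v') + (w - w') * ((y : ℂ) ^ ((θ : ℂ) * I)) ^ 2)
      (𝓝[>] 0) (𝓝 0) := by
    rw [tendsto_zero_iff_norm_tendsto_zero] at h3 ⊢
    refine h3.congr' ?_
    filter_upwards [self_mem_nhdsWithin] with y hy
    have hy0 : 0 < y := hy
    have e1 := cpow_I_mul y hy0 θ
    have e2 := norm_cpow_I y hy0 θ
    have e3 : (v - v') + (w - w') * ((y : ℂ) ^ ((θ : ℂ) * I)) ^ 2 =
        (y : ℂ) ^ ((θ : ℂ) * I) * (φ y * (y : ℂ) ^ 4 / (((Real.log (1 / y)) ^ M : ℝ) : ℂ) -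
          v' * (y : ℂ) ^ (-((θ : ℂ) * I)) - w' * (y : ℂ) ^ ((θ : ℂ) * I) -
          (φ y * (y : ℂ) ^ 4 / (((Real.log (1 / y)) ^ M : ℝ) : ℂ) -
          v * (y : ℂ) ^ (-((θ : ℂ) * I)) - w * (y : ℂ) ^ ((θ : ℂ) * I))) := by
      linear_combination (-(v - v')) * e1
    rw [e3, norm_mul, e2, one_mul]
  have hexp : ∀ t : ℝ, ((Real.exp t : ℝ) : ℂ) ^ ((θ : ℂ) * I) = cexp (t * θ * I) := by
    intro t
    rw [cpow_def_of_ne_zero (by exact_mod_cast (Real.exp_pos t).ne'), ← ofReal_log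
      (Real.exp_pos t).le, Real.log_exp]
    congr 1
    ring
  have hpi := Real.pi_pos
  have habs : 0 < |θ| := abs_pos.2 hθ
  have hseq : ∀ a : ℝ, Tendsto (fun n : ℕ => Real.exp (-(Real.pi * (n + a) / |θ|))) atTop
      (𝓝[>] 0) := by
    intro a
    refine tendsto_nhdsWithin_iff.2 ⟨?_, Eventually.of_forall (fun n => Real.exp_pos _)⟩
    refine Real.tendsto_exp_atBot.comp ?_
    refine tendsto_neg_atTop_atBot.comp ?_
    refine Tendsto.atTop_div_const habs ?_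
    refine Tendsto.const_mul_atTop hpi ?_
    exact tendsto_atTop_add_const_right _ _ tendsto_natCast_atTop_atTop
  have hsq : ∀ t : ℝ, (cexp (t * θ * I)) ^ 2 = cexp (2 * t * θ * I) := by
    intro t
    rw [← Complex.exp_nat_mul]
    congr 1
    push_cast
    ring
  -- first sequence
  have hA := h4.comp (hseq 0)
  have hA' : (v - v') + (w - w') = 0 := by
    refine tendsto_nhds_unique (Tendsto.congr (fun n => ?_) hA) tendsto_const_nhds |>.symm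
    show (v - v') + (w - w') *
      (((Real.exp (-(Real.pi * (n + 0) / |θ|)) : ℝ) : ℂ) ^ ((θ : ℂ) * I)) ^ 2 = _
    rw [hexp, hsq]
    have e1 : cexp (2 * ((-(Real.pi * (n + 0) / |θ|) : ℝ) : ℂ) * θ * I) = 1 := by
      rw [Complex.exp_eq_one_iff]
      rcases abs_choice θ with h | h
      · refine ⟨-n, ?_⟩
        rw [h]
        push_cast
        have : (θ : ℂ) ≠ 0 := by exact_mod_cast hθ
        field_simp
        ring
      · refine ⟨n, ?_⟩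
        rw [h]
        push_cast
        have : (θ : ℂ) ≠ 0 := by exact_mod_cast hθ
        field_simp
        ring
    rw [e1, mul_one]
  have hB := h4.comp (hseq (1 / 2))
  have hB' : (v - v') - (w - w') = 0 := by
    refine tendsto_nhds_unique (Tendsto.congr (fun n => ?_) hB) tendsto_const_nhds |>.symm
    show (v - v') + (w - w') *
      (((Real.exp (-(Real.pi * (n + 1 / 2) / |θ|)) : ℝ) : ℂ) ^ ((θ : ℂ) * I)) ^ 2 = _
    rw [hexp, hsq]
    have e1 : cexp (2 * ((-(Real.pi * (n + 1 / 2) / |θ|) : ℝ) : ℂ) * θ * I) = -1 := by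
      rcases abs_choice θ with h | h
      · have e2 : (2 * ((-(Real.pi * (n + 1 / 2) / |θ|) : ℝ) : ℂ) * θ * I) =
            Real.pi * I + ((-(n + 1 : ℤ) : ℤ) : ℂ) * (2 * Real.pi * I) := by
          rw [h]
          push_cast
          have : (θ : ℂ) ≠ 0 := by exact_mod_cast hθ
          field_simp
          ring
        rw [e2, Complex.exp_add, Complex.exp_int_mul_two_pi_mul_I, Complex.exp_pi_mul_I, mul_one]
      · have e2 : (2 * ((-(Real.pi * (n + 1 / 2) / |θ|) : ℝ) : ℂ) * θ * I) =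
            Real.pi * I + ((n : ℤ) : ℂ) * (2 * Real.pi * I) := by
          rw [h]
          push_cast
          have : (θ : ℂ) ≠ 0 := by exact_mod_cast hθ
          field_simp
          ring
        rw [e2, Complex.exp_add, Complex.exp_int_mul_two_pi_mul_I, Complex.exp_pi_mul_I, mul_one]
    rw [e1]
    ring
  constructor
  · have : 2 * (v - v') = 0 := by linear_combination hA' + hB'
    have h5 : v - v' = 0 := by
      rcases mul_eq_zero.1 this with h | h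
      · norm_num at h
      · exact h
    exact sub_eq_zero.1 h5
  · have : 2 * (w - w') = 0 := by linear_combination hA' - hB'
    have h5 : w - w' = 0 := by
      rcases mul_eq_zero.1 this with h | h
      · norm_num at h
      · exact h
    exact sub_eq_zero.1 h5

theorem RR.unique_sum {φ : ℝ → ℂ} {v w v' w' : ℂ} (h1 : RR φ M θ v w)
    (h2 : RR φ M θ v' w') : v + w = v' + w' := by
  by_cases hθ : θ = 0
  · have h3 := Tendsto.sub h2 h1
    rw [sub_zero] at h3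
    have h4 : Tendsto (fun _ : ℝ => (v + w) - (v' + w')) (𝓝[>] (0 : ℝ)) (𝓝 0) := by
      refine h3.congr (fun y => ?_)
      rw [hθ]
      simp
      ring
    exact sub_eq_zero.1 (tendsto_nhds_unique tendsto_const_nhds h4)
  · obtain ⟨a1, a2⟩ := h1.unique_ne hθ h2
    rw [a1, a2]

theorem RR.small {φ : ℝ → ℂ} {C : ℝ}
    (h : ∀ y : ℝ, 0 < y → y ≤ 1 → ‖φ y‖ ≤ C * y ^ (-(13 / 4) : ℝ)) : RR φ M θ 0 0 := by
  unfold RR
  have h1 : Tendsto (fun y : ℝ => |C| * y ^ (3 / 4 : ℝ)) (𝓝[>] 0) (𝓝 0) := by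
    have h2 : Tendsto (fun y : ℝ => y ^ (3 / 4 : ℝ)) (𝓝[>] 0) (𝓝 0) := by
      have h3 : ContinuousAt (fun y : ℝ => y ^ (3 / 4 : ℝ)) 0 :=
        Real.continuousAt_rpow_const _ _ (Or.inr (by norm_num))
      have h4 := h3.tendsto
      rw [Real.zero_rpow (by norm_num)] at h4
      exact h4.mono_left nhdsWithin_le_nhds
    have h5 := h2.const_mul |C|
    rw [mul_zero] at h5
    exact h5
  refine squeeze_zero_norm' ?_ h1
  have hL : ∀ᶠ y : ℝ in 𝓝[>] 0, 1 ≤ Real.log (1 / y) := tendsto_log_inv.eventually_ge_atTop 1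
  have hle : ∀ᶠ y : ℝ in 𝓝[>] 0, y ≤ 1 := by
    have : Set.Iic (1 : ℝ) ∈ 𝓝 (0 : ℝ) := Iic_mem_nhds one_pos
    exact nhdsWithin_le_nhds this
  filter_upwards [hL, hle, self_mem_nhdsWithin] with y ha hb hy
  have hy0 : 0 < y := hy
  have e1 : φ y * (y : ℂ) ^ 4 / (((Real.log (1 / y)) ^ M : ℝ) : ℂ) -
      0 * (y : ℂ) ^ (-((θ : ℂ) * I)) - 0 * (y : ℂ) ^ ((θ : ℂ) * I) =
      φ y * (y : ℂ) ^ 4 / (((Real.log (1 / y)) ^ M : ℝ) : ℂ) := by ring
  rw [e1, norm_div, norm_mul, norm_pow, Complex.norm_real, Complex.norm_real,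
    Real.norm_of_nonneg hy0.le, Real.norm_of_nonneg (by positivity)]
  have hLM : 1 ≤ (Real.log (1 / y)) ^ M := one_le_pow₀ ha
  have e2 : ‖φ y‖ * y ^ 4 / (Real.log (1 / y)) ^ M ≤ ‖φ y‖ * y ^ 4 :=
    div_le_self (by positivity) hLM
  refine e2.trans ?_
  have e3 : y ^ (3 / 4 : ℝ) = y ^ (-(13 / 4) : ℝ) * y ^ 4 := by
    rw [← Real.rpow_natCast y 4, ← Real.rpow_add hy0]
    norm_num
  rw [e3, ← mul_assoc]
  have e4 : ‖φ y‖ ≤ |C| * y ^ (-(13 / 4) : ℝ) := by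
    refine (h y hy0 hb).trans ?_
    have := Real.rpow_nonneg hy0.le (-(13 / 4))
    gcongr
    exact le_abs_self C
  gcongr

end Pool.Agent.H39.Pol
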