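import Mathlib
import Pool.Agent.H39.Pol.PRel
import Pool.Agent.H39.Pol.RRL
import Pool.Agent.H39.Pol.Rules

/-!
# SUMS: sums over cusps with denominator `p^k`, and the relation at a prime
-/

set_option autoImplicit false

namespace Pool.Agent.H39.Pol

open Complex Filter Topology Pool.Agent.H11.Selberg Pool.Agent.H11.SC

variable {b : ℕ → ℂ} {q M : ℕ} {θ : ℝ} {ρ ηp ηm : ℂ}

/-- sum over the `j` modulo `p^k` prime to `p` -/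
noncomputable def Bs (b : ℕ → ℂ) (p k : ℕ) (ξ : ℂ) : ℂ :=
  ∑ j ∈ (Finset.range (p ^ k)).filter (fun j => ¬ p ∣ j),
    gs b 3 (ξ + (((j : ℝ) / (p : ℝ) ^ k : ℝ) : ℂ) * I)

theorem Sp_zero (b : ℕ → ℂ) (p : ℕ) (ξ : ℂ) : Sp b p 0 ξ = gs b 3 ξ := by
  unfold Sp
  simp

theorem Sp_succ (b : ℕ → ℂ) (p k : ℕ) (hp : p.Prime) (ξ : ℂ) :
    Sp b p (k + 1) ξ = Sp b p k ξ + Bs b p (k + 1) ξ := by
  unfold Sp Bs
  rw [← Finset.sum_filter_add_sum_filter_not (Finset.range (p ^ (k + 1))) (fun j => p ∣ j)]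
  congr 1
  symm
  refine Finset.sum_bij (fun j _ => p * j) ?_ ?_ ?_ ?_
  · intro j hj
    rw [Finset.mem_range] at hj
    rw [Finset.mem_filter, Finset.mem_range, pow_succ, mul_comm (p ^ k)]
    exact ⟨Nat.mul_lt_mul_of_pos_left hj hp.pos, Dvd.intro j rfl⟩
  · intro j1 _ j2 _ h
    exact Nat.eq_of_mul_eq_mul_left hp.pos h
  · intro j hj
    rw [Finset.mem_filter, Finset.mem_range] at hj
    obtain ⟨h1, l, hl⟩ := hj
    refine ⟨l, ?_, hl.symm⟩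
    rw [Finset.mem_range]
    rw [hl, pow_succ, mul_comm (p ^ k)] at h1
    exact Nat.lt_of_mul_lt_mul_left h1
  · intro j _
    have hp0 : (p : ℝ) ≠ 0 := by exact_mod_cast hp.ne_zero
    have e1 : ((p * j : ℕ) : ℝ) / (p : ℝ) ^ (k + 1) = (j : ℝ) / (p : ℝ) ^ k := by
      push_cast
      rw [pow_succ]
      field_simp
    rw [e1]

theorem card_Bs (p k : ℕ) (hp : p.Prime) :
    ((Finset.range (p ^ (k + 1))).filter (fun j => ¬ p ∣ j)).card = p ^ k * (p - 1) := by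
  have h1 : (Finset.range (p ^ (k + 1))).filter (fun j => ¬ p ∣ j) =
      (Finset.range (p ^ (k + 1))).filter (fun j => (p ^ (k + 1)).Coprime j) := by
    refine Finset.filter_congr (fun j _ => ?_)
    rw [Nat.coprime_pow_left_iff (Nat.succ_pos k), Nat.Prime.coprime_iff_not_dvd hp]
  rw [h1]
  have h2 := Nat.totient_prime_pow_succ hp k
  rw [Nat.totient_eq_card_coprime] at h2
  exact h2

/-- the parameter `p^(-iθ)` -/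
noncomputable def tp (p : ℕ) (θ : ℝ) : ℂ := (p : ℂ) ^ (-((θ : ℂ) * I))

theorem tp_norm (p : ℕ) (hp : 1 ≤ p) (θ : ℝ) : ‖tp p θ‖ = 1 := by
  unfold tp
  have h0 : 0 < p := hp
  rw [norm_natCast_cpow_of_pos h0]
  simp

theorem tp_ne (p : ℕ) (hp : 1 ≤ p) (θ : ℝ) : tp p θ ≠ 0 := by
  intro h
  have := tp_norm p hp θ
  rw [h, norm_zero] at this
  exact zero_ne_one this

theorem pow_cpow_nat (p k : ℕ) (hp : 1 ≤ p) (z : ℂ) :
    ((((p : ℝ) ^ k : ℝ)) : ℂ) ^ z = ((p : ℂ) ^ z) ^ k := by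
  have h0 : (0 : ℝ) < p := by exact_mod_cast hp
  have hpc : (p : ℂ) = ((p : ℝ) : ℂ) := by push_cast; rfl
  have h1 : (((p : ℝ) ^ k : ℝ) : ℂ) ≠ 0 := by exact_mod_cast (pow_pos h0 k).ne'
  have h2 : ((p : ℝ) : ℂ) ≠ 0 := by exact_mod_cast h0.ne'
  rw [hpc, cpow_def_of_ne_zero h1, cpow_def_of_ne_zero h2, ← Complex.exp_nat_mul, ← ofReal_log
    (pow_pos h0 k).le, ← ofReal_log h0.le, Real.log_pow]
  congr 1
  push_cast
  ring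

theorem pow_cpow_plus (p k : ℕ) (hp : 1 ≤ p) (θ : ℝ) :
    ((((p : ℝ) ^ k : ℝ)) : ℂ) ^ (-(4 + θ * I) : ℂ) = ((p : ℂ) ^ (4 * k))⁻¹ * (tp p θ) ^ k := by
  have hpc : (p : ℂ) ≠ 0 := by
    have : 0 < p := hp
    exact_mod_cast this.ne'
  rw [pow_cpow_nat p k hp]
  have e1 : (-(4 + θ * I) : ℂ) = -((4 : ℕ) : ℂ) + -((θ : ℂ) * I) := by push_cast; ring
  rw [e1, cpow_add _ _ hpc, cpow_neg, cpow_natCast, mul_pow, inv_pow, ← pow_mul]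
  rfl

theorem pow_cpow_minus (p k : ℕ) (hp : 1 ≤ p) (θ : ℝ) :
    ((((p : ℝ) ^ k : ℝ)) : ℂ) ^ (-(4 - θ * I) : ℂ) = ((p : ℂ) ^ (4 * k))⁻¹ * ((tp p θ)⁻¹) ^ k := by
  have hpc : (p : ℂ) ≠ 0 := by
    have : 0 < p := hp
    exact_mod_cast this.ne'
  rw [pow_cpow_nat p k hp]
  have e1 : (-(4 - θ * I) : ℂ) = -((4 : ℕ) : ℂ) + ((θ : ℂ) * I) := by push_cast; ring
  have e2 : (tp p θ)⁻¹ = (p : ℂ) ^ ((θ : ℂ) * I) := by
    unfold tp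
    rw [cpow_neg, inv_inv]
  rw [e1, cpow_add _ _ hpc, cpow_neg, cpow_natCast, mul_pow, inv_pow, ← pow_mul, e2]

/-- both sides of the identity at `p` -/
theorem prime_sides (D : Dat b q M θ ρ ηp ηm) (p k : ℕ) (hp : p.Prime) {V0 V1 V2 V3 W0 W1 W2 W3 : ℂ}
    (h0 : RR (fun y => Sp b p 0 y) M θ V0 W0) (h1 : RR (fun y => Sp b p 1 y) M θ V1 W1)
    (h2 : RR (fun y => Sp b p k y) M θ V2 W2) (h3 : RR (fun y => Sp b p (k + 1) y) M θ V3 W3) :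
    ∃ φ : ℝ → ℂ, RR φ M θ (((p : ℂ) ^ k)⁻¹ * (b (p ^ k) * (tp p θ) ^ k * (V0 - (p : ℂ)⁻¹ * V1)))
      (((p : ℂ) ^ k)⁻¹ * (b (p ^ k) * ((tp p θ)⁻¹) ^ k * (W0 - (p : ℂ)⁻¹ * W1))) ∧
      RR φ M θ (((p : ℂ) ^ k)⁻¹ * (V2 - (p : ℂ)⁻¹ * V3)) (((p : ℂ) ^ k)⁻¹ * (W2 - (p : ℂ)⁻¹ * W3)) := by
  have hpr : (0 : ℝ) < p := by exact_mod_cast hp.pos
  have hpc : (p : ℂ) ≠ 0 := by exact_mod_cast hp.ne_zero
  have hpk : (0 : ℝ) < (p : ℝ) ^ k := pow_pos hpr k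
  refine ⟨fun y => ((p : ℂ) ^ k)⁻¹ * Sp b p k y - ((p : ℂ) ^ (k + 1))⁻¹ * Sp b p (k + 1) y, ?_, ?_⟩
  · have h4 := (((h0.sub (h1.smul (p : ℂ)⁻¹)).scale ((p : ℝ) ^ k) hpk).smul
      (b (p ^ k) * (p : ℂ) ^ (3 * k))).congr (ψ := fun y => ((p : ℂ) ^ k)⁻¹ * Sp b p k y -
        ((p : ℂ) ^ (k + 1))⁻¹ * Sp b p (k + 1) y) (fun y hy => by
        have h5 := prime_id b (D.ram 1 one_pos) D.mul p k hp (y : ℂ) (by simpa using hy)
        rw [← h5]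
        push_cast
        rfl)
    convert h4 using 1
    · rw [pow_cpow_plus p k hp.one_le θ]
      have e1 : (p : ℂ) ^ (4 * k) = (p : ℂ) ^ (3 * k) * (p : ℂ) ^ k := by
        rw [← pow_add]
        congr 1
        ring
      rw [e1]
      field_simp
    · rw [pow_cpow_minus p k hp.one_le θ]
      have e1 : (p : ℂ) ^ (4 * k) = (p : ℂ) ^ (3 * k) * (p : ℂ) ^ k := by
        rw [← pow_add]
        congr 1
        ring
      rw [e1]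
      field_simp
  · have h4 := (h2.smul ((p : ℂ) ^ k)⁻¹).sub (h3.smul ((p : ℂ) ^ (k + 1))⁻¹)
    convert h4 using 1
    · rw [pow_succ]
      field_simp
    · rw [pow_succ]
      field_simp

theorem prime_rel_ne (D : Dat b q M θ ρ ηp ηm) (hθ : θ ≠ 0) (p k : ℕ) (hp : p.Prime)
    {V0 V1 V2 V3 W0 W1 W2 W3 : ℂ}
    (h0 : RR (fun y => Sp b p 0 y) M θ V0 W0) (h1 : RR (fun y => Sp b p 1 y) M θ V1 W1)
    (h2 : RR (fun y => Sp b p k y) M θ V2 W2) (h3 : RR (fun y => Sp b p (k + 1) y) M θ V3 W3) :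
    b (p ^ k) * (tp p θ) ^ k * (V0 - (p : ℂ)⁻¹ * V1) = V2 - (p : ℂ)⁻¹ * V3 ∧
    b (p ^ k) * ((tp p θ)⁻¹) ^ k * (W0 - (p : ℂ)⁻¹ * W1) = W2 - (p : ℂ)⁻¹ * W3 := by
  obtain ⟨φ, h4, h5⟩ := prime_sides D p k hp h0 h1 h2 h3
  have hpc : (p : ℂ) ≠ 0 := by exact_mod_cast hp.ne_zero
  have hpk : ((p : ℂ) ^ k)⁻¹ ≠ 0 := inv_ne_zero (pow_ne_zero _ hpc)
  obtain ⟨h6, h7⟩ := h4.unique_ne hθ h5
  exact ⟨mul_left_cancel₀ hpk h6, mul_left_cancel₀ hpk h7⟩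

theorem prime_rel_sum (D : Dat b q M θ ρ ηp ηm) (p k : ℕ) (hp : p.Prime)
    {V0 V1 V2 V3 W0 W1 W2 W3 : ℂ}
    (h0 : RR (fun y => Sp b p 0 y) M θ V0 W0) (h1 : RR (fun y => Sp b p 1 y) M θ V1 W1)
    (h2 : RR (fun y => Sp b p k y) M θ V2 W2) (h3 : RR (fun y => Sp b p (k + 1) y) M θ V3 W3) :
    b (p ^ k) * ((tp p θ) ^ k * (V0 - (p : ℂ)⁻¹ * V1) + ((tp p θ)⁻¹) ^ k * (W0 - (p : ℂ)⁻¹ * W1)) =
      (V2 + W2) - (p : ℂ)⁻¹ * (V3 + W3) := by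
  obtain ⟨φ, h4, h5⟩ := prime_sides D p k hp h0 h1 h2 h3
  have hpc : (p : ℂ) ≠ 0 := by exact_mod_cast hp.ne_zero
  have hpk : ((p : ℂ) ^ k)⁻¹ ≠ 0 := inv_ne_zero (pow_ne_zero _ hpc)
  have h6 := h4.unique_sum h5
  refine mul_left_cancel₀ hpk ?_
  linear_combination h6

theorem Bs_plus (p k : ℕ) (hp : p.Prime) (x : ℂ)
    (h : ∀ j : ℤ, IsCoprime j ((p ^ (k + 1) : ℕ) : ℤ) → Plus b M θ ρ j (p ^ (k + 1)) x) :
    RR (fun y => Bs b p (k + 1) y) M θ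
      ((1 - (p : ℂ)⁻¹) * (ρ * x * ((tp p θ) ^ 2) ^ (k + 1))) 0 := by
  have hpc : (p : ℂ) ≠ 0 := by exact_mod_cast hp.ne_zero
  have h1 : RR (fun y => Bs b p (k + 1) y) M θ
      (∑ _j ∈ (Finset.range (p ^ (k + 1))).filter (fun j => ¬ p ∣ j),
        ρ * x * (((p ^ (k + 1) : ℕ) : ℂ)) ^ (-(1 + 2 * θ * I) : ℂ))
      (∑ _j ∈ (Finset.range (p ^ (k + 1))).filter (fun j => ¬ p ∣ j), (0 : ℂ)) := by
    unfold Bs
    refine RR.sum _ (fun j hj => ?_)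
    rw [Finset.mem_filter] at hj
    have hcop : IsCoprime ((j : ℕ) : ℤ) ((p ^ (k + 1) : ℕ) : ℤ) := by
      rw [Nat.isCoprime_iff_coprime]
      exact (Nat.Coprime.pow_left _ ((Nat.Prime.coprime_iff_not_dvd hp).2 hj.2)).symm
    have h2 := h j hcop
    unfold Plus at h2
    have h3 := RR.of_plus h2
    have e1 : ((((j : ℕ) : ℤ) : ℝ) / ((p ^ (k + 1) : ℕ) : ℝ)) = (j : ℝ) / (p : ℝ) ^ (k + 1) := by
      push_cast
      rfl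
    rw [e1] at h3
    exact h3
  rw [Finset.sum_const, Finset.sum_const_zero, card_Bs p k hp] at h1
  convert h1 using 1
  have e2 : (((p ^ (k + 1) : ℕ) : ℂ)) ^ (-(1 + 2 * θ * I) : ℂ) =
      ((p : ℂ) ^ (k + 1))⁻¹ * ((tp p θ) ^ 2) ^ (k + 1) := by
    have e3 : (((p ^ (k + 1) : ℕ) : ℂ)) = ((((p : ℝ) ^ (k + 1) : ℝ)) : ℂ) := by push_cast; rfl
    rw [e3, pow_cpow_nat p (k + 1) hp.one_le, ← inv_pow, ← mul_pow]
    congr 1
    have e4 : (-(1 + 2 * θ * I) : ℂ) = -1 + (-((θ : ℂ) * I) + -((θ : ℂ) * I)) := by ring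
    rw [e4, cpow_add _ _ hpc, cpow_add _ _ hpc, cpow_neg_one, sq]
    rfl
  rw [e2, nsmul_eq_mul]
  push_cast [hp.one_le]
  field_simp
  ring

theorem Bs_minus (p k : ℕ) (hp : p.Prime) (x : ℤ → ℂ)
    (h : ∀ j : ℤ, IsCoprime j ((p ^ (k + 1) : ℕ) : ℤ) → Minus b q M θ ρ j (p ^ (k + 1)) (x j)) :
    RR (fun y => Bs b p (k + 1) y) M θ 0
      ((∑ j ∈ (Finset.range (p ^ (k + 1))).filter (fun j => ¬ p ∣ j), x j) *
        ((starRingEnd ℂ) ρ * ((Real.sqrt q / ((p ^ (k + 1) : ℕ) : ℝ) : ℝ) : ℂ) *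
          ((((p ^ (k + 1) : ℕ) : ℝ) ^ 2 / q : ℝ) : ℂ) ^ (θ * I))) := by
  have h1 : RR (fun y => Bs b p (k + 1) y) M θ
      (∑ _j ∈ (Finset.range (p ^ (k + 1))).filter (fun j => ¬ p ∣ j), (0 : ℂ))
      (∑ j ∈ (Finset.range (p ^ (k + 1))).filter (fun j => ¬ p ∣ j),
        (starRingEnd ℂ) ρ * x j * ((Real.sqrt q / ((p ^ (k + 1) : ℕ) : ℝ) : ℝ) : ℂ) *
          ((((p ^ (k + 1) : ℕ) : ℝ) ^ 2 / q : ℝ) : ℂ) ^ (θ * I)) := by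
    unfold Bs
    refine RR.sum _ (fun j hj => ?_)
    rw [Finset.mem_filter] at hj
    have hcop : IsCoprime ((j : ℕ) : ℤ) ((p ^ (k + 1) : ℕ) : ℤ) := by
      rw [Nat.isCoprime_iff_coprime]
      exact (Nat.Coprime.pow_left _ ((Nat.Prime.coprime_iff_not_dvd hp).2 hj.2)).symm
    have h2 := h j hcop
    unfold Minus at h2
    have h3 := RR.of_minus h2
    have e1 : ((((j : ℕ) : ℤ) : ℝ) / ((p ^ (k + 1) : ℕ) : ℝ)) = (j : ℝ) / (p : ℝ) ^ (k + 1) := by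
      push_cast
      rfl
    rw [e1] at h3
    exact h3
  rw [Finset.sum_const_zero] at h1
  convert h1 using 1
  rw [Finset.sum_mul]
  refine Finset.sum_congr rfl (fun j _ => ?_)
  ring

end Pool.Agent.H39.Pol
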