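import Mathlib
import Pool.Agent.H39.Pol.Sums
import Pool.Agent.H39.Pol.CalcM

/-!
# EVP: the coefficients at the primes not dividing the conductor
-/

set_option autoImplicit false

namespace Pool.Agent.H39.Pol

open Complex Filter Topology Pool.Agent.H11.Selberg Pool.Agent.H11.SC

variable {b : ℕ → ℂ} {q M : ℕ} {θ : ℝ} {ρ ηp ηm : ℂ}

theorem chi_pow {e : ℂ} (hQ : QE q e) (p : ℕ) (hp : Nat.Coprime p q) (k : ℕ) :
    chi q e ((p ^ k : ℕ) : ℤ) = (chi q e p) ^ k := by
  induction k with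
  | zero =>
    rw [pow_zero, pow_zero, Nat.cast_one, chi_one]
  | succ k ih =>
    rw [pow_succ, pow_succ, ← ih, Nat.cast_mul, chi_mul hQ]
    · exact Nat.isCoprime_iff_coprime.2 (Nat.Coprime.pow_left k hp)
    · exact Nat.isCoprime_iff_coprime.2 hp

theorem chi_norm {e : ℂ} (hQ : QE q e) (n : ℤ) : ‖chi q e n‖ = 1 := by
  unfold chi
  rcases hQ.sq with h | h <;> rw [h] <;> split_ifs <;> simp

theorem Sp_plus (D : Dat b q M θ ρ ηp ηm) {e : ℂ} (hQ : QE q e)
    (hP : ∀ (c : ℕ) (j : ℤ), 1 ≤ c → Nat.Coprime c q → IsCoprime j c →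
      Plus b M θ ρ j c (chi q e c)) (p : ℕ) (hp : p.Prime) (hpq : Nat.Coprime p q) (k : ℕ) :
    RR (fun y => Sp b p k y) M θ
      (ρ * (1 + (1 - (p : ℂ)⁻¹) * ∑ i ∈ Finset.range k, (chi q e p * (tp p θ) ^ 2) ^ (i + 1))) 0 := by
  induction k with
  | zero =>
    have h1 := RR.of_plus D.zero
    rw [Finset.sum_range_zero, mul_zero, add_zero, mul_one]
    refine h1.congr (fun y _ => ?_)
    rw [Sp_zero, ofReal_zero, zero_mul, add_zero]
  | succ k ih =>
    have h1 := Bs_plus (b := b) (M := M) (θ := θ) (ρ := ρ) p k hp ((chi q e p) ^ (k + 1))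
      (fun j hj => by
        have h2 := hP (p ^ (k + 1)) j (Nat.one_le_pow _ _ hp.one_le)
          (Nat.Coprime.pow_left _ hpq) hj
        rw [chi_pow hQ p hpq] at h2
        exact h2)
    have h3 := (ih.add h1).congr (ψ := fun y => Sp b p (k + 1) y) (fun y _ => by
      rw [Sp_succ b p k hp])
    rw [Finset.sum_range_succ]
    convert h3 using 1
    · rw [mul_pow]
      ring
    · ring

theorem ev_p (D : Dat b q M θ ρ ηp ηm) {e : ℂ} (hQ : QE q e)
    (hP : ∀ (c : ℕ) (j : ℤ), 1 ≤ c → Nat.Coprime c q → IsCoprime j c →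
      Plus b M θ ρ j c (chi q e c)) (p : ℕ) (hp : p.Prime) (hpq : Nat.Coprime p q) (k : ℕ) :
    b (p ^ k) * (tp p θ) ^ k = ∑ i ∈ Finset.range (k + 1), (chi q e p * (tp p θ) ^ 2) ^ i := by
  set w : ℂ := chi q e p * (tp p θ) ^ 2 with hw
  have hwn : ‖w‖ = 1 := by
    rw [hw, norm_mul, norm_pow, chi_norm hQ, tp_norm p hp.one_le, one_pow, mul_one]
  have h0 := Sp_plus D hQ hP p hp hpq 0
  have h1 := Sp_plus D hQ hP p hp hpq 1
  have h2 := Sp_plus D hQ hP p hp hpq k
  have h3 := Sp_plus D hQ hP p hp hpq (k + 1)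
  have h4 := prime_rel_sum D p k hp h0 h1 h2 h3
  rw [← hw] at h4
  have hpc : (p : ℂ) ≠ 0 := by exact_mod_cast hp.ne_zero
  have hp1 : (1 - (p : ℂ)⁻¹) ≠ 0 := by
    intro h
    have h5 : (p : ℂ) = 1 := by
      have h6 : (p : ℂ)⁻¹ = 1 := by linear_combination -h
      rw [inv_eq_one] at h6
      exact h6
    have h6 : p = 1 := by exact_mod_cast h5
    exact hp.one_lt.ne' h6
  have hwp : (1 - (p : ℂ)⁻¹ * w) ≠ 0 := by
    intro h
    have h5 : w = p := by
      have h6 : (p : ℂ)⁻¹ * w = 1 := by linear_combination -h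
      field_simp at h6
      exact h6
    rw [h5, Complex.norm_natCast] at hwn
    have h6 : p = 1 := by exact_mod_cast hwn
    exact hp.one_lt.ne' h6
  have hS : ∀ n : ℕ, w * ∑ i ∈ Finset.range n, w ^ i = ∑ i ∈ Finset.range n, w ^ (i + 1) := by
    intro n
    rw [Finset.mul_sum]
    exact Finset.sum_congr rfl (fun i _ => by ring)
  have hS1 : ∑ i ∈ Finset.range (k + 1), w ^ i = 1 + ∑ i ∈ Finset.range k, w ^ (i + 1) := by
    rw [Finset.sum_range_succ' (fun i => w ^ i) k, pow_zero]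
    ring
  have hS2 := hS (k + 1)
  refine mul_right_cancel₀ (mul_ne_zero (mul_ne_zero D.rho0 hp1) hwp) ?_
  rw [Finset.sum_range_zero, Finset.sum_range_one] at h4
  rw [hS1]
  rw [← hS2, hS1] at h4
  ring_nf at h4 ⊢
  linear_combination h4

end Pool.Agent.H39.Pol
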