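import Mathlib
import Pool.Agent.H39.Pol.EvP

/-!
# EVQ: prime conductor `2`, `3`: the coefficients at `q^k`
-/

set_option autoImplicit false

namespace Pool.Agent.H39.Pol

open Complex Filter Topology Pool.Agent.H11.Selberg Pool.Agent.H11.SC

variable {b : ℕ → ℂ} {q M : ℕ} {θ : ℝ} {ρ ηp ηm : ℂ}

/-- sum of the character over a reduced system -/
noncomputable def Sc (q : ℕ) (e : ℂ) (k : ℕ) : ℂ :=
  ∑ j ∈ (Finset.range (q ^ (k + 1))).filter (fun j => ¬ q ∣ j), chi q e ((j : ℕ) : ℤ)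

/-- the factor of the values of type minus -/
noncomputable def Fm (q : ℕ) (θ : ℝ) (k : ℕ) : ℂ :=
  ((Real.sqrt q / ((q ^ (k + 1) : ℕ) : ℝ) : ℝ) : ℂ) *
    ((((q ^ (k + 1) : ℕ) : ℝ) ^ 2 / q : ℝ) : ℂ) ^ (θ * I)

theorem Sp_minus (D : Dat b q M θ ρ ηp ηm) {e : ℂ}
    (hM : ∀ (c : ℕ) (j : ℤ), 1 ≤ c → IsCoprime j ((q * c : ℕ) : ℤ) →
      Minus b q M θ ρ j (q * c) (ηp * chi q e j)) (hp : q.Prime) (k : ℕ) :
    RR (fun y => Sp b q k y) M θ ρ
      (ηp * (starRingEnd ℂ) ρ * ∑ i ∈ Finset.range k, Sc q e i * Fm q θ i) := by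
  induction k with
  | zero =>
    have h1 := RR.of_plus D.zero
    rw [Finset.sum_range_zero, mul_zero]
    refine h1.congr (fun y _ => ?_)
    rw [Sp_zero, ofReal_zero, zero_mul, add_zero]
  | succ k ih =>
    have h1 := Bs_minus (b := b) (q := q) (M := M) (θ := θ) (ρ := ρ) q k hp
      (fun j => ηp * chi q e j) (fun j hj => by
        have e1 : q ^ (k + 1) = q * q ^ k := by rw [pow_succ, mul_comm]
        rw [e1] at hj ⊢
        exact hM (q ^ k) j (Nat.one_le_pow _ _ hp.one_le) hj)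
    have h3 := (ih.add h1).congr (ψ := fun y => Sp b q (k + 1) y) (fun y _ => by
      rw [Sp_succ b q k hp])
    rw [Finset.sum_range_succ]
    convert h3 using 1
    · ring
    · unfold Sc Fm
      rw [← Finset.mul_sum]
      ring

theorem Fm_eq (q : ℕ) (hq : 1 ≤ q) (θ : ℝ) (k : ℕ) :
    Fm q θ k = ((Real.sqrt q : ℝ) : ℂ) * ((q : ℂ) ^ (k + 1))⁻¹ * ((tp q θ)⁻¹) ^ (2 * k + 1) := by
  have hqr : (0 : ℝ) < q := by exact_mod_cast hq
  have hqc : (q : ℂ) ≠ 0 := by exact_mod_cast hqr.ne'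
  have e2 : (tp q θ)⁻¹ = (q : ℂ) ^ ((θ : ℂ) * I) := by
    unfold tp
    rw [cpow_neg, inv_inv]
  have e1 : ((((q ^ (k + 1) : ℕ) : ℝ) ^ 2 / q : ℝ) : ℂ) = ((((q : ℝ) ^ (2 * k + 1) : ℝ)) : ℂ) := by
    congr 1
    push_cast
    field_simp
    ring
  unfold Fm
  rw [e1, pow_cpow_nat q (2 * k + 1) hq, e2]
  push_cast
  ring

/-- residues modulo `3`: the odd character sums to zero -/
theorem Sc_three (k : ℕ) : Sc 3 (-1) k = 0 := by
  unfold Sc
  have h : ∀ n : ℕ, ∑ j ∈ (Finset.range (3 * n)).filter (fun j => ¬ 3 ∣ j),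
      chi 3 (-1) ((j : ℕ) : ℤ) = 0 := by
    intro n
    induction n with
    | zero => simp
    | succ n ih =>
      have e1 : 3 * (n + 1) = 3 * n + 1 + 1 + 1 := by ring
      rw [e1, Finset.range_add_one, Finset.range_add_one, Finset.range_add_one, Finset.filter_insert,
        Finset.filter_insert, Finset.filter_insert]
      have a0 : ¬ ¬ 3 ∣ 3 * n := by
        rw [not_not]
        exact Dvd.intro n rfl
      have a1 : ¬ 3 ∣ 3 * n + 1 := by omega
      have a2 : ¬ 3 ∣ 3 * n + 1 + 1 := by omega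
      rw [if_pos a2, if_pos a1, if_neg a0, Finset.sum_insert, Finset.sum_insert, ih]
      · have c1 : chi 3 (-1) ((3 * n + 1 : ℕ) : ℤ) = 1 := by
          unfold chi
          rw [if_pos]
          push_cast
          omega
        have c2 : chi 3 (-1) ((3 * n + 1 + 1 : ℕ) : ℤ) = -1 := by
          unfold chi
          rw [if_neg]
          push_cast
          omega
        rw [c1, c2]
        ring
      · simp
      · simp
  have h1 := h (3 ^ k)
  rw [pow_succ, mul_comm]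
  exact h1

theorem Sc_one (q : ℕ) (hp : q.Prime) (k : ℕ) : Sc q 1 k = (q : ℂ) ^ k * (q - 1) := by
  unfold Sc
  have h1 : ∀ j : ℤ, chi q 1 j = 1 := by
    intro j
    unfold chi
    split_ifs <;> rfl
  simp only [h1]
  rw [Finset.sum_const, card_Bs q k hp, nsmul_eq_mul, mul_one]
  push_cast [hp.one_le]
  rfl

/-- conductor `3`, odd character -/
theorem ev_three (D : Dat b 3 M θ ρ ηp ηm)
    (hM : ∀ (c : ℕ) (j : ℤ), 1 ≤ c → IsCoprime j ((3 * c : ℕ) : ℤ) →
      Minus b 3 M θ ρ j (3 * c) (ηp * chi 3 (-1) j)) (k : ℕ) :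
    b (3 ^ k) * (tp 3 θ) ^ k = 1 := by
  have hp : Nat.Prime 3 := Nat.prime_three
  have h : ∀ k : ℕ, RR (fun y => Sp b 3 k y) M θ ρ 0 := by
    intro k
    have h1 := Sp_minus D hM hp k
    simp only [Sc_three, zero_mul, Finset.sum_const_zero, mul_zero] at h1
    exact h1
  have h4 := prime_rel_sum D 3 k hp (h 0) (h 1) (h k) (h (k + 1))
  have h5 : (ρ - ((3 : ℕ) : ℂ)⁻¹ * ρ) ≠ 0 := by
    have : (ρ - ((3 : ℕ) : ℂ)⁻¹ * ρ) = (2 / 3) * ρ := by push_cast; ring
    rw [this]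
    exact mul_ne_zero (by norm_num) D.rho0
  refine mul_right_cancel₀ h5 ?_
  linear_combination h4

/-- a local factor with a zero on the circle `|X| = p^(-1/2)` is impossible -/
theorem no_double (q : ℕ) (hp : 1 < q) (b : ℕ → ℂ)
    (loc : ∀ X : ℂ, ‖X‖ ≤ (q : ℝ) ^ (-(1 / 2) : ℝ) → ∑' k : ℕ, b (q ^ k) * X ^ k ≠ 0)
    (c : ℂ) (hb : ∀ k : ℕ, b (q ^ k) = 1 + k * c) (hc : ‖c - 1‖ = Real.sqrt q) : False := by
  have hqr : (1 : ℝ) < q := by exact_mod_cast hp
  have hs : 1 < Real.sqrt q := by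
    rw [Real.lt_sqrt (by norm_num)]
    simpa using hqr
  have hc0 : c - 1 ≠ 0 := by
    intro h
    rw [h, norm_zero] at hc
    rw [← hc] at hs
    norm_num at hs
  set X : ℂ := -(c - 1)⁻¹ with hX
  have hXn : ‖X‖ = (q : ℝ) ^ (-(1 / 2) : ℝ) := by
    rw [hX, norm_neg, norm_inv, hc, Real.rpow_neg (by positivity), Real.sqrt_eq_rpow]
  have hX1 : ‖X‖ < 1 := by
    rw [hX, norm_neg, norm_inv, hc]
    exact inv_lt_one_of_one_lt₀ hs
  apply loc X hXn.le
  have h1 := hasSum_geometric_of_norm_lt_one hX1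
  have h2 := hasSum_coe_mul_geometric_of_norm_lt_one hX1
  have h3 := h1.add (h2.mul_left c)
  have h4 : (fun k : ℕ => b (q ^ k) * X ^ k) = fun k : ℕ => X ^ k + c * ((k : ℂ) * X ^ k) := by
    funext k
    rw [hb k]
    ring
  rw [h4, h3.tsum_eq]
  have hX1' : 1 - X ≠ 0 := by
    intro h
    have h5 : X = 1 := by linear_combination -h
    rw [h5, norm_one] at hX1
    exact lt_irrefl _ hX1
  have h6 : (c - 1) * X = -1 := by
    rw [hX]
    field_simp
  field_simp
  linear_combination h6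

/-- prime conductor, trivial character: impossible -/
theorem no_q_plus (D : Dat b q M θ ρ ηp ηm) (hp : q.Prime)
    (hM : ∀ (c : ℕ) (j : ℤ), 1 ≤ c → IsCoprime j ((q * c : ℕ) : ℤ) →
      Minus b q M θ ρ j (q * c) (ηp * chi q 1 j)) : False := by
  have hq1 := hp.one_le
  have hqr : (0 : ℝ) < q := by exact_mod_cast hp.pos
  have hqr1 : (1 : ℝ) < q := by exact_mod_cast hp.one_lt
  have hqc : (q : ℂ) ≠ 0 := by exact_mod_cast hp.ne_zero
  have hqc1 : (q : ℂ) - 1 ≠ 0 := by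
    intro h
    have h1 : (q : ℂ) = 1 := by linear_combination h
    have h2 : q = 1 := by exact_mod_cast h1
    exact hp.one_lt.ne' h2
  set S : ℂ := ((Real.sqrt q : ℝ) : ℂ) with hS
  have hSS : S * S = q := by
    rw [hS, ← ofReal_mul, Real.mul_self_sqrt hqr.le, ofReal_natCast]
  have hS0 : S ≠ 0 := by
    intro h
    rw [h, mul_zero] at hSS
    exact hqc hSS.symm
  set u : ℂ := (tp q θ)⁻¹ with hu
  have hun : u ≠ 0 := inv_ne_zero (tp_ne q hq1 θ)
  set A : ℂ := ηp * (starRingEnd ℂ) ρ * ((q - 1) * S * (q : ℂ)⁻¹) with hA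
  have hηp0 : ηp ≠ 0 := by
    intro h
    have := D.hp
    rw [h, norm_zero] at this
    exact zero_ne_one this
  have hA0 : A ≠ 0 := by
    rw [hA]
    exact mul_ne_zero (mul_ne_zero hηp0 ((map_ne_zero _).2 D.rho0))
      (mul_ne_zero (mul_ne_zero hqc1 hS0) (inv_ne_zero hqc))
  have hW : ∀ k : ℕ, RR (fun y => Sp b q k y) M θ ρ
      (A * ∑ i ∈ Finset.range k, u ^ (2 * i + 1)) := by
    intro k
    have h1 := Sp_minus D hM hp k
    convert h1 using 1
    rw [hA, mul_assoc (ηp * (starRingEnd ℂ) ρ), Finset.mul_sum]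
    congr 1
    refine Finset.sum_congr rfl (fun i _ => ?_)
    rw [Sc_one q hp i, Fm_eq q hq1 θ i, pow_succ (q : ℂ) i, ← hS, ← hu]
    have : (q : ℂ) ^ i ≠ 0 := pow_ne_zero _ hqc
    field_simp
  by_cases hθ : θ = 0
  · -- `θ = 0`
    have hu1 : u = 1 := by
      rw [hu, hθ]
      unfold tp
      simp
    have ht1 : tp q θ = 1 := by
      rw [hθ]
      unfold tp
      simp
    have hsum : ∀ k : ℕ, ∑ i ∈ Finset.range k, u ^ (2 * i + 1) = k := by
      intro k
      rw [hu1]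
      simp
    have hk : ∀ k : ℕ, b (q ^ k) * (ρ * (1 - (q : ℂ)⁻¹) - A * (q : ℂ)⁻¹) =
        (ρ * (1 - (q : ℂ)⁻¹) - A * (q : ℂ)⁻¹) + k * (A * (1 - (q : ℂ)⁻¹)) := by
      intro k
      have h4 := prime_rel_sum D q k hp (hW 0) (hW 1) (hW k) (hW (k + 1))
      rw [hsum, hsum, hsum, hsum, ht1] at h4
      push_cast at h4
      simp only [inv_one, one_pow] at h4
      linear_combination h4
    -- the unit `v`
    set v : ℂ := ηp * (starRingEnd ℂ) ρ / ρ with hv
    have hvn : ‖v‖ = 1 := by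
      rw [hv, norm_div, norm_mul, D.hp, norm_conj, one_mul, div_self]
      exact (norm_pos_iff.2 D.rho0).ne'
    have hAv : A = ρ * v * ((q - 1) * S * (q : ℂ)⁻¹) := by
      rw [hA, hv]
      have := D.rho0
      field_simp
    have hsq1 : 1 < Real.sqrt q := by
      rw [Real.lt_sqrt (by norm_num)]
      simpa using hqr1
    have hSv : S - v ≠ 0 := by
      intro h
      have h1 : S = v := by linear_combination h
      have h2 : ‖S‖ = 1 := by rw [h1, hvn]
      rw [hS, Complex.norm_real, Real.norm_of_nonneg (Real.sqrt_nonneg _)] at h2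
      linarith
    have hden : ρ * (1 - (q : ℂ)⁻¹) - A * (q : ℂ)⁻¹ = ρ * (q - 1) * (S - v) * (S * q)⁻¹ := by
      rw [hAv, ← hSS]
      field_simp
    have hden0 : ρ * (1 - (q : ℂ)⁻¹) - A * (q : ℂ)⁻¹ ≠ 0 := by
      rw [hden]
      exact mul_ne_zero (mul_ne_zero (mul_ne_zero D.rho0 hqc1) hSv)
        (inv_ne_zero (mul_ne_zero hS0 hqc))
    set c : ℂ := (q - 1) * v / (S - v) with hc
    have hbk : ∀ k : ℕ, b (q ^ k) = 1 + k * c := by
      intro k
      refine mul_right_cancel₀ hden0 ?_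
      rw [hk k]
      have h5 : A * (1 - (q : ℂ)⁻¹) = c * (ρ * (1 - (q : ℂ)⁻¹) - A * (q : ℂ)⁻¹) := by
        rw [hden, hAv, hc, ← hSS]
        field_simp
      rw [h5]
      ring
    refine no_double q hp.one_lt b (D.loc q hp) c hbk ?_
    have hvv : v * (starRingEnd ℂ) v = 1 := by
      rw [Complex.mul_conj, Complex.normSq_eq_norm_sq, hvn]
      norm_num
    have hc1 : c - 1 = S * (v * (S - (starRingEnd ℂ) v)) / (S - v) := by
      rw [hc]
      field_simp
      linear_combination (-v) * hSS + S * hvv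
    have hconjS : (starRingEnd ℂ) S = S := by
      rw [hS, conj_ofReal]
    rw [hc1, norm_div, norm_mul, norm_mul, hvn, one_mul]
    have h7 : ‖S - (starRingEnd ℂ) v‖ = ‖S - v‖ := by
      rw [← norm_conj (S - v), map_sub, hconjS]
    rw [h7, mul_div_assoc, div_self (norm_pos_iff.2 hSv).ne', mul_one, hS, Complex.norm_real,
      Real.norm_of_nonneg (Real.sqrt_nonneg _)]
  · -- `θ ≠ 0`
    obtain ⟨h4, h5⟩ := prime_rel_ne D hθ q 1 hp (hW 0) (hW 1) (hW 1) (hW (1 + 1))
    rw [pow_one, pow_one] at h4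
    rw [pow_one, pow_one, ← hu] at h5
    have hρq : ρ - (q : ℂ)⁻¹ * ρ ≠ 0 := by
      have : ρ - (q : ℂ)⁻¹ * ρ = ρ * ((q - 1) * (q : ℂ)⁻¹) := by
        field_simp
      rw [this]
      exact mul_ne_zero D.rho0 (mul_ne_zero hqc1 (inv_ne_zero hqc))
    have h6 : b q * tp q θ = 1 := by
      refine mul_right_cancel₀ hρq ?_
      linear_combination h4
    have h7 : b q = u := by
      rw [hu]
      exact eq_inv_of_mul_eq_one_left h6
    rw [h7] at h5
    simp only [Finset.sum_range_zero, Finset.sum_range_succ, mul_zero,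
      zero_add, pow_one, mul_one] at h5
    have h8 : A * u * (q - 1) = 0 := by
      field_simp at h5
      linear_combination (-1 : ℂ) * h5
    exact mul_ne_zero (mul_ne_zero hA0 hun) hqc1 h8

end Pool.Agent.H39.Pol
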