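import Mathlib
import Pool.Agent.H39.Pol.EvQ

/-!
# EVG: the coefficients at prime powers, for general value functions

`ev_p_gen`: values `X c` of type plus at all `j/c`, `(c, q) = 1`.
`ev_q_gen`, `no_q_gen`: prime conductor `q`, values `η Y j` of type minus at all `j/(qc)`.
-/

set_option autoImplicit false

namespace Pool.Agent.H39.Pol

open Complex Filter Topology Pool.Agent.H11.Selberg Pool.Agent.H11.SC

variable {b : ℕ → ℂ} {q M : ℕ} {θ : ℝ} {ρ ηp ηm : ℂ}

theorem X_pow {X : ℕ → ℂ} (hX1 : X 1 = 1)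
    (hXm : ∀ m n : ℕ, Nat.Coprime m q → Nat.Coprime n q → X (m * n) = X m * X n)
    (p : ℕ) (hp : Nat.Coprime p q) (k : ℕ) : X (p ^ k) = (X p) ^ k := by
  induction k with
  | zero => rw [pow_zero, pow_zero, hX1]
  | succ k ih => rw [pow_succ, pow_succ, ← ih, hXm _ _ (Nat.Coprime.pow_left k hp) hp]

theorem Sp_plus_gen (D : Dat b q M θ ρ ηp ηm) (X : ℕ → ℂ) (hX1 : X 1 = 1)
    (hXm : ∀ m n : ℕ, Nat.Coprime m q → Nat.Coprime n q → X (m * n) = X m * X n)
    (hP : ∀ (c : ℕ) (j : ℤ), 1 ≤ c → Nat.Coprime c q → IsCoprime j c →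
      Plus b M θ ρ j c (X c)) (p : ℕ) (hp : p.Prime) (hpq : Nat.Coprime p q) (k : ℕ) :
    RR (fun y => Sp b p k y) M θ
      (ρ * (1 + (1 - (p : ℂ)⁻¹) * ∑ i ∈ Finset.range k, (X p * (tp p θ) ^ 2) ^ (i + 1))) 0 := by
  induction k with
  | zero =>
    have h1 := RR.of_plus D.zero
    rw [Finset.sum_range_zero, mul_zero, add_zero, mul_one]
    refine h1.congr (fun y _ => ?_)
    rw [Sp_zero, ofReal_zero, zero_mul, add_zero]
  | succ k ih =>
    have h1 := Bs_plus (b := b) (M := M) (θ := θ) (ρ := ρ) p k hp ((X p) ^ (k + 1))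
      (fun j hj => by
        have h2 := hP (p ^ (k + 1)) j (Nat.one_le_pow _ _ hp.one_le)
          (Nat.Coprime.pow_left _ hpq) hj
        rw [X_pow hX1 hXm p hpq] at h2
        exact h2)
    have h3 := (ih.add h1).congr (ψ := fun y => Sp b p (k + 1) y) (fun y _ => by
      rw [Sp_succ b p k hp])
    rw [Finset.sum_range_succ]
    convert h3 using 1
    · rw [mul_pow]
      ring
    · ring

theorem ev_p_gen (D : Dat b q M θ ρ ηp ηm) (X : ℕ → ℂ) (hX1 : X 1 = 1)
    (hXm : ∀ m n : ℕ, Nat.Coprime m q → Nat.Coprime n q → X (m * n) = X m * X n)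
    (hXn : ∀ m : ℕ, Nat.Coprime m q → ‖X m‖ = 1)
    (hP : ∀ (c : ℕ) (j : ℤ), 1 ≤ c → Nat.Coprime c q → IsCoprime j c →
      Plus b M θ ρ j c (X c)) (p : ℕ) (hp : p.Prime) (hpq : Nat.Coprime p q) (k : ℕ) :
    b (p ^ k) * (tp p θ) ^ k = ∑ i ∈ Finset.range (k + 1), (X p * (tp p θ) ^ 2) ^ i := by
  set w : ℂ := X p * (tp p θ) ^ 2 with hw
  have hwn : ‖w‖ = 1 := by
    rw [hw, norm_mul, norm_pow, hXn p hpq, tp_norm p hp.one_le, one_pow, mul_one]
  have h0 := Sp_plus_gen D X hX1 hXm hP p hp hpq 0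
  have h1 := Sp_plus_gen D X hX1 hXm hP p hp hpq 1
  have h2 := Sp_plus_gen D X hX1 hXm hP p hp hpq k
  have h3 := Sp_plus_gen D X hX1 hXm hP p hp hpq (k + 1)
  have h4 := prime_rel_sum D p k hp h0 h1 h2 h3
  rw [← hw] at h4
  have hpc : (p : ℂ) ≠ 0 := by exact_mod_cast hp.ne_zero
  have hp1 : (1 - (p : ℂ)⁻¹) ≠ 0 := by
    intro h
    have h5 : (p : ℂ) = 1 := by
      have h6 : (p : ℂ)⁻¹ = 1 := by linear_combination -h
      rw [inv_eq_one] at h6
      exact h6
    have h6 : p = 1 := by exact_mod_cast h5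
    exact hp.one_lt.ne' h6
  have hwp : (1 - (p : ℂ)⁻¹ * w) ≠ 0 := by
    intro h
    have h5 : w = p := by
      have h6 : (p : ℂ)⁻¹ * w = 1 := by linear_combination -h
      field_simp at h6
      exact h6
    rw [h5, Complex.norm_natCast] at hwn
    have h6 : p = 1 := by exact_mod_cast hwn
    exact hp.one_lt.ne' h6
  have hS : ∀ n : ℕ, w * ∑ i ∈ Finset.range n, w ^ i = ∑ i ∈ Finset.range n, w ^ (i + 1) := by
    intro n
    rw [Finset.mul_sum]
    exact Finset.sum_congr rfl (fun i _ => by ring)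
  have hS1 : ∑ i ∈ Finset.range (k + 1), w ^ i = 1 + ∑ i ∈ Finset.range k, w ^ (i + 1) := by
    rw [Finset.sum_range_succ' (fun i => w ^ i) k, pow_zero]
    ring
  have hS2 := hS (k + 1)
  refine mul_right_cancel₀ (mul_ne_zero (mul_ne_zero D.rho0 hp1) hwp) ?_
  rw [Finset.sum_range_zero, Finset.sum_range_one] at h4
  rw [hS1]
  rw [← hS2, hS1] at h4
  ring_nf at h4 ⊢
  linear_combination h4

/-- sum of the values over a reduced system -/
noncomputable def Sy (q : ℕ) (Y : ℤ → ℂ) (k : ℕ) : ℂ :=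
  ∑ j ∈ (Finset.range (q ^ (k + 1))).filter (fun j => ¬ q ∣ j), Y ((j : ℕ) : ℤ)

theorem Sp_minus_gen (D : Dat b q M θ ρ ηp ηm) (η : ℂ) (Y : ℤ → ℂ)
    (hM : ∀ (c : ℕ) (j : ℤ), 1 ≤ c → IsCoprime j ((q * c : ℕ) : ℤ) →
      Minus b q M θ ρ j (q * c) (η * Y j)) (hp : q.Prime) (k : ℕ) :
    RR (fun y => Sp b q k y) M θ ρ
      (η * (starRingEnd ℂ) ρ * ∑ i ∈ Finset.range k, Sy q Y i * Fm q θ i) := by
  induction k with
  | zero =>
    have h1 := RR.of_plus D.zero
    rw [Finset.sum_range_zero, mul_zero]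
    refine h1.congr (fun y _ => ?_)
    rw [Sp_zero, ofReal_zero, zero_mul, add_zero]
  | succ k ih =>
    have h1 := Bs_minus (b := b) (q := q) (M := M) (θ := θ) (ρ := ρ) q k hp
      (fun j => η * Y j) (fun j hj => by
        have e1 : q ^ (k + 1) = q * q ^ k := by rw [pow_succ, mul_comm]
        rw [e1] at hj ⊢
        exact hM (q ^ k) j (Nat.one_le_pow _ _ hp.one_le) hj)
    have h3 := (ih.add h1).congr (ψ := fun y => Sp b q (k + 1) y) (fun y _ => by
      rw [Sp_succ b q k hp])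
    rw [Finset.sum_range_succ]
    convert h3 using 1
    · ring
    · unfold Sy Fm
      rw [← Finset.mul_sum]
      ring

/-- prime conductor, the values sum to zero -/
theorem ev_q_gen (D : Dat b q M θ ρ ηp ηm) (hp : q.Prime) (η : ℂ) (Y : ℤ → ℂ)
    (hM : ∀ (c : ℕ) (j : ℤ), 1 ≤ c → IsCoprime j ((q * c : ℕ) : ℤ) →
      Minus b q M θ ρ j (q * c) (η * Y j)) (hY : ∀ k : ℕ, Sy q Y k = 0) (k : ℕ) :
    b (q ^ k) * (tp q θ) ^ k = 1 := by
  have h : ∀ k : ℕ, RR (fun y => Sp b q k y) M θ ρ 0 := by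
    intro k
    have h1 := Sp_minus_gen D η Y hM hp k
    simp only [hY, zero_mul, Finset.sum_const_zero, mul_zero] at h1
    exact h1
  have h4 := prime_rel_sum D q k hp (h 0) (h 1) (h k) (h (k + 1))
  have hqc : (q : ℂ) ≠ 0 := by exact_mod_cast hp.ne_zero
  have hqc1 : (q : ℂ) - 1 ≠ 0 := by
    intro h
    have h1 : (q : ℂ) = 1 := by linear_combination h
    have h2 : q = 1 := by exact_mod_cast h1
    exact hp.one_lt.ne' h2
  have h5 : ρ - (q : ℂ)⁻¹ * ρ ≠ 0 := by
    have : ρ - (q : ℂ)⁻¹ * ρ = ρ * ((q - 1) * (q : ℂ)⁻¹) := by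
      field_simp
    rw [this]
    exact mul_ne_zero D.rho0 (mul_ne_zero hqc1 (inv_ne_zero hqc))
  refine mul_right_cancel₀ h5 ?_
  linear_combination h4

/-- prime conductor, constant values: impossible -/
theorem no_q_gen (D : Dat b q M θ ρ ηp ηm) (hp : q.Prime) (η : ℂ) (hηn : ‖η‖ = 1)
    (hM : ∀ (c : ℕ) (j : ℤ), 1 ≤ c → IsCoprime j ((q * c : ℕ) : ℤ) →
      Minus b q M θ ρ j (q * c) η) : False := by
  have hq1 := hp.one_le
  have hqr : (0 : ℝ) < q := by exact_mod_cast hp.pos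
  have hqr1 : (1 : ℝ) < q := by exact_mod_cast hp.one_lt
  have hqc : (q : ℂ) ≠ 0 := by exact_mod_cast hp.ne_zero
  have hqc1 : (q : ℂ) - 1 ≠ 0 := by
    intro h
    have h1 : (q : ℂ) = 1 := by linear_combination h
    have h2 : q = 1 := by exact_mod_cast h1
    exact hp.one_lt.ne' h2
  set S : ℂ := ((Real.sqrt q : ℝ) : ℂ) with hS
  have hSS : S * S = q := by
    rw [hS, ← ofReal_mul, Real.mul_self_sqrt hqr.le, ofReal_natCast]
  have hS0 : S ≠ 0 := by
    intro h
    rw [h, mul_zero] at hSS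
    exact hqc hSS.symm
  set u : ℂ := (tp q θ)⁻¹ with hu
  have hun : u ≠ 0 := inv_ne_zero (tp_ne q hq1 θ)
  set A : ℂ := η * (starRingEnd ℂ) ρ * ((q - 1) * S * (q : ℂ)⁻¹) with hA
  have hηp0 : η ≠ 0 := by
    intro h
    rw [h, norm_zero] at hηn
    exact zero_ne_one hηn
  have hA0 : A ≠ 0 := by
    rw [hA]
    exact mul_ne_zero (mul_ne_zero hηp0 ((map_ne_zero _).2 D.rho0))
      (mul_ne_zero (mul_ne_zero hqc1 hS0) (inv_ne_zero hqc))
  have hW : ∀ k : ℕ, RR (fun y => Sp b q k y) M θ ρ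
      (A * ∑ i ∈ Finset.range k, u ^ (2 * i + 1)) := by
    intro k
    have h1 := Sp_minus_gen D η (fun _ => 1) (by simpa using hM) hp k
    convert h1 using 1
    rw [hA, mul_assoc (η * (starRingEnd ℂ) ρ), Finset.mul_sum]
    congr 1
    refine Finset.sum_congr rfl (fun i _ => ?_)
    have hSy : Sy q (fun _ => 1) i = (q : ℂ) ^ i * (q - 1) := by
      rw [← Sc_one q hp i]
      unfold Sy Sc
      refine Finset.sum_congr rfl (fun j _ => ?_)
      unfold chi
      split_ifs <;> rfl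
    rw [hSy, Fm_eq q hq1 θ i, pow_succ (q : ℂ) i, ← hS, ← hu]
    have : (q : ℂ) ^ i ≠ 0 := pow_ne_zero _ hqc
    field_simp
  by_cases hθ : θ = 0
  · -- `θ = 0`
    have hu1 : u = 1 := by
      rw [hu, hθ]
      unfold tp
      simp
    have ht1 : tp q θ = 1 := by
      rw [hθ]
      unfold tp
      simp
    have hsum : ∀ k : ℕ, ∑ i ∈ Finset.range k, u ^ (2 * i + 1) = k := by
      intro k
      rw [hu1]
      simp
    have hk : ∀ k : ℕ, b (q ^ k) * (ρ * (1 - (q : ℂ)⁻¹) - A * (q : ℂ)⁻¹) =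
        (ρ * (1 - (q : ℂ)⁻¹) - A * (q : ℂ)⁻¹) + k * (A * (1 - (q : ℂ)⁻¹)) := by
      intro k
      have h4 := prime_rel_sum D q k hp (hW 0) (hW 1) (hW k) (hW (k + 1))
      rw [hsum, hsum, hsum, hsum, ht1] at h4
      push_cast at h4
      simp only [inv_one, one_pow] at h4
      linear_combination h4
    -- the unit `v`
    set v : ℂ := η * (starRingEnd ℂ) ρ / ρ with hv
    have hvn : ‖v‖ = 1 := by
      rw [hv, norm_div, norm_mul, hηn, norm_conj, one_mul, div_self]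
      exact (norm_pos_iff.2 D.rho0).ne'
    have hAv : A = ρ * v * ((q - 1) * S * (q : ℂ)⁻¹) := by
      rw [hA, hv]
      have := D.rho0
      field_simp
    have hsq1 : 1 < Real.sqrt q := by
      rw [Real.lt_sqrt (by norm_num)]
      simpa using hqr1
    have hSv : S - v ≠ 0 := by
      intro h
      have h1 : S = v := by linear_combination h
      have h2 : ‖S‖ = 1 := by rw [h1, hvn]
      rw [hS, Complex.norm_real, Real.norm_of_nonneg (Real.sqrt_nonneg _)] at h2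
      linarith
    have hden : ρ * (1 - (q : ℂ)⁻¹) - A * (q : ℂ)⁻¹ = ρ * (q - 1) * (S - v) * (S * q)⁻¹ := by
      rw [hAv, ← hSS]
      field_simp
    have hden0 : ρ * (1 - (q : ℂ)⁻¹) - A * (q : ℂ)⁻¹ ≠ 0 := by
      rw [hden]
      exact mul_ne_zero (mul_ne_zero (mul_ne_zero D.rho0 hqc1) hSv)
        (inv_ne_zero (mul_ne_zero hS0 hqc))
    set c : ℂ := (q - 1) * v / (S - v) with hc
    have hbk : ∀ k : ℕ, b (q ^ k) = 1 + k * c := by
      intro k
      refine mul_right_cancel₀ hden0 ?_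
      rw [hk k]
      have h5 : A * (1 - (q : ℂ)⁻¹) = c * (ρ * (1 - (q : ℂ)⁻¹) - A * (q : ℂ)⁻¹) := by
        rw [hden, hAv, hc, ← hSS]
        field_simp
      rw [h5]
      ring
    refine no_double q hp.one_lt b (D.loc q hp) c hbk ?_
    have hvv : v * (starRingEnd ℂ) v = 1 := by
      rw [Complex.mul_conj, Complex.normSq_eq_norm_sq, hvn]
      norm_num
    have hc1 : c - 1 = S * (v * (S - (starRingEnd ℂ) v)) / (S - v) := by
      rw [hc]
      field_simp
      linear_combination (-v) * hSS + S * hvv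
    have hconjS : (starRingEnd ℂ) S = S := by
      rw [hS, conj_ofReal]
    rw [hc1, norm_div, norm_mul, norm_mul, hvn, one_mul]
    have h7 : ‖S - (starRingEnd ℂ) v‖ = ‖S - v‖ := by
      rw [← norm_conj (S - v), map_sub, hconjS]
    rw [h7, mul_div_assoc, div_self (norm_pos_iff.2 hSv).ne', mul_one, hS, Complex.norm_real,
      Real.norm_of_nonneg (Real.sqrt_nonneg _)]
  · -- `θ ≠ 0`
    obtain ⟨h4, h5⟩ := prime_rel_ne D hθ q 1 hp (hW 0) (hW 1) (hW 1) (hW (1 + 1))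
    rw [pow_one, pow_one] at h4
    rw [pow_one, pow_one, ← hu] at h5
    have hρq : ρ - (q : ℂ)⁻¹ * ρ ≠ 0 := by
      have : ρ - (q : ℂ)⁻¹ * ρ = ρ * ((q - 1) * (q : ℂ)⁻¹) := by
        field_simp
      rw [this]
      exact mul_ne_zero D.rho0 (mul_ne_zero hqc1 (inv_ne_zero hqc))
    have h6 : b q * tp q θ = 1 := by
      refine mul_right_cancel₀ hρq ?_
      linear_combination h4
    have h7 : b q = u := by
      rw [hu]
      exact eq_inv_of_mul_eq_one_left h6
    rw [h7] at h5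
    simp only [Finset.sum_range_zero, Finset.sum_range_succ, mul_zero,
      zero_add, pow_one, mul_one] at h5
    have h8 : A * u * (q - 1) = 0 := by
      field_simp at h5
      linear_combination (-1 : ℂ) * h5
    exact mul_ne_zero (mul_ne_zero hA0 hun) hqc1 h8

end Pool.Agent.H39.Pol
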