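import Mathlib
import Pool.Agent.H39.Pol.EvQ

/-!
# CASE123: conductors `1`, `2`, `3`
-/

set_option autoImplicit false

namespace Pool.Agent.H39.Pol

open Complex Filter Topology Pool.Agent.H11.Selberg Pool.Agent.H11.SC

variable {b : ℕ → ℂ} {q M : ℕ} {θ : ℝ} {ρ ηp ηm : ℂ}

/-- the character at the primes: trivial modulo `1`, odd modulo `3`, `4` -/
noncomputable def chq (q p : ℕ) : ℂ :=
  if q = 1 then 1 else if Nat.Coprime p q then chi q (-1) p else 0

theorem minus_one (D : Dat b q M θ ρ ηp ηm) (hq : 1 ≤ q) : Minus b q M θ ρ 1 q ηp := by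
  have h2 : Plus b M θ ρ ((1 : ℤ).sign * ((1 : ℕ) : ℤ)) (1 : ℤ).natAbs 1 := by
    have h0 := plus_per 0 1 le_rfl 1 1 (plus_zero D)
    simpa using h0
  have h3 := rule1 D hq 1 1 one_ne_zero le_rfl (by simpa using hq) 1 h2
  rw [mul_one] at h3
  simpa using h3

theorem minus_neg_one (D : Dat b q M θ ρ ηp ηm) (hq : 1 ≤ q) : Minus b q M θ ρ (-1) q ηm := by
  have h2 : Plus b M θ ρ ((-1 : ℤ).sign * ((1 : ℕ) : ℤ)) (-1 : ℤ).natAbs 1 := by
    have h0 := plus_per 0 1 le_rfl 1 (-1) (plus_zero D)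
    simpa using h0
  have h3 := rule1 D hq (-1) 1 (by norm_num) le_rfl (by simpa using hq) 1 h2
  rw [mul_one] at h3
  simpa using h3

theorem eta_unit (D : Dat b q M θ ρ ηp ηm) : ηp * (starRingEnd ℂ) ηp = 1 := by
  rw [Complex.mul_conj, Complex.normSq_eq_norm_sq, D.hp]
  norm_num

theorem eta_unit' (D : Dat b q M θ ρ ηp ηm) : ηm * (starRingEnd ℂ) ηm = 1 := by
  rw [Complex.mul_conj, Complex.normSq_eq_norm_sq, D.hm]
  norm_num

theorem case_one (D : Dat b 1 M θ ρ ηp ηm) : θ = 0 ∧ ηm = ηp * 1 := by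
  have h1 := minus_one D le_rfl
  have h2 := minus_neg_one D le_rfl
  have h3 : Minus b 1 M θ ρ 0 1 ηp := by
    have := minus_per 1 1 le_rfl _ (-1) h1
    simpa using this
  have h4 : Minus b 1 M θ ρ 0 1 ηm := by
    have := minus_per (-1) 1 le_rfl _ 1 h2
    simpa using this
  refine ⟨?_, ?_⟩
  · by_contra hθ
    unfold Minus at h3
    have h5 := RR.of_minus h3
    have h6 := RR.of_plus D.zero
    have h7 : RR (fun y => gs b 3 (y + (((0 : ℤ) : ℝ) / ((1 : ℕ) : ℝ) : ℝ) * I)) M θ ρ 0 :=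
      h6.congr (fun y _ => by simp)
    exact D.rho0 (h7.unique_ne hθ h5).1
  · rw [mul_one]
    exact (minus_unique D le_rfl 0 1 le_rfl _ _ h3 h4).symm

theorem case_two (D : Dat b 2 M θ ρ ηp ηm) : ηm = ηp * 1 := by
  have h1 := minus_one D (by norm_num)
  have h2 := minus_neg_one D (by norm_num)
  have h4 : Minus b 2 M θ ρ 1 2 ηm := by
    have := minus_per (-1) 2 (by norm_num) _ 1 h2
    norm_num at this
    exact this
  rw [mul_one]
  exact (minus_unique D (by norm_num) 1 2 (by norm_num) _ _ h1 h4).symm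

theorem case_three (D : Dat b 3 M θ ρ ηp ηm) : ∃ e : ℂ, (e = 1 ∨ e = -1) ∧ ηm = ηp * e := by
  have h1 := minus_one D (by norm_num)
  have h2 := minus_neg_one D (by norm_num)
  have h3 : Minus b 3 M θ ρ 2 3 ηm := by
    have := minus_per (-1) 3 (by norm_num) _ 1 h2
    norm_num at this
    exact this
  have h4 : Minus b 3 M θ ρ (-2) 3 ηp := by
    have := minus_per 1 3 (by norm_num) _ (-1) h1
    norm_num at this
    exact this
  have h5 := rule2 D (by norm_num) 1 2 one_ne_zero (by norm_num) (by norm_num) ηm (by simpa using h3)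
  have h6 := rule2 D (by norm_num) (-1) 2 (by norm_num) (by norm_num) (by norm_num) ηp
    (by simpa using h4)
  have h7 : Plus b M θ ρ 1 2 ((if (0 : ℤ) < -1 then ηp else ηm) * (starRingEnd ℂ) ηp) := by
    have := plus_per (-1) 2 (by norm_num) _ 1 h6
    norm_num at this
    norm_num
    exact this
  have h8 := plus_unique D 1 2 (by norm_num) _ _ h5 h7
  rw [if_pos (by norm_num), if_neg (by norm_num)] at h8
  have u1 := eta_unit D
  have u2 := eta_unit' D
  refine ⟨ηm * (starRingEnd ℂ) ηp, ?_, ?_⟩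
  · have h9 : (ηm * (starRingEnd ℂ) ηp) * (ηm * (starRingEnd ℂ) ηp) = 1 := by
      calc (ηm * (starRingEnd ℂ) ηp) * (ηm * (starRingEnd ℂ) ηp) =
          (ηp * (starRingEnd ℂ) ηm) * (ηm * (starRingEnd ℂ) ηp) := by rw [h8]
        _ = (ηp * (starRingEnd ℂ) ηp) * (ηm * (starRingEnd ℂ) ηm) := by ring
        _ = 1 := by rw [u1, u2, one_mul]
    exact mul_self_eq_one_iff.1 h9
  · linear_combination (-ηm) * u1

theorem concl_one (D : Dat b 1 M θ ρ ηp ηm) : θ = 0 ∧ ∀ p : ℕ, p.Prime → ∀ k : ℕ,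
    b (p ^ k) * (tp p θ) ^ k = ∑ i ∈ Finset.range (k + 1), (chq 1 p * (tp p θ) ^ 2) ^ i := by
  obtain ⟨hθ, hη⟩ := case_one D
  have hQ : QE 1 1 := Or.inl ⟨rfl, rfl⟩
  have hc := calc_main D hQ hη
  refine ⟨hθ, fun p hp k => ?_⟩
  have h1 := ev_p D hQ hc.1 p hp (Nat.coprime_one_right p) k
  have h2 : chi 1 1 (p : ℤ) = chq 1 p := by
    unfold chi chq
    rw [if_pos rfl]
    split_ifs <;> rfl
  rw [h2] at h1
  exact h1

theorem concl_two (D : Dat b 2 M θ ρ ηp ηm) : False := by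
  have hη := case_two D
  have hQ : QE 2 1 := Or.inr (Or.inl ⟨rfl, rfl⟩)
  have hc := calc_main D hQ hη
  exact no_q_plus D Nat.prime_two hc.2

theorem concl_three (D : Dat b 3 M θ ρ ηp ηm) : ∀ p : ℕ, p.Prime → ∀ k : ℕ,
    b (p ^ k) * (tp p θ) ^ k = ∑ i ∈ Finset.range (k + 1), (chq 3 p * (tp p θ) ^ 2) ^ i := by
  obtain ⟨e, he, hη⟩ := case_three D
  have hQ : QE 3 e := Or.inr (Or.inr (Or.inl ⟨rfl, he⟩))
  have hc := calc_main D hQ hη
  rcases he with rfl | rfl
  · exact (no_q_plus D Nat.prime_three hc.2).elim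
  · intro p hp k
    by_cases h3 : Nat.Coprime p 3
    · have h1 := ev_p D hQ hc.1 p hp h3 k
      have h2 : chi 3 (-1) (p : ℤ) = chq 3 p := by
        unfold chq
        rw [if_neg (by norm_num), if_pos h3]
      rw [h2] at h1
      exact h1
    · have hp3 : p = 3 := by
        by_contra hne
        exact h3 ((Nat.coprime_primes hp Nat.prime_three).2 hne)
      subst hp3
      have h2 : chq 3 3 = 0 := by
        unfold chq
        rw [if_neg (by norm_num), if_neg h3]
      rw [h2, ev_three D hc.2 k, Finset.sum_range_succ']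
      simp

end Pool.Agent.H39.Pol
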