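import Mathlib
import Pool.Agent.H39.Pol.Case123

/-!
# FOUR1: conductor `4`, explicit values at some cusps (`v = ηp conj ηm`) and the identity at `2`
-/

set_option autoImplicit false

namespace Pool.Agent.H39.Pol

open Complex Filter Topology Pool.Agent.H11.Selberg Pool.Agent.H11.SC

variable {b : ℕ → ℂ} {q M : ℕ} {θ : ℝ} {ρ ηp ηm : ℂ}

private theorem sg2 : Int.sign 2 = 1 := rfl
private theorem sg3 : Int.sign 3 = 1 := rfl
private theorem sg5 : Int.sign 5 = 1 := rfl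
private theorem sg7 : Int.sign 7 = 1 := rfl

theorem val34 (D : Dat b 4 M θ ρ ηp ηm) : Minus b 4 M θ ρ 3 4 ηm := by
  have := minus_per (-1) 4 (by norm_num) _ 1 (minus_neg_one D (by norm_num))
  norm_num at this
  exact this

theorem val14' (D : Dat b 4 M θ ρ ηp ηm) : Minus b 4 M θ ρ (-3) 4 ηp := by
  have := minus_per 1 4 (by norm_num) _ (-1) (minus_one D (by norm_num))
  norm_num at this
  exact this

theorem plus13 (D : Dat b 4 M θ ρ ηp ηm) : Plus b M θ ρ 1 3 (ηp * (starRingEnd ℂ) ηm) := by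
  have h := rule2 D (by norm_num) 1 3 one_ne_zero (by norm_num) (by norm_num) ηm
    (by simpa using val34 D)
  rw [if_pos (by norm_num)] at h
  exact h

theorem plus_neg13 (D : Dat b 4 M θ ρ ηp ηm) : Plus b M θ ρ (-1) 3 (ηm * (starRingEnd ℂ) ηp) := by
  have h := rule2 D (by norm_num) (-1) 3 (by norm_num) (by norm_num) (by norm_num) ηp
    (by simpa using val14' D)
  rw [if_neg (by norm_num)] at h
  exact h

theorem plus23 (D : Dat b 4 M θ ρ ηp ηm) : Plus b M θ ρ 2 3 (ηm * (starRingEnd ℂ) ηp) := by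
  have := plus_per (-1) 3 (by norm_num) _ 1 (plus_neg13 D)
  norm_num at this
  exact this

theorem plus_neg23 (D : Dat b 4 M θ ρ ηp ηm) : Plus b M θ ρ (-2) 3 (ηp * (starRingEnd ℂ) ηm) := by
  have := plus_per 1 3 (by norm_num) _ (-1) (plus13 D)
  norm_num at this
  exact this

theorem plus_neg43 (D : Dat b 4 M θ ρ ηp ηm) : Plus b M θ ρ (-4) 3 (ηm * (starRingEnd ℂ) ηp) := by
  have := plus_per (-1) 3 (by norm_num) _ (-1) (plus_neg13 D)
  norm_num at this
  exact this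

theorem val18 (D : Dat b 4 M θ ρ ηp ηm) : Minus b 4 M θ ρ 1 8 ηp := by
  have h0 := plus_per 0 1 le_rfl 1 2 (plus_zero D)
  have h := rule1 D (by norm_num) 1 2 one_ne_zero (by norm_num) (by norm_num) 1 (by simpa using h0)
  rw [if_pos (by norm_num)] at h
  simpa using h

theorem val78 (D : Dat b 4 M θ ρ ηp ηm) : Minus b 4 M θ ρ 7 8 ηm := by
  have h0 := plus_per 0 1 le_rfl 1 (-2) (plus_zero D)
  have h := rule1 D (by norm_num) (-1) 2 (by norm_num) (by norm_num) (by norm_num) 1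
    (by simpa using h0)
  rw [if_neg (by norm_num)] at h
  have := minus_per (-1) (4 * 2) (by norm_num) _ 1 h
  norm_num at this
  exact this

theorem val38 (D : Dat b 4 M θ ρ ηp ηm) :
    Minus b 4 M θ ρ 3 8 (ηp * (starRingEnd ℂ) (ηm * (starRingEnd ℂ) ηp)) := by
  have h := rule1 D (by norm_num) 3 2 (by norm_num) (by norm_num) (by norm_num) _
    (by simpa [sg3] using plus23 D)
  rw [if_pos (by norm_num)] at h
  norm_num at h
  norm_num
  exact h

theorem val58' (D : Dat b 4 M θ ρ ηp ηm) :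
    Minus b 4 M θ ρ (-3) 8 (ηm * (starRingEnd ℂ) (ηp * (starRingEnd ℂ) ηm)) := by
  have h := rule1 D (by norm_num) (-3) 2 (by norm_num) (by norm_num) (by norm_num) _
    (by simpa [sg3] using plus_neg23 D)
  rw [if_neg (by norm_num)] at h
  norm_num at h
  norm_num
  exact h

theorem val58 (D : Dat b 4 M θ ρ ηp ηm) :
    Minus b 4 M θ ρ 5 8 (ηm * (starRingEnd ℂ) (ηp * (starRingEnd ℂ) ηm)) := by
  have := minus_per (-3) 8 (by norm_num) _ 1 (val58' D)
  norm_num at this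
  norm_num
  exact this

theorem val1_16 (D : Dat b 4 M θ ρ ηp ηm) : Minus b 4 M θ ρ 1 16 ηp := by
  have h0 := plus_per 0 1 le_rfl 1 4 (plus_zero D)
  have h := rule1 D (by norm_num) 1 4 one_ne_zero (by norm_num) (by norm_num) 1 (by simpa using h0)
  rw [if_pos (by norm_num)] at h
  simpa using h

theorem plus45 (D : Dat b 4 M θ ρ ηp ηm) : Plus b M θ ρ 4 5 1 := by
  have h0 : Minus b 4 M θ ρ (-5) 4 ηm := by
    have := minus_per 3 4 (by norm_num) _ (-2) (val34 D)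
    norm_num at this
    exact this
  have h := rule2 D (by norm_num) (-1) 5 (by norm_num) (by norm_num) (by norm_num) ηm
    (by simpa using h0)
  rw [if_neg (by norm_num), eta_unit' D] at h
  have := plus_per (-1) 5 (by norm_num) _ 1 h
  norm_num at this
  exact this

theorem val5_16 (D : Dat b 4 M θ ρ ηp ηm) : Minus b 4 M θ ρ 5 16 ηp := by
  have h := rule1 D (by norm_num) 5 4 (by norm_num) (by norm_num) (by norm_num) _
    (by simpa [sg5] using plus45 D)
  rw [if_pos (by norm_num)] at h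
  norm_num at h
  exact h

theorem plus25 (D : Dat b 4 M θ ρ ηp ηm) :
    Plus b M θ ρ 2 5 (ηp * (starRingEnd ℂ) (ηm * (starRingEnd ℂ) (ηp * (starRingEnd ℂ) ηm))) := by
  have h := rule2 D (by norm_num) 2 5 (by norm_num) (by norm_num) (by norm_num) _
    (by simpa [sg2] using val58 D)
  rw [if_pos (by norm_num)] at h
  norm_num at h
  norm_num
  exact h

theorem val7_12 (D : Dat b 4 M θ ρ ηp ηm) :
    Minus b 4 M θ ρ 7 12 (ηm * (starRingEnd ℂ) (ηp * (starRingEnd ℂ) (ηm * (starRingEnd ℂ)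
      (ηp * (starRingEnd ℂ) ηm)))) := by
  have h0 : Plus b M θ ρ (-3) 5 (ηp * (starRingEnd ℂ) (ηm * (starRingEnd ℂ)
      (ηp * (starRingEnd ℂ) ηm))) := by
    have := plus_per 2 5 (by norm_num) _ (-1) (plus25 D)
    norm_num at this
    norm_num
    exact this
  have h := rule1 D (by norm_num) (-5) 3 (by norm_num) (by norm_num) (by norm_num) _
    (by simpa [sg5] using h0)
  rw [if_neg (by norm_num)] at h
  have := minus_per (-5) (4 * 3) (by norm_num) _ 1 h
  norm_num at this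
  norm_num
  exact this

theorem plus_neg47 (D : Dat b 4 M θ ρ ηp ηm) :
    Plus b M θ ρ (-4) 7 (ηp * (starRingEnd ℂ) (ηm * (starRingEnd ℂ) (ηp * (starRingEnd ℂ)
      (ηm * (starRingEnd ℂ) (ηp * (starRingEnd ℂ) ηm))))) := by
  have h := rule2 D (by norm_num) 3 7 (by norm_num) (by norm_num) (by norm_num) _
    (by simpa [sg3] using val7_12 D)
  rw [if_pos (by norm_num)] at h
  have := plus_per 3 7 (by norm_num) _ (-1) h
  norm_num at this
  norm_num
  exact this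

theorem val9_16 (D : Dat b 4 M θ ρ ηp ηm) :
    Minus b 4 M θ ρ 9 16 (ηm * (starRingEnd ℂ) (ηp * (starRingEnd ℂ) (ηm * (starRingEnd ℂ)
      (ηp * (starRingEnd ℂ) (ηm * (starRingEnd ℂ) (ηp * (starRingEnd ℂ) ηm)))))) := by
  have h := rule1 D (by norm_num) (-7) 4 (by norm_num) (by norm_num) (by norm_num) _
    (by simpa [sg7] using plus_neg47 D)
  rw [if_neg (by norm_num)] at h
  have := minus_per (-7) (4 * 4) (by norm_num) _ 1 h
  norm_num at this
  norm_num
  exact this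

theorem val13_16 (D : Dat b 4 M θ ρ ηp ηm) :
    Minus b 4 M θ ρ 13 16 (ηm * (starRingEnd ℂ) (ηm * (starRingEnd ℂ) ηp)) := by
  have h := rule1 D (by norm_num) (-3) 4 (by norm_num) (by norm_num) (by norm_num) _
    (by simpa [sg3] using plus_neg43 D)
  rw [if_neg (by norm_num)] at h
  have := minus_per (-3) (4 * 4) (by norm_num) _ 1 h
  norm_num at this
  norm_num
  exact this

/-- the identity at `2` -/
theorem id4 (D : Dat b q M θ ρ ηp ηm) (ξ : ℂ) (hξ : 0 < ξ.re) :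
    16 * b 2 * (gs b 3 (2 * ξ) - gs b 3 (2 * ξ + ((1 / 2 : ℝ) : ℂ) * I)) =
      gs b 3 ξ + gs b 3 (ξ + ((1 / 2 : ℝ) : ℂ) * I) - gs b 3 (ξ + ((1 / 4 : ℝ) : ℂ) * I) -
        gs b 3 (ξ + ((3 / 4 : ℝ) : ℂ) * I) := by
  have h := prime_id b (D.ram 1 one_pos) D.mul 2 1 Nat.prime_two ξ hξ
  have e0 : ∀ ζ : ℂ, Sp b 2 0 ζ = gs b 3 ζ := fun ζ => Sp_zero b 2 ζ
  have e1 : ∀ ζ : ℂ, Sp b 2 1 ζ = gs b 3 ζ + gs b 3 (ζ + ((1 / 2 : ℝ) : ℂ) * I) := by
    intro ζ
    unfold Sp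
    rw [pow_one, Finset.sum_range_succ, Finset.sum_range_one]
    congr 2
    · push_cast
      ring
    · push_cast
      ring
  have e2 : ∀ ζ : ℂ, Sp b 2 2 ζ = gs b 3 ζ + gs b 3 (ζ + ((1 / 4 : ℝ) : ℂ) * I) +
      gs b 3 (ζ + ((1 / 2 : ℝ) : ℂ) * I) + gs b 3 (ζ + ((3 / 4 : ℝ) : ℂ) * I) := by
    intro ζ
    unfold Sp
    have : (2 : ℕ) ^ 2 = 4 := by norm_num
    rw [this, Finset.sum_range_succ, Finset.sum_range_succ, Finset.sum_range_succ,
      Finset.sum_range_one]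
    have a0 : (((((0 : ℕ) : ℝ) / ((2 : ℕ) : ℝ) ^ 2 : ℝ) : ℂ) * I) = 0 := by norm_num
    have a1 : (((1 : ℕ) : ℝ) / ((2 : ℕ) : ℝ) ^ 2 : ℝ) = 1 / 4 := by norm_num
    have a2 : (((2 : ℕ) : ℝ) / ((2 : ℕ) : ℝ) ^ 2 : ℝ) = 1 / 2 := by norm_num
    have a3 : (((3 : ℕ) : ℝ) / ((2 : ℕ) : ℝ) ^ 2 : ℝ) = 3 / 4 := by norm_num
    rw [a0, a1, a2, a3, add_zero]
  rw [show (1 + 1 : ℕ) = 2 from rfl, e0, e1, e1, e2] at h
  have e3 : ((((2 : ℕ) : ℝ) ^ 1 : ℝ) : ℂ) * ξ = 2 * ξ := by push_cast; ring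
  rw [e3] at h
  norm_num at h
  norm_num
  linear_combination 4 * h

end Pool.Agent.H39.Pol
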