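import Mathlib
import Pool.Agent.H39.Pol.Four1

/-!
# FOUR2: conductor `4`, `ηp ≠ ηm` implies `ηm = -ηp`, and then the odd character modulo `4`
-/

set_option autoImplicit false

namespace Pool.Agent.H39.Pol

open Complex Filter Topology Pool.Agent.H11.Selberg Pool.Agent.H11.SC

variable {b : ℕ → ℂ} {M : ℕ} {θ : ℝ} {ρ ηp ηm : ℂ}

/-- the radial asymptotics at a cusp of type minus, conductor `4` -/
theorem rr_minus {j : ℤ} {k : ℕ} {x : ℂ} (h : Minus b 4 M θ ρ j (2 ^ (k + 1)) x) :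
    RR (fun y => gs b 3 (y + (((j : ℝ) / (2 : ℝ) ^ (k + 1) : ℝ) : ℂ) * I)) M θ 0
      ((starRingEnd ℂ) ρ * x * ((2 : ℂ) ^ k)⁻¹ * ((tp 2 θ)⁻¹) ^ (2 * k)) := by
  unfold Minus at h
  have h1 := RR.of_minus h
  have e1 : (((2 ^ (k + 1) : ℕ) : ℝ)) = (2 : ℝ) ^ (k + 1) := by push_cast; rfl
  have e2 : Real.sqrt ((4 : ℕ) : ℝ) = 2 := by
    have : ((4 : ℕ) : ℝ) = 2 ^ 2 := by norm_num
    rw [this, Real.sqrt_sq (by norm_num)]
  have e3 : (((2 : ℝ) ^ (k + 1)) ^ 2 / ((4 : ℕ) : ℝ)) = ((2 : ℕ) : ℝ) ^ (2 * k) := by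
    have e7 : ((2 : ℝ) ^ (k + 1)) ^ 2 = 4 * (2 : ℝ) ^ (2 * k) := by
      rw [← pow_mul, show (k + 1) * 2 = 2 * k + 2 by ring, pow_add]
      ring
    rw [e7]
    push_cast
    ring
  have e5 : (tp 2 θ)⁻¹ = ((2 : ℕ) : ℂ) ^ ((θ : ℂ) * I) := by
    unfold tp
    rw [cpow_neg, inv_inv]
  have e6 : ((2 / (2 : ℝ) ^ (k + 1) : ℝ) : ℂ) = ((2 : ℂ) ^ k)⁻¹ := by
    push_cast
    rw [pow_succ]
    field_simp
  rw [e1, e2, e3, pow_cpow_nat 2 (2 * k) (by norm_num), ← e5, e6] at h1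
  exact h1

theorem two_minus (θ : ℝ) : ((2 : ℝ) : ℂ) ^ (-(4 - θ * I) : ℂ) = (tp 2 θ)⁻¹ / 16 := by
  have h := pow_cpow_minus 2 1 (by norm_num) θ
  rw [pow_one] at h
  have e1 : (((2 : ℕ) : ℝ) : ℂ) = ((2 : ℝ) : ℂ) := by push_cast; rfl
  rw [e1] at h
  rw [h]
  push_cast
  ring

theorem two_plus (θ : ℝ) : ((2 : ℝ) : ℂ) ^ (-(4 + θ * I) : ℂ) = (tp 2 θ) / 16 := by
  have h := pow_cpow_plus 2 1 (by norm_num) θ
  rw [pow_one] at h
  have e1 : (((2 : ℕ) : ℝ) : ℂ) = ((2 : ℝ) : ℂ) := by push_cast; rfl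
  rw [e1] at h
  rw [h]
  push_cast
  ring

/-- the identity at `2` at the point `β`, in terms of radial asymptotics -/
theorem eq_at (D : Dat b 4 M θ ρ ηp ηm) (β : ℝ) {v1 v2 v3 v4 v5 v6 w1 w2 w3 w4 w5 w6 : ℂ}
    (h1 : RR (fun y => gs b 3 (y + ((2 * β : ℝ) : ℂ) * I)) M θ v1 w1)
    (h2 : RR (fun y => gs b 3 (y + ((2 * β + 1 / 2 : ℝ) : ℂ) * I)) M θ v2 w2)
    (h3 : RR (fun y => gs b 3 (y + (β : ℂ) * I)) M θ v3 w3)
    (h4 : RR (fun y => gs b 3 (y + ((β + 1 / 2 : ℝ) : ℂ) * I)) M θ v4 w4)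
    (h5 : RR (fun y => gs b 3 (y + ((β + 1 / 4 : ℝ) : ℂ) * I)) M θ v5 w5)
    (h6 : RR (fun y => gs b 3 (y + ((β + 3 / 4 : ℝ) : ℂ) * I)) M θ v6 w6) :
    (θ ≠ 0 → b 2 * tp 2 θ * (v1 - v2) = v3 + v4 - v5 - v6 ∧
      b 2 * (tp 2 θ)⁻¹ * (w1 - w2) = w3 + w4 - w5 - w6) ∧
    b 2 * tp 2 θ * (v1 - v2) + b 2 * (tp 2 θ)⁻¹ * (w1 - w2) =
      (v3 + v4 - v5 - v6) + (w3 + w4 - w5 - w6) := by
  have hl := ((h1.sub h2).scale 2 two_pos).smul (16 * b 2)
  have hr := (((h3.add h4).sub h5).sub h6)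
  have hl2 := hl.congr (ψ := fun y : ℝ => gs b 3 (y + (β : ℂ) * I) +
      gs b 3 (y + ((β + 1 / 2 : ℝ) : ℂ) * I) - gs b 3 (y + ((β + 1 / 4 : ℝ) : ℂ) * I) -
      gs b 3 (y + ((β + 3 / 4 : ℝ) : ℂ) * I)) (fun y hy => by
    have h7 := id4 D ((y : ℂ) + β * I) (by simpa using hy)
    have a1 : ((2 * y : ℝ) : ℂ) + ((2 * β : ℝ) : ℂ) * I = 2 * ((y : ℂ) + β * I) := by
      push_cast; ring
    have a2 : ((2 * y : ℝ) : ℂ) + ((2 * β + 1 / 2 : ℝ) : ℂ) * I =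
        2 * ((y : ℂ) + β * I) + ((1 / 2 : ℝ) : ℂ) * I := by push_cast; ring
    have a3 : (y : ℂ) + ((β + 1 / 2 : ℝ) : ℂ) * I = (y : ℂ) + β * I + ((1 / 2 : ℝ) : ℂ) * I := by
      push_cast; ring
    have a4 : (y : ℂ) + ((β + 1 / 4 : ℝ) : ℂ) * I = (y : ℂ) + β * I + ((1 / 4 : ℝ) : ℂ) * I := by
      push_cast; ring
    have a5 : (y : ℂ) + ((β + 3 / 4 : ℝ) : ℂ) * I = (y : ℂ) + β * I + ((3 / 4 : ℝ) : ℂ) * I := by
      push_cast; ring
    rw [a1, a2, a3, a4, a5]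
    exact h7)
  rw [two_plus, two_minus] at hl2
  constructor
  · intro hθ
    obtain ⟨h8, h9⟩ := hl2.unique_ne hθ hr
    constructor
    · linear_combination h8
    · linear_combination h9
  · have h8 := hl2.unique_sum hr
    linear_combination h8

/-- the equation at `1/8` -/
theorem eq8 (D : Dat b 4 M θ ρ ηp ηm) :
    2 * b 2 * (ηp - ηm) = (tp 2 θ)⁻¹ * (ηp + ηm * (starRingEnd ℂ) (ηp * (starRingEnd ℂ) ηm) -
      ηp * (starRingEnd ℂ) (ηm * (starRingEnd ℂ) ηp) - ηm) := by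
  have h1 := rr_minus (k := 1) (by simpa using minus_one D (by norm_num))
  have h2 := rr_minus (k := 1) (j := 3) (by simpa using val34 D)
  have h3 := rr_minus (k := 2) (j := 1) (by norm_num; simpa using val18 D)
  have h4 := rr_minus (k := 2) (j := 5) (by norm_num; simpa using val58 D)
  have h5 := rr_minus (k := 2) (j := 3) (by norm_num; simpa using val38 D)
  have h6 := rr_minus (k := 2) (j := 7) (by norm_num; simpa using val78 D)
  have b1 : (2 * (1 / 8) : ℝ) = (((1 : ℤ) : ℝ)) / 2 ^ (1 + 1) := by norm_num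
  have b2' : (2 * (1 / 8) + 1 / 2 : ℝ) = (((3 : ℤ) : ℝ)) / 2 ^ (1 + 1) := by norm_num
  have b3 : (1 / 8 : ℝ) = (((1 : ℤ) : ℝ)) / 2 ^ (2 + 1) := by norm_num
  have b4 : (1 / 8 + 1 / 2 : ℝ) = (((5 : ℤ) : ℝ)) / 2 ^ (2 + 1) := by norm_num
  have b5 : (1 / 8 + 1 / 4 : ℝ) = (((3 : ℤ) : ℝ)) / 2 ^ (2 + 1) := by norm_num
  have b6 : (1 / 8 + 3 / 4 : ℝ) = (((7 : ℤ) : ℝ)) / 2 ^ (2 + 1) := by norm_num
  have h := (eq_at D (1 / 8) (by rw [b1]; exact h1) (by rw [b2']; exact h2)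
    (by rw [b3]; exact h3) (by rw [b4]; exact h4) (by rw [b5]; exact h5)
    (by rw [b6]; exact h6)).2
  have hρ : (starRingEnd ℂ) ρ ≠ 0 := (map_ne_zero _).2 D.rho0
  have hu : (tp 2 θ)⁻¹ ≠ 0 := inv_ne_zero (tp_ne 2 (by norm_num) θ)
  simp only [map_mul, conj_conj] at h ⊢
  refine mul_left_cancel₀ (mul_ne_zero hρ (pow_ne_zero 3 hu)) ?_
  ring_nf at h ⊢
  linear_combination 4 * h

/-- the equation at `1/16` -/
theorem eq16 (D : Dat b 4 M θ ρ ηp ηm) :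
    2 * b 2 * (ηp - ηm * (starRingEnd ℂ) (ηp * (starRingEnd ℂ) ηm)) = (tp 2 θ)⁻¹ *
      (ηm * (starRingEnd ℂ) (ηp * (starRingEnd ℂ) (ηm * (starRingEnd ℂ)
        (ηp * (starRingEnd ℂ) (ηm * (starRingEnd ℂ) (ηp * (starRingEnd ℂ) ηm))))) -
      ηm * (starRingEnd ℂ) (ηm * (starRingEnd ℂ) ηp)) := by
  have h1 := rr_minus (k := 2) (j := 1) (by norm_num; simpa using val18 D)
  have h2 := rr_minus (k := 2) (j := 5) (by norm_num; simpa using val58 D)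
  have h3 := rr_minus (k := 3) (j := 1) (by norm_num; simpa using val1_16 D)
  have h4 := rr_minus (k := 3) (j := 9) (by norm_num; simpa using val9_16 D)
  have h5 := rr_minus (k := 3) (j := 5) (by norm_num; simpa using val5_16 D)
  have h6 := rr_minus (k := 3) (j := 13) (by norm_num; simpa using val13_16 D)
  have b1 : (2 * (1 / 16) : ℝ) = (((1 : ℤ) : ℝ)) / 2 ^ (2 + 1) := by norm_num
  have b2' : (2 * (1 / 16) + 1 / 2 : ℝ) = (((5 : ℤ) : ℝ)) / 2 ^ (2 + 1) := by norm_num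
  have b3 : (1 / 16 : ℝ) = (((1 : ℤ) : ℝ)) / 2 ^ (3 + 1) := by norm_num
  have b4 : (1 / 16 + 1 / 2 : ℝ) = (((9 : ℤ) : ℝ)) / 2 ^ (3 + 1) := by norm_num
  have b5 : (1 / 16 + 1 / 4 : ℝ) = (((5 : ℤ) : ℝ)) / 2 ^ (3 + 1) := by norm_num
  have b6 : (1 / 16 + 3 / 4 : ℝ) = (((13 : ℤ) : ℝ)) / 2 ^ (3 + 1) := by norm_num
  have h := (eq_at D (1 / 16) (by rw [b1]; exact h1) (by rw [b2']; exact h2)
    (by rw [b3]; exact h3) (by rw [b4]; exact h4) (by rw [b5]; exact h5)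
    (by rw [b6]; exact h6)).2
  have hρ : (starRingEnd ℂ) ρ ≠ 0 := (map_ne_zero _).2 D.rho0
  have hu : (tp 2 θ)⁻¹ ≠ 0 := inv_ne_zero (tp_ne 2 (by norm_num) θ)
  simp only [map_mul, conj_conj] at h ⊢
  refine mul_left_cancel₀ (mul_ne_zero hρ (pow_ne_zero 5 hu)) ?_
  ring_nf at h ⊢
  linear_combination 8 * h

/-- the equations at `0` -/
theorem eq0 (D : Dat b 4 M θ ρ ηp ηm) {U U' : ℂ} (hg : RR (gh b) M θ U U') :
    (θ ≠ 0 → b 2 * tp 2 θ * (ρ - U) = ρ + U ∧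
      b 2 * (tp 2 θ)⁻¹ * (-U') = U' - (starRingEnd ℂ) ρ * (ηp + ηm) / 2 * ((tp 2 θ)⁻¹) ^ 2) ∧
    b 2 * tp 2 θ * (ρ - U) + b 2 * (tp 2 θ)⁻¹ * (-U') =
      ρ + U + (U' - (starRingEnd ℂ) ρ * (ηp + ηm) / 2 * ((tp 2 θ)⁻¹) ^ 2) := by
  have h5 := rr_minus (k := 1) (by simpa using minus_one D (by norm_num))
  have h6 := rr_minus (k := 1) (j := 3) (by simpa using val34 D)
  have h1 := RR.of_plus D.zero
  have b1 : (2 * 0 : ℝ) = 0 := by norm_num
  have b2' : (2 * 0 + 1 / 2 : ℝ) = 1 / 2 := by norm_num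
  have b4 : (0 + 1 / 2 : ℝ) = 1 / 2 := by norm_num
  have b5 : (0 + 1 / 4 : ℝ) = (((1 : ℤ) : ℝ)) / 2 ^ (1 + 1) := by norm_num
  have b6 : (0 + 3 / 4 : ℝ) = (((3 : ℤ) : ℝ)) / 2 ^ (1 + 1) := by norm_num
  have h := (eq_at D 0 (by rw [b1]; exact h1) (by rw [b2']; exact hg) h1
    (by rw [b4]; exact hg) (by rw [b5]; exact h5) (by rw [b6]; exact h6))
  constructor
  · intro hθ
    obtain ⟨a1, a2⟩ := h.1 hθ
    constructor
    · linear_combination a1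
    · linear_combination a2
  · linear_combination h.2

/-- `ηp ≠ ηm`: the function at the cusp `1/2` is small -/
theorem gh_small (D : Dat b 4 M θ ρ ηp ηm) (hne : ηp ≠ ηm) : RR (gh b) M θ 0 0 := by
  obtain ⟨C, hC⟩ := D.half rfl
  have hd : 0 < ‖ηp - ηm‖ := norm_pos_iff.2 (sub_ne_zero.2 hne)
  refine RR.small (C := 2 * C / ‖ηp - ηm‖) (fun y hy hy1 => ?_)
  obtain ⟨h1, h2⟩ := hC y hy hy1
  have h3 : (ηp - ηm) * (starRingEnd ℂ) (gh b y) =
      (gh b y - ηm * (starRingEnd ℂ) (gh b y)) - (gh b y - ηp * (starRingEnd ℂ) (gh b y)) := by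
    ring
  have h4 : ‖ηp - ηm‖ * ‖gh b y‖ ≤ 2 * C * y ^ (-(13 / 4) : ℝ) := by
    rw [← norm_conj (gh b y), ← norm_mul, h3]
    refine (norm_sub_le _ _).trans ?_
    linarith
  rw [div_mul_eq_mul_div, le_div_iff₀ hd]
  linarith

theorem four_ne (D : Dat b 4 M θ ρ ηp ηm) (hne : ηp ≠ ηm) : ηm = ηp * (-1) := by
  have u1 := eta_unit D
  have u2 := eta_unit' D
  have hg := gh_small D hne
  have e0 := eq0 D hg
  have e8 := eq8 D
  have e16 := eq16 D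
  by_contra hcon
  have hcon' : ηp + ηm ≠ 0 := by
    intro h
    apply hcon
    linear_combination h
  have hρ : (starRingEnd ℂ) ρ ≠ 0 := (map_ne_zero _).2 D.rho0
  have hu : (tp 2 θ)⁻¹ ≠ 0 := inv_ne_zero (tp_ne 2 (by norm_num) θ)
  have hθ : θ = 0 := by
    by_contra hθ
    have h1 := (e0.1 hθ).2
    rw [neg_zero, mul_zero, zero_sub] at h1
    have h2 : (starRingEnd ℂ) ρ * (ηp + ηm) * ((tp 2 θ)⁻¹) ^ 2 = 0 := by
      linear_combination 2 * h1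
    exact mul_ne_zero (mul_ne_zero hρ hcon') (pow_ne_zero 2 hu) h2
  have ht1 : tp 2 θ = 1 := by
    rw [hθ]
    unfold tp
    simp
  rw [ht1] at e0 e8 e16
  simp only [inv_one, one_pow, mul_one, one_mul, neg_zero, mul_zero, add_zero, sub_zero,
    zero_sub] at e0 e8 e16
  have e0' := e0.2
  simp only [map_mul, conj_conj] at e8 e16
  -- names
  set p := ηp
  set m := ηm
  set p' := (starRingEnd ℂ) ηp with hp'
  set m' := (starRingEnd ℂ) ηm with hm'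
  -- `v = p m'`, `v⁻¹ = m p'`
  have hpp : p * p' = 1 := u1
  have hmm : m * m' = 1 := u2
  set v := p * m' with hv
  set w := m * p' with hw
  have hvw : v * w = 1 := by
    rw [hv, hw]
    linear_combination (m * m') * hpp + hmm
  have hmv : m = p * w := by
    rw [hw]
    linear_combination (-m) * hpp
  have hp0 : p ≠ 0 := by
    intro h
    rw [h, zero_mul] at hpp
    exact zero_ne_one hpp
  have f8 : 2 * b 2 * (1 - w) = 1 + w ^ 2 - v - w := by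
    refine mul_left_cancel₀ hp0 ?_
    have a1 : m * (p' * m) = p * w ^ 2 := by rw [hw]; linear_combination (-(m ^ 2 * p')) * hpp
    have a2 : p * (m' * p) = p * v := by rw [hv]; ring
    rw [a1, a2] at e8
    linear_combination e8 + (2 * b 2 - 1) * hmv
  have f16 : 2 * b 2 * (1 - w ^ 2) = w ^ 4 - 1 := by
    refine mul_left_cancel₀ hp0 ?_
    have a1 : m * (p' * m) = p * w ^ 2 := by rw [hw]; linear_combination (-(m ^ 2 * p')) * hpp
    have a3 : m * (p' * (m * (p' * (m * (p' * m))))) = p * w ^ 4 := by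
      rw [hw]
      linear_combination (-(m ^ 4 * p' ^ 3)) * hpp
    have a4 : m * (m' * p) = p := by linear_combination p * hmm
    rw [a3, a1, a4] at e16
    linear_combination e16
  have hw1 : w ≠ 1 := by
    intro h
    apply hne
    rw [hmv, h, mul_one]
  have hw2 : w ≠ -1 := by
    intro h
    apply hcon'
    rw [hmv, h]
    ring
  have g8 : 2 * b 2 = -(v + w) := by
    have h1 : (1 - w) ≠ 0 := sub_ne_zero.2 hw1.symm
    refine mul_right_cancel₀ h1 ?_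
    linear_combination f8 - hvw
  have g16 : 2 * b 2 = -(1 + w ^ 2) := by
    have h1 : (1 - w ^ 2) ≠ 0 := by
      have : 1 - w ^ 2 = (1 - w) * (1 + w) := by ring
      rw [this]
      refine mul_ne_zero (sub_ne_zero.2 hw1.symm) ?_
      intro h
      apply hw2
      linear_combination h
    refine mul_right_cancel₀ h1 ?_
    linear_combination f16
  have h1 : (w ^ 2 + 1) * (w - 1) = 0 := by
    linear_combination w * g16 - w * g8 + hvw
  have h2 : w ^ 2 + 1 = 0 := by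
    rcases mul_eq_zero.1 h1 with h | h
    · exact h
    · exact absurd (sub_eq_zero.1 h) hw1
  have hb2 : b 2 = 0 := by
    have : 2 * b 2 = 0 := by linear_combination g16 - h2
    rcases mul_eq_zero.1 this with h | h
    · norm_num at h
    · exact h
  rw [hb2, zero_mul] at e0'
  -- `2 ρ = conj ρ (p + m)`
  have h3 : 2 * ρ = (starRingEnd ℂ) ρ * (p + m) := by linear_combination (-2) * e0'
  have h4 := congrArg (starRingEnd ℂ) h3
  rw [map_mul, map_mul, map_add, conj_conj, Complex.conj_ofNat 2, ← hp', ← hm'] at h4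
  have h5 : (p + m) * (p' + m') = 4 := by
    refine mul_left_cancel₀ (mul_ne_zero D.rho0 hρ) ?_
    linear_combination (-(2 : ℂ) * (starRingEnd ℂ) ρ) * h3 - ((starRingEnd ℂ) ρ * (p + m)) * h4
  have h6 : v + w = 2 := by
    rw [hv, hw]
    linear_combination h5 - hpp - hmm
  have h7 : v + w = 0 := by
    linear_combination g8 - 2 * hb2
  rw [h7] at h6
  norm_num at h6

end Pool.Agent.H39.Pol
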