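import Mathlib
import Pool.Agent.H39.Pol.Four2

/-!
# FOUR3: conductor `4`, odd character
-/

set_option autoImplicit false

namespace Pool.Agent.H39.Pol

open Complex Filter Topology Pool.Agent.H11.Selberg Pool.Agent.H11.SC

variable {b : ℕ → ℂ} {M : ℕ} {θ : ℝ} {ρ ηp ηm : ℂ}

theorem Bs_two_one (b : ℕ → ℂ) (ξ : ℂ) : Bs b 2 1 ξ = gs b 3 (ξ + ((1 / 2 : ℝ) : ℂ) * I) := by
  unfold Bs
  have h : (Finset.range (2 ^ 1)).filter (fun j => ¬ 2 ∣ j) = {1} := by decide
  rw [h, Finset.sum_singleton]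
  norm_num

theorem Sc_four (k : ℕ) :
    ∑ j ∈ (Finset.range (2 ^ (k + 2))).filter (fun j => ¬ 2 ∣ j), chi 4 (-1) ((j : ℕ) : ℤ) = 0 := by
  have h : ∀ n : ℕ, ∑ j ∈ (Finset.range (4 * n)).filter (fun j => ¬ 2 ∣ j),
      chi 4 (-1) ((j : ℕ) : ℤ) = 0 := by
    intro n
    induction n with
    | zero => simp
    | succ n ih =>
      have e1 : 4 * (n + 1) = 4 * n + 1 + 1 + 1 + 1 := by ring
      rw [e1, Finset.range_add_one, Finset.range_add_one, Finset.range_add_one,
        Finset.range_add_one, Finset.filter_insert, Finset.filter_insert, Finset.filter_insert,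
        Finset.filter_insert]
      have a0 : ¬ ¬ 2 ∣ 4 * n := by rw [not_not]; omega
      have a1 : ¬ 2 ∣ 4 * n + 1 := by omega
      have a2 : ¬ ¬ 2 ∣ 4 * n + 1 + 1 := by rw [not_not]; omega
      have a3 : ¬ 2 ∣ 4 * n + 1 + 1 + 1 := by omega
      rw [if_pos a3, if_neg a2, if_pos a1, if_neg a0, Finset.sum_insert, Finset.sum_insert, ih]
      · have c1 : chi 4 (-1) ((4 * n + 1 : ℕ) : ℤ) = 1 := by
          unfold chi
          rw [if_pos]
          push_cast
          omega
        have c2 : chi 4 (-1) ((4 * n + 1 + 1 + 1 : ℕ) : ℤ) = -1 := by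
          unfold chi
          rw [if_neg]
          push_cast
          omega
        rw [c1, c2]
        ring
      · simp
      · simp
  have h1 := h (2 ^ k)
  have e1 : 2 ^ (k + 2) = 4 * 2 ^ k := by rw [pow_add]; ring
  rw [e1]
  exact h1

theorem concl_four_odd (D : Dat b 4 M θ ρ ηp ηm) (hη : ηm = ηp * (-1)) (hg : RR (gh b) M θ 0 0) :
    ∀ p : ℕ, p.Prime → ∀ k : ℕ,
    b (p ^ k) * (tp p θ) ^ k = ∑ i ∈ Finset.range (k + 1), (chq 4 p * (tp p θ) ^ 2) ^ i := by
  have hQ : QE 4 (-1) := Or.inr (Or.inr (Or.inr ⟨rfl, Or.inr rfl⟩))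
  have hc := calc_main D hQ hη
  intro p hp k
  by_cases h2 : p = 2
  · subst h2
    have hchq : chq 4 2 = 0 := by
      unfold chq
      rw [if_neg (by norm_num), if_neg (by decide)]
    have hall : ∀ k : ℕ, RR (fun y => Sp b 2 k y) M θ ρ 0 := by
      intro k
      have h0 : RR (fun y => Sp b 2 0 y) M θ ρ 0 :=
        (RR.of_plus D.zero).congr (fun y _ => by
          rw [Sp_zero, ofReal_zero, zero_mul, add_zero])
      have h1 : RR (fun y => Sp b 2 1 y) M θ ρ 0 := by
        have h3 := (h0.add hg).congr (ψ := fun y => Sp b 2 1 y) (fun y _ => by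
          rw [Sp_succ b 2 0 Nat.prime_two, zero_add, Bs_two_one]
          rfl)
        simpa using h3
      induction k with
      | zero => exact h0
      | succ k ih =>
        cases k with
        | zero => exact h1
        | succ k =>
          have h3 := Bs_minus (b := b) (q := 4) (M := M) (θ := θ) (ρ := ρ) 2 (k + 1) hp
            (fun j => ηp * chi 4 (-1) j) (fun j hj => by
              have e1 : 2 ^ (k + 1 + 1) = 4 * 2 ^ k := by rw [pow_succ, pow_succ]; ring
              rw [e1] at hj ⊢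
              exact hc.2 (2 ^ k) j (Nat.one_le_pow _ _ (by norm_num)) hj)
          rw [← Finset.mul_sum, Sc_four, mul_zero, zero_mul] at h3
          have h4 := (ih.add h3).congr (ψ := fun y => Sp b 2 (k + 1 + 1) y) (fun y _ => by
            rw [Sp_succ b 2 (k + 1) hp])
          simpa using h4
    have h4 := prime_rel_sum D 2 k hp (hall 0) (hall 1) (hall k) (hall (k + 1))
    have h5 : (ρ - ((2 : ℕ) : ℂ)⁻¹ * ρ) ≠ 0 := by
      have : (ρ - ((2 : ℕ) : ℂ)⁻¹ * ρ) = (1 / 2) * ρ := by push_cast; ring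
      rw [this]
      exact mul_ne_zero (by norm_num) D.rho0
    have h6 : b (2 ^ k) * (tp 2 θ) ^ k = 1 := by
      refine mul_right_cancel₀ h5 ?_
      linear_combination h4
    rw [hchq, h6, Finset.sum_range_succ']
    simp
  · have hcop : Nat.Coprime p 4 := by
      have h3 : Nat.Coprime p 2 := (Nat.coprime_primes hp Nat.prime_two).2 h2
      exact Nat.Coprime.pow_right 2 h3
    have h1 := ev_p D hQ hc.1 p hp hcop k
    have h2 : chi 4 (-1) (p : ℤ) = chq 4 p := by
      unfold chq
      rw [if_neg (by norm_num), if_pos hcop]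
    rw [h2] at h1
    exact h1

end Pool.Agent.H39.Pol
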