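import Mathlib
import Pool.Agent.H39.Pol.Four3

/-!
# FOUR4: conductor `4`, `ηp = ηm` is impossible: the function at the cusp `1/2`
-/

set_option autoImplicit false

namespace Pool.Agent.H39.Pol

open Complex Filter Topology Pool.Agent.H11.Selberg Pool.Agent.H11.SC

variable {b : ℕ → ℂ} {M : ℕ} {θ : ℝ} {ρ ηp ηm : ℂ}

/-- uniform bound on the real axis -/
theorem axis_bound {q : ℕ} (D : Dat b q M θ ρ ηp ηm) : ∃ K : ℝ, 0 ≤ K ∧ ∀ x : ℝ, 0 < x →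
    ‖gs b 3 x‖ * x ^ 4 ≤ K * (1 + max 0 (Real.log (1 / x))) ^ M := by
  have h1 := RR.of_plus D.zero
  unfold RR at h1
  have h2 := (Metric.tendsto_nhds.1 h1) 1 one_pos
  have h3 : ∀ᶠ y : ℝ in 𝓝[>] 0, 1 ≤ Real.log (1 / y) := tendsto_log_inv.eventually_ge_atTop 1
  have h4 := h2.and h3
  rw [eventually_nhdsWithin_iff, Metric.eventually_nhds_iff] at h4
  obtain ⟨δ, hδ, h5⟩ := h4
  obtain ⟨C, hC⟩ := gs_top b 3 (by norm_num) 1 (D.ram 1 one_pos) (δ / 2) (by positivity)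
  -- `x^4 e^(-πx)` is bounded
  have hpi := Real.pi_pos
  have h6 : ∀ x : ℝ, 0 < x → x ^ 4 * Real.exp (-(Real.pi * x)) ≤ 24 := by
    intro x hx
    have h7 := Real.pow_div_factorial_le_exp (x) hx.le 4
    have h8 : x ^ 4 ≤ 24 * Real.exp x := by
      have : ((Nat.factorial 4 : ℕ) : ℝ) = 24 := by norm_num [Nat.factorial]
      rw [this, div_le_iff₀ (by norm_num)] at h7
      linarith
    have h9 : Real.exp (-(Real.pi * x)) ≤ Real.exp (-x) := by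
      apply Real.exp_le_exp.2
      have : 1 ≤ Real.pi := by linarith [Real.pi_gt_three]
      nlinarith
    calc x ^ 4 * Real.exp (-(Real.pi * x)) ≤ (24 * Real.exp x) * Real.exp (-x) :=
          mul_le_mul h8 h9 (Real.exp_pos _).le (by positivity)
      _ = 24 := by rw [mul_assoc, ← Real.exp_add]; simp
  refine ⟨(1 + ‖ρ‖) + |C| * 24, by positivity, fun x hx => ?_⟩
  have hone : 1 ≤ (1 + max 0 (Real.log (1 / x))) ^ M :=
    one_le_pow₀ (by linarith [le_max_left 0 (Real.log (1 / x))])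
  by_cases hxδ : x < δ
  · obtain ⟨h7, h8⟩ := h5 (by rw [Real.dist_eq, sub_zero, abs_of_pos hx]; exact hxδ) hx
    rw [dist_zero_right] at h7
    have hL : 0 < Real.log (1 / x) := by linarith
    have hLM : 0 < (Real.log (1 / x)) ^ M := pow_pos hL M
    have e1 : (x : ℂ) ^ (-((θ : ℂ) * I)) = (x : ℂ) ^ (((-θ : ℝ) : ℂ) * I) := by
      congr 1
      push_cast
      ring
    have h9 : ‖gs b 3 (x + ((0 : ℝ) : ℂ) * I) * (x : ℂ) ^ 4 /
        (((Real.log (1 / x)) ^ M : ℝ) : ℂ)‖ ≤ 1 + ‖ρ‖ := by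
      have e2 : gs b 3 (x + ((0 : ℝ) : ℂ) * I) * (x : ℂ) ^ 4 / (((Real.log (1 / x)) ^ M : ℝ) : ℂ) =
          (gs b 3 (x + ((0 : ℝ) : ℂ) * I) * (x : ℂ) ^ 4 / (((Real.log (1 / x)) ^ M : ℝ) : ℂ) -
            ρ * (x : ℂ) ^ (-((θ : ℂ) * I)) - 0 * (x : ℂ) ^ ((θ : ℂ) * I)) +
            ρ * (x : ℂ) ^ (-((θ : ℂ) * I)) := by ring
      rw [e2]
      refine (norm_add_le _ _).trans ?_
      have h10 : ‖ρ * (x : ℂ) ^ (-((θ : ℂ) * I))‖ = ‖ρ‖ := by
        rw [norm_mul, e1, norm_cpow_I x hx (-θ), mul_one]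
      rw [h10]
      linarith
    rw [ofReal_zero, zero_mul, add_zero, norm_div, norm_mul, norm_pow, Complex.norm_real,
      Complex.norm_real, Real.norm_of_nonneg hx.le, Real.norm_of_nonneg hLM.le,
      div_le_iff₀ hLM] at h9
    have h11 : (Real.log (1 / x)) ^ M ≤ (1 + max 0 (Real.log (1 / x))) ^ M := by
      apply pow_le_pow_left₀ hL.le
      have := le_max_right 0 (Real.log (1 / x))
      linarith
    calc ‖gs b 3 x‖ * x ^ 4 ≤ (1 + ‖ρ‖) * (Real.log (1 / x)) ^ M := h9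
      _ ≤ (1 + ‖ρ‖) * (1 + max 0 (Real.log (1 / x))) ^ M := by gcongr
      _ ≤ ((1 + ‖ρ‖) + |C| * 24) * (1 + max 0 (Real.log (1 / x))) ^ M := by
          apply mul_le_mul_of_nonneg_right _ (by positivity)
          have : 0 ≤ |C| * 24 := by positivity
          linarith
  · have hxδ' : δ / 2 ≤ x := by linarith
    have h7 := hC (x : ℂ) (by simpa using hxδ')
    rw [ofReal_re] at h7
    have h8 : ‖gs b 3 x‖ ≤ |C| * Real.exp (-(Real.pi * x)) := by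
      refine h7.trans ?_
      gcongr
      exact le_abs_self C
    calc ‖gs b 3 x‖ * x ^ 4 ≤ (|C| * Real.exp (-(Real.pi * x))) * x ^ 4 := by gcongr
      _ = |C| * (x ^ 4 * Real.exp (-(Real.pi * x))) := by ring
      _ ≤ |C| * 24 := by
          gcongr
          exact h6 x hx
      _ ≤ ((1 + ‖ρ‖) + |C| * 24) * 1 := by
          have := norm_nonneg ρ
          linarith
      _ ≤ ((1 + ‖ρ‖) + |C| * 24) * (1 + max 0 (Real.log (1 / x))) ^ M := by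
          apply mul_le_mul_of_nonneg_left hone
          positivity

/-- the function at the cusp `1/2` -/
theorem two_rr (D : Dat b 4 M θ ρ ηp ηm) : ∃ U : ℂ, RR (gh b) M θ U 0 := by
  obtain ⟨c, hc⟩ := D.two
  obtain ⟨K, hK, hbd⟩ := axis_bound D
  have ha : ∃ C : ℝ, ∀ n : ℕ, 1 ≤ n → ‖b n‖ ≤ C * (n : ℝ) ^ (1 : ℝ) := D.ram 1 one_pos
  have hf : RR (fun y => gs b 3 y) M θ ρ 0 := (RR.of_plus D.zero).congr (fun y _ => by
    rw [ofReal_zero, zero_mul, add_zero])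
  -- the terms
  set T : ℕ → ℝ → ℂ := fun k y => c (k + 1) * 8 ^ (k + 1) * gs b 3 ((2 ^ (k + 1) * y : ℝ) : ℂ)
    with hT
  set V : ℕ → ℂ := fun k => c (k + 1) * 8 ^ (k + 1) *
    (ρ * (((2 : ℝ) ^ (k + 1) : ℝ) : ℂ) ^ (-(4 + θ * I) : ℂ)) with hV
  have hterm : ∀ k : ℕ, RR (T k) M θ (V k) 0 := by
    intro k
    have h1 := (hf.scale ((2 : ℝ) ^ (k + 1)) (by positivity)).smul (c (k + 1) * 8 ^ (k + 1))
    rw [zero_mul, mul_zero] at h1
    exact h1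
  -- the bound
  have hsum : Summable (fun k : ℕ => K * 2 ^ M * (‖c (k + 1)‖ *
      (2 : ℝ) ^ (-(((k + 1 : ℕ) : ℝ) / 2)))) :=
    (((summable_nat_add_iff 1).2 hc.sum).mul_left _)
  have hpow : ∀ k : ℕ, (8 : ℝ) ^ (k + 1) * (((2 : ℝ) ^ (k + 1)) ^ 4)⁻¹ ≤
      (2 : ℝ) ^ (-(((k + 1 : ℕ) : ℝ) / 2)) := by
    intro k
    have e1 : (8 : ℝ) ^ (k + 1) * (((2 : ℝ) ^ (k + 1)) ^ 4)⁻¹ =
        (2 : ℝ) ^ (-(((k + 1 : ℕ) : ℝ))) := by
      rw [Real.rpow_neg (by norm_num), Real.rpow_natCast]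
      have : (8 : ℝ) ^ (k + 1) = ((2 : ℝ) ^ (k + 1)) ^ 3 := by
        rw [← pow_mul, mul_comm, pow_mul]
        norm_num
      rw [this]
      have h0 : (2 : ℝ) ^ (k + 1) ≠ 0 := by positivity
      field_simp
    rw [e1]
    apply Real.rpow_le_rpow_of_exponent_le (by norm_num)
    have : (0 : ℝ) ≤ ((k + 1 : ℕ) : ℝ) := Nat.cast_nonneg _
    linarith
  have hdom : ∀ᶠ y : ℝ in 𝓝[>] 0, ∀ k : ℕ,
      ‖T k y * (y : ℂ) ^ 4 / (((Real.log (1 / y)) ^ M : ℝ) : ℂ) * (y : ℂ) ^ ((θ : ℂ) * I)‖ ≤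
      K * 2 ^ M * (‖c (k + 1)‖ * (2 : ℝ) ^ (-(((k + 1 : ℕ) : ℝ) / 2))) := by
    have h3 : ∀ᶠ y : ℝ in 𝓝[>] 0, 1 ≤ Real.log (1 / y) := tendsto_log_inv.eventually_ge_atTop 1
    filter_upwards [h3, self_mem_nhdsWithin] with y hy1 hy k
    have hy0 : 0 < y := hy
    set L := Real.log (1 / y) with hL
    have hLM : 0 < L ^ M := by positivity
    set x : ℝ := 2 ^ (k + 1) * y with hx
    have hx0 : 0 < x := by positivity
    have hyx : y ≤ x := by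
      rw [hx]
      have : (1 : ℝ) ≤ 2 ^ (k + 1) := one_le_pow₀ (by norm_num)
      nlinarith
    have hb := hbd x hx0
    have hlog : Real.log (1 / x) ≤ L := by
      rw [hL, one_div, one_div, Real.log_inv, Real.log_inv]
      have := Real.log_le_log hy0 hyx
      linarith
    have h5 : (1 + max 0 (Real.log (1 / x))) ^ M ≤ 2 ^ M * L ^ M := by
      rw [← mul_pow]
      apply pow_le_pow_left₀ (by positivity)
      have : max 0 (Real.log (1 / x)) ≤ L := max_le (by linarith) hlog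
      linarith
    have e1 : y ^ 4 = x ^ 4 * (((2 : ℝ) ^ (k + 1)) ^ 4)⁻¹ := by
      rw [hx]
      field_simp
    rw [norm_mul, norm_cpow_I y hy0 θ, mul_one, norm_div, norm_mul, norm_pow, Complex.norm_real,
      Complex.norm_real, Real.norm_of_nonneg hy0.le, Real.norm_of_nonneg hLM.le, div_le_iff₀ hLM]
    have e2 : ‖T k y‖ = ‖c (k + 1)‖ * 8 ^ (k + 1) * ‖gs b 3 (x : ℂ)‖ := by
      rw [hT]
      simp only
      rw [norm_mul, norm_mul, norm_pow]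
      norm_num [hx]
    rw [e2, e1]
    have hc0 := norm_nonneg (c (k + 1))
    calc ‖c (k + 1)‖ * 8 ^ (k + 1) * ‖gs b 3 (x : ℂ)‖ * (x ^ 4 * (((2 : ℝ) ^ (k + 1)) ^ 4)⁻¹)
        = ‖c (k + 1)‖ * (8 ^ (k + 1) * (((2 : ℝ) ^ (k + 1)) ^ 4)⁻¹) *
          (‖gs b 3 (x : ℂ)‖ * x ^ 4) := by ring
      _ ≤ ‖c (k + 1)‖ * ((2 : ℝ) ^ (-(((k + 1 : ℕ) : ℝ) / 2))) * (K * (2 ^ M * L ^ M)) := by
          have h6 := hpow k
          have h7 : ‖gs b 3 (x : ℂ)‖ * x ^ 4 ≤ K * (2 ^ M * L ^ M) :=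
            hb.trans (mul_le_mul_of_nonneg_left h5 hK)
          gcongr
      _ = K * 2 ^ M * (‖c (k + 1)‖ * (2 : ℝ) ^ (-(((k + 1 : ℕ) : ℝ) / 2))) * L ^ M := by ring
  have hlim : ∀ k : ℕ, Tendsto (fun y : ℝ => T k y * (y : ℂ) ^ 4 /
      (((Real.log (1 / y)) ^ M : ℝ) : ℂ) * (y : ℂ) ^ ((θ : ℂ) * I)) (𝓝[>] 0) (𝓝 (V k)) := by
    intro k
    have h1 := hterm k
    unfold RR at h1
    rw [tendsto_iff_norm_sub_tendsto_zero]
    rw [tendsto_zero_iff_norm_tendsto_zero] at h1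
    refine h1.congr' ?_
    filter_upwards [self_mem_nhdsWithin] with y hy
    have hy0 : 0 < y := hy
    have e2 := cpow_I_mul y hy0 θ
    have e3 : T k y * (y : ℂ) ^ 4 / (((Real.log (1 / y)) ^ M : ℝ) : ℂ) * (y : ℂ) ^ ((θ : ℂ) * I) -
        V k = (y : ℂ) ^ ((θ : ℂ) * I) * (T k y * (y : ℂ) ^ 4 / (((Real.log (1 / y)) ^ M : ℝ) : ℂ) -
          V k * (y : ℂ) ^ (-((θ : ℂ) * I)) - 0 * (y : ℂ) ^ ((θ : ℂ) * I)) := by
      linear_combination (V k) * e2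
    rw [e3, norm_mul, norm_cpow_I y hy0 θ, one_mul]
  have hS := tendsto_tsum_of_dominated_convergence hsum hlim hdom
  -- the sum
  have hRRsum : RR (fun y => ∑' k : ℕ, T k y) M θ (∑' k : ℕ, V k) 0 := by
    unfold RR
    rw [tendsto_iff_norm_sub_tendsto_zero] at hS
    rw [tendsto_zero_iff_norm_tendsto_zero]
    refine hS.congr' ?_
    filter_upwards [self_mem_nhdsWithin] with y hy
    have hy0 : 0 < y := hy
    have e2 := cpow_I_mul y hy0 θ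
    have e4 : ∑' k : ℕ, T k y * (y : ℂ) ^ 4 / (((Real.log (1 / y)) ^ M : ℝ) : ℂ) *
        (y : ℂ) ^ ((θ : ℂ) * I) = (∑' k : ℕ, T k y) * (y : ℂ) ^ 4 /
        (((Real.log (1 / y)) ^ M : ℝ) : ℂ) * (y : ℂ) ^ ((θ : ℂ) * I) := by
      rw [tsum_mul_right, tsum_div_const, tsum_mul_right]
    have e5 : ‖(y : ℂ) ^ (-((θ : ℂ) * I))‖ = 1 := by
      have := norm_cpow_I y hy0 (-θ)
      have e6 : (((-θ : ℝ) : ℂ) * I) = -((θ : ℂ) * I) := by push_cast; ring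
      rw [e6] at this
      exact this
    rw [e4]
    have e3 : (∑' k : ℕ, T k y) * (y : ℂ) ^ 4 / (((Real.log (1 / y)) ^ M : ℝ) : ℂ) -
        (∑' k : ℕ, V k) * (y : ℂ) ^ (-((θ : ℂ) * I)) - 0 * (y : ℂ) ^ ((θ : ℂ) * I) =
        (y : ℂ) ^ (-((θ : ℂ) * I)) * ((∑' k : ℕ, T k y) * (y : ℂ) ^ 4 /
        (((Real.log (1 / y)) ^ M : ℝ) : ℂ) * (y : ℂ) ^ ((θ : ℂ) * I) - ∑' k : ℕ, V k) := by
      linear_combination (-((∑' k : ℕ, T k y) * (y : ℂ) ^ 4 /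
        (((Real.log (1 / y)) ^ M : ℝ) : ℂ))) * e2
    rw [e3, norm_mul, e5, one_mul]
  refine ⟨(-1) * ρ - 2 * ∑' k : ℕ, V k, ?_⟩
  have hfin := ((hf.smul (-1)).sub (hRRsum.smul 2)).congr (ψ := gh b) (fun y hy => by
    have h1 := two_rel b c hc ha (I * (y : ℂ)) (by simpa using hy)
    have e1 : -(I * (I * (y : ℂ) + 1 / 2)) = (y : ℂ) + ((1 / 2 : ℝ) : ℂ) * I - I := by
      push_cast
      linear_combination (-(y : ℂ)) * I_mul_I
    have e2 : -(I * (I * (y : ℂ))) = (y : ℂ) := by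
      linear_combination (-(y : ℂ)) * I_mul_I
    have e3 : gs b 3 ((y : ℂ) + ((1 / 2 : ℝ) : ℂ) * I - I) = gh b y := by
      unfold gh
      have := gs_per b 3 ((y : ℂ) + ((1 / 2 : ℝ) : ℂ) * I - I)
      rw [sub_add_cancel] at this
      exact this.symm
    rw [e1, e2, e3] at h1
    rw [h1, neg_one_mul]
    congr 2
    refine tsum_congr (fun k => ?_)
    rw [hT]
    simp only
    congr 2
    push_cast
    linear_combination (2 ^ (k + 1) * (y : ℂ)) * I_mul_I)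
  rw [mul_zero, mul_zero, sub_zero] at hfin
  exact hfin

end Pool.Agent.H39.Pol
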