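import Mathlib
import Pool.Agent.H39.Pol.Four4

/-!
# FOUR5: conductor `4`, `ηp = ηm` is impossible; conclusion for conductor `4`
-/

set_option autoImplicit false

namespace Pool.Agent.H39.Pol

open Complex Filter Topology Pool.Agent.H11.Selberg Pool.Agent.H11.SC

variable {b : ℕ → ℂ} {M : ℕ} {θ : ℝ} {ρ ηp ηm : ℂ}

/-- a quadratic polynomial `1 + βX + γX²` with `|γ| = 2` has a root in `|X|² ≤ 1/2` -/
theorem small_root (β γ : ℂ) (hγ : ‖γ‖ = 2) : ∃ X : ℂ, ‖X‖ ≤ (2 : ℝ) ^ (-(1 / 2) : ℝ) ∧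
    1 + β * X + γ * X ^ 2 = 0 := by
  have hγ0 : γ ≠ 0 := by
    intro h
    rw [h, norm_zero] at hγ
    norm_num at hγ
  obtain ⟨s, hs⟩ := IsAlgClosed.exists_pow_nat_eq (β ^ 2 - 4 * γ) (n := 2) (by norm_num)
  set X1 : ℂ := (-β + s) / (2 * γ) with hX1
  set X2 : ℂ := (-β - s) / (2 * γ) with hX2
  have h1 : 1 + β * X1 + γ * X1 ^ 2 = 0 := by
    rw [hX1]
    field_simp
    linear_combination hs
  have h2 : 1 + β * X2 + γ * X2 ^ 2 = 0 := by
    rw [hX2]
    field_simp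
    linear_combination hs
  have h3 : X1 * X2 = γ⁻¹ := by
    rw [hX1, hX2]
    field_simp
    linear_combination (-1 : ℂ) * hs
  have h4 : ‖X1‖ * ‖X2‖ = 1 / 2 := by
    rw [← norm_mul, h3, norm_inv, hγ]
    norm_num
  have hr : (2 : ℝ) ^ (-(1 / 2) : ℝ) * (2 : ℝ) ^ (-(1 / 2) : ℝ) = 1 / 2 := by
    rw [← Real.rpow_add (by norm_num)]
    norm_num
  have hr0 : 0 < (2 : ℝ) ^ (-(1 / 2) : ℝ) := Real.rpow_pos_of_pos (by norm_num) _
  by_cases h5 : ‖X1‖ ≤ (2 : ℝ) ^ (-(1 / 2) : ℝ)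
  · exact ⟨X1, h5, h1⟩
  · refine ⟨X2, ?_, h2⟩
    push Not at h5
    by_contra h6
    push Not at h6
    have h7 : (2 : ℝ) ^ (-(1 / 2) : ℝ) * (2 : ℝ) ^ (-(1 / 2) : ℝ) < ‖X1‖ * ‖X2‖ :=
      mul_lt_mul'' h5 h6 hr0.le hr0.le
    rw [hr, h4] at h7
    exact lt_irrefl _ h7

theorem half_conj (D : Dat b 4 M θ ρ ηp ηm) (hθ : θ = 0) {U : ℂ} (hU : RR (gh b) M θ U 0) :
    U = ηp * (starRingEnd ℂ) U := by
  obtain ⟨C, hC⟩ := D.half rfl
  have h1 : RR (fun y => gh b y - ηp * (starRingEnd ℂ) (gh b y)) M θ 0 0 :=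
    RR.small (fun y hy hy1 => (hC y hy hy1).1)
  have h2 : RR (fun y => (starRingEnd ℂ) (gh b y)) M θ ((starRingEnd ℂ) U) 0 := by
    unfold RR at hU ⊢
    have h3 := (Complex.continuous_conj.tendsto (0 : ℂ)).comp hU
    rw [map_zero] at h3
    refine h3.congr (fun y => ?_)
    rw [hθ]
    simp
  have h3 := hU.sub (h2.smul ηp)
  have h4 := h3.unique_sum h1
  linear_combination h4

/-- the sums over the cusps with denominator `2^k` when the character is trivial -/
theorem Sp_four (D : Dat b 4 M θ ρ ηp ηm) (hη : ηm = ηp * 1) (hθ : θ = 0) {U : ℂ}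
    (hU : RR (gh b) M θ U 0) (k : ℕ) :
    RR (fun y => Sp b 2 (k + 1) y) M θ (ρ + U) (k * (ηp * (starRingEnd ℂ) ρ)) := by
  have hQ : QE 4 1 := Or.inr (Or.inr (Or.inr ⟨rfl, Or.inl rfl⟩))
  have hc := calc_main D hQ hη
  induction k with
  | zero =>
    have h0 : RR (fun y => Sp b 2 0 y) M θ ρ 0 :=
      (RR.of_plus D.zero).congr (fun y _ => by
        rw [Sp_zero, ofReal_zero, zero_mul, add_zero])
    have h3 := (h0.add hU).congr (ψ := fun y => Sp b 2 (0 + 1) y) (fun y _ => by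
      rw [Sp_succ b 2 0 Nat.prime_two, zero_add, Bs_two_one]
      rfl)
    simpa using h3
  | succ k ih =>
    have h3 := Bs_minus (b := b) (q := 4) (M := M) (θ := θ) (ρ := ρ) 2 (k + 1) Nat.prime_two
      (fun j => ηp * chi 4 1 j) (fun j hj => by
        have e1 : 2 ^ (k + 1 + 1) = 4 * 2 ^ k := by rw [pow_succ, pow_succ]; ring
        rw [e1] at hj ⊢
        exact hc.2 (2 ^ k) j (Nat.one_le_pow _ _ (by norm_num)) hj)
    have h1 : ∀ j : ℤ, chi 4 1 j = 1 := by
      intro j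
      unfold chi
      split_ifs <;> rfl
    simp only [h1, mul_one] at h3
    rw [Finset.sum_const, card_Bs 2 (k + 1) Nat.prime_two, nsmul_eq_mul, hθ] at h3
    have e2 : Real.sqrt ((4 : ℕ) : ℝ) = 2 := by
      have : ((4 : ℕ) : ℝ) = 2 ^ 2 := by norm_num
      rw [this, Real.sqrt_sq (by norm_num)]
    rw [e2] at h3
    rw [hθ] at ih ⊢
    have h4 := (ih.add h3).congr (ψ := fun y => Sp b 2 (k + 1 + 1) y) (fun y _ => by
      rw [Sp_succ b 2 (k + 1) Nat.prime_two])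
    convert h4 using 1
    · ring
    · push_cast
      simp only [zero_mul, cpow_zero, mul_one]
      have : (2 : ℂ) ^ (k + 1 + 1) = 2 * 2 ^ (k + 1) := by ring
      rw [this]
      have h5 : (2 : ℂ) ^ (k + 1) ≠ 0 := pow_ne_zero _ (by norm_num)
      field_simp

theorem no_four_even (D : Dat b 4 M θ ρ ηp ηm) (hη : ηm = ηp) : False := by
  obtain ⟨U, hU⟩ := two_rr D
  have hηp0 : ηp ≠ 0 := by
    intro h
    have := D.hp
    rw [h, norm_zero] at this
    exact zero_ne_one this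
  have hρ : (starRingEnd ℂ) ρ ≠ 0 := (map_ne_zero _).2 D.rho0
  have hu : (tp 2 θ)⁻¹ ≠ 0 := inv_ne_zero (tp_ne 2 (by norm_num) θ)
  have hθ : θ = 0 := by
    by_contra hθ
    have h1 := ((eq0 D hU).1 hθ).2
    rw [neg_zero, mul_zero, zero_sub, hη] at h1
    have h2 : (starRingEnd ℂ) ρ * ηp * ((tp 2 θ)⁻¹) ^ 2 = 0 := by
      linear_combination h1
    exact mul_ne_zero (mul_ne_zero hρ hηp0) (pow_ne_zero 2 hu) h2
  have hUc := half_conj D hθ hU
  set w : ℂ := ηp * (starRingEnd ℂ) ρ with hw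
  have hw0 : w ≠ 0 := mul_ne_zero hηp0 hρ
  have ht1 : tp 2 θ = 1 := by
    rw [hθ]
    unfold tp
    simp
  have hS := Sp_four D (by rw [hη, mul_one]) hθ hU
  have h0 : RR (fun y => Sp b 2 0 y) M θ ρ 0 :=
    (RR.of_plus D.zero).congr (fun y _ => by
      rw [Sp_zero, ofReal_zero, zero_mul, add_zero])
  have hk : ∀ k : ℕ, b (2 ^ (k + 1)) * (ρ - U) = ρ + U + ((k : ℂ) - 1) * w := by
    intro k
    have h4 := prime_rel_sum D 2 (k + 1) Nat.prime_two h0 (hS 0) (hS k) (hS (k + 1))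
    rw [ht1] at h4
    push_cast at h4
    simp only [inv_one, one_pow] at h4
    linear_combination 2 * h4
  have hρU : ρ - U ≠ 0 := by
    intro h
    have h1 := hk 0
    have h2 := hk 1
    rw [h, mul_zero] at h1 h2
    push_cast at h1 h2
    apply hw0
    linear_combination h1 - h2
  -- `w - U = ηp conj (ρ - U)`
  have hwU : ‖w - U‖ = ‖ρ - U‖ := by
    have : w - U = ηp * (starRingEnd ℂ) (ρ - U) := by
      rw [map_sub, mul_sub, ← hUc]
    rw [this, norm_mul, D.hp, one_mul, norm_conj]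
  set A : ℂ := (ρ + U - 2 * w) / (ρ - U) with hA
  set B : ℂ := w / (ρ - U) with hB
  have hbk : ∀ k : ℕ, b (2 ^ (k + 1)) = A + (k + 1) * B := by
    intro k
    refine mul_right_cancel₀ hρU ?_
    rw [hk k, hA, hB]
    field_simp
    ring
  have hγ : ‖1 - A‖ = 2 := by
    have : 1 - A = 2 * (w - U) / (ρ - U) := by
      rw [hA]
      field_simp
      ring
    rw [this, norm_div, norm_mul, hwU, mul_div_assoc, div_self (norm_pos_iff.2 hρU).ne']
    norm_num
  obtain ⟨X, hX, hroot⟩ := small_root (A + B - 2) (1 - A) hγ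
  apply D.loc 2 Nat.prime_two X (by exact_mod_cast hX)
  have hX1 : ‖X‖ < 1 := by
    refine lt_of_le_of_lt hX ?_
    apply Real.rpow_lt_one_of_one_lt_of_neg (by norm_num) (by norm_num)
  have h1 := hasSum_geometric_of_norm_lt_one hX1
  have h2 := hasSum_coe_mul_geometric_of_norm_lt_one hX1
  have h3 := (h1.mul_left A).add (h2.mul_left B)
  have h4 : HasSum (fun k : ℕ => b (2 ^ k) * X ^ k)
      (A * (1 - X)⁻¹ + B * (X / (1 - X) ^ 2) + (1 - A)) := by
    have h5 : HasSum (fun k : ℕ => if k = 0 then (1 - A) else 0) (1 - A) := by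
      have := hasSum_ite_eq (0 : ℕ) (1 - A)
      exact this
    have h6 := h3.add h5
    have h7 : (fun k : ℕ => b (2 ^ k) * X ^ k) =
        fun k : ℕ => (A * X ^ k + B * ((k : ℂ) * X ^ k)) + (if k = 0 then (1 - A) else 0) := by
      funext k
      cases k with
      | zero =>
        rw [pow_zero, D.one]
        simp
      | succ k =>
        rw [hbk k, if_neg (Nat.succ_ne_zero k)]
        push_cast
        ring
    rw [h7]
    exact h6
  rw [h4.tsum_eq]
  have hX1' : 1 - X ≠ 0 := by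
    intro h
    have h5 : X = 1 := by linear_combination -h
    rw [h5, norm_one] at hX1
    exact lt_irrefl _ hX1
  field_simp
  linear_combination hroot

theorem concl_four (D : Dat b 4 M θ ρ ηp ηm) :
    ∀ p : ℕ, p.Prime → ∀ k : ℕ,
    b (p ^ k) * (tp p θ) ^ k = ∑ i ∈ Finset.range (k + 1), (chq 4 p * (tp p θ) ^ 2) ^ i := by
  by_cases hne : ηp = ηm
  · exact (no_four_even D hne.symm).elim
  · exact concl_four_odd D (four_ne D hne) (gh_small D hne)

end Pool.Agent.H39.Pol
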