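import Mathlib
import Pool.Agent.H39.Pol.Four5
import Pool.Agent.H39.Pol.LocP
import Pool.Agent.H39.Pol.NormP
import Pool.Agent.H11.SC.Final
import Pool.Agent.H11.SC4.TwoC

/-!
# MAINP: the coefficients of an element of the Selberg class of degree `2`, conductor `1`, `2`, `3`, `4`,
with a pole
-/

set_option autoImplicit false

namespace Pool.Agent.H39.Pol

open Complex Pool.Agent.H11.Selberg Pool.Agent.H11.SC

/-- an element with a pole, degree `2`, any real conductor: the inversion and the arithmetic facts -/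
theorem inv_data (a : ℕ → ℂ) (F : ℂ → ℂ) (hS : IsSelberg a F)
    (hpole : ¬ ∃ G : ℂ → ℂ, Differentiable ℂ G ∧ ∀ s, s ≠ 1 → G s = F s)
    (Q : ℝ) (r : ℕ) (lam : Fin r → ℝ) (mu : Fin r → ℂ) (ε : ℂ)
    (hQ : 0 < Q) (hlam : ∀ j, 0 < lam j) (hmu : ∀ j, 0 ≤ (mu j).re) (hε : ‖ε‖ = 1)
    (hfe : ∀ s : ℂ, 0 < s.re → s.re < 1 →
      completed Q lam mu F s =
        ε * (starRingEnd ℂ) (completed Q lam mu F (1 - (starRingEnd ℂ) s)))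
    (hdeg : 2 * ∑ j, lam j = 2) (q : ℝ)
    (hcond : (2 * Real.pi) ^ 2 * Q ^ 2 * ∏ j, (lam j) ^ (2 * lam j) = q) :
    ∃ (δ : ℝ) (M : ℕ) (ωp ωm : ℂ) (Rp Rm : Polynomial ℂ) (C : ℝ),
      Inv2 (fun n => a n * (n : ℂ) ^ (-(δ * I) : ℂ)) (Real.sqrt q) M (-δ) ωp ωm Rp Rm C ∧
      (fun n : ℕ => a n * (n : ℂ) ^ (-(δ * I) : ℂ)) 1 = 1 ∧
      (∀ m n : ℕ, Nat.Coprime m n → (fun n : ℕ => a n * (n : ℂ) ^ (-(δ * I) : ℂ)) (m * n) =
        (fun n : ℕ => a n * (n : ℂ) ^ (-(δ * I) : ℂ)) m *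
        (fun n : ℕ => a n * (n : ℂ) ^ (-(δ * I) : ℂ)) n) ∧
      (∀ p : ℕ, p.Prime → ∀ X : ℂ, ‖X‖ ≤ (p : ℝ) ^ (-(1 / 2) : ℝ) →
        ∑' k : ℕ, (fun n : ℕ => a n * (n : ℂ) ^ (-(δ * I) : ℂ)) (p ^ k) * X ^ k ≠ 0) ∧
      ∃ c : ℕ → ℂ, TwoRel (fun n => a n * (n : ℂ) ^ (-(δ * I) : ℂ)) c := by
  obtain ⟨δ, F', mu', ε', N, G', h⟩ := normaliseP a F hS hpole Q r lam mu ε hQ hlam hmu hε hfe
    (by linarith)
  rw [cond_eq Q r lam hlam] at hcond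
  have hs : Real.sqrt q = 2 * Real.pi * Bp Q lam := by
    rw [← hcond, Real.sqrt_sq]
    have := Bp_posP h
    have := Real.pi_pos
    positivity
  obtain ⟨ωp, ωm, Rp, Rm, C, h2⟩ := inv2 h
  rw [← hs] at h2
  obtain ⟨b0, θ0, C0, hθ0, hb0, hE⟩ := hS.euler
  have hE' : ∀ s : ℂ, 1 < s.re → HasProd
      (fun p : Nat.Primes => Complex.exp (∑' l : ℕ, b0 ((p : ℕ) ^ (l + 1)) *
        ((p : ℕ) : ℂ) ^ (-((l : ℂ) + 1) * s))) (LSeries a s) := fun s hs => by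
    rw [← hS.eq_LSeries s hs]; exact hE s hs
  have hrec := conv_rec a hS.summable b0 θ0 C0 hθ0 hb0 hE'
  have hmul0 := twoc_mul a F hS b0 hrec
  have hmul : ∀ m n : ℕ, Nat.Coprime m n → a (m * n) = a m * a n := by
    intro m n hmn
    by_cases h0 : m * n = 0
    · rcases Nat.mul_eq_zero.mp h0 with rfl | rfl
      · rw [Nat.coprime_zero_left] at hmn
        subst hmn
        rw [mul_one, hS.one, mul_one]
      · rw [Nat.coprime_zero_right] at hmn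
        subst hmn
        rw [one_mul, hS.one, one_mul]
    · exact hmul0 m n h0 hmn
  obtain ⟨c, hc⟩ := two_rel_exists a F hS
  refine ⟨δ, N - 1, ωp, ωm, Rp, Rm, C, h2, h.one, ?_, fun p hp X hX => loc_twist a F hS δ p hp X hX,
    hc.twist δ⟩
  intro m n hmn
  show a (m * n) * ((m * n : ℕ) : ℂ) ^ (-(δ * I) : ℂ) = _
  rw [hmul m n hmn, Nat.cast_mul, natCast_mul_natCast_cpow]
  ring

/-- an element with a pole gives the data `Dat` -/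
theorem dat_exists (a : ℕ → ℂ) (F : ℂ → ℂ) (hS : IsSelberg a F)
    (hpole : ¬ ∃ G : ℂ → ℂ, Differentiable ℂ G ∧ ∀ s, s ≠ 1 → G s = F s)
    (Q : ℝ) (r : ℕ) (lam : Fin r → ℝ) (mu : Fin r → ℂ) (ε : ℂ)
    (hQ : 0 < Q) (hlam : ∀ j, 0 < lam j) (hmu : ∀ j, 0 ≤ (mu j).re) (hε : ‖ε‖ = 1)
    (hfe : ∀ s : ℂ, 0 < s.re → s.re < 1 →
      completed Q lam mu F s =
        ε * (starRingEnd ℂ) (completed Q lam mu F (1 - (starRingEnd ℂ) s)))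
    (hdeg : 2 * ∑ j, lam j = 2) (q : ℕ)
    (hcond : (2 * Real.pi) ^ 2 * Q ^ 2 * ∏ j, (lam j) ^ (2 * lam j) = q) :
    ∃ (δ : ℝ) (M : ℕ) (ρ ηp ηm : ℂ),
      Dat (fun n => a n * (n : ℂ) ^ (-(δ * I) : ℂ)) q M (-δ) ρ ηp ηm := by
  obtain ⟨δ, M, ωp, ωm, Rp, Rm, C, h, one, mul, loc, two⟩ :=
    inv_data a F hS hpole Q r lam mu ε hQ hlam hmu hε hfe hdeg q hcond
  obtain ⟨ρ, ηp, ηm, hD⟩ := dat_of h q (Real.sq_sqrt (Nat.cast_nonneg q)) one mul loc two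
  exact ⟨δ, M, ρ, ηp, ηm, hD⟩

theorem untwist (a : ℕ → ℂ) (δ : ℝ) (p : ℕ) (hp : p.Prime) (k : ℕ) :
    (fun n : ℕ => a n * (n : ℂ) ^ (-(δ * I) : ℂ)) (p ^ k) * (tp p (-δ)) ^ k = a (p ^ k) := by
  have h2 : ((p ^ k : ℕ) : ℂ) ^ (-(δ * I) : ℂ) = ((p : ℂ) ^ (-(δ * I) : ℂ)) ^ k := by
    induction k with
    | zero => simp
    | succ k ih =>
      rw [pow_succ, Nat.cast_mul, natCast_mul_natCast_cpow, ih, pow_succ]
  show a (p ^ k) * ((p ^ k : ℕ) : ℂ) ^ (-(δ * I) : ℂ) * (tp p (-δ)) ^ k = _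
  have hpc : (p : ℂ) ≠ 0 := by exact_mod_cast hp.ne_zero
  have h3 : (p : ℂ) ^ (-(δ * I) : ℂ) * tp p (-δ) = 1 := by
    unfold tp
    rw [← cpow_add _ _ hpc]
    have : (-((δ : ℂ) * I) + -(((-δ : ℝ) : ℂ) * I)) = 0 := by push_cast; ring
    rw [this, cpow_zero]
  rw [h2, mul_assoc, ← mul_pow, h3, one_pow, mul_one]

theorem tp_sq (p : ℕ) (hp : p.Prime) (θ : ℝ) : (tp p θ) ^ 2 = (p : ℂ) ^ (-((2 * θ : ℝ) * I) : ℂ) := by
  have hpc : (p : ℂ) ≠ 0 := by exact_mod_cast hp.ne_zero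
  unfold tp
  rw [sq, ← cpow_add _ _ hpc]
  congr 1
  push_cast
  ring

/-- **The coefficients.**  `F` of degree `2`, conductor `q ≤ 4`, with a pole. -/
theorem pole_coeff (a : ℕ → ℂ) (F : ℂ → ℂ) (hS : IsSelberg a F)
    (hpole : ¬ ∃ G : ℂ → ℂ, Differentiable ℂ G ∧ ∀ s, s ≠ 1 → G s = F s)
    (Q : ℝ) (r : ℕ) (lam : Fin r → ℝ) (mu : Fin r → ℂ) (ε : ℂ)
    (hQ : 0 < Q) (hlam : ∀ j, 0 < lam j) (hmu : ∀ j, 0 ≤ (mu j).re) (hε : ‖ε‖ = 1)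
    (hfe : ∀ s : ℂ, 0 < s.re → s.re < 1 →
      completed Q lam mu F s =
        ε * (starRingEnd ℂ) (completed Q lam mu F (1 - (starRingEnd ℂ) s)))
    (hdeg : 2 * ∑ j, lam j = 2) (q : ℕ) (hq : q = 1 ∨ q = 2 ∨ q = 3 ∨ q = 4)
    (hcond : (2 * Real.pi) ^ 2 * Q ^ 2 * ∏ j, (lam j) ^ (2 * lam j) = q) :
    ∃ τ : ℝ, q ≠ 2 ∧ (q = 1 → τ = 0) ∧ ∀ p : ℕ, p.Prime → ∀ k : ℕ,
      a (p ^ k) = ∑ i ∈ Finset.range (k + 1), (chq q p * (p : ℂ) ^ (-((τ : ℝ) * I) : ℂ)) ^ i := by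
  obtain ⟨δ, M, ρ, ηp, ηm, D⟩ := dat_exists a F hS hpole Q r lam mu ε hQ hlam hmu hε hfe hdeg q hcond
  refine ⟨2 * (-δ), ?_, ?_, ?_⟩
  · rintro rfl
    exact concl_two D
  · rintro rfl
    have := (concl_one D).1
    rw [this, mul_zero]
  · intro p hp k
    rw [← tp_sq p hp (-δ), ← untwist a δ p hp k]
    rcases hq with rfl | rfl | rfl | rfl
    · exact (concl_one D).2 p hp k
    · exact (concl_two D).elim
    · exact concl_three D p hp k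
    · exact concl_four D p hp k

end Pool.Agent.H39.Pol
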